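import Mathlib

/-!
# Cover time and cover cost of simple random walk on a finite graph

Definitions used in the statement about `MP_c99e7e_pr`.
-/

namespace Pool.Agent.Helper98.Cov

open scoped ENNReal

variable {V : Type} [Fintype V] [DecidableEq V] (G : SimpleGraph V) [DecidableRel G.Adj]

/-- The probability that simple random walk on `G`, started at `ω 0`, follows the trajectory
`ω 0, ω 1, …, ω t` in its first `t` steps: the product over the steps of `1 / deg`, and `0` if some
step is not along an edge. -/
noncomputable def pathProb (t : ℕ) (ω : Fin (t + 1) → V) : ℝ≥0∞ :=
  ∏ i : Fin t, if G.Adj (ω i.castSucc) (ω i.succ) then ((G.degree (ω i.castSucc) : ℕ) : ℝ≥0∞)⁻¹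
    else 0

/-- The expectation of `Φ S_t`, where `S_t` is the set of vertices visited up to time `t` by simple
random walk on `G` started at `r`. -/
noncomputable def expVisited (r : V) (t : ℕ) (Φ : Finset V → ℝ≥0∞) : ℝ≥0∞ :=
  ∑ ω : Fin (t + 1) → V, if ω 0 = r then pathProb G t ω * Φ (Finset.univ.image ω) else 0

/-- The cover time: the expected number of steps until the walk from `r` has visited every vertex,
written as the sum over `t` of the probability that the walk has not covered `V` by time `t`. -/
noncomputable def coverTime (r : V) : ℝ≥0∞ :=
  ∑' t : ℕ, expVisited G r t (fun S => if S = Finset.univ then 0 else 1)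

/-- The cover cost: the expected total cost of all steps, the `(t+1)`-st step costing `1 - k / n`
when exactly `k` vertices other than `r` have been visited up to time `t`, `n = |V| - 1`. (This cost
is `0` once every vertex has been visited.) -/
noncomputable def coverCost (r : V) : ℝ≥0∞ :=
  ∑' t : ℕ, expVisited G r t
    (fun S => ENNReal.ofReal (1 - ((S.erase r).card : ℝ) / ((Fintype.card V : ℝ) - 1)))

end Pool.Agent.Helper98.Cov
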