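import Pool.Agent.Helper98.CovFarB

/-! # Choice of the parameters and the main theorem -/

namespace Pool.Agent.Helper98.Cov

open scoped ENNReal
open Finset Filter

theorem lam_ge (A : ℕ) (hA : 2 ≤ A) : (Real.log A - 1) / 3 ≤ lam A (A ^ 2) := by
  have h1 : ∑ n ∈ Finset.Ico (A - 1) (A ^ 2), 1 / ((n : ℝ) + 1)
      = ((harmonic (A ^ 2) : ℚ) : ℝ) - ((harmonic (A - 1) : ℚ) : ℝ) := by
    have hle : A - 1 ≤ A ^ 2 := by nlinarith [Nat.sub_le A 1]
    rw [Finset.sum_Ico_eq_sub _ hle]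
    unfold harmonic
    push_cast
    simp only [one_div]
  have h2 : Real.log ((A ^ 2 + 1 : ℕ) : ℝ) ≤ ((harmonic (A ^ 2) : ℚ) : ℝ) :=
    log_add_one_le_harmonic (A ^ 2)
  have h3 : ((harmonic (A - 1) : ℚ) : ℝ) ≤ 1 + Real.log ((A - 1 : ℕ) : ℝ) :=
    harmonic_le_one_add_log (A - 1)
  have hA0 : (0 : ℝ) < A := by exact_mod_cast (show 0 < A by omega)
  have h4 : Real.log ((A - 1 : ℕ) : ℝ) ≤ Real.log A := by
    refine Real.log_le_log ?_ ?_
    · exact_mod_cast (show 0 < A - 1 by omega)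
    · exact_mod_cast Nat.sub_le A 1
  have h5 : 2 * Real.log A ≤ Real.log ((A ^ 2 + 1 : ℕ) : ℝ) := by
    have h6 : 2 * Real.log A = Real.log ((A : ℝ) ^ 2) := by rw [Real.log_pow]; push_cast; ring
    rw [h6]
    refine Real.log_le_log (by positivity) ?_
    push_cast
    linarith
  unfold lam
  rw [h1]
  linarith

theorem exists_A {θ ε : ℝ} (hθ0 : 0 < θ) (hε : 0 < ε) :
    ∃ A : ℕ, 2 ≤ A ∧ 3 ≤ A ^ 2 ∧ 2 ≤ θ * ((A ^ 2 : ℕ) : ℝ) ∧ 0 < lam A (A ^ 2) ∧
      2 / (θ * lam A (A ^ 2)) ≤ ε ∧ 301 * ((A ^ 2 : ℕ) : ℝ) / θ * (1 / 2) ^ A ≤ ε := by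
  have hlog : Tendsto (fun A : ℕ => Real.log (A : ℝ)) atTop atTop :=
    Real.tendsto_log_atTop.comp tendsto_natCast_atTop_atTop
  have e1 : ∀ᶠ A : ℕ in atTop, 1 + 3 * (2 / (θ * ε) + 1) ≤ Real.log (A : ℝ) :=
    hlog.eventually_ge_atTop _
  have e2 : ∀ᶠ A : ℕ in atTop, 2 ≤ A := eventually_ge_atTop 2
  have e3 : ∀ᶠ A : ℕ in atTop, 2 / θ ≤ (A : ℝ) :=
    tendsto_natCast_atTop_atTop.eventually_ge_atTop _
  have hpow : Tendsto (fun n : ℕ => ((n : ℝ) ^ 2 / (2 : ℝ) ^ n)) atTop (nhds 0) :=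
    tendsto_pow_const_div_const_pow_of_one_lt 2 (by norm_num)
  have e4 : ∀ᶠ A : ℕ in atTop, ((A : ℝ) ^ 2 / (2 : ℝ) ^ A) < ε * θ / 301 :=
    hpow.eventually_lt_const (by positivity)
  obtain ⟨A, h1, h2, h3, h4⟩ := (e1.and (e2.and (e3.and e4))).exists
  have hA2 : (2 : ℝ) ≤ A := by exact_mod_cast h2
  have hlam : 2 / (θ * ε) + 1 ≤ lam A (A ^ 2) := by
    refine le_trans ?_ (lam_ge A h2)
    rw [le_div_iff₀ (by norm_num)]
    linarith
  have hpos : 0 < 2 / (θ * ε) := by positivity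
  have hlam0 : 0 < lam A (A ^ 2) := by linarith
  refine ⟨A, h2, by nlinarith, ?_, hlam0, ?_, ?_⟩
  · push_cast
    rw [div_le_iff₀ hθ0] at h3
    nlinarith
  · rw [div_le_iff₀ (by positivity)]
    have h5 : 2 / (θ * ε) ≤ lam A (A ^ 2) := by linarith
    rw [div_le_iff₀ (by positivity)] at h5
    linarith
  · push_cast
    have h6 : 301 * (A : ℝ) ^ 2 / θ * (1 / 2) ^ A = 301 / θ * ((A : ℝ) ^ 2 / (2 : ℝ) ^ A) := by
      rw [one_div, inv_pow]
      field_simp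
    rw [h6]
    have h7 : 301 / θ * ((A : ℝ) ^ 2 / (2 : ℝ) ^ A) ≤ 301 / θ * (ε * θ / 301) :=
      mul_le_mul_of_nonneg_left h4.le (by positivity)
    refine h7.trans (le_of_eq ?_)
    field_simp

theorem exists_L {K : ℕ} (hK : 2 ≤ K) {ε : ℝ} (hε : 0 < ε) :
    ∃ L : ℕ, (1 - 1 / (K : ℝ) ^ 2) ^ L * (K : ℝ) ^ 2 ≤ ε := by
  have hK' : (2 : ℝ) ≤ K := by exact_mod_cast hK
  have hK2 : (1 : ℝ) < (K : ℝ) ^ 2 := by nlinarith
  have h1 : 0 ≤ 1 - 1 / (K : ℝ) ^ 2 := by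
    have : 1 / (K : ℝ) ^ 2 ≤ 1 := by rw [div_le_one (by positivity)]; exact hK2.le
    linarith
  have h2 : 1 - 1 / (K : ℝ) ^ 2 < 1 := by
    have : 0 < 1 / (K : ℝ) ^ 2 := by positivity
    linarith
  have h3 := tendsto_pow_atTop_nhds_zero_of_lt_one h1 h2
  have h4 : ∀ᶠ L : ℕ in atTop, (1 - 1 / (K : ℝ) ^ 2) ^ L < ε / (K : ℝ) ^ 2 :=
    h3.eventually_lt_const (by positivity)
  obtain ⟨L, hL⟩ := h4.exists
  refine ⟨L, ?_⟩
  rw [lt_div_iff₀ (by positivity)] at hL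
  exact hL.le

/-- if all hitting times from `r` are small then the cover time is small -/
theorem key_small {M : ℝ} (hM0 : 0 < M) (hM1 : M ≤ 1) :
    ∃ δ n0 : ℝ, 0 < δ ∧ 1 ≤ n0 ∧ ∀ (V : Type) [Fintype V] [DecidableEq V] (G : SimpleGraph V)
      [DecidableRel G.Adj], G.Connected → 1 < Fintype.card V → ∀ r : V,
      n0 ≤ (Fintype.card V : ℝ) - 1 →
      (∀ x, hit G x r ≤ δ * ((Fintype.card V : ℝ) - 1) ^ 3) →
      Mv G Finset.univ {r} r ≤ ENNReal.ofReal (M * ((Fintype.card V : ℝ) - 1) ^ 3) := by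
  obtain ⟨θ, hθ⟩ : ∃ θ : ℝ, θ = (M / 224) ^ 2 := ⟨_, rfl⟩
  have hθ0 : 0 < θ := by rw [hθ]; positivity
  have hθ1 : θ ≤ 1 := by rw [hθ]; nlinarith
  obtain ⟨A, hA2, hA3, hθK, hlam, hlamε, hAε⟩ := exists_A hθ0 (show 0 < M / 64 by positivity)
  obtain ⟨K, hK⟩ : ∃ K, K = A ^ 2 := ⟨_, rfl⟩
  rw [← hK] at hA3 hθK hlam hlamε hAε
  have hK0 : (0 : ℝ) < K := by exact_mod_cast (show 0 < K by omega)
  obtain ⟨L, hL⟩ := exists_L (show 2 ≤ K by omega) (show 0 < M / 64 by positivity)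
  obtain ⟨κ, hκ⟩ : ∃ κ : ℝ, κ = min (1 / 1000 : ℝ) (min (9 / (600 * (K : ℝ))) (M / (640 * ((L : ℝ) + 1) * (K : ℝ)))) :=
    ⟨_, rfl⟩
  have hκ0 : 0 < κ := by rw [hκ]; positivity
  have hκ1 : κ ≤ 1 / 1000 := by rw [hκ]; exact min_le_left _ _
  have hκ2 : κ ≤ 9 / (600 * K) := by rw [hκ]; exact (min_le_right _ _).trans (min_le_left _ _)
  have hκ3 : κ ≤ M / (640 * (L + 1) * K) := by
    rw [hκ]; exact (min_le_right _ _).trans (min_le_right _ _)
  have hκ2' : 6 * K * κ ≤ 9 / 100 := by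
    rw [le_div_iff₀ (by positivity)] at hκ2
    linarith
  have hκ3' : (L : ℝ) * (K * (10 * κ)) ≤ M / 64 := by
    rw [le_div_iff₀ (by positivity)] at hκ3
    have h1 : (L : ℝ) * (K * (10 * κ)) ≤ (L + 1) * (K * (10 * κ)) := by
      apply mul_le_mul_of_nonneg_right _ (by positivity)
      linarith
    linarith
  obtain ⟨δ, hδ⟩ : ∃ δ : ℝ, δ = min (M / 4) (κ * θ ^ 2 * M / (32 * K)) := ⟨_, rfl⟩
  have hδ0 : 0 < δ := by rw [hδ]; positivity
  have hδ1 : δ ≤ M / 4 := by rw [hδ]; exact min_le_left _ _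
  have hδ2 : δ ≤ κ * θ ^ 2 * M / (32 * K) := by rw [hδ]; exact min_le_right _ _
  obtain ⟨n0, hn0⟩ : ∃ n0 : ℝ, n0 = max 1 (2 * K / (κ * θ)) := ⟨_, rfl⟩
  refine ⟨δ, n0, hδ0, by rw [hn0]; exact le_max_left _ _, ?_⟩
  intro V _ _ G _ hG hN r hn hhit
  obtain ⟨n, hndef⟩ : ∃ n : ℝ, n = (Fintype.card V : ℝ) - 1 := ⟨_, rfl⟩
  rw [← hndef] at hn hhit ⊢
  have hn1 : 1 ≤ n := le_trans (by rw [hn0]; exact le_max_left _ _) hn
  have hn2 : 2 * K / (κ * θ) ≤ n := le_trans (by rw [hn0]; exact le_max_right _ _) hn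
  have hn3 : 0 < n := by linarith
  -- small volume
  have hcov : ∀ (v : V) (S : Finset V), v ∈ S → Mv G Finset.univ S v ≤
      ENNReal.ofReal (2 * n * vol G) := by
    intro v S hv
    rw [hndef]
    exact cover_from hG hN v S hv
  rcases lt_or_ge (vol G) (M * n ^ 2 / 2) with hvol | hvol
  · refine (hcov r {r} (Finset.mem_singleton_self r)).trans (ENNReal.ofReal_le_ofReal ?_)
    have : 2 * n * vol G ≤ 2 * n * (M * n ^ 2 / 2) := mul_le_mul_of_nonneg_left hvol.le (by linarith)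
    refine this.trans (le_of_eq ?_)
    ring
  have hvolle : vol G ≤ 2 * n ^ 2 := by rw [hndef]; exact vol_le hN
  have hvol0 : 0 < vol G := lt_of_lt_of_le (by positivity) hvol
  -- the centre
  have : Nonempty V := ⟨r⟩
  obtain ⟨o, ho⟩ := Finite.exists_min (dsum G)
  obtain ⟨η, hη⟩ : ∃ η : ℝ, η = 4 * δ * n / M := ⟨_, rfl⟩
  have hη0 : 0 ≤ η := by rw [hη]; positivity
  have hηx : ∀ x, pot G x o r ≤ η := by
    intro x
    have h1 := vol_pot_le_hit hG ho x r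
    have h2 := hhit x
    have h3 : M * n ^ 2 / 2 / 2 * pot G x o r ≤ vol G / 2 * pot G x o r :=
      mul_le_mul_of_nonneg_right (by linarith) (pot_nonneg hG _ _ _)
    have h4 : M * n ^ 2 / 2 / 2 * pot G x o r ≤ M * n ^ 2 / 2 / 2 * η := by
      have h5 : M * n ^ 2 / 2 / 2 * η = δ * n ^ 3 := by rw [hη]; field_simp; ring
      rw [h5]; linarith
    exact le_of_mul_le_mul_left h4 (by positivity)
  have he : 1 + 4 * η / θ ≤ κ * (θ * n / K) := by
    have h1 : 1 ≤ κ * (θ * n / K) / 2 := by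
      rw [div_le_iff₀ (by positivity)] at hn2
      rw [le_div_iff₀ (by norm_num)]
      have h2 : κ * (θ * n / K) = n * (κ * θ) / K := by ring
      rw [h2, le_div_iff₀ hK0]
      linarith
    have h2 : 4 * η / θ ≤ κ * (θ * n / K) / 2 := by
      have h3 : 4 * η / θ = 16 * n / (M * θ) * δ := by rw [hη]; field_simp; ring
      rw [h3]
      have h4 : 16 * n / (M * θ) * δ ≤ 16 * n / (M * θ) * (κ * θ ^ 2 * M / (32 * K)) :=
        mul_le_mul_of_nonneg_left hδ2 (by positivity)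
      refine h4.trans (le_of_eq ?_)
      field_simp
      ring
    linarith
  have hfar := far_bound hG hN o r (A := A) (L := L) hndef hn1 hθ0 hθ1 hη0 hηx hκ0 hκ1 hκ2'
    hA3 hθK he hlam
  have hfar' : ff G o (farSet G o (θ * n)) {r} r ≤ ENNReal.ofReal (M / 16) := by
    refine hfar.trans ?_
    have h1 : ENNReal.ofReal (301 * K / θ) * (1 / 2) ^ A
        = ENNReal.ofReal (301 * K / θ * (1 / 2) ^ A) := by
      have hhalf : (1 / 2 : ℝ≥0∞) = ENNReal.ofReal (1 / 2) := by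
        rw [ENNReal.ofReal_div_of_pos (by norm_num)]
        simp
      rw [hhalf, ← ENNReal.ofReal_pow (by norm_num), ← ENNReal.ofReal_mul (by positivity)]
    rw [h1]
    have h2 : M / 16 = M / 64 + M / 64 + M / 64 + M / 64 := by ring
    rw [h2, ENNReal.ofReal_add (by positivity) (by positivity), ENNReal.ofReal_add (by positivity)
      (by positivity), ENNReal.ofReal_add (by positivity) (by positivity)]
    exact add_le_add (add_le_add (add_le_add (ENNReal.ofReal_le_ofReal hL)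
      (ENNReal.ofReal_le_ofReal hlamε)) (ENNReal.ofReal_le_ofReal hκ3'))
      (ENNReal.ofReal_le_ofReal hAε)
  -- the near part
  have hnear : ∀ S : Finset V, o ∈ S → farSet G o (θ * n) ⊆ S →
      Mv G Finset.univ S o ≤ ENNReal.ofReal (M / 4 * n ^ 3) := by
    intro S hoS hFS
    have h1 := near_bound hG hN o (θ * n) (by positivity) S hoS
      (fun x hx => hFS (mem_farSet.2 hx)) (4 / θ) (by
        rw [← hndef]
        have h2 : (2 * n + 1) / (θ * n) ≤ 3 / θ := by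
          rw [div_le_div_iff₀ (by positivity) hθ0]
          nlinarith
        have h3 : 1 ≤ 1 / θ := by rw [le_div_iff₀ hθ0]; linarith
        have h4 : 4 / θ = 3 / θ + 1 / θ := by ring
        rw [h4]; linarith)
    refine h1.trans ?_
    rw [← ENNReal.ofReal_mul (by positivity)]
    refine ENNReal.ofReal_le_ofReal ?_
    have hsq : Real.sqrt (4 / θ) = 2 * (224 / M) := by
      rw [show 4 / θ = (2 * (224 / M)) ^ 2 by rw [hθ]; field_simp; norm_num]
      rw [Real.sqrt_sq (by positivity)]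
    rw [hsq]
    have h5 : 7 * (θ * n) * vol G * (2 * (2 * (224 / M)))
        ≤ 7 * (θ * n) * (2 * n ^ 2) * (2 * (2 * (224 / M))) := by
      gcongr
    refine h5.trans (le_of_eq ?_)
    rw [hθ]
    field_simp
    norm_num
  have hC : ∀ S : Finset V, o ∈ S → Mv G Finset.univ S o ≤ ENNReal.ofReal (4 * n ^ 3) := by
    intro S hoS
    refine (hcov o S hoS).trans (ENNReal.ofReal_le_ofReal ?_)
    have : 2 * n * vol G ≤ 2 * n * (2 * n ^ 2) := mul_le_mul_of_nonneg_left hvolle (by linarith)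
    refine this.trans (le_of_eq ?_)
    ring
  have hdec := cover_decomp hG hN o r (farSet G o (θ * n)) _ _ hnear hC
  refine hdec.trans ?_
  have h1 : ENNReal.ofReal (hit G o r) ≤ ENNReal.ofReal (M / 4 * n ^ 3) := by
    refine ENNReal.ofReal_le_ofReal ((hhit o).trans ?_)
    exact mul_le_mul_of_nonneg_right hδ1 (by positivity)
  calc _ ≤ ENNReal.ofReal (M / 4 * n ^ 3) + ENNReal.ofReal (M / 4 * n ^ 3)
        + ENNReal.ofReal (4 * n ^ 3) * ENNReal.ofReal (M / 16) := by gcongr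
    _ = ENNReal.ofReal (M / 4 * n ^ 3 + M / 4 * n ^ 3 + 4 * n ^ 3 * (M / 16)) := by
        rw [← ENNReal.ofReal_mul (by positivity), ← ENNReal.ofReal_add (by positivity)
          (by positivity), ← ENNReal.ofReal_add (by positivity) (by positivity)]
    _ ≤ _ := by
        refine ENNReal.ofReal_le_ofReal ?_
        have : 0 ≤ M * n ^ 3 := by positivity
        nlinarith

theorem one_le_coverCost {V : Type} [Fintype V] [DecidableEq V] (G : SimpleGraph V)
    [DecidableRel G.Adj] (r : V) : 1 ≤ coverCost G r := by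
  unfold coverCost
  refine le_trans ?_ (ENNReal.le_tsum 0)
  rw [expVisited_eq, Function.iterate_zero, id]
  simp

theorem main : ∀ M : ℝ, 0 < M → ∃ c : ℝ, 0 < c ∧ ∀ (V : Type) [Fintype V] [DecidableEq V]
    (G : SimpleGraph V) [DecidableRel G.Adj], G.Connected → ∀ r : V,
    ENNReal.ofReal (M * ((Fintype.card V : ℝ) - 1) ^ 3) < coverTime G r →
    ENNReal.ofReal (c * ((Fintype.card V : ℝ) - 1) ^ 3) < coverCost G r := by
  intro M₀ hM₀
  obtain ⟨M, hM⟩ : ∃ M : ℝ, M = min M₀ 1 := ⟨_, rfl⟩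
  have hM0 : 0 < M := by rw [hM]; exact lt_min hM₀ one_pos
  have hM1 : M ≤ 1 := by rw [hM]; exact min_le_right _ _
  have hMM : M ≤ M₀ := by rw [hM]; exact min_le_left _ _
  obtain ⟨δ, n0, hδ0, hn01, hkey⟩ := key_small hM0 hM1
  refine ⟨min (δ ^ 2 / 16) (1 / (2 * n0 ^ 3)), by positivity, ?_⟩
  intro V _ _ G _ hG r hCT
  have hn_nonneg : (0 : ℝ) ≤ (Fintype.card V : ℝ) - 1 := by
    have : 1 ≤ Fintype.card V := Fintype.card_pos_iff.2 ⟨r⟩
    have : (1 : ℝ) ≤ (Fintype.card V : ℝ) := by exact_mod_cast this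
    linarith
  have hcc1 := one_le_coverCost G r
  rcases lt_or_ge ((Fintype.card V : ℝ) - 1) n0 with hlt | hge
  · -- small graphs
    refine lt_of_lt_of_le ?_ hcc1
    rw [← ENNReal.ofReal_one]
    refine (ENNReal.ofReal_lt_ofReal_iff one_pos).2 ?_
    have h1 : min (δ ^ 2 / 16) (1 / (2 * n0 ^ 3)) * ((Fintype.card V : ℝ) - 1) ^ 3
        ≤ 1 / (2 * n0 ^ 3) * n0 ^ 3 := by
      apply mul_le_mul (min_le_right _ _) _ (by positivity) (by positivity)
      exact pow_le_pow_left₀ hn_nonneg hlt.le 3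
    have h2 : 1 / (2 * n0 ^ 3) * n0 ^ 3 = 1 / 2 := by field_simp
    linarith
  · have hN : 1 < Fintype.card V := by
      have : (1 : ℝ) < (Fintype.card V : ℝ) := by linarith
      exact_mod_cast this
    obtain ⟨n, hn⟩ : ∃ n : ℝ, n = (Fintype.card V : ℝ) - 1 := ⟨_, rfl⟩
    have hn1 : 1 ≤ n := by rw [hn]; linarith
    have hex : ∃ x, δ * n ^ 3 < hit G x r := by
      by_contra hcon
      push Not at hcon
      have h1 := hkey V G hG hN r hge (by rw [← hn]; exact hcon)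
      rw [coverTime_eq] at hCT
      have h2 : ENNReal.ofReal (M * ((Fintype.card V : ℝ) - 1) ^ 3) ≤
          ENNReal.ofReal (M₀ * ((Fintype.card V : ℝ) - 1) ^ 3) :=
        ENNReal.ofReal_le_ofReal (mul_le_mul_of_nonneg_right hMM (by positivity))
      exact absurd (lt_of_lt_of_le hCT (h1.trans h2)) (lt_irrefl _)
    obtain ⟨x, hx⟩ := hex
    have hsq := hit_sq_le hG hN x r
    have hvolle : vol G ≤ 2 * n ^ 2 := by rw [hn]; exact vol_le hN
    have hvolpos := vol_pos hG hN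
    have hsum0 : 0 ≤ ∑ y, hit G y r := Finset.sum_nonneg fun y _ => hit_nonneg hG y r
    have hsum : δ ^ 2 / 8 * n ^ 4 < ∑ y, hit G y r := by
      have h1 : (δ * n ^ 3) ^ 2 < (hit G x r) ^ 2 := by
        apply pow_lt_pow_left₀ hx (by positivity) (by norm_num)
      have h2 : 4 * vol G * ∑ y, hit G y r ≤ 4 * (2 * n ^ 2) * ∑ y, hit G y r :=
        mul_le_mul_of_nonneg_right (by linarith) hsum0
      have h3 : (8 * n ^ 2) * (δ ^ 2 / 8 * n ^ 4) < (8 * n ^ 2) * ∑ y, hit G y r := by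
        have h4 : (8 * n ^ 2) * (δ ^ 2 / 8 * n ^ 4) = (δ * n ^ 3) ^ 2 := by ring
        rw [h4]
        linarith
      exact lt_of_mul_lt_mul_left h3 (by positivity)
    rw [coverCost_eq G r hN, ← hn]
    have hMv : ENNReal.ofReal (∑ y, hit G y r) ≤ ∑ y, Mv G {y} {r} r := by
      rw [ENNReal.ofReal_sum_of_nonneg (fun y _ => hit_nonneg hG y r)]
      refine Finset.sum_le_sum fun y _ => ?_
      by_cases hy : y = r
      · subst hy
        rw [hit_self]; simp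
      · exact hit_le_Mv hG hN y {r} r (by simpa using hy)
    refine lt_of_lt_of_le ?_ (mul_le_mul_right hMv _)
    have hn0 : 0 < n := by linarith
    rw [← ENNReal.ofReal_inv_of_pos hn0, ← ENNReal.ofReal_mul (by positivity)]
    have hsumpos : 0 < ∑ y, hit G y r := lt_of_le_of_lt (by positivity) hsum
    refine (ENNReal.ofReal_lt_ofReal_iff (mul_pos (inv_pos.2 hn0) hsumpos)).2 ?_
    have h5 : min (δ ^ 2 / 16) (1 / (2 * n0 ^ 3)) * n ^ 3 ≤ δ ^ 2 / 8 * n ^ 3 := by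
      apply mul_le_mul_of_nonneg_right _ (by positivity)
      refine (min_le_left _ _).trans ?_
      have : 0 < δ ^ 2 := by positivity
      linarith
    refine lt_of_le_of_lt h5 ?_
    have h6 : δ ^ 2 / 8 * n ^ 3 = n⁻¹ * (δ ^ 2 / 8 * n ^ 4) := by field_simp
    rw [h6]
    exact mul_lt_mul_of_pos_left hsum (inv_pos.2 hn0)

end Pool.Agent.Helper98.Cov
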