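import Pool.Agent.Helper98.AutMode

namespace Pool.Agent.Helper98.Aut

open Finset

/-- Probability that the occupancy chain, with `j` steps left and `s` occupied boxes, ends in `n`
without the queue (of length `k * s` minus the number of steps made) getting empty. -/
noncomputable def kf (N n k L : ℕ) : ℕ → ℕ → ℝ
  | 0, s => if s = n then 1 else 0
  | j + 1, s => if k * s + (j + 1) ≤ L then 0 else
      (s / N) * kf N n k L j s + ((N - s) / N) * kf N n k L j (s + 1)

theorem kf_nonneg (N n k L : ℕ) (j : ℕ) : ∀ s, s ≤ N → 0 ≤ kf N n k L j s := by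
  induction j with
  | zero => intro s _; unfold kf; split_ifs <;> norm_num
  | succ j ih =>
    intro s hs
    rw [kf]
    split_ifs
    · exact le_rfl
    · have hN : (0 : ℝ) ≤ N := Nat.cast_nonneg _
      have hs' : (s : ℝ) ≤ N := by exact_mod_cast hs
      have h1 := ih s hs
      rcases Nat.lt_or_ge s N with hlt | hge
      · have h2 := ih (s + 1) hlt
        have h3 : 0 ≤ ((N : ℝ) - s) / N := div_nonneg (by linarith) hN
        positivity
      · have : s = N := le_antisymm hs hge
        subst this
        simp only [sub_self, zero_div, zero_mul, add_zero]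
        positivity

theorem kf_shift (N n k L R : ℕ) (hLR : L + R = k * n) (hn : n ≤ N) (j : ℕ) : ∀ s, s ≤ N →
    ((n : ℝ) / N) ^ R * kf N n k L j s ≤ kf N n k (L + R) (j + R) s := by
  have hN0 : (0 : ℝ) ≤ N := Nat.cast_nonneg _
  induction j with
  | zero =>
    intro s hs
    unfold kf
    rw [← kf.eq_def]
    split_ifs with h
    · subst h
      rw [mul_one, zero_add]
      have key : ∀ i, ((s : ℝ) / N) ^ i ≤ kf N s k (L + R) i s := by
        intro i
        induction i with
        | zero => simp [kf]
        | succ i ih =>
          rw [kf, if_neg (by omega), pow_succ, mul_comm]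
          have h1 : 0 ≤ (((N : ℝ) - s) / N) * kf N s k (L + R) i (s + 1) := by
            have hs' : (s : ℝ) ≤ N := by exact_mod_cast hs
            rcases Nat.lt_or_ge s N with hlt | hge
            · exact mul_nonneg (div_nonneg (by linarith) hN0) (kf_nonneg _ _ _ _ _ _ hlt)
            · have : s = N := le_antisymm hs hge
              subst this
              simp
          have h2 : ((s : ℝ) / N) * ((s : ℝ) / N) ^ i ≤ (s / N) * kf N s k (L + R) i s := by
            gcongr
          linarith
      exact key R
    · rw [mul_zero]; exact kf_nonneg _ _ _ _ _ _ hs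
  | succ j ih =>
    intro s hs
    have h0 : j + 1 + R = j + R + 1 := by ring
    rw [h0, kf, kf]
    by_cases hk : k * s + (j + 1) ≤ L
    · rw [if_pos hk, mul_zero, if_pos (by omega)]
    · rw [if_neg hk, if_neg (by omega)]
      have hs' : (s : ℝ) ≤ N := by exact_mod_cast hs
      have h1 := ih s hs
      have hsN : 0 ≤ (s : ℝ) / N := by positivity
      have h3 := mul_le_mul_of_nonneg_left h1 hsN
      rcases Nat.lt_or_ge s N with hlt | hge
      · have h2 := ih (s + 1) hlt
        have h4 : 0 ≤ ((N : ℝ) - s) / N := div_nonneg (by linarith) hN0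
        have h5 := mul_le_mul_of_nonneg_left h2 h4
        nlinarith
      · have : s = N := le_antisymm hs hge
        subst this
        simp only [sub_self, zero_div, zero_mul, add_zero]
        nlinarith

theorem uk_le_kf_add {N n k n' : ℕ} (hN : 0 < N) (hk : 0 < k) (hn' : n' ≤ N) (j : ℕ) :
    ∀ s, s ≤ N → j ≤ k * n' → k * n' ≤ k * s + j →
    uk N j s n ≤ kf N n k (k * n') j s +
      ∑ i ∈ (Finset.range n').filter (fun i => k * n' ≤ k * i + j),
        uk N (k * i + j - k * n') s i * uk N (k * n' - k * i) i n := by
  have hN0 : (0 : ℝ) < N := by exact_mod_cast hN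
  induction j with
  | zero =>
    intro s hs _ _
    rw [uk_zero]
    unfold kf
    have : 0 ≤ ∑ i ∈ (Finset.range n').filter (fun i => k * n' ≤ k * i + 0),
        uk N (k * i + 0 - k * n') s i * uk N (k * n' - k * i) i n := by
      refine Finset.sum_nonneg fun i hi => ?_
      rw [Finset.mem_filter, Finset.mem_range] at hi
      exact mul_nonneg (uk_nonneg hN hs _ _) (uk_nonneg hN (by omega) _ _)
    linarith
  | succ j ih =>
    intro s hs hj hks
    have hnn : ∀ i ∈ (Finset.range n').filter (fun i => k * n' ≤ k * i + (j + 1)),
        0 ≤ uk N (k * i + (j + 1) - k * n') s i * uk N (k * n' - k * i) i n := by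
      intro i hi
      rw [Finset.mem_filter, Finset.mem_range] at hi
      exact mul_nonneg (uk_nonneg hN hs _ _) (uk_nonneg hN (by omega) _ _)
    rw [kf]
    by_cases hkill : k * s + (j + 1) ≤ k * n'
    · rw [if_pos hkill, zero_add]
      have heq : k * s + (j + 1) = k * n' := le_antisymm hkill hks
      have hsn : s < n' := by
        by_contra hcon
        push Not at hcon
        have := Nat.mul_le_mul_left k hcon
        omega
      have h1 := Finset.single_le_sum hnn (Finset.mem_filter.2 ⟨Finset.mem_range.2 hsn, by omega⟩)
      refine le_trans (le_of_eq ?_) h1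
      have h2 : k * s + (j + 1) - k * n' = 0 := by omega
      have h3 : k * n' - k * s = j + 1 := by omega
      rw [h2, h3, uk_zero, if_pos rfl, one_mul]
    · rw [if_neg hkill]
      have hs' : (s : ℝ) ≤ N := by exact_mod_cast hs
      have h1 := ih s hs (by omega) (by omega)
      have hsub : (Finset.range n').filter (fun i => k * n' ≤ k * i + j) ⊆
          (Finset.range n').filter (fun i => k * n' ≤ k * i + (j + 1)) := by
        intro i hi
        rw [Finset.mem_filter] at hi ⊢
        exact ⟨hi.1, by omega⟩
      have hle := Finset.sum_le_sum_of_subset_of_nonneg hsub (fun i hi _ => hnn i hi)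
      have hsum : ∑ i ∈ (Finset.range n').filter (fun i => k * n' ≤ k * i + j),
          uk N (k * i + (j + 1) - k * n') s i * uk N (k * n' - k * i) i n
          = (s / N) * (∑ i ∈ (Finset.range n').filter (fun i => k * n' ≤ k * i + j),
              uk N (k * i + j - k * n') s i * uk N (k * n' - k * i) i n) +
            ((N - s) / N) * (∑ i ∈ (Finset.range n').filter (fun i => k * n' ≤ k * i + j),
              uk N (k * i + j - k * n') (s + 1) i * uk N (k * n' - k * i) i n) := by
        rw [Finset.mul_sum, Finset.mul_sum, ← Finset.sum_add_distrib]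
        refine Finset.sum_congr rfl fun i hi => ?_
        rw [Finset.mem_filter] at hi
        have h4 : k * i + (j + 1) - k * n' = (k * i + j - k * n') + 1 := by omega
        rw [h4, uk_succ]
        ring
      rw [hsum] at hle
      rw [uk_succ]
      have hsN : 0 ≤ (s : ℝ) / N := by positivity
      have h3 := mul_le_mul_of_nonneg_left h1 hsN
      rcases Nat.lt_or_ge s N with hlt | hge
      · have h2 := ih (s + 1) hlt (by omega) (by rw [mul_add]; omega)
        have h4 : 0 ≤ ((N : ℝ) - s) / N := div_nonneg (by linarith) hN0.le
        have h5 := mul_le_mul_of_nonneg_left h2 h4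
        nlinarith
      · have hsN' : s = N := le_antisymm hs hge
        have h4 : ((N : ℝ) - s) / N = 0 := by rw [hsN']; simp
        rw [h4] at hle ⊢
        nlinarith

theorem uk_le_kf {N n k n' : ℕ} (hN : 0 < N) (hk : 0 < k) (hn' : n' ≤ N) :
    uk N (k * n') 1 n ≤ kf N n k (k * n') (k * n') 1 +
      ∑ i ∈ Finset.range n', uk N (k * i) 1 i * uk N (k * n' - k * i) i n := by
  have h := uk_le_kf_add (n := n) hN hk hn' (k * n') 1 hN le_rfl (by omega)
  refine h.trans (le_of_eq ?_)
  congr 1
  rw [Finset.filter_true_of_mem (fun i _ => by omega)]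
  refine Finset.sum_congr rfl fun i _ => ?_
  rw [Nat.add_sub_cancel]

end Pool.Agent.Helper98.Aut
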