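import Pool.Agent.Helper98.AutFew
import Pool.Agent.Helper98.AutKill

namespace Pool.Agent.Helper98.Aut

open Finset

set_option linter.unusedSectionVars false

variable {V A : Type*} [Fintype V] [DecidableEq V] [Fintype A] [DecidableEq A]

/-- The states which can be reached from `r`. -/
noncomputable def acc (δ : V × A → V) (r : V) : Finset V :=
  haveI := Classical.decPred (fun x => ∃ w : List A, run δ r w = x)
  (univ : Finset V).filter (fun x => ∃ w : List A, run δ r w = x)

theorem mem_acc {δ : V × A → V} {r x : V} : x ∈ acc δ r ↔ ∃ w : List A, run δ r w = x := by
  simp [acc]

theorem acc_step {δ : V × A → V} {r x : V} (h : x ∈ acc δ r) (c : A) : δ (x, c) ∈ acc δ r := by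
  rw [mem_acc] at h ⊢
  obtain ⟨w, hw⟩ := h
  exact ⟨w ++ [c], by simp [run_append, hw]⟩

theorem acc_subset {δ : V × A → V} {r : V} {S : Finset V} (hr : r ∈ S)
    (hS : ∀ e : V × A, e.1 ∈ S → δ e ∈ S) : acc δ r ⊆ S := by
  intro x hx
  rw [mem_acc] at hx
  obtain ⟨w, hw⟩ := hx
  subst hw
  induction w using List.reverseRecOn with
  | nil => exact hr
  | append_singleton w c ih =>
    rw [run_append]
    exact hS (run δ r w, c) ih

theorem cnt_acc_ge (r : V) (n : ℕ) (rem : ℕ) : ∀ (tasks : Finset (V × A)) (seen : Finset V)
    (D : V × A → Finset V), r ∈ seen → (∀ e ∈ tasks, e.1 ∈ seen) → (∀ e ∈ tasks, D e = univ) →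
    (∀ e, e.1 ∈ seen → e ∉ tasks → D e ⊆ seen) → (∀ e, e.1 ∉ seen → D e = univ) →
    (∀ δ ∈ Fintype.piFinset D, seen ⊆ acc δ r) →
    tasks.card + Fintype.card A * n = Fintype.card A * seen.card + rem →
    kf (Fintype.card V) n (Fintype.card A) (Fintype.card A * n) rem seen.card * wt D ≤
      cnt D (fun δ => (acc δ r).card = n) := by
  classical
  have hNpos : (0 : ℝ) < Fintype.card V := by
    have : 0 < Fintype.card V := Fintype.card_pos_iff.2 ⟨r⟩
    exact_mod_cast this
  induction rem with
  | zero =>
    intro tasks seen D hr ht1 ht2 hcl hout hreach hcard
    unfold kf
    split_ifs with hs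
    · rw [one_mul]
      have htasks : tasks = ∅ := by
        rw [hs] at hcard
        rw [← Finset.card_eq_zero]
        omega
      rw [← cnt_true]
      refine cnt_mono fun δ hδ _ => ?_
      have h1 : acc δ r ⊆ seen := by
        refine acc_subset hr fun e he => ?_
        have h2 := hcl e he (by rw [htasks]; exact Finset.notMem_empty e)
        rw [Fintype.mem_piFinset] at hδ
        exact h2 (hδ e)
      have h3 : acc δ r = seen := Finset.Subset.antisymm h1 (hreach δ hδ)
      rw [h3, hs]
    · rw [zero_mul]; exact cnt_nonneg _ _
  | succ rem ih =>
    intro tasks seen D hr ht1 ht2 hcl hout hreach hcard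
    unfold kf
    split_ifs with hs
    · rw [zero_mul]; exact cnt_nonneg _ _
    · have hne : tasks.Nonempty := by
        rw [← Finset.card_pos]; omega
      obtain ⟨e, he⟩ := hne
      have hDe : D e = univ := ht2 e he
      rw [cnt_split D e, hDe]
      have hw : ∀ v : V, wt (Function.update D e {v}) = wt D / Fintype.card V := by
        intro v
        have := wt_update D e v
        rw [hDe, Finset.card_univ] at this
        rw [this]; field_simp
      -- values already seen
      have h1 : ∀ v ∈ seen, kf (Fintype.card V) n (Fintype.card A) (Fintype.card A * n) rem seen.card
          * (wt D / Fintype.card V) ≤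
          cnt (Function.update D e {v}) (fun δ => (acc δ r).card = n) := by
        intro v hv
        rw [← hw v]
        refine ih (tasks.erase e) seen (Function.update D e {v}) hr ?_ ?_ ?_ ?_ ?_ ?_
        · intro e' he'
          exact ht1 e' (Finset.mem_of_mem_erase he')
        · intro e' he'
          rw [Function.update_of_ne (Finset.ne_of_mem_erase he')]
          exact ht2 e' (Finset.mem_of_mem_erase he')
        · intro e' he' hnt
          by_cases hee : e' = e
          · subst hee
            rw [Function.update_self]
            intro x hx
            rw [Finset.mem_singleton] at hx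
            rw [hx]; exact hv
          · rw [Function.update_of_ne hee]
            refine hcl e' he' fun hcon => hnt ?_
            exact Finset.mem_erase.2 ⟨hee, hcon⟩
        · intro e' he'
          have hee : e' ≠ e := by
            rintro rfl
            exact he' (ht1 _ he)
          rw [Function.update_of_ne hee]
          exact hout e' he'
        · intro δ hδ
          refine hreach δ ?_
          rw [Fintype.mem_piFinset] at hδ ⊢
          intro e'
          by_cases hee : e' = e
          · subst hee; rw [hDe]; exact Finset.mem_univ _
          · have := hδ e'
            rwa [Function.update_of_ne hee] at this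
        · rw [Finset.card_erase_of_mem he]
          have := Finset.card_pos.2 ⟨e, he⟩
          omega
      -- new values
      have h2 : ∀ v ∈ seenᶜ, kf (Fintype.card V) n (Fintype.card A) (Fintype.card A * n) rem (seen.card + 1)
          * (wt D / Fintype.card V) ≤
          cnt (Function.update D e {v}) (fun δ => (acc δ r).card = n) := by
        intro v hv
        rw [Finset.mem_compl] at hv
        rw [← hw v]
        have hins : (insert v seen).card = seen.card + 1 := Finset.card_insert_of_notMem hv
        rw [← hins]
        have hdisj : Disjoint (tasks.erase e) (({v} : Finset V) ×ˢ (univ : Finset A)) := by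
          rw [Finset.disjoint_left]
          intro e' h1 h2
          rw [Finset.mem_product, Finset.mem_singleton] at h2
          have := ht1 e' (Finset.mem_of_mem_erase h1)
          rw [h2.1] at this
          exact hv this
        refine ih (tasks.erase e ∪ ({v} ×ˢ univ)) (insert v seen) (Function.update D e {v})
          (Finset.mem_insert_of_mem hr) ?_ ?_ ?_ ?_ ?_ ?_
        · intro e' he'
          rw [Finset.mem_union, Finset.mem_product, Finset.mem_singleton] at he'
          rcases he' with he' | he'
          · exact Finset.mem_insert_of_mem (ht1 e' (Finset.mem_of_mem_erase he'))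
          · rw [he'.1]; exact Finset.mem_insert_self _ _
        · intro e' he'
          rw [Finset.mem_union, Finset.mem_product, Finset.mem_singleton] at he'
          rcases he' with he' | he'
          · rw [Function.update_of_ne (Finset.ne_of_mem_erase he')]
            exact ht2 e' (Finset.mem_of_mem_erase he')
          · have hee : e' ≠ e := by
              rintro rfl
              apply hv
              rw [← he'.1]
              exact ht1 _ he
            rw [Function.update_of_ne hee]
            apply hout
            rw [he'.1]; exact hv
        · intro e' he' hnt
          rw [Finset.mem_union, not_or, Finset.mem_product, Finset.mem_singleton] at hnt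
          by_cases hee : e' = e
          · subst hee
            rw [Function.update_self]
            intro x hx
            rw [Finset.mem_singleton] at hx
            rw [hx]; exact Finset.mem_insert_self _ _
          · rw [Function.update_of_ne hee]
            rw [Finset.mem_insert] at he'
            rcases he' with he' | he'
            · exact absurd ⟨he', Finset.mem_univ _⟩ hnt.2
            · refine (hcl e' he' fun hcon => hnt.1 ?_).trans (Finset.subset_insert _ _)
              exact Finset.mem_erase.2 ⟨hee, hcon⟩
        · intro e' he'
          rw [Finset.mem_insert, not_or] at he'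
          have hee : e' ≠ e := by
            rintro rfl
            exact he'.2 (ht1 _ he)
          rw [Function.update_of_ne hee]
          exact hout e' he'.2
        · intro δ hδ
          have hδ' : δ ∈ Fintype.piFinset D := by
            rw [Fintype.mem_piFinset] at hδ ⊢
            intro e'
            by_cases hee : e' = e
            · subst hee; rw [hDe]; exact Finset.mem_univ _
            · have := hδ e'
              rwa [Function.update_of_ne hee] at this
          have h3 := hreach δ hδ'
          intro x hx
          rw [Finset.mem_insert] at hx
          rcases hx with rfl | hx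
          · have h4 : δ e = x := mem_update hδ
            rw [← h4]
            have h5 := acc_step (h3 (ht1 e he)) e.2
            exact h5
          · exact h3 hx
        · rw [Finset.card_union_of_disjoint hdisj, Finset.card_product, Finset.card_singleton,
            Finset.card_univ, Finset.card_erase_of_mem he, hins]
          have := Finset.card_pos.2 ⟨e, he⟩
          rw [mul_add]
          omega
      have h3 : (univ : Finset V) = seen ∪ seenᶜ := by simp
      rw [h3, Finset.sum_union disjoint_compl_right]
      have h4 := Finset.card_nsmul_le_sum seen _ _ h1
      have h5 := Finset.card_nsmul_le_sum seenᶜ _ _ h2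
      rw [nsmul_eq_mul] at h4 h5
      rw [Finset.card_compl, Nat.cast_sub (Finset.card_le_univ seen)] at h5
      have h6 : ((seen.card : ℝ) / Fintype.card V *
            kf (Fintype.card V) n (Fintype.card A) (Fintype.card A * n) rem seen.card +
          (Fintype.card V - seen.card) / Fintype.card V *
            kf (Fintype.card V) n (Fintype.card A) (Fintype.card A * n) rem (seen.card + 1)) * wt D
          = seen.card * (kf (Fintype.card V) n (Fintype.card A) (Fintype.card A * n) rem seen.card
            * (wt D / Fintype.card V)) + (Fintype.card V - seen.card) *
            (kf (Fintype.card V) n (Fintype.card A) (Fintype.card A * n) rem (seen.card + 1)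
            * (wt D / Fintype.card V)) := by
        field_simp
      rw [h6]
      linarith

/-- The number of tables with exactly `n` accessible states. -/
theorem cnt_acc_ge' (r : V) (n : ℕ) :
    kf (Fintype.card V) n (Fintype.card A) (Fintype.card A * n) (Fintype.card A * n) 1 *
      wt (fun _ : V × A => (univ : Finset V)) ≤
      cnt (fun _ : V × A => (univ : Finset V)) (fun δ => (acc δ r).card = n) := by
  classical
  have h := cnt_acc_ge r n (Fintype.card A * n) (({r} : Finset V) ×ˢ (univ : Finset A)) {r}
    (fun _ => univ) (by simp) (by
      intro e he
      rw [Finset.mem_product] at he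
      exact he.1) (fun _ _ => rfl) (by
      intro e he hnt
      exact absurd (Finset.mem_product.2 ⟨he, Finset.mem_univ _⟩) hnt) (fun _ _ => rfl) (by
      intro δ _ x hx
      rw [Finset.mem_singleton] at hx
      rw [hx, mem_acc]
      exact ⟨[], rfl⟩) (by
      rw [Finset.card_product, Finset.card_singleton, Finset.card_univ]; ring)
  rw [Finset.card_singleton] at h
  exact h

end Pool.Agent.Helper98.Aut
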