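import Pool.Agent.Helper98.AutSum

namespace Pool.Agent.Helper98.Aut

open Finset Filter Topology

/-- For a suitable number of states `N`, exactly `n` states are accessible with probability at
least a constant times `n ^ (-0.9)`. -/
theorem exists_good_N (k : ℕ) (hk : 2 ≤ k) : ∃ c1 : ℝ, 0 < c1 ∧ ∀ᶠ n : ℕ in atTop,
    ∃ N, n ≤ N ∧ 100 * N ≤ 151 * n ∧
      c1 * (n : ℝ) ^ (-(9 / 10 : ℝ)) ≤ kf N n k (k * n) (k * n) 1 := by
  obtain ⟨b, c, hc, hb, hb3, hkb, hloss, hlate, hfix⟩ := u_data k hk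
  have hkpos : (0 : ℝ) < k := by
    have : 0 < k := by omega
    exact_mod_cast this
  set ε : ℝ := min (c / 2) (1 / (2000 * k)) with hε
  have hε0 : 0 < ε := by rw [hε]; positivity
  have hεc : ε < c := lt_of_le_of_lt (min_le_left _ _) (by linarith)
  have hεk : ε ≤ 1 / (2000 * k) := min_le_right _ _
  set β : ℝ := (1 / (1000 * (k : ℝ))) ^ 2 / 4 with hβ
  have hβ0 : 0 < β := by positivity
  refine ⟨Real.exp (- (1 / 2)) * 0.06, by positivity, ?_⟩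
  have hcast : Tendsto (fun n : ℕ => (n : ℝ)) atTop atTop := tendsto_natCast_atTop_atTop
  -- logarithm is small
  have hlog : Tendsto (fun n : ℕ => Real.log n / (n : ℝ)) atTop (𝓝 0) := by
    have h1 : Tendsto (fun x : ℝ => Real.log x / x) atTop (𝓝 0) :=
      Real.isLittleO_log_id_atTop.tendsto_div_nhds_zero
    exact h1.comp hcast
  have hinv : Tendsto (fun n : ℕ => 1 / (n : ℝ)) atTop (𝓝 0) := tendsto_one_div_atTop_nhds_zero_nat
  have hL : Tendsto (fun n : ℕ => (k : ℝ) * (4 / 5 * (Real.log n / (n : ℝ)) + 1 / (n : ℝ)))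
      atTop (𝓝 0) := by
    have := ((hlog.const_mul (4 / 5 : ℝ)).add hinv).const_mul (k : ℝ)
    simpa using this
  have f1 : ∀ᶠ n : ℕ in atTop, (k : ℝ) * (4 / 5 * (Real.log n / (n : ℝ)) + 1 / (n : ℝ)) ≤ 1 / 100 :=
    hL.eventually_le_const (by norm_num)
  have f2 : ∀ᶠ n : ℕ in atTop, (k : ℝ) * (4 / 5 * (Real.log n / (n : ℝ)) + 1 / (n : ℝ)) ≤ ε / 4 :=
    hL.eventually_le_const (by positivity)
  have f3 : ∀ᶠ n : ℕ in atTop, 7 / √(n : ℝ) ≤ (ε / 2) ^ 2 := by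
    have h1 : Tendsto (fun n : ℕ => √(n : ℝ)) atTop atTop :=
      Real.tendsto_sqrt_atTop.comp hcast
    have h2 : Tendsto (fun n : ℕ => 7 / √(n : ℝ)) atTop (𝓝 0) := h1.const_div_atTop 7
    exact h2.eventually_le_const (by positivity)
  have f4 : ∀ᶠ n : ℕ in atTop, k / ((n : ℝ) - 1) ≤ ε / 2 := by
    have h1 : Tendsto (fun n : ℕ => (n : ℝ) - 1) atTop atTop :=
      tendsto_atTop_add_const_right _ _ hcast
    have h2 : Tendsto (fun n : ℕ => k / ((n : ℝ) - 1)) atTop (𝓝 0) := h1.const_div_atTop _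
    exact h2.eventually_le_const (by positivity)
  have f5 : ∀ᶠ n : ℕ in atTop, 2 * (n : ℝ) ^ (-(1 / 2 : ℝ)) +
      ((n : ℝ) ^ (3 / 2 : ℝ) * Real.exp (- β * n) + (n : ℝ) ^ (-(1 / 10 : ℝ))) ≤ 0.06 := by
    have h1 : Tendsto (fun x : ℝ => x ^ (-(1 / 2 : ℝ))) atTop (𝓝 0) :=
      tendsto_rpow_neg_atTop (by norm_num)
    have h2 : Tendsto (fun x : ℝ => x ^ (-(1 / 10 : ℝ))) atTop (𝓝 0) :=
      tendsto_rpow_neg_atTop (by norm_num)
    have h3 : Tendsto (fun x : ℝ => x ^ (3 / 2 : ℝ) * Real.exp (- β * x)) atTop (𝓝 0) :=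
      tendsto_rpow_mul_exp_neg_mul_atTop_nhds_zero _ _ hβ0
    have h4 := ((h1.const_mul 2).add (h3.add h2)).comp hcast
    simp only [mul_zero, add_zero] at h4
    exact h4.eventually_le_const (by norm_num)
  filter_upwards [f1, f2, f3, f4, f5, eventually_ge_atTop 1000] with n g1 g2 g3 g4 g5 g6
  have hnr : (1000 : ℝ) ≤ n := by exact_mod_cast g6
  have hn0 : (0 : ℝ) < n := by linarith
  have hlogn : 0 < Real.log n := Real.log_pos (by linarith)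
  set r0 : ℕ := ⌈(4 / 5 : ℝ) * Real.log n⌉₊ with hr0
  have hr1 : 1 ≤ r0 := by
    rw [hr0, Nat.one_le_ceil_iff]; positivity
  have hrle : (r0 : ℝ) ≤ 4 / 5 * Real.log n + 1 := (Nat.ceil_lt_add_one (by positivity)).le
  have hrge : 4 / 5 * Real.log n ≤ r0 := Nat.le_ceil _
  have hkr : (k : ℝ) * r0 ≤ (k * (4 / 5 * (Real.log n / n) + 1 / n)) * n := by
    calc (k : ℝ) * r0 ≤ k * (4 / 5 * Real.log n + 1) := by gcongr
      _ = _ := by field_simp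
  have hr : 100 * (k * r0) ≤ n := by
    have h1 : (k : ℝ) * r0 ≤ 1 / 100 * n := hkr.trans (by gcongr)
    have h2 : 100 * ((k : ℝ) * r0) ≤ n := by linarith
    exact_mod_cast h2
  have he2 : 2 * (k * r0) / (n : ℝ) ≤ ε / 2 := by
    rw [div_le_iff₀ hn0]
    have h1 : (k : ℝ) * r0 ≤ ε / 4 * n := hkr.trans (by gcongr)
    linarith
  obtain ⟨N, hnN, h151, hmain⟩ := kf_lower hk g6 hr hr1 hkb hb3 hloss hlate hfix hε0 hεc hεk
    g3 he2 g4
  refine ⟨N, hnN, h151, le_trans ?_ hmain⟩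
  -- the bracket
  have hsqrt : √(n : ℝ) = (n : ℝ) ^ (1 / 2 : ℝ) := Real.sqrt_eq_rpow _
  have hbr : 0.06 / √(n : ℝ) ≤ 0.12 / √(n : ℝ) - (2 / n + n *
        (Real.exp (- (n * (1 / (1000 * k)) ^ 2 / 4)) + Real.exp (- (2 * r0)))) := by
    have h1 : Real.exp (- (2 * (r0 : ℝ))) ≤ (n : ℝ) ^ (-(8 / 5 : ℝ)) := by
      rw [Real.rpow_def_of_pos hn0, Real.exp_le_exp]
      linarith
    have h2 : Real.exp (- (n * (1 / (1000 * (k : ℝ))) ^ 2 / 4)) = Real.exp (- β * n) := by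
      congr 1; rw [hβ]; ring
    rw [h2]
    have h3 : 2 / (n : ℝ) + n * (Real.exp (- β * n) + Real.exp (- (2 * (r0 : ℝ)))) ≤
        0.06 / √(n : ℝ) := by
      have h4 : 2 / (n : ℝ) + n * (Real.exp (- β * n) + Real.exp (- (2 * (r0 : ℝ)))) ≤
          2 / (n : ℝ) + n * (Real.exp (- β * n) + (n : ℝ) ^ (-(8 / 5 : ℝ))) := by gcongr
      refine h4.trans ?_
      rw [le_div_iff₀ (Real.sqrt_pos.2 hn0), hsqrt]
      refine le_trans (le_of_eq ?_) g5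
      have e1 : 2 / (n : ℝ) * (n : ℝ) ^ (1 / 2 : ℝ) = 2 * (n : ℝ) ^ (-(1 / 2 : ℝ)) := by
        rw [div_mul_eq_mul_div, mul_div_assoc]
        congr 1
        rw [div_eq_iff hn0.ne', ← Real.rpow_add_one hn0.ne']
        norm_num
      have e2 : (n : ℝ) * (n : ℝ) ^ (1 / 2 : ℝ) = (n : ℝ) ^ (3 / 2 : ℝ) := by
        rw [mul_comm, ← Real.rpow_add_one hn0.ne']; norm_num
      have e3 : (n : ℝ) ^ (3 / 2 : ℝ) * (n : ℝ) ^ (-(8 / 5 : ℝ)) = (n : ℝ) ^ (-(1 / 10 : ℝ)) := by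
        rw [← Real.rpow_add hn0]; norm_num
      rw [add_mul, e1]
      congr 1
      rw [← e3, ← e2]
      ring
    have h5 : (0.12 : ℝ) / √(n : ℝ) = 0.06 / √(n : ℝ) + 0.06 / √(n : ℝ) := by ring
    rw [h5]
    linarith
  have hE : Real.exp (- (1 / 2)) * (n : ℝ) ^ (-(2 / 5 : ℝ)) ≤ Real.exp (- ((r0 : ℝ) / 2)) := by
    rw [Real.rpow_def_of_pos hn0, ← Real.exp_add, Real.exp_le_exp]
    linarith
  calc Real.exp (- (1 / 2)) * 0.06 * (n : ℝ) ^ (-(9 / 10 : ℝ))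
      = (Real.exp (- (1 / 2)) * (n : ℝ) ^ (-(2 / 5 : ℝ))) * (0.06 / √(n : ℝ)) := by
        have e1 : (n : ℝ) ^ (-(9 / 10 : ℝ)) = (n : ℝ) ^ (-(2 / 5 : ℝ)) * (n : ℝ) ^ (-(1 / 2 : ℝ)) := by
          rw [← Real.rpow_add hn0]; norm_num
        have e2 : (n : ℝ) ^ (-(1 / 2 : ℝ)) = 1 / √(n : ℝ) := by
          rw [hsqrt, Real.rpow_neg hn0.le]
          exact (one_div _).symm
        rw [e1, e2]; ring
    _ ≤ Real.exp (- ((r0 : ℝ) / 2)) * (0.12 / √(n : ℝ) - (2 / n + n *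
        (Real.exp (- (n * (1 / (1000 * k)) ^ 2 / 4)) + Real.exp (- (2 * r0))))) := by
        apply mul_le_mul hE hbr _ (Real.exp_pos _).le
        positivity

end Pool.Agent.Helper98.Aut
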