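import Mathlib

namespace Pool.Agent.Helper98.Aut

open Finset

set_option linter.unusedSectionVars false

variable {V A : Type*}

/-- Reading a word from a state of the transition table `δ`. -/
def run (δ : V × A → V) (x : V) (w : List A) : V := w.foldl (fun s c => δ (s, c)) x

@[simp] theorem run_nil (δ : V × A → V) (x : V) : run δ x [] = x := rfl

@[simp] theorem run_cons (δ : V × A → V) (x : V) (c : A) (w : List A) :
    run δ x (c :: w) = run δ (δ (x, c)) w := rfl

theorem run_append (δ : V × A → V) (x : V) (w w' : List A) :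
    run δ x (w ++ w') = run δ (run δ x w) w' := by
  simp [run, List.foldl_append]

/-- The two states cannot be told apart with the single final state `f`. -/
def Unsep (δ : V × A → V) (f p q : V) : Prop := ∀ w : List A, run δ p w = f ↔ run δ q w = f

theorem Unsep.step {δ : V × A → V} {f p q : V} (h : Unsep δ f p q) (c : A) :
    Unsep δ f (δ (p, c)) (δ (q, c)) := fun w => by
  have := h (c :: w)
  simpa using this

theorem Unsep.run {δ : V × A → V} {f p q : V} (h : Unsep δ f p q) (u : List A) :
    Unsep δ f (run δ p u) (run δ q u) := fun w => by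
  have := h (u ++ w)
  simpa [run_append] using this

theorem Unsep.symm {δ : V × A → V} {f p q : V} (h : Unsep δ f p q) : Unsep δ f q p :=
  fun w => (h w).symm

section count

variable {P : Type*} [Fintype P] [DecidableEq P] [DecidableEq V]

/-- Size of a product of finite sets, as a real number. -/
def wt (D : P → Finset V) : ℝ := ∏ e, ((D e).card : ℝ)

/-- Number of elements of the product of the sets `D e` with the property `Q`. -/
noncomputable def cnt (D : P → Finset V) (Q : (P → V) → Prop) : ℝ :=
  haveI := Classical.decPred Q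
  (((Fintype.piFinset D).filter Q).card : ℝ)

theorem cnt_eq (D : P → Finset V) (Q : (P → V) → Prop) [DecidablePred Q] :
    cnt D Q = (((Fintype.piFinset D).filter Q).card : ℝ) := by
  unfold cnt
  congr

theorem wt_nonneg (D : P → Finset V) : 0 ≤ wt D := Finset.prod_nonneg fun _ _ => Nat.cast_nonneg _

theorem cnt_nonneg (D : P → Finset V) (Q : (P → V) → Prop) : 0 ≤ cnt D Q := by
  unfold cnt
  exact Nat.cast_nonneg _

theorem cnt_le_wt (D : P → Finset V) (Q : (P → V) → Prop) : cnt D Q ≤ wt D := by
  classical
  rw [cnt_eq]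
  unfold wt
  rw [← Nat.cast_prod, ← Fintype.card_piFinset]
  exact_mod_cast Finset.card_filter_le _ _

theorem cnt_mono {D : P → Finset V} {Q Q' : (P → V) → Prop}
    (h : ∀ δ ∈ Fintype.piFinset D, Q δ → Q' δ) : cnt D Q ≤ cnt D Q' := by
  classical
  simp only [cnt_eq]
  have : ((Fintype.piFinset D).filter Q) ⊆ ((Fintype.piFinset D).filter Q') := by
    intro δ hδ
    rw [Finset.mem_filter] at hδ ⊢
    exact ⟨hδ.1, h δ hδ.1 hδ.2⟩
  exact_mod_cast Finset.card_le_card this

theorem cnt_congr {D : P → Finset V} {Q Q' : (P → V) → Prop}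
    (h : ∀ δ ∈ Fintype.piFinset D, (Q δ ↔ Q' δ)) : cnt D Q = cnt D Q' :=
  le_antisymm (cnt_mono fun δ hδ => (h δ hδ).1) (cnt_mono fun δ hδ => (h δ hδ).2)

theorem cnt_true (D : P → Finset V) : cnt D (fun _ => True) = wt D := by
  classical
  rw [cnt_eq]
  unfold wt
  rw [← Nat.cast_prod, ← Fintype.card_piFinset, Finset.filter_true_of_mem]
  intro _ _; trivial

theorem cnt_false {D : P → Finset V} {Q : (P → V) → Prop}
    (h : ∀ δ ∈ Fintype.piFinset D, ¬ Q δ) : cnt D Q = 0 := by
  classical
  simp only [cnt_eq]
  rw [Finset.filter_false_of_mem h]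
  simp

theorem cnt_or_le (D : P → Finset V) (Q Q' : (P → V) → Prop) :
    cnt D (fun δ => Q δ ∨ Q' δ) ≤ cnt D Q + cnt D Q' := by
  classical
  simp only [cnt_eq]
  rw [Finset.filter_or]
  exact_mod_cast Finset.card_union_le _ _

theorem cnt_exists_le {ι : Type*} (s : Finset ι) (D : P → Finset V) (Q : ι → (P → V) → Prop) :
    cnt D (fun δ => ∃ i ∈ s, Q i δ) ≤ ∑ i ∈ s, cnt D (Q i) := by
  classical
  simp only [cnt_eq]
  have : ((Fintype.piFinset D).filter fun δ => ∃ i ∈ s, Q i δ)
      ⊆ s.biUnion fun i => (Fintype.piFinset D).filter (Q i) := by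
    intro δ hδ
    rw [Finset.mem_filter] at hδ
    obtain ⟨i, hi, hq⟩ := hδ.2
    rw [Finset.mem_biUnion]
    exact ⟨i, hi, Finset.mem_filter.2 ⟨hδ.1, hq⟩⟩
  calc _ ≤ (((s.biUnion fun i => (Fintype.piFinset D).filter (Q i)).card : ℕ) : ℝ) := by
        exact_mod_cast Finset.card_le_card this
    _ ≤ _ := by exact_mod_cast Finset.card_biUnion_le

theorem wt_update (D : P → Finset V) (e : P) (v : V) :
    wt D = (D e).card * wt (Function.update D e {v}) := by
  unfold wt
  rw [Fintype.prod_eq_mul_prod_compl e, Fintype.prod_eq_mul_prod_compl e]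
  simp only [Function.update_self, Finset.card_singleton, Nat.cast_one, one_mul]
  congr 1
  refine Finset.prod_congr rfl fun x hx => ?_
  rw [Function.update_of_ne]
  simpa using hx

theorem cnt_split (D : P → Finset V) (e : P) (Q : (P → V) → Prop) :
    cnt D Q = ∑ v ∈ D e, cnt (Function.update D e {v}) Q := by
  classical
  simp only [cnt_eq]
  rw [← Nat.cast_sum, ← Finset.card_biUnion]
  · congr 2
    ext δ
    simp only [Finset.mem_filter, Finset.mem_biUnion, Fintype.mem_piFinset]
    constructor
    · rintro ⟨h, hq⟩
      refine ⟨δ e, h e, fun a => ?_, hq⟩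
      by_cases ha : a = e
      · subst ha; simp
      · rw [Function.update_of_ne ha]; exact h a
    · rintro ⟨v, hv, h, hq⟩
      refine ⟨fun a => ?_, hq⟩
      by_cases ha : a = e
      · subst ha
        have := h a
        simp only [Function.update_self, Finset.mem_singleton] at this
        rw [this]; exact hv
      · have := h a
        rwa [Function.update_of_ne ha] at this
  · intro v hv v' hv' hne
    rw [Function.onFun, Finset.disjoint_left]
    intro δ h1 h2
    simp only [Finset.mem_filter, Fintype.mem_piFinset] at h1 h2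
    have h1' := h1.1 e
    have h2' := h2.1 e
    simp only [Function.update_self, Finset.mem_singleton] at h1' h2'
    exact hne (h1'.symm.trans h2')

theorem mem_update {D : P → Finset V} {e : P} {v : V} {δ : P → V} 
    (h : δ ∈ Fintype.piFinset (Function.update D e {v})) : δ e = v := by
  rw [Fintype.mem_piFinset] at h
  simpa using h e

end count

end Pool.Agent.Helper98.Aut
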