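import Pool.Agent.Helper98.AutNumB

namespace Pool.Agent.Helper98.Aut

open Finset

theorem choose_N {k n r0 : ℕ} (hk : 2 ≤ k) (hn : 1000 ≤ n) (hr : 100 * (k * r0) ≤ n) :
    ∃ N, n ≤ N ∧ 100 * N ≤ 151 * n ∧ ∀ t, 1 ≤ t → t ≤ N →
      uk N (k * (n - r0)) 1 t ≤ uk N (k * (n - r0)) 1 n := by
  set m := k * (n - r0) with hm
  set W := Nat.stirlingSecond (m + 1) n with hW
  set W1 := Nat.stirlingSecond (m + 1) (n + 1) with hW1
  have hr0 : r0 ≤ k * r0 := Nat.le_mul_of_pos_left r0 (by omega)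
  have hkn : 2 * n ≤ k * n := Nat.mul_le_mul_right n hk
  have hm2 : m = k * n - k * r0 := by rw [hm, Nat.mul_sub]
  have hmn : n ≤ m := by omega
  have hW1pos : 0 < W1 := stir_pos _ _ (by omega) (by omega)
  have hdiv1 : W / W1 * W1 ≤ W := Nat.div_mul_le_self W W1
  have hdiv2 : W ≤ (W / W1 + 1) * W1 := by
    have := Nat.lt_mul_div_succ W hW1pos
    rw [mul_comm]
    exact this.le
  refine ⟨n + W / W1, Nat.le_add_right _ _, ?_, ?_⟩
  · have hs := stir_split (m + 1) n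
    rw [← hW, ← hW1] at hs
    have h1 : (0.99 : ℝ) * n ≤ ((m + 1 : ℕ) : ℝ) - n := by
      have h2 : (199 : ℝ) * n ≤ 100 * m := by
        have : 199 * n ≤ 100 * m := by omega
        exact_mod_cast this
      push_cast
      linarith
    have hn' : (1000 : ℝ) ≤ n := by exact_mod_cast hn
    have hWr : (0 : ℝ) ≤ W := Nat.cast_nonneg _
    have hW1r : (0 : ℝ) < W1 := by exact_mod_cast hW1pos
    have h3 : 2 * (0.99 * (n : ℝ)) * W ≤ n * (n + 1) * W1 := by
      refine le_trans ?_ hs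
      gcongr
    have h4 : (1.98 : ℝ) * W ≤ (n + 1) * W1 := by
      have h5 : (n : ℝ) * (1.98 * W) ≤ n * ((n + 1) * W1) := by linarith
      exact le_of_mul_le_mul_left h5 (by linarith)
    have h5 : ((W / W1 : ℕ) : ℝ) * W1 ≤ W := by exact_mod_cast hdiv1
    have h6 : (1.98 : ℝ) * ((W / W1 : ℕ) : ℝ) ≤ n + 1 := by
      have h7 : (1.98 * ((W / W1 : ℕ) : ℝ)) * W1 ≤ (n + 1) * W1 := by nlinarith
      exact le_of_mul_le_mul_right h7 hW1r
    have h7 : (100 : ℝ) * (n + (W / W1 : ℕ)) ≤ 151 * n := by linarith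
    exact_mod_cast h7
  · intro t ht htN
    refine uk_mode (m := m) (by omega) (Nat.le_add_right _ _) hmn ?_ ?_ t ht htN
    · rw [← hW, ← hW1, Nat.add_sub_cancel_left]; exact hdiv1
    · rw [← hW, ← hW1, Nat.add_sub_cancel_left]; exact hdiv2

/-- The proportion of unreached states nearly satisfies the fixed point equation. -/
theorem fixed_point {k n r0 N : ℕ} (hk : 2 ≤ k) (hn : 1000 ≤ n) (hr : 100 * (k * r0) ≤ n)
    (hr1 : 1 ≤ r0) (hnN : n ≤ N)
    (hmode : ∀ t, 1 ≤ t → t ≤ N → uk N (k * (n - r0)) 1 t ≤ uk N (k * (n - r0)) 1 n)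
    {ε : ℝ} (hε : 0 < ε) (e1 : 7 / √(N : ℝ) ≤ (ε / 2) ^ 2) (e2 : 2 * (k * r0) / (N : ℝ) ≤ ε / 2)
    (e3 : k / ((N : ℝ) - 1) ≤ ε / 2) :
    |((N : ℝ) - n) / N - Real.exp (- (k * (n / N)))| ≤ ε := by
  set m := k * (n - r0) with hm
  have hr0 : r0 ≤ k * r0 := Nat.le_mul_of_pos_left r0 (by omega)
  have hN2 : 2 ≤ N := by omega
  have hNr : (1000 : ℝ) ≤ N := by exact_mod_cast (hn.trans hnN)
  have hNpos : (0 : ℝ) < N := by linarith
  have hnr : (1000 : ℝ) ≤ n := by exact_mod_cast hn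
  have hnNr : (n : ℝ) ≤ N := by exact_mod_cast hnN
  have hsq : √(N : ℝ) ^ 2 = N := Real.sq_sqrt (by linarith)
  have hs1 : 1 ≤ √(N : ℝ) := by rw [Real.one_le_sqrt]; linarith
  have hq := mode_ge hN2 m _ hmode
  have hnear := mode_near hN2 m n
  set q := uk N m 1 n with hqd
  have hq0 : 0 ≤ q := uk_nonneg (by omega) (by omega) _ _
  -- distance to the mean
  have hdist : ((n : ℝ) - mu N m) ^ 2 ≤ 7 * N * √(N : ℝ) := by
    have h1 : (3 / 4 : ℝ) ≤ (5 * √(N : ℝ)) * q := by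
      refine hq.trans ?_
      apply mul_le_mul_of_nonneg_right _ hq0
      linarith
    have h2 : ((n : ℝ) - mu N m) ^ 2 * (3 / 4) ≤ ((n : ℝ) - mu N m) ^ 2 * ((5 * √(N : ℝ)) * q) :=
      mul_le_mul_of_nonneg_left h1 (sq_nonneg _)
    have h3 : ((n : ℝ) - mu N m) ^ 2 * ((5 * √(N : ℝ)) * q) ≤ 5 * √(N : ℝ) * N := by
      calc ((n : ℝ) - mu N m) ^ 2 * ((5 * √(N : ℝ)) * q)
          = 5 * √(N : ℝ) * (((n : ℝ) - mu N m) ^ 2 * q) := by ring
        _ ≤ 5 * √(N : ℝ) * N := by gcongr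
    have h4 : 0 ≤ √(N : ℝ) * N := by positivity
    nlinarith
  set E : ℝ := (1 - 1 / (N : ℝ)) ^ (m + 1) with hE
  have hmuE : (N : ℝ) - mu N m = N * E := by
    unfold mu
    rw [hE, pow_succ]
    field_simp
    ring
  have hdiff : ((N : ℝ) - n) / N - E = (mu N m - n) / N := by
    have : E = ((N : ℝ) - mu N m) / N := by rw [hmuE]; field_simp
    rw [this]; ring
  have habs1 : |((N : ℝ) - n) / N - E| ≤ ε / 2 := by
    apply abs_le_of_sq_le_sq _ (by positivity)
    rw [hdiff, div_pow]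
    refine le_trans ?_ e1
    have h5 : (mu N m - n) ^ 2 = ((n : ℝ) - mu N m) ^ 2 := by ring
    rw [h5, div_le_div_iff₀ (by positivity) (by positivity)]
    calc ((n : ℝ) - mu N m) ^ 2 * √(N : ℝ) ≤ (7 * N * √(N : ℝ)) * √(N : ℝ) := by gcongr
      _ = 7 * N * √(N : ℝ) ^ 2 := by ring
      _ = 7 * (N : ℝ) ^ 2 := by rw [hsq]; ring
  -- comparison of `E` with the exponential
  have hmr : (m : ℝ) = k * n - k * r0 := by
    rw [hm, Nat.cast_mul, Nat.cast_sub (by omega)]; ring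
  have hkr : (2 : ℝ) ≤ k := by exact_mod_cast hk
  have hr1r : (1 : ℝ) ≤ r0 := by exact_mod_cast hr1
  have hkr0 : 100 * ((k : ℝ) * r0) ≤ n := by exact_mod_cast hr
  have hkr1 : 1 ≤ (k : ℝ) * r0 := by
    calc (1 : ℝ) ≤ 2 * 1 := by norm_num
      _ ≤ k * r0 := by gcongr
  set F : ℝ := Real.exp (- (k * ((n : ℝ) / N))) with hF
  have hF1 : F ≤ 1 := by
    rw [hF, Real.exp_le_one_iff]
    have : 0 ≤ (k : ℝ) * ((n : ℝ) / N) := by positivity
    linarith
  have hF0 : 0 < F := Real.exp_pos _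
  have hb0 : 0 ≤ 1 - 1 / (N : ℝ) := by
    have : 1 / (N : ℝ) ≤ 1 := by rw [div_le_one (by linarith)]; linarith
    linarith
  have hup : E ≤ F + ε / 2 := by
    have h3 : 1 - 1 / (N : ℝ) ≤ Real.exp (- (1 / N)) := by
      have := Real.add_one_le_exp (- (1 / (N : ℝ)))
      linarith
    have h4 : E ≤ F * Real.exp (k * r0 / N) := by
      calc E ≤ (Real.exp (- (1 / N))) ^ (m + 1) := pow_le_pow_left₀ hb0 h3 _
        _ = Real.exp (- ((m + 1) / N)) := by
          rw [← Real.exp_nat_mul]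
          congr 1
          push_cast
          ring
        _ ≤ Real.exp (- (k * ((n : ℝ) / N)) + k * r0 / N) := by
          rw [Real.exp_le_exp, hmr]
          have h5 : - (((k : ℝ) * n - k * r0 + 1) / N) = - (k * ((n : ℝ) / N)) + k * r0 / N - 1 / N := by
            field_simp
            ring
          rw [h5]
          have : 0 ≤ 1 / (N : ℝ) := by positivity
          linarith
        _ = _ := by rw [Real.exp_add]
    have hx0 : 0 ≤ (k : ℝ) * r0 / N := by positivity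
    have hx1 : (k : ℝ) * r0 / N ≤ 1 := by
      rw [div_le_one hNpos]; linarith
    have h5 := Real.abs_exp_sub_one_sub_id_le (x := (k : ℝ) * r0 / N)
      (by rw [abs_of_nonneg hx0]; exact hx1)
    have h6 := (abs_le.1 h5).2
    have h7 : Real.exp (k * r0 / N) ≤ 1 + 2 * (k * r0) / N := by
      have h8 : ((k : ℝ) * r0 / N) ^ 2 ≤ k * r0 / N := by nlinarith
      have h9 : 2 * ((k : ℝ) * r0) / N = k * r0 / N + k * r0 / N := by ring
      rw [h9]; linarith
    have h8 : F * Real.exp (k * r0 / N) ≤ F * (1 + 2 * (k * r0) / N) := by gcongr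
    have h9 : F * (2 * (k * r0) / N) ≤ 1 * (2 * (k * r0) / N) := by gcongr
    linarith
  have hlow : F - ε / 2 ≤ E := by
    have hN1 : 0 < (N : ℝ) - 1 := by linarith
    have hbpos : 0 < 1 - 1 / (N : ℝ) := by
      have : 1 / (N : ℝ) < 1 := by rw [div_lt_one (by linarith)]; linarith
      linarith
    have h3 : Real.exp (- (1 / ((N : ℝ) - 1))) ≤ 1 - 1 / (N : ℝ) := by
      have h4 := Real.one_sub_inv_le_log_of_pos hbpos
      have h5 : 1 - (1 - 1 / (N : ℝ))⁻¹ = - (1 / ((N : ℝ) - 1)) := by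
        field_simp
        ring
      rw [h5] at h4
      calc Real.exp (- (1 / ((N : ℝ) - 1))) ≤ Real.exp (Real.log (1 - 1 / (N : ℝ))) := by
            rw [Real.exp_le_exp]; exact h4
        _ = _ := Real.exp_log hbpos
    have h4 : F * Real.exp (- (k / ((N : ℝ) - 1))) ≤ E := by
      calc F * Real.exp (- (k / ((N : ℝ) - 1)))
          = Real.exp (- (k * ((n : ℝ) / N)) + - (k / ((N : ℝ) - 1))) := by rw [hF, Real.exp_add]
        _ ≤ Real.exp (- ((m + 1) / ((N : ℝ) - 1))) := by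
          rw [Real.exp_le_exp, hmr]
          have h6 : ((k : ℝ) * n - k * r0 + 1) / ((N : ℝ) - 1) ≤ k * n / ((N : ℝ) - 1) := by
            apply div_le_div_of_nonneg_right _ hN1.le
            linarith
          have h7 : (k : ℝ) * n / ((N : ℝ) - 1) = k * (n / N) + k * (n / N) / ((N : ℝ) - 1) := by
            field_simp
            ring
          have h8 : (k : ℝ) * (n / N) / ((N : ℝ) - 1) ≤ k / ((N : ℝ) - 1) := by
            apply div_le_div_of_nonneg_right _ hN1.le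
            have : (n : ℝ) / N ≤ 1 := by rw [div_le_one hNpos]; exact hnNr
            calc (k : ℝ) * (n / N) ≤ k * 1 := by gcongr
              _ = k := mul_one _
          linarith
        _ = (Real.exp (- (1 / ((N : ℝ) - 1)))) ^ (m + 1) := by
          rw [← Real.exp_nat_mul]
          congr 1
          push_cast
          ring
        _ ≤ E := pow_le_pow_left₀ (Real.exp_pos _).le h3 _
    have h5 : 1 - k / ((N : ℝ) - 1) ≤ Real.exp (- (k / ((N : ℝ) - 1))) := by
      have := Real.add_one_le_exp (- ((k : ℝ) / ((N : ℝ) - 1)))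
      linarith
    have h6 : F * (1 - k / ((N : ℝ) - 1)) ≤ F * Real.exp (- (k / ((N : ℝ) - 1))) := by gcongr
    have h7 : F * (k / ((N : ℝ) - 1)) ≤ 1 * (k / ((N : ℝ) - 1)) := by gcongr
    linarith
  have h8 := abs_le.1 habs1
  rw [abs_le]
  constructor <;> linarith

end Pool.Agent.Helper98.Aut
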