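import Pool.Agent.Helper98.AutPair

namespace Pool.Agent.Helper98.Aut

open Finset

set_option linter.unusedSectionVars false

variable {V A : Type*} [Fintype V] [DecidableEq V] [Fintype A] [DecidableEq A]

/-- No small set of states contains more transitions than states. -/
def Sparse (δ : V × A → V) : Prop :=
  ∀ (L : List (V × A)) (X : Finset V), L.Nodup → L.length ≤ 6 →
    (∀ e ∈ L, e.1 ∈ X ∧ δ e ∈ X) → L.length ≤ X.card

theorem cnt_inside (X : Finset V) (S : Finset (V × A)) (hN : 0 < Fintype.card V) :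
    cnt (fun _ : V × A => (univ : Finset V)) (fun δ => ∀ e ∈ S, δ e ∈ X) ≤
      (X.card / Fintype.card V : ℝ) ^ S.card * wt (fun _ : V × A => (univ : Finset V)) := by
  classical
  have hNpos : (0 : ℝ) < Fintype.card V := by exact_mod_cast hN
  let D : V × A → Finset V := fun e => if e ∈ S then X else univ
  have h1 : cnt (fun _ : V × A => (univ : Finset V)) (fun δ => ∀ e ∈ S, δ e ∈ X) = wt D := by
    rw [cnt_eq]
    unfold wt
    rw [← Nat.cast_prod, ← Fintype.card_piFinset]
    congr 2
    ext δ
    simp only [Finset.mem_filter, Fintype.mem_piFinset, Finset.mem_univ, implies_true, true_and, D]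
    constructor
    · intro h e
      split_ifs with he
      · exact h e he
      · exact Finset.mem_univ _
    · intro h e he
      have := h e
      rwa [if_pos he] at this
  rw [h1]
  unfold wt
  rw [← Finset.prod_mul_prod_compl S (fun e => ((D e).card : ℝ)),
    ← Finset.prod_mul_prod_compl S (fun _ => (((univ : Finset V)).card : ℝ))]
  have h2 : ∏ e ∈ S, ((D e).card : ℝ) = (X.card : ℝ) ^ S.card := by
    rw [Finset.prod_congr rfl (g := fun _ => (X.card : ℝ)), Finset.prod_const]
    intro e he
    simp only [D]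
    rw [if_pos he]
  have h3 : ∏ e ∈ Sᶜ, ((D e).card : ℝ) = ∏ e ∈ Sᶜ, (((univ : Finset V)).card : ℝ) := by
    refine Finset.prod_congr rfl fun e he => ?_
    simp only [D]
    rw [if_neg (Finset.mem_compl.1 he)]
  rw [h2, h3, Finset.prod_const, Finset.card_univ, div_pow, ← mul_assoc, Finset.prod_const]
  apply le_of_eq
  field_simp

/-- Dense small sets are rare. -/
theorem cnt_not_sparse_le (hN : 6 ≤ Fintype.card V) :
    cnt (fun _ : V × A => (univ : Finset V)) (fun δ => ¬ Sparse δ) ≤
      (6 * (2 ^ (5 * Fintype.card A) * 5 ^ 6)) / Fintype.card V *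
        wt (fun _ : V × A => (univ : Finset V)) := by
  classical
  set U : V × A → Finset V := fun _ => univ with hU
  have hNpos : (0 : ℝ) < Fintype.card V := by
    have : 0 < Fintype.card V := by omega
    exact_mod_cast this
  have hW := wt_nonneg U
  have hsub : ∀ δ ∈ Fintype.piFinset U, ¬ Sparse δ →
      ∃ r ∈ Finset.Icc 1 6, ∃ X ∈ Finset.powersetCard (r - 1) (univ : Finset V),
        ∃ S ∈ Finset.powersetCard r (X ×ˢ (univ : Finset A)), ∀ e ∈ S, δ e ∈ X := by
    intro δ _ h
    unfold Sparse at h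
    push Not at h
    obtain ⟨L, X, hn, hlen, hall, hcard⟩ := h
    have h1 : L.toFinset.card = L.length := List.toFinset_card_of_nodup hn
    obtain ⟨X', hXX', _, hX'⟩ := Finset.exists_subsuperset_card_eq (Finset.subset_univ X)
      (n := L.length - 1) (by omega) (by rw [Finset.card_univ]; omega)
    refine ⟨L.length, Finset.mem_Icc.2 ⟨by omega, hlen⟩, X', ?_, L.toFinset, ?_, ?_⟩
    · rw [Finset.mem_powersetCard]
      exact ⟨Finset.subset_univ _, hX'⟩
    · rw [Finset.mem_powersetCard]
      refine ⟨fun e he => ?_, h1⟩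
      rw [List.mem_toFinset] at he
      rw [Finset.mem_product]
      exact ⟨hXX' (hall e he).1, Finset.mem_univ _⟩
    · intro e he
      rw [List.mem_toFinset] at he
      exact hXX' (hall e he).2
  refine (cnt_mono hsub).trans ((cnt_exists_le _ U _).trans ?_)
  have hb : ∀ r ∈ Finset.Icc 1 6, cnt U (fun δ =>
      ∃ X ∈ Finset.powersetCard (r - 1) (univ : Finset V),
        ∃ S ∈ Finset.powersetCard r (X ×ˢ (univ : Finset A)), ∀ e ∈ S, δ e ∈ X) ≤
      (2 ^ (5 * Fintype.card A) * 5 ^ 6) / Fintype.card V * wt U := by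
    intro r hr
    rw [Finset.mem_Icc] at hr
    refine (cnt_exists_le _ U _).trans ?_
    have hb2 : ∀ X ∈ Finset.powersetCard (r - 1) (univ : Finset V), cnt U (fun δ =>
        ∃ S ∈ Finset.powersetCard r (X ×ˢ (univ : Finset A)), ∀ e ∈ S, δ e ∈ X) ≤
        2 ^ (5 * Fintype.card A) * (5 ^ 6 / (Fintype.card V : ℝ) ^ r * wt U) := by
      intro X hX
      rw [Finset.mem_powersetCard] at hX
      refine (cnt_exists_le _ U _).trans ?_
      refine (Finset.sum_le_card_nsmul _ _ (5 ^ 6 / (Fintype.card V : ℝ) ^ r * wt U) ?_).trans ?_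
      · intro S hS
        rw [Finset.mem_powersetCard] at hS
        refine (cnt_inside X S (by omega)).trans ?_
        rw [hS.2, hX.2, div_pow]
        apply mul_le_mul_of_nonneg_right _ hW
        apply div_le_div_of_nonneg_right _ (by positivity)
        have h1 : (((r - 1 : ℕ)) : ℝ) ≤ 5 := by
          exact_mod_cast (by omega : r - 1 ≤ 5)
        calc (((r - 1 : ℕ)) : ℝ) ^ r ≤ 5 ^ r := by gcongr
          _ ≤ 5 ^ 6 := pow_le_pow_right₀ (by norm_num) hr.2
      · rw [nsmul_eq_mul, Finset.card_powersetCard, Finset.card_product, Finset.card_univ, hX.2]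
        have h1 : ((((r - 1) * Fintype.card A).choose r : ℕ) : ℝ) ≤ 2 ^ (5 * Fintype.card A) := by
          have h2 : ((r - 1) * Fintype.card A).choose r ≤ 2 ^ ((r - 1) * Fintype.card A) :=
            Nat.choose_le_two_pow _ _
          have h3 : 2 ^ ((r - 1) * Fintype.card A) ≤ 2 ^ (5 * Fintype.card A) :=
            Nat.pow_le_pow_right (by norm_num) (Nat.mul_le_mul_right _ (by omega))
          exact_mod_cast h2.trans h3
        gcongr
    refine (Finset.sum_le_card_nsmul _ _ _ hb2).trans ?_
    rw [nsmul_eq_mul, Finset.card_powersetCard, Finset.card_univ]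
    have h1 : (((Fintype.card V).choose (r - 1) : ℕ) : ℝ) ≤ (Fintype.card V : ℝ) ^ (r - 1) := by
      have := Nat.choose_le_pow (Fintype.card V) (r - 1)
      exact_mod_cast this
    calc (((Fintype.card V).choose (r - 1) : ℕ) : ℝ) *
          (2 ^ (5 * Fintype.card A) * (5 ^ 6 / (Fintype.card V : ℝ) ^ r * wt U))
        ≤ (Fintype.card V : ℝ) ^ (r - 1) *
          (2 ^ (5 * Fintype.card A) * (5 ^ 6 / (Fintype.card V : ℝ) ^ r * wt U)) := by gcongr
      _ = _ := by
          obtain ⟨d, rfl⟩ : ∃ d, r = d + 1 := ⟨r - 1, by omega⟩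
          rw [Nat.add_sub_cancel]
          field_simp
          ring
  refine (Finset.sum_le_card_nsmul _ _ _ hb).trans (le_of_eq ?_)
  rw [nsmul_eq_mul, Nat.card_Icc]
  push_cast
  ring

section configurations

variable {δ : V × A → V} {p q y z : V} {a b : A}

theorem conf_one (hs : Sparse δ) (hab : a ≠ b) (h1 : δ (p, a) = p) (h2 : δ (p, b) = p) :
    False := by
  have := hs [(p, a), (p, b)] {p} (by simp [hab]) (by simp) (by
    intro e he
    simp only [List.mem_cons, List.not_mem_nil, or_false] at he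
    simp only [Finset.mem_singleton]
    rcases he with rfl | rfl
    · exact ⟨rfl, h1⟩
    · exact ⟨rfl, h2⟩)
  simp at this

theorem conf_two (hs : Sparse δ) (hpq : p ≠ q) (hab : a ≠ b)
    (h1 : δ (p, b) = p ∨ δ (p, b) = q) (h2 : δ (q, b) = p ∨ δ (q, b) = q) (v : V)
    (h3 : δ (p, a) = p ∨ δ (p, a) = q ∨ δ (p, a) = v)
    (h4 : δ (q, a) = p ∨ δ (q, a) = q ∨ δ (q, a) = v) : False := by
  have := hs [(p, b), (q, b), (p, a), (q, a)] {p, q, v} (by simp [hpq, hpq.symm, hab.symm])
    (by simp) (by
      intro e he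
      simp only [List.mem_cons, List.not_mem_nil, or_false] at he
      simp only [Finset.mem_insert, Finset.mem_singleton]
      rcases he with rfl | rfl | rfl | rfl
      · exact ⟨Or.inl rfl, or_assoc.1 (Or.inl h1)⟩
      · exact ⟨Or.inr (Or.inl rfl), or_assoc.1 (Or.inl h2)⟩
      · exact ⟨Or.inl rfl, h3⟩
      · exact ⟨Or.inr (Or.inl rfl), h4⟩)
  have h5 : ({p, q, v} : Finset V).card ≤ 3 := Finset.card_le_three
  simp only [List.length_cons, List.length_nil] at this
  omega

theorem conf_three (hs : Sparse δ) (hpq : p ≠ q) (hab : a ≠ b) (hyp : y ≠ p) (hyq : y ≠ q)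
    (h1 : δ (p, b) = p ∨ δ (p, b) = q) (hy : δ (q, b) = y) (v : V)
    (h2 : δ (p, a) = p ∨ δ (p, a) = q ∨ δ (p, a) = y ∨ δ (p, a) = v)
    (h3 : δ (q, a) = p ∨ δ (q, a) = q ∨ δ (q, a) = y ∨ δ (q, a) = v)
    (h4 : δ (y, a) = p ∨ δ (y, a) = q ∨ δ (y, a) = y ∨ δ (y, a) = v) : False := by
  have := hs [(p, b), (q, b), (p, a), (q, a), (y, a)] {p, q, y, v}
    (by simp [hpq, hpq.symm, hab.symm, hyp.symm, hyq.symm])
    (by simp) (by
      intro e he
      simp only [List.mem_cons, List.not_mem_nil, or_false] at he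
      simp only [Finset.mem_insert, Finset.mem_singleton]
      rcases he with rfl | rfl | rfl | rfl | rfl
      · exact ⟨Or.inl rfl, or_assoc.1 (Or.inl h1)⟩
      · exact ⟨Or.inr (Or.inl rfl), Or.inr (Or.inr (Or.inl hy))⟩
      · exact ⟨Or.inl rfl, h2⟩
      · exact ⟨Or.inr (Or.inl rfl), h3⟩
      · exact ⟨Or.inr (Or.inr (Or.inl rfl)), h4⟩)
  have h5 : ({p, q, y, v} : Finset V).card ≤ 4 := Finset.card_le_four
  simp only [List.length_cons, List.length_nil] at this
  omega

theorem conf_three' (hs : Sparse δ) (hpq : p ≠ q) (hab : a ≠ b) (hyp : y ≠ p) (hyq : y ≠ q)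
    (h1 : δ (p, b) = q) (hy : δ (q, b) = y) (h2 : δ (q, a) = q)
    (h3 : δ (y, b) = p ∨ δ (y, b) = q ∨ δ (y, b) = y) : False := by
  have := hs [(p, b), (q, b), (q, a), (y, b)] {p, q, y}
    (by simp [hpq, hab.symm, hab, Ne.symm hyp, Ne.symm hyq])
    (by simp) (by
      intro e he
      simp only [List.mem_cons, List.not_mem_nil, or_false] at he
      simp only [Finset.mem_insert, Finset.mem_singleton]
      rcases he with rfl | rfl | rfl | rfl
      · exact ⟨Or.inl rfl, Or.inr (Or.inl h1)⟩
      · exact ⟨Or.inr (Or.inl rfl), Or.inr (Or.inr hy)⟩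
      · exact ⟨Or.inr (Or.inl rfl), Or.inr (Or.inl h2)⟩
      · exact ⟨Or.inr (Or.inr rfl), h3⟩)
  have h5 : ({p, q, y} : Finset V).card ≤ 3 := Finset.card_le_three
  simp only [List.length_cons, List.length_nil] at this
  omega

theorem conf_four (hs : Sparse δ) (hpq : p ≠ q) (hab : a ≠ b) (hyp : y ≠ p) (hyq : y ≠ q)
    (hzp : z ≠ p) (hzq : z ≠ q) (hzy : z ≠ y)
    (h1 : δ (p, b) = q) (hy : δ (q, b) = y) (h2 : δ (q, a) = q) (hz : δ (y, b) = z) (v : V)
    (h3 : δ (y, a) = y ∨ δ (y, a) = z ∨ δ (y, a) = v)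
    (h4 : δ (z, a) = y ∨ δ (z, a) = z ∨ δ (z, a) = v) : False := by
  have := hs [(p, b), (q, b), (q, a), (y, b), (y, a), (z, a)] {p, q, y, z, v}
    (by simp [hpq, hab, hab.symm, Ne.symm hyp, Ne.symm hyq, hzp.symm, hzq.symm,
      hzy.symm])
    (by simp) (by
      intro e he
      simp only [List.mem_cons, List.not_mem_nil, or_false] at he
      simp only [Finset.mem_insert, Finset.mem_singleton]
      rcases he with rfl | rfl | rfl | rfl | rfl | rfl
      · exact ⟨Or.inl rfl, Or.inr (Or.inl h1)⟩
      · exact ⟨Or.inr (Or.inl rfl), Or.inr (Or.inr (Or.inl hy))⟩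
      · exact ⟨Or.inr (Or.inl rfl), Or.inr (Or.inl h2)⟩
      · exact ⟨Or.inr (Or.inr (Or.inl rfl)), Or.inr (Or.inr (Or.inr (Or.inl hz)))⟩
      · exact ⟨Or.inr (Or.inr (Or.inl rfl)), Or.inr (Or.inr h3)⟩
      · exact ⟨Or.inr (Or.inr (Or.inr (Or.inl rfl))), Or.inr (Or.inr h4)⟩)
  have h5 : ({p, q, y, z, v} : Finset V).card ≤ 5 := Finset.card_le_five
  simp only [List.length_cons, List.length_nil] at this
  omega

end configurations

/-- The deterministic part, for two letters: a relation between states which is stable under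
reading letters, all of whose pairs of distinct states read only coincidences and are not twins,
relates no distinct states when the table is sparse. -/
theorem no_rel (δ : V × A → V) (hs : Sparse δ) (hk : Fintype.card A = 2) (R : V → V → Prop)
    (hsymm : ∀ p q, R p q → R q p) (hstep : ∀ p q, R p q → ∀ c, R (δ (p, c)) (δ (q, c)))
    (hcoin : ∀ p q, p ≠ q → R p q → ∀ c, Coin δ p q c)
    (htwin : ∀ p q, p ≠ q → R p q → ∃ c, δ (p, c) ≠ δ (q, c)) :
    ∀ p q, R p q → p = q := by
  intro p0 q0 hR0
  by_contra hne0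
  obtain ⟨p, q, a, b, hpq, hab, hR, hb, hpb⟩ : ∃ p q : V, ∃ a b : A, p ≠ q ∧ a ≠ b ∧ R p q ∧
      δ (p, b) ≠ δ (q, b) ∧ (δ (p, b) = p ∨ δ (p, b) = q) := by
    obtain ⟨b, hb⟩ := htwin p0 q0 hne0 hR0
    have : Nontrivial A := by
      rw [← Fintype.one_lt_card_iff_nontrivial]; omega
    obtain ⟨a, ha⟩ := exists_ne b
    rcases hcoin p0 q0 hne0 hR0 b with h | h | h
    · exact ⟨p0, q0, a, b, hne0, ha, hR0, hb, h⟩
    · exact ⟨q0, p0, a, b, Ne.symm hne0, ha, hsymm _ _ hR0, Ne.symm hb, h.symm⟩
    · exact absurd h hb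
  obtain ⟨y, hy⟩ : ∃ y, δ (q, b) = y := ⟨_, rfl⟩
  have hRb := hstep p q hR b
  have hca := hcoin p q hpq hR a
  rw [hy] at hRb hb
  have two : (δ (p, b) = p ∨ δ (p, b) = q) → (y = p ∨ y = q) → False := by
    intro h1 h2
    rw [← hy] at h2
    rcases hca with h | h | h
    · exact conf_two hs hpq hab h1 h2 (δ (q, a)) (by rcases h with h | h <;> simp [h]) (by simp)
    · exact conf_two hs hpq hab h1 h2 (δ (p, a)) (by simp) (by rcases h with h | h <;> simp [h])
    · exact conf_two hs hpq hab h1 h2 (δ (p, a)) (by simp) (by simp [h])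
  rcases hpb with hpb | hpb
  · -- loop at `p`
    have hyp : y ≠ p := by
      intro h; rw [hpb] at hb; exact hb h.symm
    by_cases hyq : y = q
    · exact two (Or.inl hpb) (Or.inr hyq)
    have hRy : R p y := by
      rw [hpb] at hRb; exact hRb
    have hcy := hcoin p y hyp.symm hRy a
    have sink : δ (p, a) ≠ p := fun h => conf_one hs hab h hpb
    have t := conf_three (δ := δ) hs hpq hab hyp hyq (Or.inl hpb) hy
    rcases hca with (h | h) | h | h
    · exact sink h
    · rcases hcy with (h' | h') | h' | h'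
      · exact sink h'
      · exact hyq (h'.symm.trans h)
      · exact t (δ (q, a)) (by simp [h]) (by simp) (by rcases h' with h' | h' <;> simp [h'])
      · exact t (δ (q, a)) (by simp [h]) (by simp) (by simp [← h', h])
    · rcases hcy with (h' | h') | h' | h'
      · exact sink h'
      · exact t (δ (y, a)) (by simp [h']) (by rcases h with h | h <;> simp [h]) (by simp)
      · exact t (δ (p, a)) (by simp) (by rcases h with h | h <;> simp [h])
          (by rcases h' with h' | h' <;> simp [h'])
      · exact t (δ (p, a)) (by simp) (by rcases h with h | h <;> simp [h]) (by simp [← h'])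
    · rcases hcy with (h' | h') | h' | h'
      · exact sink h'
      · exact t (δ (y, a)) (by simp [h']) (by simp [← h, h']) (by simp)
      · exact t (δ (p, a)) (by simp) (by simp [← h])
          (by rcases h' with h' | h' <;> simp [h'])
      · exact t (δ (p, a)) (by simp) (by simp [← h]) (by simp [← h'])
  · -- `p` goes to `q`
    have hyq : y ≠ q := by
      intro h; rw [hpb] at hb; exact hb h.symm
    by_cases hyp : y = p
    · exact two (Or.inr hpb) (Or.inl hyp)
    have hRy : R q y := by
      rw [hpb] at hRb; exact hRb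
    have hcy := hcoin q y hyq.symm hRy a
    have t := conf_three (δ := δ) hs hpq hab hyp hyq (Or.inr hpb) hy
    by_cases hqa : δ (q, a) = q
    · have hRz := hstep q y hRy b
      rw [hy] at hRz
      obtain ⟨z, hz⟩ : ∃ z, δ (y, b) = z := ⟨_, rfl⟩
      rw [hz] at hRz
      by_cases hz0 : z = p ∨ z = q ∨ z = y
      · rw [← hz] at hz0
        exact conf_three' hs hpq hab hyp hyq hpb hy hqa hz0
      · rw [not_or, not_or] at hz0
        have hcz := hcoin y z (Ne.symm hz0.2.2) hRz a
        have t4 := conf_four (δ := δ) hs hpq hab hyp hyq hz0.1 hz0.2.1 hz0.2.2 hpb hy hqa hz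
        rcases hcz with h | h | h
        · exact t4 (δ (z, a)) (by rcases h with h | h <;> simp [h]) (by simp)
        · exact t4 (δ (y, a)) (by simp) (by rcases h with h | h <;> simp [h])
        · exact t4 (δ (y, a)) (by simp) (by simp [← h])
    · rcases hca with h | h | h
      · rcases hcy with h' | h' | h'
        · exact t (δ (y, a)) (by rcases h with h | h <;> simp [h])
            (by rcases h' with h' | h' <;> simp [h']) (by simp)
        · exact t (δ (q, a)) (by rcases h with h | h <;> simp [h]) (by simp)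
            (by rcases h' with h' | h' <;> simp [h'])
        · exact t (δ (q, a)) (by rcases h with h | h <;> simp [h]) (by simp) (by simp [← h'])
      · rcases h with h | h
        · rcases hcy with (h' | h') | h' | h'
          · exact absurd h' hqa
          · exact hyp (h'.symm.trans h)
          · exact t (δ (p, a)) (by simp) (by simp [h]) (by rcases h' with h' | h' <;> simp [h'])
          · exact t (δ (p, a)) (by simp) (by simp [h]) (by simp [← h', h])
        · exact absurd h hqa
      · rcases hcy with h' | h' | h'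
        · exact t (δ (y, a)) (by rw [h]; rcases h' with h' | h' <;> simp [h'])
            (by rcases h' with h' | h' <;> simp [h']) (by simp)
        · exact t (δ (p, a)) (by simp) (by simp [← h]) (by rcases h' with h' | h' <;> simp [h'])
        · exact t (δ (p, a)) (by simp) (by simp [← h]) (by simp [← h', ← h])

end Pool.Agent.Helper98.Aut
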