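import Pool.Agent.Helper98.AutDense

namespace Pool.Agent.Helper98.Aut

open Finset

set_option linter.unusedSectionVars false

variable {V A : Type*} [Fintype V] [DecidableEq V] [Fintype A] [DecidableEq A]

/-- The states from which `f` can be reached. -/
noncomputable def anc (δ : V × A → V) (f : V) : Finset V :=
  haveI := Classical.decPred (fun x => ∃ w : List A, run δ x w = f)
  (univ : Finset V).filter (fun x => ∃ w : List A, run δ x w = f)

theorem mem_anc {δ : V × A → V} {f x : V} : x ∈ anc δ f ↔ ∃ w : List A, run δ x w = f := by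
  simp [anc]

theorem exists_lev_card (δ : V × A → V) (f : V) :
    ∃ j, anc δ f ⊆ lev (Function.curry δ) {f} j := by
  classical
  have h : ∀ x ∈ anc δ f, ∃ j, x ∈ lev (Function.curry δ) {f} j := by
    intro x hx
    rw [mem_anc] at hx
    obtain ⟨w, hw⟩ := hx
    exact ⟨w.length, (mem_lev_iff δ f _ x).2 ⟨w, le_rfl, hw⟩⟩
  choose! g hg using h
  refine ⟨(anc δ f).sup g, fun x hx => ?_⟩
  exact lev_mono _ _ (Finset.le_sup hx) (hg x hx)

/-- Relabelling by a transposition. -/
def conj (σ : Equiv.Perm V) (δ : V × A → V) : V × A → V := fun e => σ (δ (σ.symm e.1, e.2))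

theorem run_conj (σ : Equiv.Perm V) (δ : V × A → V) (w : List A) : ∀ x : V,
    run (conj σ δ) (σ x) w = σ (run δ x w) := by
  induction w with
  | nil => intro x; rfl
  | cons c w ih =>
    intro x
    rw [run_cons, run_cons]
    have h : conj σ δ (σ x, c) = σ (δ (x, c)) := by simp [conj]
    rw [h, ih]

theorem anc_conj (σ : Equiv.Perm V) (δ : V × A → V) (f : V) :
    anc (conj σ δ) (σ f) = (anc δ f).map σ.toEmbedding := by
  ext x
  rw [mem_anc, Finset.mem_map_equiv, mem_anc]
  constructor
  · rintro ⟨w, hw⟩
    refine ⟨w, ?_⟩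
    have h := run_conj σ δ w (σ.symm x)
    rw [Equiv.apply_symm_apply, hw] at h
    exact (σ.injective h).symm
  · rintro ⟨w, hw⟩
    refine ⟨w, ?_⟩
    have h := run_conj σ δ w (σ.symm x)
    rw [Equiv.apply_symm_apply, hw] at h
    exact h

theorem few_ancestors (r0 : V) (M0 : ℕ) :
    ∑ f : V, cnt (fun _ : V × A => (univ : Finset V)) (fun δ =>
      (∃ w : List A, run δ r0 w = f) ∧ ¬ ∃ j, M0 ≤ (lev (Function.curry δ) {f} j).card) ≤
      M0 * wt (fun _ : V × A => (univ : Finset V)) := by
  classical
  set U : V × A → Finset V := fun _ => univ with hU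
  have hW := wt_nonneg U
  -- pass to the ancestors
  have h1 : ∀ f ∈ (univ : Finset V), cnt U (fun δ =>
      (∃ w : List A, run δ r0 w = f) ∧ ¬ ∃ j, M0 ≤ (lev (Function.curry δ) {f} j).card) ≤
      cnt U (fun δ => r0 ∈ anc δ f ∧ (anc δ f).card < M0) := by
    intro f _
    refine cnt_mono fun δ _ h => ⟨mem_anc.2 h.1, ?_⟩
    obtain ⟨j, hj⟩ := exists_lev_card δ f
    have h2 := Finset.card_le_card hj
    have h3 := h.2
    push Not at h3
    exact h2.trans_lt (h3 j)
  refine (Finset.sum_le_sum h1).trans ?_
  -- the pairs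
  let Cr : V → Finset ((V × A → V) × V) := fun r =>
    (univ : Finset ((V × A → V) × V)).filter
      (fun x => r ∈ anc x.1 x.2 ∧ (anc x.1 x.2).card < M0)
  have hsum : ∑ f : V, cnt U (fun δ => r0 ∈ anc δ f ∧ (anc δ f).card < M0) = ((Cr r0).card : ℝ) := by
    have h2 : (Cr r0).card = ∑ f : V, ((Fintype.piFinset U).filter
        (fun δ => r0 ∈ anc δ f ∧ (anc δ f).card < M0)).card := by
      have := Finset.card_eq_sum_card_fiberwise (s := Cr r0) (t := (univ : Finset V))
        (f := Prod.snd) (fun _ _ => Finset.mem_coe.2 (Finset.mem_univ _))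
      rw [this]
      refine Finset.sum_congr rfl fun f _ => ?_
      refine Finset.card_bij (fun x _ => x.1) ?_ ?_ ?_
      · intro x hx
        simp only [Cr, Finset.mem_filter, Finset.mem_univ, true_and] at hx
        simp only [Finset.mem_filter, Fintype.mem_piFinset, U, Finset.mem_univ, implies_true,
          true_and]
        rw [← hx.2]
        exact hx.1
      · intro x hx x' hx' h
        simp only [Cr, Finset.mem_filter, Finset.mem_univ, true_and] at hx hx'
        exact Prod.ext h (hx.2.trans hx'.2.symm)
      · intro δ hδ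
        simp only [Finset.mem_filter, Fintype.mem_piFinset, U, Finset.mem_univ, implies_true,
          true_and] at hδ
        refine ⟨(δ, f), ?_, rfl⟩
        simp only [Cr, Finset.mem_filter, Finset.mem_univ, true_and]
        exact ⟨hδ, trivial⟩
    rw [h2, Nat.cast_sum]
    refine Finset.sum_congr rfl fun f _ => ?_
    rw [cnt_eq]
  rw [hsum]
  -- invariance under relabelling
  have hinv : ∀ r : V, (Cr r).card = (Cr r0).card := by
    intro r
    have hσ : ∀ s t : V, (Cr s).card ≤ (Cr t).card := by
      intro s t
      set σ : Equiv.Perm V := Equiv.swap s t with hσd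
      refine Finset.card_le_card_of_injOn (fun x => (conj σ x.1, σ x.2)) ?_ ?_
      · intro x hx
        have hx' := Finset.mem_coe.1 hx
        simp only [Cr, Finset.mem_filter, Finset.mem_univ, true_and] at hx'
        apply Finset.mem_coe.2
        simp only [Cr, Finset.mem_filter, Finset.mem_univ, true_and]
        rw [anc_conj]
        refine ⟨?_, by rw [Finset.card_map]; exact hx'.2⟩
        rw [Finset.mem_map_equiv, hσd, Equiv.symm_swap, Equiv.swap_apply_right]
        exact hx'.1
      · rintro ⟨δ, f⟩ _ ⟨δ', f'⟩ _ h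
        simp only [Prod.mk.injEq] at h
        have h1 : f = f' := σ.injective h.2
        have h2 : δ = δ' := by
          funext e
          have := congrFun h.1 (σ e.1, e.2)
          simp only [conj, Equiv.symm_apply_apply] at this
          exact σ.injective this
        rw [h1, h2]
    exact le_antisymm (hσ r r0) (hσ r0 r)
  have hdouble : ∑ r : V, (Cr r).card ≤ M0 * Fintype.card ((V × A → V) × V) := by
    have h2 : ∑ r : V, (Cr r).card = ∑ x : (V × A → V) × V,
        ((univ : Finset V).filter (fun r => r ∈ anc x.1 x.2 ∧ (anc x.1 x.2).card < M0)).card := by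
      simp only [Cr, Finset.card_filter]
      rw [Finset.sum_comm]
    rw [h2]
    have h3 : ∀ x ∈ (univ : Finset ((V × A → V) × V)),
        ((univ : Finset V).filter (fun r => r ∈ anc x.1 x.2 ∧ (anc x.1 x.2).card < M0)).card
        ≤ M0 := by
      intro x _
      by_cases hx : (anc x.1 x.2).card < M0
      · have h4 : (univ : Finset V).filter (fun r => r ∈ anc x.1 x.2 ∧ (anc x.1 x.2).card < M0)
            = anc x.1 x.2 := by
          ext r
          simp [hx]
        rw [h4]
        exact hx.le
      · have h4 : (univ : Finset V).filter (fun r => r ∈ anc x.1 x.2 ∧ (anc x.1 x.2).card < M0)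
            = ∅ := by
          ext r
          simp [hx]
        rw [h4]; simp
    refine (Finset.sum_le_card_nsmul _ _ _ h3).trans (le_of_eq ?_)
    rw [Finset.card_univ, smul_eq_mul, mul_comm]
  simp only [hinv] at hdouble
  rw [Finset.sum_const, Finset.card_univ, smul_eq_mul, Fintype.card_prod] at hdouble
  have hNpos : 0 < Fintype.card V := Fintype.card_pos_iff.2 ⟨r0⟩
  have h5 : (Cr r0).card ≤ M0 * Fintype.card (V × A → V) := by
    have h6 : Fintype.card V * (Cr r0).card ≤ Fintype.card V * (M0 * Fintype.card (V × A → V)) := by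
      calc _ ≤ M0 * (Fintype.card (V × A → V) * Fintype.card V) := hdouble
        _ = _ := by ring
    exact Nat.le_of_mul_le_mul_left h6 hNpos
  have h6 : ((Fintype.card (V × A → V) : ℕ) : ℝ) = wt U := by
    rw [hU, wt_univ, Fintype.card_fun]; push_cast; rfl
  rw [← h6]
  exact_mod_cast h5

end Pool.Agent.Helper98.Aut
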