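import Mathlib

namespace Pool.Agent.Helper98.RandAut

/-- Every state is reached from the initial state by reading some word. -/
def IsAccessible {α σ : Type*} (M : DFA α σ) : Prop := ∀ q : σ, ∃ w : List α, M.eval w = q

/-- No two distinct states recognise the same language. -/
def IsMinimal {α σ : Type*} (M : DFA α σ) : Prop :=
  ∀ p q : σ, M.acceptsFrom p = M.acceptsFrom q → p = q

/-- The automaton with states `0, ..., n`, letters `0, ..., k - 1`, transition function `δ`,
initial state `0` and single final state `f`. -/
def aut {k n : ℕ} (δ : Fin (n + 1) → Fin k → Fin (n + 1)) (f : Fin (n + 1)) :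
    DFA (Fin k) (Fin (n + 1)) where
  step := δ
  start := 0
  accept := {f}

/-- The probability that an automaton chosen uniformly among the accessible automata with `n + 1`
states, `k` letters, initial state `0` and exactly one final state is minimal. -/
noncomputable def minProb (k n : ℕ) : ℝ :=
  (Set.ncard {x : (Fin (n + 1) → Fin k → Fin (n + 1)) × Fin (n + 1) |
      IsAccessible (aut x.1 x.2) ∧ IsMinimal (aut x.1 x.2)} : ℝ) /
    (Set.ncard {x : (Fin (n + 1) → Fin k → Fin (n + 1)) × Fin (n + 1) |
      IsAccessible (aut x.1 x.2)} : ℝ)

end Pool.Agent.Helper98.RandAut
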