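import Pool.Agent.Helper98.AutTransfer
import Pool.Agent.Helper98.RandAutDef

namespace Pool.Agent.Helper98.Aut

open Finset Filter Topology

theorem exists_root (N : ℕ) : ∃ s : ℕ, s ^ 16 ≤ N ∧ N < (s + 1) ^ 16 := by
  have hex : ∃ m : ℕ, N < (m + 1) ^ 16 := ⟨N, by
    calc N < N + 1 := Nat.lt_succ_self N
      _ ≤ (N + 1) ^ 16 := Nat.le_self_pow (by norm_num) _⟩
  refine ⟨Nat.find hex, ?_, Nat.find_spec hex⟩
  rcases Nat.eq_zero_or_pos (Nat.find hex) with h | h
  · rw [h]; simp
  · have := Nat.find_min hex (m := Nat.find hex - 1) (by omega)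
    rw [Nat.sub_add_cancel h] at this
    omega

/-- In the accessible model with `n` states, the proportion of bad pairs tends to zero. -/
theorem bad_prob (k : ℕ) (hk : 2 ≤ k) : ∃ ρ : ℕ → ℝ, Tendsto ρ atTop (𝓝 0) ∧
    ∀ᶠ n : ℕ in atTop, ∀ z : Fin n,
      ∑ f : Fin n, cnt (fun _ : Fin n × Fin k => (univ : Finset (Fin n)))
        (fun δ => acc δ z = univ ∧ BadN z δ f) ≤
      ρ n * (n * cnt (fun _ : Fin n × Fin k => (univ : Finset (Fin n)))
        (fun δ => acc δ z = univ)) := by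
  obtain ⟨c1, hc1, hN⟩ := exists_good_N k hk
  obtain ⟨C, hC0, s0, hC⟩ := exists_badN_bound k hk
  refine ⟨fun n => (2 * (n : ℝ) ^ (1 / 16 : ℝ) + C) / (c1 * (n : ℝ) ^ (1 / 10 : ℝ)), ?_, ?_⟩
  · have h1 : Tendsto (fun x : ℝ => x ^ (-(3 / 80 : ℝ))) atTop (𝓝 0) :=
      tendsto_rpow_neg_atTop (by norm_num)
    have h2 : Tendsto (fun x : ℝ => x ^ (-(1 / 10 : ℝ))) atTop (𝓝 0) :=
      tendsto_rpow_neg_atTop (by norm_num)
    have h3 := (((h1.const_mul 2).add (h2.const_mul C)).div_const c1).comp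
      (tendsto_natCast_atTop_atTop : Tendsto (fun n : ℕ => (n : ℝ)) atTop atTop)
    simp only [mul_zero, add_zero, zero_div] at h3
    refine h3.congr' ?_
    filter_upwards [eventually_gt_atTop 0] with n hn
    have hn0 : (0 : ℝ) < n := by exact_mod_cast hn
    simp only [Function.comp_apply]
    have e1 : (n : ℝ) ^ (-(3 / 80 : ℝ)) = (n : ℝ) ^ (1 / 16 : ℝ) / (n : ℝ) ^ (1 / 10 : ℝ) := by
      rw [← Real.rpow_sub hn0]; norm_num
    have e2 : (n : ℝ) ^ (-(1 / 10 : ℝ)) = 1 / (n : ℝ) ^ (1 / 10 : ℝ) := by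
      rw [Real.rpow_neg hn0.le]; exact (one_div _).symm
    rw [e1, e2]
    have : 0 < (n : ℝ) ^ (1 / 10 : ℝ) := Real.rpow_pos_of_pos hn0 _
    field_simp
  · filter_upwards [hN, eventually_ge_atTop ((s0 + 1) ^ 16), eventually_gt_atTop 0]
      with n hn hns hn0' z
    have hn0 : (0 : ℝ) < n := by exact_mod_cast hn0'
    obtain ⟨N, hnN, h151, hkf⟩ := hn
    obtain ⟨s, hs1, hs2⟩ := exists_root N
    have hs0 : s0 ≤ s := by
      by_contra hcon
      push Not at hcon
      have h1 : (s + 1) ^ 16 ≤ (s0 + 1) ^ 16 := Nat.pow_le_pow_left (by omega) 16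
      omega
    have hNpos : 0 < N := by omega
    have hNe : NeZero N := ⟨by omega⟩
    -- the two inputs of the transfer
    have hbad := hC s hs0 (Fin N) (Fin k) (by simp) (by simpa using hs1) (by simpa using hs2) 0
    have hacc := cnt_acc_ge' (A := Fin k) (0 : Fin N) n
    rw [Fintype.card_fin, Fintype.card_fin] at hacc
    set X : ℝ := c1 * (n : ℝ) ^ (-(9 / 10 : ℝ)) with hX
    have hXpos : 0 < X := by
      have := Real.rpow_pos_of_pos hn0 (-(9 / 10 : ℝ))
      positivity
    have hacc' : X * wt (fun _ : Fin N × Fin k => (univ : Finset (Fin N))) ≤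
        cnt (fun _ : Fin N × Fin k => (univ : Finset (Fin N)))
          (fun δ => (acc δ (0 : Fin N)).card = n) := by
      refine le_trans ?_ hacc
      exact mul_le_mul_of_nonneg_right hkf (wt_nonneg _)
    have hmain := transfer (V := Fin N) (A := Fin k) (0 : Fin N) n z X (s + C) hXpos hacc' hbad
    set a := cnt (fun _ : Fin n × Fin k => (univ : Finset (Fin n))) (fun δ => acc δ z = univ)
      with ha
    have ha0 : 0 ≤ a := cnt_nonneg _ _
    have h10 : 0 < (n : ℝ) ^ (1 / 10 : ℝ) := Real.rpow_pos_of_pos hn0 _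
    have hs : (s : ℝ) ≤ 2 * (n : ℝ) ^ (1 / 16 : ℝ) := by
      have h1 : (s : ℝ) ^ 16 ≤ 2 ^ 16 * n := by
        have h2 : (s : ℝ) ^ 16 ≤ N := by exact_mod_cast hs1
        have h3 : 100 * (N : ℝ) ≤ 151 * n := by exact_mod_cast h151
        linarith
      have h2 : (2 : ℝ) ^ 16 * n = (2 * (n : ℝ) ^ (1 / 16 : ℝ)) ^ 16 := by
        rw [mul_pow]
        congr 1
        rw [← Real.rpow_natCast, ← Real.rpow_mul hn0.le]
        norm_num
      rw [h2] at h1
      exact le_of_pow_le_pow_left₀ (by norm_num) (by positivity) h1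
    have hXn : X * n = c1 * (n : ℝ) ^ (1 / 10 : ℝ) := by
      have : (n : ℝ) ^ (1 / 10 : ℝ) = (n : ℝ) ^ (-(9 / 10 : ℝ)) * n := by
        rw [← Real.rpow_add_one hn0.ne']; norm_num
      rw [this, hX]; ring
    set S := ∑ f : Fin n, cnt (fun _ : Fin n × Fin k => (univ : Finset (Fin n)))
        (fun δ => acc δ z = univ ∧ BadN z δ f) with hS
    have h3 : X * S ≤ (2 * (n : ℝ) ^ (1 / 16 : ℝ) + C) * a := by
      refine hmain.trans ?_
      apply mul_le_mul_of_nonneg_right _ ha0
      linarith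
    have h4 : (2 * (n : ℝ) ^ (1 / 16 : ℝ) + C) / (c1 * (n : ℝ) ^ (1 / 10 : ℝ)) * (n * a)
        = ((2 * (n : ℝ) ^ (1 / 16 : ℝ) + C) * a) / X := by
      rw [← hXn]
      field_simp
    rw [h4, le_div_iff₀ hXpos]
    linarith

/-- Words are read in the same way by the automaton and by the uncurried table. -/
theorem evalFrom_aut {k n : ℕ} (δ : Fin (n + 1) → Fin k → Fin (n + 1)) (f x : Fin (n + 1))
    (w : List (Fin k)) : (RandAut.aut δ f).evalFrom x w = run (Function.uncurry δ) x w := rfl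

theorem accessible_iff {k n : ℕ} (δ : Fin (n + 1) → Fin k → Fin (n + 1)) (f : Fin (n + 1)) :
    RandAut.IsAccessible (RandAut.aut δ f) ↔ acc (Function.uncurry δ) 0 = univ := by
  rw [Finset.eq_univ_iff_forall]
  constructor
  · intro h x
    obtain ⟨w, hw⟩ := h x
    exact mem_acc.2 ⟨w, hw⟩
  · intro h x
    obtain ⟨w, hw⟩ := mem_acc.1 (h x)
    exact ⟨w, hw⟩

theorem unsep_of_acceptsFrom {k n : ℕ} {δ : Fin (n + 1) → Fin k → Fin (n + 1)}
    {f p q : Fin (n + 1)}
    (h : (RandAut.aut δ f).acceptsFrom p = (RandAut.aut δ f).acceptsFrom q) :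
    Unsep (Function.uncurry δ) f p q := by
  intro w
  have h1 : w ∈ (RandAut.aut δ f).acceptsFrom p ↔ w ∈ (RandAut.aut δ f).acceptsFrom q := by
    rw [h]
  rw [DFA.mem_acceptsFrom, DFA.mem_acceptsFrom, evalFrom_aut, evalFrom_aut] at h1
  exact h1

theorem exists_accessible {k : ℕ} (hk : 2 ≤ k) (n : ℕ) :
    ∃ δ : Fin (n + 1) × Fin k → Fin (n + 1), acc δ 0 = univ := by
  refine ⟨fun e => e.1 + 1, ?_⟩
  rw [Finset.eq_univ_iff_forall]
  intro x
  have hc : 0 < k := by omega
  have key : ∀ m : ℕ, m ≤ n → (run (fun e : Fin (n + 1) × Fin k => e.1 + 1) 0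
      (List.replicate m (⟨0, hc⟩ : Fin k))).val = m := by
    intro m
    induction m with
    | zero => intro _; rfl
    | succ m ih =>
      intro hm
      have ih' := ih (by omega)
      rw [List.replicate_succ', run_append, run_cons, run_nil]
      rw [Fin.val_add_one_of_lt, ih']
      rw [Fin.lt_def, ih', Fin.val_last]
      omega
  rw [mem_acc]
  exact ⟨_, Fin.ext (key x.val (by omega))⟩

/-- Counting accessible and minimal automata. -/
theorem count_bound (k n : ℕ) :
    (Set.ncard {x : (Fin (n + 1) → Fin k → Fin (n + 1)) × Fin (n + 1) |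
      RandAut.IsAccessible (RandAut.aut x.1 x.2)} : ℝ) =
      (n + 1) * cnt (fun _ : Fin (n + 1) × Fin k => (univ : Finset (Fin (n + 1))))
        (fun δ => acc δ 0 = univ) ∧
    (Set.ncard {x : (Fin (n + 1) → Fin k → Fin (n + 1)) × Fin (n + 1) |
      RandAut.IsAccessible (RandAut.aut x.1 x.2)} : ℝ) ≤
    (Set.ncard {x : (Fin (n + 1) → Fin k → Fin (n + 1)) × Fin (n + 1) |
      RandAut.IsAccessible (RandAut.aut x.1 x.2) ∧ RandAut.IsMinimal (RandAut.aut x.1 x.2)} : ℝ) +
      ((if 3 ≤ k then 0 else (n + 1) *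
        cnt (fun _ : Fin (n + 1) × Fin k => (univ : Finset (Fin (n + 1)))) (fun δ =>
          acc δ 0 = univ ∧ ∃ p q, p ≠ q ∧ ∀ c, δ (p, c) = δ (q, c))) +
      ∑ f : Fin (n + 1), cnt (fun _ : Fin (n + 1) × Fin k => (univ : Finset (Fin (n + 1))))
        (fun δ => acc δ 0 = univ ∧ BadN 0 δ f)) := by
  classical
  let Ψ : (Fin (n + 1) → Fin k → Fin (n + 1)) × Fin (n + 1) →
    (Fin (n + 1) × Fin k → Fin (n + 1)) × Fin (n + 1) := fun x => (Function.uncurry x.1, x.2)
  have hΨ : Function.Injective Ψ := by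
    rintro ⟨δ1, f1⟩ ⟨δ2, f2⟩ h
    simp only [Ψ, Prod.mk.injEq] at h
    have h1 : δ1 = δ2 := by
      have := congrArg Function.curry h.1
      simpa using this
    rw [h1, h.2]
  -- the images
  have i1 : Ψ '' {x | RandAut.IsAccessible (RandAut.aut x.1 x.2)} =
      (((univ : Finset ((Fin (n + 1) × Fin k → Fin (n + 1)) × Fin (n + 1))).filter
        (fun x => acc x.1 0 = univ) : Finset _) : Set _) := by
    ext ⟨δ, f⟩
    simp only [Set.mem_image, Finset.coe_filter, Finset.mem_univ, true_and]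
    constructor
    · rintro ⟨⟨δ1, f1⟩, h1, h2⟩
      simp only [Ψ, Prod.mk.injEq] at h2
      have h3 := (accessible_iff δ1 f1).1 h1
      rw [h2.1] at h3
      exact h3
    · intro h
      refine ⟨(Function.curry δ, f), ?_, by simp [Ψ]⟩
      apply (accessible_iff (Function.curry δ) f).2
      rw [Function.uncurry_curry]
      exact h
  have e1 : (Set.ncard {x : (Fin (n + 1) → Fin k → Fin (n + 1)) × Fin (n + 1) |
      RandAut.IsAccessible (RandAut.aut x.1 x.2)} : ℝ) =
      (((univ : Finset ((Fin (n + 1) × Fin k → Fin (n + 1)) × Fin (n + 1))).filter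
        (fun x => acc x.1 0 = univ)).card : ℝ) := by
    rw [← Set.ncard_image_of_injective _ hΨ, i1, Set.ncard_coe_finset]
  refine ⟨?_, ?_⟩
  · rw [e1, ← sum_cnt_eq (fun δ _ => acc δ 0 = univ), Finset.sum_const, Finset.card_univ,
      Fintype.card_fin, nsmul_eq_mul]
    push_cast
    ring
  · -- the non minimal ones
    have hsub : {x : (Fin (n + 1) → Fin k → Fin (n + 1)) × Fin (n + 1) |
        RandAut.IsAccessible (RandAut.aut x.1 x.2)} ⊆
        {x | RandAut.IsAccessible (RandAut.aut x.1 x.2) ∧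
          RandAut.IsMinimal (RandAut.aut x.1 x.2)} ∪
        ((if 3 ≤ k then ∅ else Ψ ⁻¹' (((univ : Finset ((Fin (n + 1) × Fin k → Fin (n + 1)) ×
          Fin (n + 1))).filter (fun x => acc x.1 0 = univ ∧
            ∃ p q, p ≠ q ∧ ∀ c, x.1 (p, c) = x.1 (q, c)) : Finset _) : Set _)) ∪
          Ψ ⁻¹' (((univ : Finset ((Fin (n + 1) × Fin k → Fin (n + 1)) ×
          Fin (n + 1))).filter (fun x => acc x.1 0 = univ ∧ BadN 0 x.1 x.2) :
            Finset _) : Set _)) := by
      rintro ⟨δ, f⟩ hx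
      have hacc := (accessible_iff δ f).1 hx
      by_cases hm : RandAut.IsMinimal (RandAut.aut δ f)
      · exact Or.inl ⟨hx, hm⟩
      · right
        unfold RandAut.IsMinimal at hm
        push Not at hm
        obtain ⟨p, q, hpq, hne⟩ := hm
        have hu := unsep_of_acceptsFrom hpq
        by_cases hk3 : 3 ≤ k
        · right
          simp only [Set.mem_preimage, Finset.coe_filter, Finset.mem_univ, true_and]
          refine ⟨hacc, ?_, ⟨p, q, ?_, ?_, hne, hu⟩, Or.inl ?_⟩
          · show f ∈ acc (Function.uncurry δ) 0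
            rw [hacc]; exact Finset.mem_univ _
          · show p ∈ acc (Function.uncurry δ) 0
            rw [hacc]; exact Finset.mem_univ _
          · show q ∈ acc (Function.uncurry δ) 0
            rw [hacc]; exact Finset.mem_univ _
          · rw [Fintype.card_fin]; exact hk3
        · rw [if_neg hk3]
          by_cases htw : ∃ p q, p ≠ q ∧ ∀ c, Function.uncurry δ (p, c) = Function.uncurry δ (q, c)
          · left
            simp only [Set.mem_preimage, Finset.coe_filter, Finset.mem_univ, true_and]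
            exact ⟨hacc, htw⟩
          · right
            simp only [Set.mem_preimage, Finset.coe_filter, Finset.mem_univ, true_and]
            refine ⟨hacc, ?_, ⟨p, q, ?_, ?_, hne, hu⟩, Or.inr ?_⟩
            · show f ∈ acc (Function.uncurry δ) 0
              rw [hacc]; exact Finset.mem_univ _
            · show p ∈ acc (Function.uncurry δ) 0
              rw [hacc]; exact Finset.mem_univ _
            · show q ∈ acc (Function.uncurry δ) 0
              rw [hacc]; exact Finset.mem_univ _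
            · intro p' q' _ _ hne'
              by_contra hcon
              push Not at hcon
              exact htw ⟨p', q', hne', hcon⟩
    have h1 := Set.ncard_le_ncard hsub (Set.toFinite _)
    have h2 := h1.trans (Set.ncard_union_le _ _)
    have h3 := Set.ncard_union_le (if 3 ≤ k then ∅ else Ψ ⁻¹' (((univ : Finset
          ((Fin (n + 1) × Fin k → Fin (n + 1)) ×
          Fin (n + 1))).filter (fun x => acc x.1 0 = univ ∧
            ∃ p q, p ≠ q ∧ ∀ c, x.1 (p, c) = x.1 (q, c)) : Finset _) : Set _))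
          (Ψ ⁻¹' (((univ : Finset ((Fin (n + 1) × Fin k → Fin (n + 1)) ×
          Fin (n + 1))).filter (fun x => acc x.1 0 = univ ∧ BadN 0 x.1 x.2) :
            Finset _) : Set _))
    have hpre : ∀ T : Finset ((Fin (n + 1) × Fin k → Fin (n + 1)) × Fin (n + 1)),
        (Ψ ⁻¹' (T : Set _)).ncard ≤ T.card := by
      intro T
      rw [← Set.ncard_coe_finset T, ← Set.ncard_image_of_injective (Ψ ⁻¹' (T : Set _)) hΨ]
      exact Set.ncard_le_ncard (Set.image_preimage_subset _ _) (Set.toFinite _)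
    have h4 := hpre ((univ : Finset ((Fin (n + 1) × Fin k → Fin (n + 1)) ×
          Fin (n + 1))).filter (fun x => acc x.1 0 = univ ∧ BadN 0 x.1 x.2))
    have h4' : ((Ψ ⁻¹' (((univ : Finset ((Fin (n + 1) × Fin k → Fin (n + 1)) ×
          Fin (n + 1))).filter (fun x => acc x.1 0 = univ ∧ BadN 0 x.1 x.2) :
            Finset _) : Set _)).ncard : ℝ) ≤ ∑ f : Fin (n + 1),
        cnt (fun _ : Fin (n + 1) × Fin k => (univ : Finset (Fin (n + 1))))
        (fun δ => acc δ 0 = univ ∧ BadN 0 δ f) := by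
      rw [sum_cnt_eq (fun δ f => acc δ 0 = univ ∧ BadN 0 δ f)]
      exact_mod_cast h4
    have h5 : ((if 3 ≤ k then ∅ else Ψ ⁻¹' (((univ : Finset
          ((Fin (n + 1) × Fin k → Fin (n + 1)) ×
          Fin (n + 1))).filter (fun x => acc x.1 0 = univ ∧
            ∃ p q, p ≠ q ∧ ∀ c, x.1 (p, c) = x.1 (q, c)) : Finset _) : Set _)).ncard : ℝ) ≤
        (if 3 ≤ k then 0 else (n + 1) *
        cnt (fun _ : Fin (n + 1) × Fin k => (univ : Finset (Fin (n + 1)))) (fun δ =>
          acc δ 0 = univ ∧ ∃ p q, p ≠ q ∧ ∀ c, δ (p, c) = δ (q, c))) := by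
      split_ifs with hk3
      · simp
      · have h6 := hpre ((univ : Finset ((Fin (n + 1) × Fin k → Fin (n + 1)) ×
          Fin (n + 1))).filter (fun x => acc x.1 0 = univ ∧
            ∃ p q, p ≠ q ∧ ∀ c, x.1 (p, c) = x.1 (q, c)))
        have h7 := sum_cnt_eq (V := Fin (n + 1)) (A := Fin k) (fun δ _ => acc δ 0 = univ ∧
            ∃ p q, p ≠ q ∧ ∀ c, δ (p, c) = δ (q, c))
        rw [Finset.sum_const, Finset.card_univ, Fintype.card_fin, nsmul_eq_mul] at h7
        push_cast at h7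
        rw [h7]
        exact_mod_cast h6
    have h8 : (Set.ncard {x : (Fin (n + 1) → Fin k → Fin (n + 1)) × Fin (n + 1) |
      RandAut.IsAccessible (RandAut.aut x.1 x.2)} : ℝ) ≤
      (Set.ncard {x : (Fin (n + 1) → Fin k → Fin (n + 1)) × Fin (n + 1) |
      RandAut.IsAccessible (RandAut.aut x.1 x.2) ∧
        RandAut.IsMinimal (RandAut.aut x.1 x.2)} : ℝ) +
      (((if 3 ≤ k then ∅ else Ψ ⁻¹' (((univ : Finset
          ((Fin (n + 1) × Fin k → Fin (n + 1)) ×
          Fin (n + 1))).filter (fun x => acc x.1 0 = univ ∧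
            ∃ p q, p ≠ q ∧ ∀ c, x.1 (p, c) = x.1 (q, c)) : Finset _) : Set _)).ncard : ℝ) +
      ((Ψ ⁻¹' (((univ : Finset ((Fin (n + 1) × Fin k → Fin (n + 1)) ×
          Fin (n + 1))).filter (fun x => acc x.1 0 = univ ∧ BadN 0 x.1 x.2) :
            Finset _) : Set _)).ncard : ℝ)) := by
      exact_mod_cast h2.trans (Nat.add_le_add_left h3 _)
    linarith

/-- The main estimate. -/
theorem minProb_ge (k : ℕ) (hk : 2 ≤ k) : ∃ ρ : ℕ → ℝ, Tendsto ρ atTop (𝓝 0) ∧
    ∀ᶠ n : ℕ in atTop, 1 - (if 3 ≤ k then 0 else 1 / 2) - ρ n ≤ RandAut.minProb k n := by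
  obtain ⟨ρ, hρ, hb⟩ := bad_prob k hk
  refine ⟨fun n => ρ (n + 1), hρ.comp (tendsto_add_atTop_nat 1), ?_⟩
  have hb' : ∀ᶠ n : ℕ in atTop, ∀ z : Fin (n + 1),
      ∑ f : Fin (n + 1), cnt (fun _ : Fin (n + 1) × Fin k => (univ : Finset (Fin (n + 1))))
        (fun δ => acc δ z = univ ∧ BadN z δ f) ≤
      ρ (n + 1) * (((n + 1 : ℕ) : ℝ) * cnt (fun _ : Fin (n + 1) × Fin k =>
        (univ : Finset (Fin (n + 1)))) (fun δ => acc δ z = univ)) :=
    (tendsto_add_atTop_nat 1).eventually hb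
  filter_upwards [hb'] with n hn
  have hbad := hn 0
  obtain ⟨h1, h2⟩ := count_bound k n
  have htw := twins_le (A := Fin k) (n + 1) 0 (by rw [Fintype.card_fin]; exact hk)
  set a := cnt (fun _ : Fin (n + 1) × Fin k => (univ : Finset (Fin (n + 1))))
        (fun δ => acc δ 0 = univ) with ha
  have hapos : 0 < a := by
    obtain ⟨δ, hδ⟩ := exists_accessible hk n
    classical
    rw [ha, cnt_eq]
    have : 0 < ((Fintype.piFinset fun _ : Fin (n + 1) × Fin k =>
        (univ : Finset (Fin (n + 1)))).filter (fun δ => acc δ 0 = univ)).card := by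
      rw [Finset.card_pos]
      refine ⟨δ, ?_⟩
      rw [Finset.mem_filter]
      exact ⟨by rw [Fintype.mem_piFinset]; intro _; exact Finset.mem_univ _, hδ⟩
    exact_mod_cast this
  unfold RandAut.minProb
  set G : ℝ := (Set.ncard {x : (Fin (n + 1) → Fin k → Fin (n + 1)) × Fin (n + 1) |
      RandAut.IsAccessible (RandAut.aut x.1 x.2) ∧
        RandAut.IsMinimal (RandAut.aut x.1 x.2)} : ℝ) with hG
  rw [h1] at h2 ⊢
  have hnpos : (0 : ℝ) < n + 1 := by positivity
  rw [le_div_iff₀ (by positivity)]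
  push_cast at hbad
  split_ifs at h2 ⊢ with hk3
  · nlinarith
  · have h3 : ((n : ℝ) + 1) * cnt (fun _ : Fin (n + 1) × Fin k => (univ : Finset (Fin (n + 1))))
        (fun δ => acc δ 0 = univ ∧ ∃ p q, p ≠ q ∧ ∀ c, δ (p, c) = δ (q, c)) ≤
        ((n : ℝ) + 1) * (1 / 2 * a) := mul_le_mul_of_nonneg_left htw hnpos.le
    nlinarith

theorem minProb_le_one (k n : ℕ) : RandAut.minProb k n ≤ 1 := by
  unfold RandAut.minProb
  apply div_le_one_of_le₀ _ (Nat.cast_nonneg _)
  have := Set.ncard_le_ncard (s := {x : (Fin (n + 1) → Fin k → Fin (n + 1)) × Fin (n + 1) |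
      RandAut.IsAccessible (RandAut.aut x.1 x.2) ∧ RandAut.IsMinimal (RandAut.aut x.1 x.2)})
    (t := {x | RandAut.IsAccessible (RandAut.aut x.1 x.2)}) (fun x hx => hx.1) (Set.toFinite _)
  exact_mod_cast this

theorem minProb_nonneg (k n : ℕ) : 0 ≤ RandAut.minProb k n := by
  unfold RandAut.minProb
  positivity

theorem main (k : ℕ) (hk : 2 ≤ k) :
    1 / 2 ≤ liminf (fun n => RandAut.minProb k n) atTop ∧
      (3 ≤ k → Tendsto (fun n => RandAut.minProb k n) atTop (𝓝 1)) := by
  obtain ⟨ρ, hρ, hb⟩ := minProb_ge k hk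
  constructor
  · have hbdd : IsBoundedUnder (· ≥ ·) atTop (fun n => RandAut.minProb k n) :=
      isBoundedUnder_of ⟨0, fun n => minProb_nonneg k n⟩
    have hcob : IsCoboundedUnder (· ≥ ·) atTop (fun n => RandAut.minProb k n) :=
      (isBoundedUnder_of ⟨1, fun n => minProb_le_one k n⟩ :
        IsBoundedUnder (· ≤ ·) atTop (fun n => RandAut.minProb k n)).isCoboundedUnder_ge
    rw [le_liminf_iff hcob hbdd]
    intro y hy
    have h1 : ∀ᶠ n in atTop, ρ n < 1 / 2 - y := hρ.eventually_lt_const (by linarith)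
    filter_upwards [hb, h1] with n h2 h3
    have h4 : (if 3 ≤ k then (0 : ℝ) else 1 / 2) ≤ 1 / 2 := by split_ifs <;> norm_num
    linarith
  · intro hk3
    have h1 : Tendsto (fun n => 1 - (if 3 ≤ k then (0 : ℝ) else 1 / 2) - ρ n) atTop (𝓝 1) := by
      rw [if_pos hk3]
      have := hρ.const_sub (1 - 0 : ℝ)
      simpa using this
    refine tendsto_of_tendsto_of_tendsto_of_le_of_le' h1 tendsto_const_nhds hb ?_
    exact Eventually.of_forall fun n => minProb_le_one k n

end Pool.Agent.Helper98.Aut
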