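import Pool.Agent.Helper98.AutBasic

namespace Pool.Agent.Helper98.Aut

open Finset

set_option linter.unusedSectionVars false

variable {V A : Type*} [Fintype V] [DecidableEq V] [Fintype A] [DecidableEq A]

/-- The set `X` together with the states having a transition into `X`. -/
def inn (δ : V → A → V) (X : Finset V) : Finset V :=
  X ∪ univ.filter (fun x => ∃ c, δ x c ∈ X)

theorem subset_inn (δ : V → A → V) (X : Finset V) : X ⊆ inn δ X := Finset.subset_union_left

theorem mem_inn {δ : V → A → V} {X : Finset V} {x : V} :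
    x ∈ inn δ X ↔ x ∈ X ∨ ∃ c, δ x c ∈ X := by
  simp [inn]

/-- Iterated `inn`. -/
def lev (δ : V → A → V) (B : Finset V) : ℕ → Finset V
  | 0 => B
  | j + 1 => inn δ (lev δ B j)

theorem lev_inn (δ : V → A → V) (B : Finset V) (j : ℕ) :
    lev δ (inn δ B) j = lev δ B (j + 1) := by
  induction j with
  | zero => rfl
  | succ j ih => simp only [lev] at ih ⊢; rw [ih]

theorem lev_mono_succ (δ : V → A → V) (B : Finset V) (j : ℕ) : lev δ B j ⊆ lev δ B (j + 1) :=
  subset_inn _ _

theorem lev_mono (δ : V → A → V) (B : Finset V) {i j : ℕ} (h : i ≤ j) :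
    lev δ B i ⊆ lev δ B j := by
  induction h with
  | refl => exact Finset.Subset.refl _
  | step _ ih => exact ih.trans (lev_mono_succ _ _ _)

/-- The weight used in the analysis of the levels. -/
noncomputable def lw (l : ℝ) (a : ℕ) (δ : V → A → V) : ℕ → Finset V → Finset V → ℝ
  | 0, E, _ => if E.card = a then 1 else 0
  | i + 1, E, B => if E.card = a then 1 else
      l ^ (inn δ B \ B).card * lw l a δ i B (inn δ B)

theorem lw_nonneg {l : ℝ} (hl : 0 ≤ l) (a : ℕ) (δ : V → A → V) (i : ℕ) :
    ∀ E B, 0 ≤ lw l a δ i E B := by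
  induction i with
  | zero => intro E B; unfold lw; split_ifs <;> norm_num
  | succ i ih =>
    intro E B
    unfold lw
    split_ifs
    · norm_num
    · have := ih B (inn δ B)
      positivity

theorem lw_mono {l : ℝ} (hl : 0 ≤ l) (a : ℕ) (δ : V → A → V) (i : ℕ) :
    ∀ E B, lw l a δ i E B ≤ lw l a δ (i + 1) E B := by
  induction i with
  | zero =>
    intro E B
    have := lw_nonneg hl a δ 0 B (inn δ B)
    unfold lw
    split_ifs
    · exact le_rfl
    · positivity
  | succ i ih =>
    intro E B
    have h := ih B (inn δ B)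
    rw [lw, lw]
    split_ifs
    · exact le_rfl
    · gcongr

theorem lw_mono' {l : ℝ} (hl : 0 ≤ l) (a : ℕ) (δ : V → A → V) {i j : ℕ} (h : i ≤ j) (E B) :
    lw l a δ i E B ≤ lw l a δ j E B := by
  induction h with
  | refl => exact le_rfl
  | step _ ih => exact ih.trans (lw_mono hl a δ _ E B)

theorem lw_zero_of_lt {l : ℝ} (a : ℕ) (δ : V → A → V) (i : ℕ) :
    ∀ E B, a < E.card → E ⊆ B → lw l a δ i E B = 0 := by
  induction i with
  | zero => intro E B h _; unfold lw; rw [if_neg (by omega)]
  | succ i ih =>
    intro E B h hEB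
    unfold lw
    rw [if_neg (by omega), ih B (inn δ B) (h.trans_le (Finset.card_le_card hEB)) (subset_inn _ _),
      mul_zero]

theorem lw_eq {l : ℝ} (a : ℕ) (δ : V → A → V) (j : ℕ) : ∀ E B : Finset V, E.card ≠ a →
    (∀ i < j, (lev δ B i).card ≠ a) → (lev δ B j).card = a →
    lw l a δ (j + 1) E B = l ^ (lev δ B (j + 1) \ B).card := by
  induction j with
  | zero =>
    intro E B hE _ hB
    simp only [lev] at hB ⊢
    rw [lw, if_neg hE, lw, if_pos hB, mul_one]
  | succ j ih =>
    intro E B hE hlt hB
    rw [lw, if_neg hE, ih B (inn δ B)]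
    · rw [lev_inn, ← pow_add]
      congr 1
      have h1 : inn δ B ⊆ lev δ B (j + 1 + 1) := by
        have : inn δ B = lev δ B 1 := rfl
        rw [this]
        exact lev_mono _ _ (by omega)
      rw [Finset.card_sdiff_of_subset (subset_inn δ B), Finset.card_sdiff_of_subset h1,
        Finset.card_sdiff_of_subset ((subset_inn δ B).trans h1)]
      have h2 := Finset.card_le_card (subset_inn δ B)
      have h3 := Finset.card_le_card h1
      omega
    · exact hlt 0 (by omega)
    · intro i hi
      rw [lev_inn]
      exact hlt (i + 1) (by omega)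
    · rw [lev_inn]; exact hB

/-- All functions from letters to states avoiding `E`. -/
def av (A : Type*) [Fintype A] [DecidableEq A] (E : Finset V) : Finset (A → V) :=
  Fintype.piFinset (fun _ => univ \ E)

theorem mem_av {E : Finset V} {g : A → V} : g ∈ av A E ↔ ∀ c, g c ∉ E := by
  simp [av, Fintype.mem_piFinset]

theorem card_av (E : Finset V) :
    ((av A E).card : ℝ) = ((Fintype.card V : ℝ) - E.card) ^ Fintype.card A := by
  unfold av
  rw [Fintype.card_piFinset]
  simp only [Finset.prod_const, Finset.card_univ]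
  rw [Finset.card_sdiff_of_subset (Finset.subset_univ _), Finset.card_univ]
  rw [Nat.cast_pow, Nat.cast_sub]
  exact Finset.card_le_univ E

theorem av_subset {E B : Finset V} (h : E ⊆ B) : av A B ⊆ av A E := by
  intro g hg
  rw [mem_av] at hg ⊢
  exact fun c hc => hg c (h hc)

theorem sum_lw_le {l : ℝ} (hl : 0 ≤ l) (a : ℕ) (haN : a ≤ Fintype.card V) (i : ℕ) :
    ∀ (E B : Finset V), E ⊆ B → E.card ≤ a → ∀ (D : V → Finset (A → V)),
    (∀ x, x ∉ B → D x = av A E) →
    ∑ δ ∈ Fintype.piFinset D, lw l a δ i E B ≤
      (∏ x ∈ B, ((D x).card : ℝ)) *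
        (((Fintype.card V : ℝ) - a) ^ Fintype.card A +
          l * (((Fintype.card V : ℝ) - E.card) ^ Fintype.card A
            - ((Fintype.card V : ℝ) - a) ^ Fintype.card A)) ^ (Fintype.card V - B.card) := by
  have haN' : (a : ℝ) ≤ Fintype.card V := by exact_mod_cast haN
  have hpos : ∀ E : Finset V, E.card ≤ a → 0 ≤ ((Fintype.card V : ℝ) - a) ^ Fintype.card A +
          l * (((Fintype.card V : ℝ) - E.card) ^ Fintype.card A
            - ((Fintype.card V : ℝ) - a) ^ Fintype.card A) := by
    intro E hE
    have hE' : (E.card : ℝ) ≤ a := by exact_mod_cast hE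
    have h1 : ((Fintype.card V : ℝ) - a) ^ Fintype.card A ≤
        ((Fintype.card V : ℝ) - E.card) ^ Fintype.card A := by
      apply pow_le_pow_left₀ <;> linarith
    have h2 : 0 ≤ ((Fintype.card V : ℝ) - a) ^ Fintype.card A := pow_nonneg (by linarith) _
    have h3 := mul_nonneg hl (sub_nonneg.2 h1)
    linarith
  have hprod0 : ∀ (B : Finset V) (D : V → Finset (A → V)), 0 ≤ (∏ x ∈ B, ((D x).card : ℝ)) :=
    fun B D => Finset.prod_nonneg fun _ _ => Nat.cast_nonneg _
  induction i with
  | zero =>
    intro E B hEB hE D hD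
    by_cases ha : E.card = a
    · have h1 : ∀ δ ∈ Fintype.piFinset D, lw l a δ 0 E B = 1 := by
        intro δ _; unfold lw; rw [if_pos ha]
      rw [Finset.sum_congr rfl h1, Finset.sum_const, nsmul_eq_mul, mul_one, ha]
      simp only [sub_self, mul_zero, add_zero]
      rw [Fintype.card_piFinset, Nat.cast_prod, ← Finset.prod_mul_prod_compl B]
      apply mul_le_mul_of_nonneg_left _ (hprod0 _ _)
      have h2 : ∀ x ∈ Bᶜ, ((D x).card : ℝ) = ((Fintype.card V : ℝ) - a) ^ Fintype.card A := by
        intro x hx
        rw [Finset.mem_compl] at hx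
        rw [hD x hx, card_av, ha]
      rw [Finset.prod_congr rfl h2, Finset.prod_const, Finset.card_compl]
    · have h1 : ∀ δ ∈ Fintype.piFinset D, lw l a δ 0 E B = 0 := by
        intro δ _; unfold lw; rw [if_neg ha]
      rw [Finset.sum_congr rfl h1, Finset.sum_const, nsmul_eq_mul, mul_zero]
      exact mul_nonneg (hprod0 _ _) (pow_nonneg (hpos E hE) _)
  | succ i ih =>
    intro E B hEB hE D hD
    by_cases ha : E.card = a
    · have h1 : ∀ δ ∈ Fintype.piFinset D, lw l a δ (i + 1) E B = 1 := by
        intro δ _; unfold lw; rw [if_pos ha]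
      rw [Finset.sum_congr rfl h1, Finset.sum_const, nsmul_eq_mul, mul_one, ha]
      simp only [sub_self, mul_zero, add_zero]
      rw [Fintype.card_piFinset, Nat.cast_prod, ← Finset.prod_mul_prod_compl B]
      apply mul_le_mul_of_nonneg_left _ (hprod0 _ _)
      have h2 : ∀ x ∈ Bᶜ, ((D x).card : ℝ) = ((Fintype.card V : ℝ) - a) ^ Fintype.card A := by
        intro x hx
        rw [Finset.mem_compl] at hx
        rw [hD x hx, card_av, ha]
      rw [Finset.prod_congr rfl h2, Finset.prod_const, Finset.card_compl]
    · -- the main case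
      by_cases hBa : a < B.card
      · have h1 : ∀ δ ∈ Fintype.piFinset D, lw l a δ (i + 1) E B = 0 := by
          intro δ _; unfold lw
          rw [if_neg ha, lw_zero_of_lt a δ i B (inn δ B) hBa (subset_inn _ _), mul_zero]
        rw [Finset.sum_congr rfl h1, Finset.sum_const, nsmul_eq_mul, mul_zero]
        exact mul_nonneg (hprod0 _ _) (pow_nonneg (hpos E hE) _)
      · push Not at hBa
        classical
        -- partition according to the new level
        let DX : Finset V → V → Finset (A → V) := fun X x =>
          if x ∈ B then D x else if x ∈ X then av A E \ av A B else av A B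
        have hpart : ∑ δ ∈ Fintype.piFinset D, lw l a δ (i + 1) E B
            = ∑ X ∈ (Bᶜ).powerset, ∑ δ ∈ Fintype.piFinset (DX X), lw l a δ (i + 1) E B := by
          rw [← Finset.sum_fiberwise_of_maps_to (g := fun δ : V → A → V => inn δ B \ B)
            (t := (Bᶜ).powerset)]
          · refine Finset.sum_congr rfl fun X hX => ?_
            rw [Finset.mem_powerset] at hX
            refine Finset.sum_congr ?_ fun _ _ => rfl
            ext δ
            simp only [Finset.mem_filter, Fintype.mem_piFinset, DX]
            constructor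
            · rintro ⟨h1, h2⟩ x
              split_ifs with hB hXx
              · exact h1 x
              · rw [Finset.mem_sdiff]
                refine ⟨by rw [← hD x hB]; exact h1 x, ?_⟩
                rw [← h2, Finset.mem_sdiff, mem_inn] at hXx
                rcases hXx.1 with h3 | ⟨c, hc⟩
                · exact absurd h3 hB
                · intro h4
                  rw [mem_av] at h4
                  exact h4 c hc
              · rw [mem_av]
                intro c hc
                apply hXx
                rw [← h2, Finset.mem_sdiff, mem_inn]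
                exact ⟨Or.inr ⟨c, hc⟩, hB⟩
            · intro h1
              refine ⟨fun x => ?_, ?_⟩
              · have h2 := h1 x
                split_ifs at h2 with hB hXx
                · exact h2
                · rw [hD x hB]; exact (Finset.mem_sdiff.1 h2).1
                · rw [hD x hB]; exact av_subset hEB h2
              · ext x
                rw [Finset.mem_sdiff, mem_inn]
                have h2 := h1 x
                constructor
                · rintro ⟨h3 | ⟨c, hc⟩, h4⟩
                  · exact absurd h3 h4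
                  · by_contra hXx
                    rw [if_neg h4, if_neg hXx, mem_av] at h2
                    exact h2 c hc
                · intro hXx
                  have h4 : x ∉ B := Finset.mem_compl.1 (hX hXx)
                  rw [if_neg h4, if_pos hXx, Finset.mem_sdiff, mem_av, mem_av] at h2
                  refine ⟨Or.inr ?_, h4⟩
                  by_contra h5
                  push Not at h5
                  exact h2.2 h5
          · intro δ _
            rw [Finset.mem_powerset]
            intro x hx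
            rw [Finset.mem_sdiff] at hx
            exact Finset.mem_compl.2 hx.2
        rw [hpart]
        set al := ((Fintype.card V : ℝ) - E.card) ^ Fintype.card A with hal
        set be := ((Fintype.card V : ℝ) - B.card) ^ Fintype.card A with hbe
        set ga := ((Fintype.card V : ℝ) - a) ^ Fintype.card A with hga
        have hcardsub : ((av A E \ av A B).card : ℝ) = al - be := by
          rw [Finset.card_sdiff_of_subset (av_subset hEB), Nat.cast_sub
            (Finset.card_le_card (av_subset hEB)), card_av, card_av]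
        have hterm : ∀ X ∈ (Bᶜ).powerset,
            ∑ δ ∈ Fintype.piFinset (DX X), lw l a δ (i + 1) E B ≤
            (∏ x ∈ B, ((D x).card : ℝ)) * ((l * (al - be)) ^ X.card *
              (ga + l * (be - ga)) ^ ((Bᶜ).card - X.card)) := by
          intro X hX
          rw [Finset.mem_powerset] at hX
          have hdisj : Disjoint B X := by
            rw [Finset.disjoint_right]
            intro x hx
            exact Finset.mem_compl.1 (hX hx)
          have hinn : ∀ δ ∈ Fintype.piFinset (DX X), inn δ B = B ∪ X := by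
            intro δ hδ
            rw [Fintype.mem_piFinset] at hδ
            ext x
            rw [mem_inn, Finset.mem_union]
            have h2 := hδ x
            simp only [DX] at h2
            by_cases hB : x ∈ B
            · simp [hB]
            · rw [if_neg hB] at h2
              by_cases hXx : x ∈ X
              · rw [if_pos hXx, Finset.mem_sdiff, mem_av, mem_av] at h2
                have h3 : ∃ c, δ x c ∈ B := by
                  by_contra h5
                  push Not at h5
                  exact h2.2 h5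
                simp [hXx, h3]
              · rw [if_neg hXx, mem_av] at h2
                simp [hXx, hB, h2]
          have h1 : ∀ δ ∈ Fintype.piFinset (DX X), lw l a δ (i + 1) E B
              = l ^ X.card * lw l a δ i B (B ∪ X) := by
            intro δ hδ
            rw [lw, if_neg ha, hinn δ hδ, Finset.union_sdiff_left,
              Finset.sdiff_eq_self_of_disjoint hdisj.symm]
          rw [Finset.sum_congr rfl h1, ← Finset.mul_sum]
          have h2 := ih B (B ∪ X) Finset.subset_union_left hBa (DX X) (by
            intro x hx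
            rw [Finset.mem_union, not_or] at hx
            simp only [DX]
            rw [if_neg hx.1, if_neg hx.2])
          have h3 := mul_le_mul_of_nonneg_left h2 (pow_nonneg hl X.card)
          refine h3.trans (le_of_eq ?_)
          rw [Finset.prod_union hdisj]
          have h4 : ∏ x ∈ B, ((DX X x).card : ℝ) = ∏ x ∈ B, ((D x).card : ℝ) := by
            refine Finset.prod_congr rfl fun x hx => ?_
            simp only [DX]
            rw [if_pos hx]
          have h5 : ∏ x ∈ X, ((DX X x).card : ℝ) = (al - be) ^ X.card := by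
            rw [Finset.prod_congr rfl (g := fun _ => al - be), Finset.prod_const]
            intro x hx
            have hB : x ∉ B := Finset.mem_compl.1 (hX hx)
            simp only [DX]
            rw [if_neg hB, if_pos hx, hcardsub]
          rw [h4, h5, Finset.card_union_of_disjoint hdisj, Finset.card_compl, Nat.sub_sub, mul_pow]
          ring
        refine (Finset.sum_le_sum hterm).trans (le_of_eq ?_)
        rw [← Finset.mul_sum, Finset.sum_pow_mul_eq_add_pow, Finset.card_compl]
        congr 2
        ring

/-- The total weight estimate for the levels of a single state. -/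
theorem sum_lw_singleton_le {l : ℝ} (hl : 0 ≤ l) (a : ℕ) (haN : a ≤ Fintype.card V) (i : ℕ)
    (f : V) :
    ∑ δ : V → A → V, lw l a δ i ∅ {f} ≤ ((Fintype.card V : ℝ) ^ Fintype.card A) *
        (((Fintype.card V : ℝ) - a) ^ Fintype.card A +
          l * ((Fintype.card V : ℝ) ^ Fintype.card A
            - ((Fintype.card V : ℝ) - a) ^ Fintype.card A)) ^ (Fintype.card V - 1) := by
  have h := sum_lw_le (A := A) hl a haN i (∅ : Finset V) {f} (Finset.empty_subset _) (by simp)
    (fun _ => av A ∅) (fun _ _ => rfl)
  have h1 : Fintype.piFinset (fun _ : V => av A (∅ : Finset V)) = univ := by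
    ext δ
    simp [Fintype.mem_piFinset, mem_av]
  rw [h1] at h
  simpa [card_av] using h

/-- Number of (curried) transition tables with the property `Q`. -/
noncomputable def numc (Q : (V → A → V) → Prop) : ℝ :=
  haveI := Classical.decPred Q
  (((univ : Finset (V → A → V)).filter Q).card : ℝ)

theorem numc_eq (Q : (V → A → V) → Prop) [DecidablePred Q] :
    numc Q = (((univ : Finset (V → A → V)).filter Q).card : ℝ) := by
  unfold numc
  congr

/-- The uncurried count. -/
theorem cnt_curry (Q : (V → A → V) → Prop) :
    cnt (fun _ : V × A => (univ : Finset V)) (fun δ => Q (Function.curry δ)) = numc Q := by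
  classical
  rw [cnt_eq, numc_eq]
  congr 1
  refine Finset.card_bij' (fun δ _ => Function.curry δ) (fun δ _ => Function.uncurry δ) ?_ ?_ ?_ ?_
  · intro δ hδ
    simp only [Finset.mem_filter, Finset.mem_univ, true_and] at hδ ⊢
    exact hδ.2
  · intro δ hδ
    simp only [Finset.mem_filter, Finset.mem_univ, true_and, Fintype.mem_piFinset] at hδ ⊢
    exact ⟨fun _ => trivial, hδ⟩
  · intro δ _; simp
  · intro δ _; simp

/-- Counting form: a fixed final state, a level of size `a`, and a condition on the next level
under which the weight is at least `c`. -/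
theorem card_level_le {l : ℝ} (hl : 0 ≤ l) (a : ℕ) (ha : 0 < a) (haN : a ≤ Fintype.card V)
    (f : V) (R : ℕ → Prop) (c : ℝ) (hc : ∀ b, a ≤ b → R b → c ≤ l ^ (b - 1)) 
    (_hc0 : 0 ≤ c) :
    numc (fun δ : V → A → V => ∃ j, (lev δ {f} j).card = a ∧ R (lev δ {f} (j + 1)).card) * c ≤
    ((Fintype.card V : ℝ) ^ Fintype.card A) *
        (((Fintype.card V : ℝ) - a) ^ Fintype.card A +
          l * ((Fintype.card V : ℝ) ^ Fintype.card A
            - ((Fintype.card V : ℝ) - a) ^ Fintype.card A)) ^ (Fintype.card V - 1) := by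
  classical
  -- first index with the size `a`
  let J : (V → A → V) → ℕ := fun δ =>
    if h : ∃ j, (lev δ {f} j).card = a then Nat.find h else 0
  obtain ⟨i, hi⟩ : ∃ i, ∀ δ : V → A → V, J δ + 1 ≤ i := by
    refine ⟨(univ : Finset (V → A → V)).sup J + 1, fun δ => ?_⟩
    have := Finset.le_sup (f := J) (Finset.mem_univ δ)
    omega
  refine le_trans ?_ (sum_lw_singleton_le hl a haN i f)
  rw [numc_eq, ← nsmul_eq_mul, ← Finset.sum_const]
  refine (Finset.sum_le_sum (g := fun δ => lw l a δ i ∅ {f}) ?_).trans
    (Finset.sum_le_sum_of_subset_of_nonneg (Finset.filter_subset _ _)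
      (fun δ _ _ => lw_nonneg hl a δ i _ _))
  intro δ hδ
  rw [Finset.mem_filter] at hδ
  obtain ⟨_, j, hj, hR⟩ := hδ
  have hex : ∃ j, (lev δ {f} j).card = a := ⟨j, hj⟩
  have hJ : J δ = Nat.find hex := by simp only [J]; rw [dif_pos hex]
  have hJs := Nat.find_spec hex
  have hJm : ∀ i < J δ, (lev δ {f} i).card ≠ a := by
    intro i hi
    rw [hJ] at hi
    exact Nat.find_min hex hi
  rw [← hJ] at hJs
  have h1 := lw_eq (l := l) a δ (J δ) ∅ {f} (by simp; omega) hJm hJs
  have h2 := lw_mono' hl a δ (hi δ) (∅ : Finset V) {f}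
  have h3 : J δ ≤ j := by rw [hJ]; exact Nat.find_min' hex hj
  have h4 : lev δ {f} (J δ) = lev δ {f} j :=
    Finset.eq_of_subset_of_card_le (lev_mono δ {f} h3) (by rw [hJs, hj])
  have h5 : lev δ {f} (J δ + 1) = lev δ {f} (j + 1) := by
    simp only [lev]; rw [h4]
  refine le_trans ?_ h2
  rw [h1, h5]
  have h6 : ({f} : Finset V) ⊆ lev δ {f} (j + 1) := lev_mono δ {f} (Nat.zero_le (j + 1))
  rw [Finset.card_sdiff_of_subset h6, Finset.card_singleton]
  apply hc _ _ hR
  rw [← hj]
  exact Finset.card_le_card (lev_mono_succ δ {f} j)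

theorem card_tab : ((Fintype.card (V → A → V) : ℕ) : ℝ)
    = (Fintype.card V : ℝ) ^ (Fintype.card A * Fintype.card V) := by
  rw [Fintype.card_fun, Fintype.card_fun]
  push_cast
  rw [← pow_mul]

/-- Slow growth is unlikely. -/
theorem card_slow_le (hk : 2 ≤ Fintype.card A) (hN : 1000 ≤ Fintype.card V) (f : V) (a : ℕ)
    (ha : 0 < a) (haN : 100 * a ≤ Fintype.card V) :
    numc (fun δ : V → A → V =>
      ∃ j, (lev δ {f} j).card = a ∧ 8 * (lev δ {f} (j + 1)).card ≤ 9 * a) ≤
    Fintype.card (V → A → V) * Real.exp (- (a / 5)) := by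
  have h := card_level_le (A := A) (l := 1 / 2) (by norm_num) a ha (by omega) f
    (fun b => 8 * b ≤ 9 * a) (Real.exp (- (Real.log 2 * (9 * a / 8)))) (by
      intro b hab hb
      have h1 : ((1 : ℝ) / 2) ^ (b - 1) = Real.exp (- (Real.log 2 * ((b - 1 : ℕ) : ℝ))) := by
        rw [Real.exp_neg, mul_comm, Real.exp_nat_mul, Real.exp_log (by norm_num), one_div, inv_pow]
      rw [h1, Real.exp_le_exp, neg_le_neg_iff]
      apply mul_le_mul_of_nonneg_left _ (Real.log_nonneg (by norm_num))
      have h2 : (8 * b : ℝ) ≤ 9 * a := by exact_mod_cast hb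
      have h3 : ((b - 1 : ℕ) : ℝ) ≤ b := by exact_mod_cast Nat.sub_le b 1
      linarith) (Real.exp_pos _).le
  set N : ℝ := (Fintype.card V : ℝ) with hNd
  set k := Fintype.card A with hkd
  have hN0 : (1000 : ℝ) ≤ N := by rw [hNd]; exact_mod_cast hN
  have haN' : 100 * (a : ℝ) ≤ N := by rw [hNd]; exact_mod_cast haN
  have ha' : (1 : ℝ) ≤ a := by exact_mod_cast ha
  have hNpos : 0 < N := by linarith
  -- the base
  have hbase : (N - a) ^ k + 1 / 2 * (N ^ k - (N - a) ^ k)
      ≤ N ^ k * Real.exp (- (1 / 2 * (2 * (a / N) - (a / N) ^ 2))) := by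
    have h1 : (N - a) ^ k ≤ N ^ k * (1 - a / N) ^ 2 := by
      have h2 : N - a = N * (1 - a / N) := by field_simp
      rw [h2, mul_pow]
      apply mul_le_mul_of_nonneg_left _ (by positivity)
      apply pow_le_pow_of_le_one
      · have : (a : ℝ) / N ≤ 1 := by rw [div_le_one hNpos]; linarith
        linarith
      · have : 0 ≤ (a : ℝ) / N := by positivity
        linarith
      · exact hk
    have h3 : (N - a) ^ k + 1 / 2 * (N ^ k - (N - a) ^ k)
        ≤ N ^ k * (1 - 1 / 2 * (2 * (a / N) - (a / N) ^ 2)) := by
      nlinarith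
    refine h3.trans ?_
    apply mul_le_mul_of_nonneg_left _ (by positivity)
    have := Real.add_one_le_exp (- (1 / 2 * (2 * ((a : ℝ) / N) - (a / N) ^ 2)))
    linarith
  have hb0 : 0 ≤ (N - a) ^ k + 1 / 2 * (N ^ k - (N - a) ^ k) := by
    have h1 : 0 ≤ (N - a) ^ k := pow_nonneg (by linarith) _
    have h2 : 0 ≤ N ^ k := by positivity
    linarith
  have hpow := pow_le_pow_left₀ hb0 hbase (Fintype.card V - 1)
  have hNk : 0 ≤ N ^ k := by positivity
  have h5 := h.trans (mul_le_mul_of_nonneg_left hpow hNk)
  rw [mul_pow, ← mul_assoc, ← pow_succ'] at h5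
  have h6 : Fintype.card V - 1 + 1 = Fintype.card V := by omega
  rw [h6, ← pow_mul, ← Real.exp_nat_mul] at h5
  have h7 : ((Fintype.card (V → A → V) : ℕ) : ℝ) = N ^ (k * Fintype.card V) := card_tab
  rw [h7]
  have h8 : ((Fintype.card V - 1 : ℕ) : ℝ) = N - 1 := by
    rw [Nat.cast_sub (by omega)]; simp [hNd]
  rw [h8] at h5
  have hE := Real.exp_pos (-(Real.log 2 * (9 * a / 8)))
  rw [← le_div_iff₀ hE] at h5
  refine h5.trans ?_
  rw [mul_div_assoc, ← Real.exp_sub]
  apply mul_le_mul_of_nonneg_left _ (by positivity)
  rw [Real.exp_le_exp]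
  have hlog := Real.log_two_lt_d9
  have h9 : (N - 1) * (1 / 2 * (2 * (a / N) - (a / N) ^ 2)) ≥ 0.99 * a := by
    have h10 : (a : ℝ) / N ≤ 1 / 100 := by
      rw [div_le_iff₀ hNpos]; linarith
    have h11 : (N - 1) / N ≥ 0.999 := by
      rw [ge_iff_le, le_div_iff₀ hNpos]; linarith
    have h12 : (N - 1) * (1 / 2 * (2 * (a / N) - (a / N) ^ 2))
        = ((N - 1) / N) * (a * (1 - (a / N) / 2)) := by
      field_simp
    rw [h12]
    have h13 : (a : ℝ) * (1 - (a / N) / 2) ≥ 0.995 * a := by nlinarith
    nlinarith
  nlinarith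

/-- Fast growth is unlikely. -/
theorem card_fast_le (hN : 1 ≤ Fintype.card V) (f : V) (a c : ℕ) (ha : 0 < a)
    (haN : a ≤ Fintype.card V) (hc : 0 < c) :
    numc (fun δ : V → A → V =>
      ∃ j, (lev δ {f} j).card = a ∧ c ≤ (lev δ {f} (j + 1)).card) ≤
    Fintype.card (V → A → V) * (Real.exp (Fintype.card A * a) * (2 * (1 / 2) ^ c)) := by
  have h := card_level_le (A := A) (l := 2) (by norm_num) a ha haN f
    (fun b => c ≤ b) (2 ^ (c - 1)) (by
      intro b _ hb
      exact pow_le_pow_right₀ (by norm_num) (by omega)) (by positivity)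
  set N : ℝ := (Fintype.card V : ℝ) with hNd
  set k := Fintype.card A with hkd
  have haN' : (a : ℝ) ≤ N := by rw [hNd]; exact_mod_cast haN
  have hNpos : 0 < N := by
    have : (1 : ℝ) ≤ N := by rw [hNd]; exact_mod_cast hN
    linarith
  have hx : 0 ≤ (a : ℝ) / N := by positivity
  have hx1 : (a : ℝ) / N ≤ 1 := by rw [div_le_one hNpos]; exact haN'
  have hbase : (N - a) ^ k + 2 * (N ^ k - (N - a) ^ k)
      ≤ N ^ k * Real.exp (k * (a / N)) := by
    have h2 : N - a = N * (1 - a / N) := by field_simp
    have h3 : 1 - k * (a / N) ≤ (1 - a / N) ^ k := by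
      have := one_add_mul_le_pow (a := - ((a : ℝ) / N)) (by linarith) k
      have h4 : (1 : ℝ) + -(a / N) = 1 - a / N := by ring
      rw [h4] at this
      linarith
    have h4 := Real.add_one_le_exp (k * ((a : ℝ) / N))
    have h5 : 0 ≤ N ^ k := by positivity
    rw [h2, mul_pow]
    have h6 : N ^ k * (1 - a / N) ^ k + 2 * (N ^ k - N ^ k * (1 - a / N) ^ k)
        = N ^ k * (2 - (1 - a / N) ^ k) := by ring
    rw [h6]
    apply mul_le_mul_of_nonneg_left _ h5
    linarith
  have hb0 : 0 ≤ (N - a) ^ k + 2 * (N ^ k - (N - a) ^ k) := by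
    have h1 : 0 ≤ (N - a) ^ k := pow_nonneg (by linarith) _
    have h2 : (N - a) ^ k ≤ N ^ k := by
      apply pow_le_pow_left₀ (by linarith)
      have : (0 : ℝ) ≤ a := Nat.cast_nonneg _
      linarith
    linarith
  have hpow := pow_le_pow_left₀ hb0 hbase (Fintype.card V - 1)
  have hNk : 0 ≤ N ^ k := by positivity
  have h5 := h.trans (mul_le_mul_of_nonneg_left hpow hNk)
  rw [mul_pow, ← mul_assoc, ← pow_succ'] at h5
  have h6 : Fintype.card V - 1 + 1 = Fintype.card V := by omega
  rw [h6, ← pow_mul, ← Real.exp_nat_mul] at h5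
  have h7 : ((Fintype.card (V → A → V) : ℕ) : ℝ) = N ^ (k * Fintype.card V) := card_tab
  rw [h7]
  have h8 : ((Fintype.card V - 1 : ℕ) : ℝ) = N - 1 := by
    rw [Nat.cast_sub (by omega)]; simp [hNd]
  rw [h8] at h5
  have h9 : Real.exp ((N - 1) * (k * (a / N))) ≤ Real.exp (k * a) := by
    rw [Real.exp_le_exp]
    have h10 : (N - 1) * (k * ((a : ℝ) / N)) = k * a - k * (a / N) := by
      field_simp
    have h11 : 0 ≤ (k : ℝ) * (a / N) := by positivity
    linarith
  have h10 : (2 : ℝ) * (1 / 2) ^ c = (2 ^ (c - 1))⁻¹ := by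
    obtain ⟨d, rfl⟩ : ∃ d, c = d + 1 := ⟨c - 1, by omega⟩
    rw [Nat.add_sub_cancel, pow_succ, one_div, inv_pow]
    ring
  rw [h10, ← mul_assoc, ← div_eq_mul_inv, le_div_iff₀ (by positivity)]
  refine h5.trans ?_
  apply mul_le_mul_of_nonneg_left h9 (by positivity)

end Pool.Agent.Helper98.Aut
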