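import Pool.Agent.Helper98.AutLevel

namespace Pool.Agent.Helper98.Aut

open Finset

set_option linter.unusedSectionVars false

variable {V A : Type*} [Fintype V] [DecidableEq V] [Fintype A] [DecidableEq A]

theorem lev_card_pos (δ : V → A → V) (f : V) (j : ℕ) : 0 < (lev δ {f} j).card := by
  have h : ({f} : Finset V) ⊆ lev δ {f} j := lev_mono δ {f} (Nat.zero_le j)
  exact Finset.card_pos.2 ⟨f, h (Finset.mem_singleton_self f)⟩

theorem lev_stable (δ : V → A → V) (B : Finset V) {i : ℕ} (h : lev δ B (i + 1) = lev δ B i) :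
    ∀ j, i ≤ j → lev δ B j = lev δ B i := by
  intro j hj
  induction hj with
  | refl => rfl
  | step _ ih => simp only [lev] at h ⊢; rw [ih, h]

/-- The property of the levels needed for the separation argument. -/
def GoodAt (M L : ℕ) (δ : V → A → V) (f : V) (l : ℕ) : Prop :=
  M ≤ (lev δ {f} l).card ∧ (lev δ {f} l).card ≤ 8 * (lev δ {f} (l + 1) \ lev δ {f} l).card ∧
    (lev δ {f} (l + 1)).card < L

theorem exists_goodAt (δ : V → A → V) (f : V) (M0 M K : ℕ) (hM : 1 < M) (hM0 : M0 ≤ M)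
    (h0 : ∃ j, M0 ≤ (lev δ {f} j).card)
    (b1 : ∀ a, M0 ≤ a → a < K * M →
      ¬ ∃ j, (lev δ {f} j).card = a ∧ 8 * (lev δ {f} (j + 1)).card ≤ 9 * a)
    (b2 : ∀ a, 0 < a → a < M →
      ¬ ∃ j, (lev δ {f} j).card = a ∧ K * M ≤ (lev δ {f} (j + 1)).card)
    (b3 : ∀ a, 0 < a → a < K * M →
      ¬ ∃ j, (lev δ {f} j).card = a ∧ K * (K * M) ≤ (lev δ {f} (j + 1)).card)
    (hK : 1 ≤ K) :
    ∃ l ∈ Finset.range (Fintype.card V), GoodAt M (K * (K * M)) δ f l := by
  have hMK : M ≤ K * M := Nat.le_mul_of_pos_left M hK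
  have hex : ∃ j, M ≤ (lev δ {f} j).card := by
    by_contra hcon
    push Not at hcon
    obtain ⟨j0, hj0⟩ := h0
    have hinc : ∀ i, M0 + i ≤ (lev δ {f} (j0 + i)).card := by
      intro i
      induction i with
      | zero => simpa using hj0
      | succ i ih =>
        have h1 := hcon (j0 + i)
        have h2 := b1 (lev δ {f} (j0 + i)).card (by omega) (by omega)
        push Not at h2
        have h3 := h2 (j0 + i) rfl
        have h4 : j0 + (i + 1) = j0 + i + 1 := by ring
        rw [h4]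
        have h5 := lev_card_pos δ f (j0 + i)
        omega
    have := hinc M
    have := hcon (j0 + M)
    omega
  have hspec := Nat.find_spec hex
  have hmin : ∀ i < Nat.find hex, (lev δ {f} i).card < M := fun i hi => by
    have := Nat.find_min hex hi
    omega
  set l := Nat.find hex with hl
  have hl0 : l ≠ 0 := by
    intro h
    rw [h] at hspec
    simp [lev] at hspec
    omega
  obtain ⟨l', hl'⟩ : ∃ l', l = l' + 1 := ⟨l - 1, by omega⟩
  have h1 : (lev δ {f} l').card < M := hmin l' (by omega)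
  have h2 : (lev δ {f} l).card < K * M := by
    have := b2 _ (lev_card_pos δ f l') h1
    push Not at this
    have := this l' rfl
    rw [hl']
    exact this
  have h3 : (lev δ {f} (l + 1)).card < K * (K * M) := by
    have := b3 _ (lev_card_pos δ f l) h2
    push Not at this
    exact this l rfl
  have h4 := b1 _ (hM0.trans hspec) h2
  push Not at h4
  have h5 := h4 l rfl
  refine ⟨l, ?_, hspec, ?_, h3⟩
  · -- the index is small
    rw [Finset.mem_range]
    have hstrict : ∀ i < l, (lev δ {f} i).card < (lev δ {f} (i + 1)).card := by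
      intro i hi
      by_contra hcon
      push Not at hcon
      have h6 : lev δ {f} (i + 1) = lev δ {f} i :=
        (Finset.eq_of_subset_of_card_le (lev_mono_succ δ {f} i) hcon).symm
      have h7 := lev_stable δ {f} h6 l (by omega)
      rw [h7] at hspec
      have := hmin i hi
      omega
    have hge : ∀ i, i ≤ l → i + 1 ≤ (lev δ {f} i).card := by
      intro i
      induction i with
      | zero => intro _; exact lev_card_pos δ f 0
      | succ i ih =>
        intro hi
        have := ih (by omega)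
        have := hstrict i (by omega)
        omega
    have h8 := hge l le_rfl
    have h9 := Finset.card_le_univ (lev δ {f} l)
    omega
  · rw [Finset.card_sdiff_of_subset (lev_mono_succ δ {f} l)]
    have := Finset.card_le_card (lev_mono_succ δ {f} l)
    omega

theorem numc_nonneg (Q : (V → A → V) → Prop) : 0 ≤ numc Q := Nat.cast_nonneg _

theorem numc_mono {Q Q' : (V → A → V) → Prop} (h : ∀ δ, Q δ → Q' δ) : numc Q ≤ numc Q' := by
  classical
  rw [numc_eq, numc_eq]
  exact_mod_cast Finset.card_le_card (Finset.monotone_filter_right _ (fun δ _ => h δ))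

theorem numc_or_le (Q Q' : (V → A → V) → Prop) :
    numc (fun δ => Q δ ∨ Q' δ) ≤ numc Q + numc Q' := by
  classical
  rw [numc_eq, numc_eq, numc_eq]
  rw [Finset.filter_or]
  exact_mod_cast Finset.card_union_le _ _

theorem numc_exists_le {ι : Type*} (s : Finset ι) (Q : ι → (V → A → V) → Prop) :
    numc (fun δ => ∃ i ∈ s, Q i δ) ≤ ∑ i ∈ s, numc (Q i) := by
  classical
  simp only [numc_eq]
  have : ((univ : Finset (V → A → V)).filter fun δ => ∃ i ∈ s, Q i δ)
      ⊆ s.biUnion fun i => (univ : Finset (V → A → V)).filter (Q i) := by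
    intro δ hδ
    rw [Finset.mem_filter] at hδ
    obtain ⟨i, hi, hq⟩ := hδ.2
    rw [Finset.mem_biUnion]
    exact ⟨i, hi, Finset.mem_filter.2 ⟨hδ.1, hq⟩⟩
  calc _ ≤ (((s.biUnion fun i => (univ : Finset (V → A → V)).filter (Q i)).card : ℕ) : ℝ) := by
        exact_mod_cast Finset.card_le_card this
    _ ≤ _ := by exact_mod_cast Finset.card_biUnion_le

theorem exp_half_le (k K M a : ℕ) (hK : K = 2 * k + 1) (ha : a ≤ M) :
    Real.exp (k * a) * (2 * (1 / 2) ^ (K * M)) ≤ 2 * Real.exp (- (M / 5)) := by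
  have h1 : ((1 : ℝ) / 2) ^ (K * M) = Real.exp (- (Real.log 2 * ((K * M : ℕ) : ℝ))) := by
    rw [Real.exp_neg, mul_comm (Real.log 2), Real.exp_nat_mul, Real.exp_log (by norm_num),
      one_div, inv_pow]
  rw [h1]
  have h2 : Real.exp (k * a) * (2 * Real.exp (- (Real.log 2 * ((K * M : ℕ) : ℝ))))
      = 2 * Real.exp (k * a - Real.log 2 * ((K * M : ℕ) : ℝ)) := by
    rw [sub_eq_add_neg, Real.exp_add]; ring
  rw [h2]
  apply mul_le_mul_of_nonneg_left _ (by norm_num)
  rw [Real.exp_le_exp, hK]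
  push_cast
  have hlog := Real.log_two_gt_d9
  have ha' : (a : ℝ) ≤ M := by exact_mod_cast ha
  have hM0 : (0 : ℝ) ≤ M := Nat.cast_nonneg _
  have hk0 : (0 : ℝ) ≤ k := Nat.cast_nonneg _
  have h3 : (k : ℝ) * a ≤ k * M := mul_le_mul_of_nonneg_left ha' hk0
  have hkM : 0 ≤ (k : ℝ) * M := mul_nonneg hk0 hM0
  have h4 : Real.log 2 * ((2 * (k : ℝ) + 1) * M) = 2 * Real.log 2 * (k * M) + Real.log 2 * M := by
    ring
  rw [h4]
  nlinarith

/-- Whenever the ancestors are not too few, the levels are good, up to a rare event. -/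
theorem numc_not_good_le (hk : 2 ≤ Fintype.card A) (hN : 1000 ≤ Fintype.card V) (f : V)
    (M0 M K : ℕ) (hK : K = 2 * Fintype.card A + 1) (h0 : 0 < M0) (hM : 1 < M) (hM0 : M0 ≤ M)
    (hNM : 100 * (K * M) ≤ Fintype.card V) :
    numc (fun δ : V → A → V => (∃ j, M0 ≤ (lev δ {f} j).card) ∧
      ¬ ∃ l ∈ Finset.range (Fintype.card V), GoodAt M (K * (K * M)) δ f l) ≤
    Fintype.card (V → A → V) * (5 * K * M * Real.exp (- (M0 / 5))) := by
  classical
  have hK1 : 1 ≤ K := by omega
  have hMK : M ≤ K * M := Nat.le_mul_of_pos_left M hK1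
  -- the three bad events
  have hsub : ∀ δ : V → A → V, ((∃ j, M0 ≤ (lev δ {f} j).card) ∧
      ¬ ∃ l ∈ Finset.range (Fintype.card V), GoodAt M (K * (K * M)) δ f l) →
      ((∃ a ∈ Finset.Ico M0 (K * M),
        ∃ j, (lev δ {f} j).card = a ∧ 8 * (lev δ {f} (j + 1)).card ≤ 9 * a) ∨
      (∃ a ∈ Finset.Ico 1 M,
        ∃ j, (lev δ {f} j).card = a ∧ K * M ≤ (lev δ {f} (j + 1)).card)) ∨
      (∃ a ∈ Finset.Ico 1 (K * M),
        ∃ j, (lev δ {f} j).card = a ∧ K * (K * M) ≤ (lev δ {f} (j + 1)).card) := by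
    rintro δ ⟨h1, h2⟩
    by_contra hcon
    rw [not_or, not_or] at hcon
    obtain ⟨⟨c1, c2⟩, c3⟩ := hcon
    apply h2
    refine exists_goodAt δ f M0 M K hM hM0 h1 ?_ ?_ ?_ hK1
    · intro a ha1 ha2 h3
      exact c1 ⟨a, Finset.mem_Ico.2 ⟨ha1, ha2⟩, h3⟩
    · intro a ha1 ha2 h3
      exact c2 ⟨a, Finset.mem_Ico.2 ⟨ha1, ha2⟩, h3⟩
    · intro a ha1 ha2 h3
      exact c3 ⟨a, Finset.mem_Ico.2 ⟨ha1, ha2⟩, h3⟩
  refine (numc_mono hsub).trans ?_
  refine (numc_or_le _ _).trans ?_
  have hE1 := numc_or_le (fun δ : V → A → V => ∃ a ∈ Finset.Ico M0 (K * M),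
        ∃ j, (lev δ {f} j).card = a ∧ 8 * (lev δ {f} (j + 1)).card ≤ 9 * a)
      (fun δ : V → A → V => ∃ a ∈ Finset.Ico 1 M,
        ∃ j, (lev δ {f} j).card = a ∧ K * M ≤ (lev δ {f} (j + 1)).card)
  have hT : (0 : ℝ) ≤ Fintype.card (V → A → V) := Nat.cast_nonneg _
  have s1 : numc (fun δ : V → A → V => ∃ a ∈ Finset.Ico M0 (K * M),
        ∃ j, (lev δ {f} j).card = a ∧ 8 * (lev δ {f} (j + 1)).card ≤ 9 * a) ≤
      Fintype.card (V → A → V) * ((K * M) * Real.exp (- (M0 / 5))) := by
    refine (numc_exists_le _ _).trans ?_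
    have hb : ∀ a ∈ Finset.Ico M0 (K * M), numc (fun δ : V → A → V =>
        ∃ j, (lev δ {f} j).card = a ∧ 8 * (lev δ {f} (j + 1)).card ≤ 9 * a) ≤
        Fintype.card (V → A → V) * Real.exp (- (M0 / 5)) := by
      intro a ha
      rw [Finset.mem_Ico] at ha
      refine (card_slow_le hk hN f a (by omega) ?_).trans ?_
      · have : a ≤ K * M := ha.2.le
        calc 100 * a ≤ 100 * (K * M) := Nat.mul_le_mul_left _ this
          _ ≤ _ := hNM
      · apply mul_le_mul_of_nonneg_left _ hT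
        rw [Real.exp_le_exp]
        have : (M0 : ℝ) ≤ a := by exact_mod_cast ha.1
        linarith
    refine (Finset.sum_le_card_nsmul _ _ _ hb).trans ?_
    rw [nsmul_eq_mul, Nat.card_Ico]
    have h3 : ((K * M - M0 : ℕ) : ℝ) ≤ K * M := by
      exact_mod_cast Nat.sub_le _ _
    have h4 := Real.exp_pos (-((M0 : ℝ) / 5))
    calc ((K * M - M0 : ℕ) : ℝ) * (Fintype.card (V → A → V) * Real.exp (- (M0 / 5)))
        ≤ (K * M) * (Fintype.card (V → A → V) * Real.exp (- (M0 / 5))) := by gcongr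
      _ = _ := by ring
  have hexpM : Real.exp (- ((M : ℝ) / 5)) ≤ Real.exp (- ((M0 : ℝ) / 5)) := by
    rw [Real.exp_le_exp]
    have : (M0 : ℝ) ≤ M := by exact_mod_cast hM0
    linarith
  have s2 : numc (fun δ : V → A → V => ∃ a ∈ Finset.Ico 1 M,
        ∃ j, (lev δ {f} j).card = a ∧ K * M ≤ (lev δ {f} (j + 1)).card) ≤
      Fintype.card (V → A → V) * ((M : ℝ) * (2 * Real.exp (- (M0 / 5)))) := by
    refine (numc_exists_le _ _).trans ?_
    have hb : ∀ a ∈ Finset.Ico 1 M, numc (fun δ : V → A → V =>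
        ∃ j, (lev δ {f} j).card = a ∧ K * M ≤ (lev δ {f} (j + 1)).card) ≤
        Fintype.card (V → A → V) * (2 * Real.exp (- (M0 / 5))) := by
      intro a ha
      rw [Finset.mem_Ico] at ha
      refine (card_fast_le (by omega) f a (K * M) (by omega) ?_ (by positivity)).trans ?_
      · have : a ≤ K * M := by omega
        omega
      · apply mul_le_mul_of_nonneg_left _ hT
        refine (exp_half_le _ K M a hK ha.2.le).trans ?_
        linarith
    refine (Finset.sum_le_card_nsmul _ _ _ hb).trans ?_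
    rw [nsmul_eq_mul, Nat.card_Ico]
    have h3 : ((M - 1 : ℕ) : ℝ) ≤ M := by
      exact_mod_cast Nat.sub_le _ _
    have h4 := Real.exp_pos (-((M0 : ℝ) / 5))
    calc ((M - 1 : ℕ) : ℝ) * (Fintype.card (V → A → V) * (2 * Real.exp (- (M0 / 5))))
        ≤ M * (Fintype.card (V → A → V) * (2 * Real.exp (- (M0 / 5)))) := by gcongr
      _ = _ := by ring
  have s3 : numc (fun δ : V → A → V => ∃ a ∈ Finset.Ico 1 (K * M),
        ∃ j, (lev δ {f} j).card = a ∧ K * (K * M) ≤ (lev δ {f} (j + 1)).card) ≤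
      Fintype.card (V → A → V) * ((K * M) * (2 * Real.exp (- (M0 / 5)))) := by
    refine (numc_exists_le _ _).trans ?_
    have hb : ∀ a ∈ Finset.Ico 1 (K * M), numc (fun δ : V → A → V =>
        ∃ j, (lev δ {f} j).card = a ∧ K * (K * M) ≤ (lev δ {f} (j + 1)).card) ≤
        Fintype.card (V → A → V) * (2 * Real.exp (- (M0 / 5))) := by
      intro a ha
      rw [Finset.mem_Ico] at ha
      refine (card_fast_le (by omega) f a (K * (K * M)) (by omega) ?_ (by positivity)).trans ?_
      · omega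
      · apply mul_le_mul_of_nonneg_left _ hT
        refine (exp_half_le _ K (K * M) a hK ha.2.le).trans ?_
        have h5 : Real.exp (- (((K * M : ℕ) : ℝ) / 5)) ≤ Real.exp (- ((M0 : ℝ) / 5)) := by
          rw [Real.exp_le_exp]
          have : (M0 : ℝ) ≤ ((K * M : ℕ) : ℝ) := by exact_mod_cast hM0.trans hMK
          linarith
        linarith
    refine (Finset.sum_le_card_nsmul _ _ _ hb).trans ?_
    rw [nsmul_eq_mul, Nat.card_Ico]
    have h3 : ((K * M - 1 : ℕ) : ℝ) ≤ K * M := by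
      exact_mod_cast Nat.sub_le _ _
    have h4 := Real.exp_pos (-((M0 : ℝ) / 5))
    calc ((K * M - 1 : ℕ) : ℝ) * (Fintype.card (V → A → V) * (2 * Real.exp (- (M0 / 5))))
        ≤ (K * M) * (Fintype.card (V → A → V) * (2 * Real.exp (- (M0 / 5)))) := by gcongr
      _ = _ := by ring
  have hK1' : (1 : ℝ) ≤ K := by exact_mod_cast hK1
  have hfin : (Fintype.card (V → A → V) : ℝ) * ((K * M) * Real.exp (- (M0 / 5))) +
      Fintype.card (V → A → V) * ((M : ℝ) * (2 * Real.exp (- (M0 / 5)))) +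
      Fintype.card (V → A → V) * ((K * M) * (2 * Real.exp (- (M0 / 5)))) ≤
      Fintype.card (V → A → V) * (5 * K * M * Real.exp (- (M0 / 5))) := by
    have h4 := Real.exp_pos (-((M0 : ℝ) / 5))
    have h5 : (M : ℝ) ≤ K * M := by exact_mod_cast hMK
    have h6 : (M : ℝ) * (2 * Real.exp (- (M0 / 5))) ≤ (K * M) * (2 * Real.exp (- (M0 / 5))) := by
      gcongr
    have h7 := mul_le_mul_of_nonneg_left h6 hT
    nlinarith
  linarith

end Pool.Agent.Helper98.Aut
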