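import Pool.Agent.Helper98.AutOcc

namespace Pool.Agent.Helper98.Aut

open Finset

theorem stir_pos (n : ℕ) : ∀ k, 1 ≤ k → k ≤ n → 0 < Nat.stirlingSecond n k := by
  induction n with
  | zero => intro k h1 h2; omega
  | succ n ih =>
    intro k h1 h2
    obtain ⟨j, rfl⟩ : ∃ j, k = j + 1 := ⟨k - 1, by omega⟩
    rw [Nat.stirlingSecond_succ_succ]
    rcases Nat.lt_or_ge n (j + 1) with h | h
    · have : j = n := by omega
      subst this
      rw [Nat.stirlingSecond_self]
      omega
    · have := ih (j + 1) (by omega) h
      positivity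

theorem stir_zero_of_zero {n k : ℕ} (hk : 1 ≤ k) (h : Nat.stirlingSecond n k = 0) : n < k := by
  by_contra hcon
  have := stir_pos n k hk (by omega)
  omega

theorem stir_logconcave (n : ℕ) : ∀ k, Nat.stirlingSecond n k * Nat.stirlingSecond n (k + 2)
    ≤ Nat.stirlingSecond n (k + 1) ^ 2 := by
  induction n with
  | zero => intro k; simp
  | succ n ih =>
    intro k
    cases k with
    | zero => simp
    | succ j =>
      have e1 : Nat.stirlingSecond (n + 1) (j + 1)
        = (j + 1) * Nat.stirlingSecond n (j + 1) + Nat.stirlingSecond n j := rfl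
      have e2 : Nat.stirlingSecond (n + 1) (j + 1 + 1)
        = (j + 2) * Nat.stirlingSecond n (j + 2) + Nat.stirlingSecond n (j + 1) := rfl
      have e3 : Nat.stirlingSecond (n + 1) (j + 1 + 2)
        = (j + 3) * Nat.stirlingSecond n (j + 3) + Nat.stirlingSecond n (j + 2) := rfl
      rw [e1, e2, e3]
      have h0 := ih j
      have h1 := ih (j + 1)
      have h1' : Nat.stirlingSecond n (j + 1) * Nat.stirlingSecond n (j + 3)
        ≤ Nat.stirlingSecond n (j + 2) ^ 2 := h1
      have h3 : Nat.stirlingSecond n j * Nat.stirlingSecond n (j + 3)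
          ≤ Nat.stirlingSecond n (j + 1) * Nat.stirlingSecond n (j + 2) := by
        rcases Nat.eq_zero_or_pos (Nat.stirlingSecond n (j + 1)) with h | h
        · have := stir_zero_of_zero (by omega) h
          rw [Nat.stirlingSecond_eq_zero_of_lt (show n < j + 3 by omega)]
          simp
        · rcases Nat.eq_zero_or_pos (Nat.stirlingSecond n (j + 2)) with h' | h'
          · have := stir_zero_of_zero (by omega) h'
            rw [Nat.stirlingSecond_eq_zero_of_lt (show n < j + 3 by omega)]
            simp
          · have h4 : (Nat.stirlingSecond n j * Nat.stirlingSecond n (j + 3)) *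
                (Nat.stirlingSecond n (j + 1) * Nat.stirlingSecond n (j + 2)) ≤
                (Nat.stirlingSecond n (j + 1) * Nat.stirlingSecond n (j + 2)) *
                (Nat.stirlingSecond n (j + 1) * Nat.stirlingSecond n (j + 2)) := by
              calc _ = (Nat.stirlingSecond n j * Nat.stirlingSecond n (j + 2)) *
                    (Nat.stirlingSecond n (j + 1) * Nat.stirlingSecond n (j + 3)) := by ring
                _ ≤ Nat.stirlingSecond n (j + 1) ^ 2 * Nat.stirlingSecond n (j + 2) ^ 2 :=
                    Nat.mul_le_mul h0 h1'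
                _ = _ := by ring
            exact Nat.le_of_mul_le_mul_right h4 (by positivity)
      generalize Nat.stirlingSecond n j = a0 at *
      generalize Nat.stirlingSecond n (j + 1) = a1 at *
      generalize Nat.stirlingSecond n (j + 2) = a2 at *
      generalize Nat.stirlingSecond n (j + 3) = a3 at *
      nlinarith [Nat.zero_le (a1 * a2), Nat.zero_le (a2 ^ 2), Nat.mul_le_mul_left ((j+1)*(j+3)) h1',
        Nat.mul_le_mul_left (j + 3) h3]

/-- The ratio of consecutive Stirling numbers decreases. -/
theorem stir_ratio (n s : ℕ) (hs : 1 ≤ s) {t : ℕ} (h : s ≤ t) :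
    Nat.stirlingSecond n (t + 1) * Nat.stirlingSecond n s
      ≤ Nat.stirlingSecond n t * Nat.stirlingSecond n (s + 1) := by
  induction h with
  | refl => rw [mul_comm]
  | @step t hst ih =>
    rcases Nat.eq_zero_or_pos (Nat.stirlingSecond n t) with h | h
    · have := stir_zero_of_zero (hs.trans hst) h
      rw [Nat.stirlingSecond_eq_zero_of_lt (show n < t + 1 + 1 by omega)]
      simp
    · have hlc := stir_logconcave n t
      have h4 : (Nat.stirlingSecond n (t + 1 + 1) * Nat.stirlingSecond n s)
          * Nat.stirlingSecond n t ≤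
          (Nat.stirlingSecond n (t + 1) * Nat.stirlingSecond n (s + 1))
            * Nat.stirlingSecond n t := by
        calc _ = (Nat.stirlingSecond n t * Nat.stirlingSecond n (t + 2)) *
              Nat.stirlingSecond n s := by ring
          _ ≤ Nat.stirlingSecond n (t + 1) ^ 2 * Nat.stirlingSecond n s :=
              Nat.mul_le_mul_right _ hlc
          _ = Nat.stirlingSecond n (t + 1) * (Nat.stirlingSecond n (t + 1)
              * Nat.stirlingSecond n s) := by ring
          _ ≤ Nat.stirlingSecond n (t + 1) * (Nat.stirlingSecond n t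
              * Nat.stirlingSecond n (s + 1)) := Nat.mul_le_mul_left _ ih
          _ = _ := by ring
      exact Nat.le_of_mul_le_mul_right h4 h

theorem stir_split (M : ℕ) : ∀ s, 2 * ((M : ℝ) - s) * Nat.stirlingSecond M s
    ≤ s * (s + 1) * Nat.stirlingSecond M (s + 1) := by
  induction M with
  | zero =>
    intro s
    cases s with
    | zero => simp
    | succ s => simp
  | succ M ih =>
    intro s
    cases s with
    | zero => simp
    | succ t =>
      rw [Nat.stirlingSecond_succ_succ M t, Nat.stirlingSecond_succ_succ M (t + 1)]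
      have h1 := ih t
      have h2 := ih (t + 1)
      push_cast at h1 h2 ⊢
      have ht : (0 : ℝ) ≤ t := Nat.cast_nonneg _
      have h3 : (0 : ℝ) ≤ Nat.stirlingSecond M (t + 1 + 1) := Nat.cast_nonneg _
      have h4 := mul_le_mul_of_nonneg_left h2 (by linarith : (0 : ℝ) ≤ t + 1)
      have h5 : 0 ≤ ((t : ℝ) + 1) * (t + 1 + 1) * Nat.stirlingSecond M (t + 1 + 1) := by
        positivity
      linarith

/-- The mode of the occupancy distribution can be prescribed. -/
theorem uk_mode {N n m : ℕ} (hn : 1 ≤ n) (hnN : n ≤ N)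
    (hm : n ≤ m)
    (hA : (N - n) * Nat.stirlingSecond (m + 1) (n + 1) ≤ Nat.stirlingSecond (m + 1) n)
    (hB : Nat.stirlingSecond (m + 1) n ≤ (N - n + 1) * Nat.stirlingSecond (m + 1) (n + 1))
    (t : ℕ) (ht : 1 ≤ t) (htN : t ≤ N) : uk N m 1 t ≤ uk N m 1 n := by
  have hN : 0 < N := by omega
  have hN' : (0 : ℝ) < N := by exact_mod_cast hN
  have hwn : 0 < Nat.stirlingSecond (m + 1) n := stir_pos _ _ hn (by omega)
  have hwn1 : 0 < Nat.stirlingSecond (m + 1) (n + 1) := stir_pos _ _ (by omega) (by omega)
  -- decreasing part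
  have hdec : ∀ t, n ≤ t → t + 1 ≤ N → uk N m 1 (t + 1) ≤ uk N m 1 t := by
    intro t hnt htN
    obtain ⟨d, rfl⟩ : ∃ d, t = d + 1 := ⟨t - 1, by omega⟩
    rw [uk_one hN, uk_one hN]
    apply div_le_div_of_nonneg_right _ (by positivity)
    rw [Nat.descFactorial_succ]
    have h1 := stir_ratio (m + 1) n hn hnt
    have h2 : Nat.stirlingSecond (m + 1) (d + 1 + 1) * (N - 1 - d)
        ≤ Nat.stirlingSecond (m + 1) (d + 1) := by
      have h3 : (Nat.stirlingSecond (m + 1) (d + 1 + 1) * (N - 1 - d))
          * Nat.stirlingSecond (m + 1) n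
          ≤ Nat.stirlingSecond (m + 1) (d + 1) * Nat.stirlingSecond (m + 1) n := by
        calc _ = (Nat.stirlingSecond (m + 1) (d + 1 + 1) * Nat.stirlingSecond (m + 1) n)
              * (N - 1 - d) := by ring
          _ ≤ (Nat.stirlingSecond (m + 1) (d + 1) * Nat.stirlingSecond (m + 1) (n + 1))
              * (N - n) := Nat.mul_le_mul h1 (by omega)
          _ = Nat.stirlingSecond (m + 1) (d + 1) *
              ((N - n) * Nat.stirlingSecond (m + 1) (n + 1)) := by ring
          _ ≤ _ := Nat.mul_le_mul_left _ hA
      exact Nat.le_of_mul_le_mul_right h3 hwn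
    have h4 : Nat.stirlingSecond (m + 1) (d + 1 + 1) * ((N - 1 - d) * (N - 1).descFactorial d)
        ≤ Nat.stirlingSecond (m + 1) (d + 1) * (N - 1).descFactorial d := by
      rw [← mul_assoc]
      exact Nat.mul_le_mul_right _ h2
    exact_mod_cast h4
  have hinc : ∀ t, 1 ≤ t → t + 1 ≤ n → uk N m 1 t ≤ uk N m 1 (t + 1) := by
    intro t ht htn
    obtain ⟨d, rfl⟩ : ∃ d, t = d + 1 := ⟨t - 1, by omega⟩
    rw [uk_one hN, uk_one hN]
    apply div_le_div_of_nonneg_right _ (by positivity)
    rw [Nat.descFactorial_succ]
    have h1 := stir_ratio (m + 1) (d + 1) ht (show d + 1 ≤ n by omega)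
    have h2 : Nat.stirlingSecond (m + 1) (d + 1)
        ≤ Nat.stirlingSecond (m + 1) (d + 1 + 1) * (N - 1 - d) := by
      have h3 : Nat.stirlingSecond (m + 1) (d + 1) * Nat.stirlingSecond (m + 1) (n + 1)
          ≤ (Nat.stirlingSecond (m + 1) (d + 1 + 1) * (N - 1 - d))
            * Nat.stirlingSecond (m + 1) (n + 1) := by
        calc _ = Nat.stirlingSecond (m + 1) (n + 1) * Nat.stirlingSecond (m + 1) (d + 1) := by
              ring
          _ ≤ Nat.stirlingSecond (m + 1) n * Nat.stirlingSecond (m + 1) (d + 1 + 1) := h1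
          _ ≤ ((N - n + 1) * Nat.stirlingSecond (m + 1) (n + 1))
              * Nat.stirlingSecond (m + 1) (d + 1 + 1) := Nat.mul_le_mul_right _ hB
          _ ≤ ((N - 1 - d) * Nat.stirlingSecond (m + 1) (n + 1))
              * Nat.stirlingSecond (m + 1) (d + 1 + 1) :=
              Nat.mul_le_mul_right _ (Nat.mul_le_mul_right _ (by omega))
          _ = _ := by ring
      exact Nat.le_of_mul_le_mul_right h3 hwn1
    have h4 : Nat.stirlingSecond (m + 1) (d + 1) * (N - 1).descFactorial d
        ≤ Nat.stirlingSecond (m + 1) (d + 1 + 1) * ((N - 1 - d) * (N - 1).descFactorial d) := by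
      rw [← mul_assoc]
      exact Nat.mul_le_mul_right _ h2
    exact_mod_cast h4
  rcases Nat.lt_or_ge t n with h | h
  · -- going up to `n`
    have key : ∀ j, t + j ≤ n → uk N m 1 t ≤ uk N m 1 (t + j) := by
      intro j
      induction j with
      | zero => intro _; exact le_rfl
      | succ j ih =>
        intro hj
        exact (ih (by omega)).trans (hinc (t + j) (by omega) (by omega))
    have := key (n - t) (by omega)
    rwa [show t + (n - t) = n by omega] at this
  · have key : ∀ j, n + j ≤ N → uk N m 1 (n + j) ≤ uk N m 1 n := by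
      intro j
      induction j with
      | zero => intro _; exact le_rfl
      | succ j ih =>
        intro hj
        exact (hdec (n + j) (by omega) (by omega)).trans (ih (by omega))
    have := key (t - n) (by omega)
    rwa [show n + (t - n) = t by omega] at this

end Pool.Agent.Helper98.Aut
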