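import Pool.Agent.Helper98.AutAcc

namespace Pool.Agent.Helper98.Aut

open Finset Filter Topology

set_option linter.unusedSectionVars false

variable {V A : Type*} [Fintype V] [DecidableEq V] [Fintype A] [DecidableEq A]

/-- The bad event: `f` is accessible, some distinct accessible states are not separated, and (for
two letters) no two accessible states are twins. -/
def BadN (r : V) (δ : V × A → V) (f : V) : Prop :=
  f ∈ acc δ r ∧ (∃ p q, p ∈ acc δ r ∧ q ∈ acc δ r ∧ p ≠ q ∧ Unsep δ f p q) ∧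
    (3 ≤ Fintype.card A ∨
      ∀ p q, p ∈ acc δ r → q ∈ acc δ r → p ≠ q → ∃ c, δ (p, c) ≠ δ (q, c))

theorem badN_sub (hk : 2 ≤ Fintype.card A) (r : V) (M0 : ℕ) (δ : V × A → V) (f : V)
    (h : BadN r δ f) :
    (((∃ w : List A, run δ r w = f) ∧ ¬ ∃ j, M0 ≤ (lev (Function.curry δ) {f} j).card) ∨
      ¬ Sparse δ) ∨
      ((∃ j, M0 ≤ (lev (Function.curry δ) {f} j).card) ∧ ∃ p q, p ≠ q ∧ Unsep δ f p q ∧
        (3 ≤ Fintype.card A ∨ ∃ c, ¬ Coin δ p q c)) := by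
  obtain ⟨hf, ⟨p, q, hp, hq, hpq, hu⟩, htw⟩ := h
  by_contra hcon
  rw [not_or, not_or] at hcon
  obtain ⟨⟨h1, h2⟩, h3⟩ := hcon
  rw [not_not] at h2
  have h4 : ∃ j, M0 ≤ (lev (Function.curry δ) {f} j).card := by
    by_contra h5
    exact h1 ⟨mem_acc.1 hf, h5⟩
  have h5 : ∀ p q, p ≠ q → Unsep δ f p q → ¬ 3 ≤ Fintype.card A ∧ ∀ c, Coin δ p q c := by
    intro p q hpq hu
    have h6 : ¬ (3 ≤ Fintype.card A ∨ ∃ c, ¬ Coin δ p q c) :=
      fun h6 => h3 ⟨h4, p, q, hpq, hu, h6⟩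
    rw [not_or] at h6
    refine ⟨h6.1, fun c => ?_⟩
    by_contra h7
    exact h6.2 ⟨c, h7⟩
  have hk3 := (h5 p q hpq hu).1
  have hk2 : Fintype.card A = 2 := by omega
  have htw' : ∀ p q, p ∈ acc δ r → q ∈ acc δ r → p ≠ q → ∃ c, δ (p, c) ≠ δ (q, c) := by
    rcases htw with h6 | h6
    · exact absurd h6 hk3
    · exact h6
  have := no_rel δ h2 hk2 (fun p q => p ∈ acc δ r ∧ q ∈ acc δ r ∧ Unsep δ f p q)
    (fun p q h => ⟨h.2.1, h.1, h.2.2.symm⟩)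
    (fun p q h c => ⟨acc_step h.1 c, acc_step h.2.1 c, h.2.2.step c⟩)
    (fun p q hpq h c => (h5 p q hpq h.2.2).2 c)
    (fun p q hpq h => htw' p q h.1 h.2.1 hpq) p q ⟨hp, hq, hu⟩
  exact hpq this

theorem sum_badN_le (hk : 2 ≤ Fintype.card A) (r : V)
    (M0 M K T : ℕ) (hK : K = 2 * Fintype.card A + 1) (h0 : 0 < M0) (hM : 1 < M) (hM0 : M0 ≤ M)
    (hT : 64 ≤ T) (hN : 1000 ≤ Fintype.card V) (hTN : 80 * T ≤ Fintype.card V)
    (hNM : 100 * (K * M) ≤ Fintype.card V)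
    (hLT : 8 * Fintype.card A * (K * (K * M)) ≤ T)
    (hLN : 2 * (K * (K * M)) ≤ Fintype.card V) :
    ∑ f : V, cnt (fun _ : V × A => (univ : Finset V)) (fun δ => BadN r δ f) ≤
      ((M0 + 6 * (2 ^ (5 * Fintype.card A) * 5 ^ 6)) + (Fintype.card V : ℝ) ^ 3 *
      (741000000000 / (Fintype.card V : ℝ) ^ 3 + T * (80 * T / (Fintype.card V : ℝ)) ^ 16
        + 5 * K * M * Real.exp (- (M0 / 5))
        + Fintype.card V * Real.exp (- ((M : ℝ) * T / (64 * Fintype.card V))))) *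
        wt (fun _ : V × A => (univ : Finset V)) := by
  set U : V × A → Finset V := fun _ => univ with hU
  have hNpos : (0 : ℝ) < Fintype.card V := by
    have : 0 < Fintype.card V := by omega
    exact_mod_cast this
  have h1 : ∀ f ∈ (univ : Finset V), cnt U (fun δ => BadN r δ f) ≤
      cnt U (fun δ => (∃ w : List A, run δ r w = f) ∧
        ¬ ∃ j, M0 ≤ (lev (Function.curry δ) {f} j).card) + cnt U (fun δ => ¬ Sparse δ) +
      cnt U (fun δ => (∃ j, M0 ≤ (lev (Function.curry δ) {f} j).card) ∧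
        ∃ p q, p ≠ q ∧ Unsep δ f p q ∧ (3 ≤ Fintype.card A ∨ ∃ c, ¬ Coin δ p q c)) := by
    intro f _
    refine (cnt_mono fun δ _ h => badN_sub hk r M0 δ f h).trans ?_
    refine (cnt_or_le _ _ _).trans ?_
    gcongr
    exact cnt_or_le _ _ _
  refine (Finset.sum_le_sum h1).trans ?_
  rw [Finset.sum_add_distrib, Finset.sum_add_distrib, Finset.sum_const, Finset.card_univ,
    nsmul_eq_mul]
  have e1 := few_ancestors (A := A) r M0
  have e2 := cnt_not_sparse_le (V := V) (A := A) (by omega)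
  have e3 := sum_pairs_le (V := V) (A := A) hk M0 M K T hK h0 hM hM0 hT hN hTN hNM hLT hLN
  rw [← hU] at e1 e2 e3
  have e4 : (Fintype.card V : ℝ) * cnt U (fun δ => ¬ Sparse δ) ≤
      6 * (2 ^ (5 * Fintype.card A) * 5 ^ 6) * wt U := by
    calc (Fintype.card V : ℝ) * cnt U (fun δ => ¬ Sparse δ) ≤ Fintype.card V *
        ((6 * (2 ^ (5 * Fintype.card A) * 5 ^ 6)) / Fintype.card V * wt U) := by gcongr
      _ = _ := by field_simp
  rw [add_mul, add_mul]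
  linarith

theorem num1 (s N : ℝ) (hs : 3 ≤ s) (h : N ≤ (s + 1) ^ 16) : N ≤ 2 ^ 16 * s ^ 16 := by
  refine h.trans ?_
  rw [← mul_pow]
  apply pow_le_pow_left₀
  · linarith
  · linarith

theorem num0 (N s : ℝ) (hs : 0 ≤ N) (h : N ≤ 2 ^ 16 * s ^ 16) : N ^ 3 ≤ 2 ^ 48 * s ^ 48 := by
  calc N ^ 3 ≤ (2 ^ 16 * s ^ 16) ^ 3 := pow_le_pow_left₀ hs h 3
    _ = _ := by ring

theorem num5 (N C a b c d s t : ℝ) (h1 : N ^ 3 * (t / N ^ 3) = t)
    (h2 : N ^ 3 * a ≤ C) (h3 : N ^ 3 * b ≤ 1) (h4 : N ^ 3 * c ≤ 1) :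
    (s + d) + N ^ 3 * (t / N ^ 3 + a + b + c) ≤ s + (d + t + C + 1 + 1) := by
  have : N ^ 3 * (t / N ^ 3 + a + b + c) = N ^ 3 * (t / N ^ 3) + N ^ 3 * a + N ^ 3 * b
    + N ^ 3 * c := by ring
  rw [this, h1]
  linarith

theorem num2 (s N : ℝ) (hs : 3 ≤ s) (hN1 : s ^ 16 ≤ N) (hN3 : N ^ 3 ≤ 2 ^ 48 * s ^ 48) :
    N ^ 3 * (s ^ 12 * (80 * s ^ 12 / N) ^ 16) ≤ 2 ^ 48 * 80 ^ 16 := by
  have hs0 : 0 < s := by linarith
  have hNpos : 0 < N := lt_of_lt_of_le (by positivity) hN1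
  have h1 : 80 * s ^ 12 / N ≤ 80 / s ^ 4 := by
    rw [div_le_div_iff₀ hNpos (by positivity)]
    calc 80 * s ^ 12 * s ^ 4 = 80 * s ^ 16 := by ring
      _ ≤ 80 * N := by gcongr
  have h0 : 0 ≤ 80 * s ^ 12 / N := by positivity
  have h2 : (80 * s ^ 12 / N) ^ 16 ≤ (80 / s ^ 4) ^ 16 := pow_le_pow_left₀ h0 h1 16
  have h3 : s ^ 12 * (80 * s ^ 12 / N) ^ 16 ≤ s ^ 12 * (80 / s ^ 4) ^ 16 :=
    mul_le_mul_of_nonneg_left h2 (by positivity)
  have h4 : N ^ 3 * (s ^ 12 * (80 * s ^ 12 / N) ^ 16) ≤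
      (2 ^ 48 * s ^ 48) * (s ^ 12 * (80 / s ^ 4) ^ 16) :=
    mul_le_mul hN3 h3 (by positivity) (by positivity)
  refine h4.trans ?_
  have h5 : (2 ^ 48 * s ^ 48) * (s ^ 12 * (80 / s ^ 4) ^ 16) = 2 ^ 48 * 80 ^ 16 / s ^ 4 := by
    rw [div_pow]
    field_simp
  rw [h5]
  apply div_le_self (by positivity)
  exact one_le_pow₀ (by linarith)

theorem num3 (s N K : ℝ) (hK : 0 ≤ K) (hs : 3 ≤ s) (hN3 : N ^ 3 ≤ 2 ^ 48 * s ^ 48) :
    N ^ 3 * (5 * K * s ^ 8 * Real.exp (- (s / 5))) ≤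
      5 * K * 2 ^ 48 * (s ^ 56 * Real.exp (- (1 / 5) * s)) := by
  have hs0 : 0 < s := by linarith
  have h2 : Real.exp (- (s / 5)) = Real.exp (- (1 / 5) * s) := by congr 1; ring
  rw [h2]
  have h3 : 0 ≤ 5 * K * s ^ 8 * Real.exp (- (1 / 5) * s) := by positivity
  refine (mul_le_mul_of_nonneg_right hN3 h3).trans (le_of_eq ?_)
  ring

theorem num4 (s N : ℝ) (hs : 3 ≤ s) (hN1 : s ^ 16 ≤ N) (hN2 : N ≤ 2 ^ 16 * s ^ 16) :
    N ^ 3 * (N * Real.exp (- (s ^ 8 * s ^ 12 / (64 * N)))) ≤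
      2 ^ 64 * (s ^ 64 * Real.exp (- (1 / 2 ^ 22) * s)) := by
  have hs0 : 0 < s := by linarith
  have hNpos : 0 < N := lt_of_lt_of_le (by positivity) hN1
  have h2 : Real.exp (- (s ^ 8 * s ^ 12 / (64 * N))) ≤ Real.exp (- (1 / 2 ^ 22) * s) := by
    rw [Real.exp_le_exp]
    have h3 : (1 / 2 ^ 22 : ℝ) * s ≤ s ^ 8 * s ^ 12 / (64 * N) := by
      rw [le_div_iff₀ (by positivity)]
      calc (1 / 2 ^ 22 : ℝ) * s * (64 * N) ≤ (1 / 2 ^ 22 : ℝ) * s * (64 * (2 ^ 16 * s ^ 16)) := by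
            gcongr
        _ = s ^ 17 := by ring
        _ ≤ s ^ 20 := pow_le_pow_right₀ (by linarith) (by norm_num)
        _ = _ := by ring
    linarith
  have h4 : N ^ 4 ≤ 2 ^ 64 * s ^ 64 := by
    calc N ^ 4 ≤ (2 ^ 16 * s ^ 16) ^ 4 := pow_le_pow_left₀ hNpos.le hN2 4
      _ = _ := by ring
  have h5 : N ^ 3 * (N * Real.exp (- (s ^ 8 * s ^ 12 / (64 * N))))
      = N ^ 4 * Real.exp (- (s ^ 8 * s ^ 12 / (64 * N))) := by ring
  rw [h5, ← mul_assoc]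
  exact mul_le_mul h4 h2 (Real.exp_pos _).le (by positivity)

theorem tendsto_aux (d : ℕ) (C b : ℝ) (hb : 0 < b) :
    Tendsto (fun s : ℕ => C * ((s : ℝ) ^ d * Real.exp (- b * s))) atTop (𝓝 0) := by
  have h1 : Tendsto (fun x : ℝ => x ^ (d : ℝ) * Real.exp (- b * x)) atTop (𝓝 0) :=
    tendsto_rpow_mul_exp_neg_mul_atTop_nhds_zero _ _ hb
  have h2 := (h1.comp tendsto_natCast_atTop_atTop).const_mul C
  rw [mul_zero] at h2
  refine h2.congr fun s => ?_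
  simp only [Function.comp_apply, Real.rpow_natCast]

/-- The parameters as powers of a single integer `s`. -/
theorem exists_badN_bound (k : ℕ) (hk : 2 ≤ k) : ∃ C : ℝ, 0 ≤ C ∧ ∃ s0 : ℕ, ∀ s : ℕ, s0 ≤ s →
    ∀ (V A : Type) [Fintype V] [DecidableEq V] [Fintype A] [DecidableEq A],
    Fintype.card A = k → s ^ 16 ≤ Fintype.card V → Fintype.card V < (s + 1) ^ 16 → ∀ r : V,
    ∑ f : V, cnt (fun _ : V × A => (univ : Finset V)) (fun δ => BadN r δ f) ≤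
      (s + C) * wt (fun _ : V × A => (univ : Finset V)) := by
  set K : ℕ := 2 * k + 1 with hK
  -- two sequences tending to zero
  have t1 : Tendsto (fun s : ℕ => 5 * (K : ℝ) * 2 ^ 48 * ((s : ℝ) ^ 56 *
      Real.exp (- (1 / 5) * s))) atTop (𝓝 0) := tendsto_aux 56 _ _ (by norm_num)
  have t2 : Tendsto (fun s : ℕ => (2 : ℝ) ^ 64 * ((s : ℝ) ^ 64 *
      Real.exp (- (1 / 2 ^ 22) * s))) atTop (𝓝 0) := tendsto_aux 64 _ _ (by norm_num)
  obtain ⟨a1, ha1⟩ := eventually_atTop.1 (t1.eventually_le_const (show (0 : ℝ) < 1 by norm_num))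
  obtain ⟨a2, ha2⟩ := eventually_atTop.1 (t2.eventually_le_const (show (0 : ℝ) < 1 by norm_num))
  refine ⟨6 * (2 ^ (5 * k) * 5 ^ 6) + 741000000000 + 2 ^ 48 * 80 ^ 16 + 1 + 1, by positivity,
    max (max a1 a2) (max 3 (100 * k * K * K)), ?_⟩
  intro s hs V A _ _ _ _ hA hV1 hV2 r
  have hs1 : a1 ≤ s := (le_max_left _ _).trans ((le_max_left _ _).trans hs)
  have hs2 : a2 ≤ s := (le_max_right _ _).trans ((le_max_left _ _).trans hs)
  have hs3 : 3 ≤ s := (le_max_left _ _).trans ((le_max_right _ _).trans hs)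
  have hs4 : 100 * k * K * K ≤ s := (le_max_right _ _).trans ((le_max_right _ _).trans hs)
  have b1 := ha1 s hs1
  have b2 := ha2 s hs2
  have hsr : (3 : ℝ) ≤ s := by exact_mod_cast hs3
  have hs0 : (0 : ℝ) < s := by linarith
  -- powers of `s`
  have p4 : 81 ≤ s ^ 4 := by
    calc 81 = 3 ^ 4 := by norm_num
      _ ≤ s ^ 4 := Nat.pow_le_pow_left hs3 4
  have p8 : s ≤ s ^ 8 := Nat.le_self_pow (by norm_num) s
  have p8' : 1 < s ^ 8 := by omega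
  have p12 : 64 ≤ s ^ 12 := by
    calc 64 ≤ 3 ^ 12 := by norm_num
      _ ≤ s ^ 12 := Nat.pow_le_pow_left hs3 12
  have p16 : 1000 ≤ s ^ 16 := by
    calc 1000 ≤ 3 ^ 16 := by norm_num
      _ ≤ s ^ 16 := Nat.pow_le_pow_left hs3 16
  have e16 : s ^ 16 = s ^ 4 * s ^ 12 := by ring
  have e16' : s ^ 16 = s ^ 8 * s ^ 8 := by ring
  have e12 : s ^ 12 = s ^ 4 * s ^ 8 := by ring
  have q4 : s ≤ s ^ 4 := Nat.le_self_pow (by norm_num) s
  have hk1 : 1 ≤ k := by omega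
  have hK1 : 1 ≤ K := by omega
  have hKK : K ≤ K * K := Nat.le_mul_of_pos_left K hK1
  have hkKK : K * K ≤ k * (K * K) := Nat.le_mul_of_pos_left _ hk1
  have hs4' : 100 * (k * (K * K)) ≤ s := by
    calc 100 * (k * (K * K)) = 100 * k * K * K := by ring
      _ ≤ s := hs4
  have c1 : 80 * s ^ 12 ≤ Fintype.card V := by
    refine le_trans ?_ hV1
    rw [e16]
    exact Nat.mul_le_mul_right _ (by omega)
  have c2 : 100 * (K * s ^ 8) ≤ Fintype.card V := by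
    refine le_trans ?_ hV1
    rw [e16', ← mul_assoc]
    exact Nat.mul_le_mul_right _ (by omega)
  have c3 : 8 * Fintype.card A * (K * (K * s ^ 8)) ≤ s ^ 12 := by
    rw [hA, e12]
    calc 8 * k * (K * (K * s ^ 8)) = (8 * (k * (K * K))) * s ^ 8 := by ring
      _ ≤ s ^ 4 * s ^ 8 := Nat.mul_le_mul_right _ (by omega)
  have c4 : 2 * (K * (K * s ^ 8)) ≤ Fintype.card V := by
    refine le_trans ?_ hV1
    rw [e16']
    calc 2 * (K * (K * s ^ 8)) = (2 * (K * K)) * s ^ 8 := by ring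
      _ ≤ s ^ 8 * s ^ 8 := Nat.mul_le_mul_right _ (by omega)
  have hmain := sum_badN_le (V := V) (A := A) (by omega) r s (s ^ 8) K (s ^ 12)
    (by rw [hK, hA]) (by omega) p8' p8 p12 (p16.trans hV1) c1 c2 c3 c4
  refine hmain.trans ?_
  apply mul_le_mul_of_nonneg_right _ (wt_nonneg _)
  rw [hA]
  set N : ℝ := (Fintype.card V : ℝ) with hN
  have hN1 : (s : ℝ) ^ 16 ≤ N := by rw [hN]; exact_mod_cast hV1
  have hNpos : 0 < N := lt_of_lt_of_le (pow_pos hs0 16) hN1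
  have hN2 : N ≤ 2 ^ 16 * (s : ℝ) ^ 16 := num1 s N hsr (by rw [hN]; exact_mod_cast hV2.le)
  have hN3 : N ^ 3 ≤ 2 ^ 48 * (s : ℝ) ^ 48 := num0 N s hNpos.le hN2
  have x2 := num2 s N hsr hN1 hN3
  have x3 := (num3 s N K (Nat.cast_nonneg _) hsr hN3).trans b1
  have x4 := (num4 s N hsr hN1 hN2).trans b2
  have x1 : N ^ 3 * (741000000000 / N ^ 3) = 741000000000 :=
    mul_div_cancel₀ _ (pow_pos hNpos 3).ne'
  have := num5 N _ _ _ _ (6 * (2 ^ (5 * k) * 5 ^ 6)) s 741000000000 x1 x2 x3 x4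
  push_cast
  exact this

end Pool.Agent.Helper98.Aut
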