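import Pool.Agent.Helper98.AutKill

namespace Pool.Agent.Helper98.Aut

open Finset

/-- Mean of the occupancy distribution. -/
noncomputable def mu (N m : ℕ) : ℝ := N - (N - 1) * (1 - 1 / N) ^ m

theorem var_le {N : ℕ} (hN : 2 ≤ N) (m : ℕ) :
    ex N (fun x => ((x : ℝ) - mu N m) ^ 2) m 1 ≤ N := by
  have hN0 : 0 < N := by omega
  have hN' : (2 : ℝ) ≤ N := by exact_mod_cast hN
  set ρ := (1 - 1 / (N : ℝ)) ^ m with hρ
  set ν := ((N : ℝ) - 1) * ρ with hν
  have hmu : mu N m = N - ν := rfl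
  have h1 : (fun x : ℕ => ((x : ℝ) - mu N m) ^ 2) = fun x : ℕ =>
      (((N : ℝ) - x) * ((N : ℝ) - x - 1) + (1 - 2 * ν) * ((N : ℝ) - x)) + ν ^ 2 := by
    funext x
    rw [hmu]; ring
  rw [h1, ex_add, ex_add, ex_mul, ex_const hN0, ex_quad hN0, ex_lin hN0]
  have h2 : (1 - 2 / (N : ℝ)) ^ m ≤ ρ ^ 2 := by
    have h3 : 1 - 2 / (N : ℝ) ≤ (1 - 1 / N) ^ 2 := by
      have : (1 - 1 / (N : ℝ)) ^ 2 = 1 - 2 / N + (1 / N) ^ 2 := by ring
      rw [this]
      have : 0 ≤ (1 / (N : ℝ)) ^ 2 := by positivity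
      linarith
    have h4 : 0 ≤ 1 - 2 / (N : ℝ) := by
      have : 2 / (N : ℝ) ≤ 1 := by rw [div_le_one (by linarith)]; exact hN'
      linarith
    calc (1 - 2 / (N : ℝ)) ^ m ≤ ((1 - 1 / N) ^ 2) ^ m := pow_le_pow_left₀ h4 h3 m
      _ = ρ ^ 2 := by rw [hρ, ← pow_mul, ← pow_mul, mul_comm]
  have hρ0 : 0 ≤ ρ := by
    rw [hρ]
    apply pow_nonneg
    have : 1 / (N : ℝ) ≤ 1 := by rw [div_le_one (by linarith)]; linarith
    linarith
  have hρ1 : ρ ≤ 1 := by
    rw [hρ]
    apply pow_le_one₀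
    · have : 1 / (N : ℝ) ≤ 1 := by rw [div_le_one (by linarith)]; linarith
      linarith
    · have : 0 ≤ 1 / (N : ℝ) := by positivity
      linarith
  have h5 : ((N : ℝ) - 1) * ((N : ℝ) - 1 - 1) * (1 - 2 / (N : ℝ)) ^ m
      ≤ ((N : ℝ) - 1) * ((N : ℝ) - 1 - 1) * ρ ^ 2 := by
    apply mul_le_mul_of_nonneg_left h2
    apply mul_nonneg <;> linarith
  have h6 : ν ≤ N := by rw [hν]; nlinarith
  have h7 : ((N : ℝ) - 1) * ((N : ℝ) - 1 - 1) * ρ ^ 2 ≤ ν ^ 2 := by
    rw [hν, mul_pow]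
    apply mul_le_mul_of_nonneg_right _ (by positivity)
    nlinarith
  push_cast
  rw [← hρ]
  nlinarith

theorem mode_near {N : ℕ} (hN : 2 ≤ N) (m n : ℕ) :
    ((n : ℝ) - mu N m) ^ 2 * uk N m 1 n ≤ N := by
  refine le_trans ?_ (var_le hN m)
  unfold uk
  rw [← ex_mul]
  apply ex_mono m 1 (by omega)
  intro x _ _
  by_cases h : x = n
  · subst h; simp
  · simp only [if_neg h, mul_zero]; positivity

theorem mode_ge {N : ℕ} (hN : 2 ≤ N) (m : ℕ) (q : ℝ)
    (hq : ∀ t, 1 ≤ t → t ≤ N → uk N m 1 t ≤ q) : 3 / 4 ≤ (4 * √N + 1) * q := by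
  classical
  have hN0 : 0 < N := by omega
  have hN' : (2 : ℝ) ≤ N := by exact_mod_cast hN
  have hsq : √(N : ℝ) ^ 2 = N := Real.sq_sqrt (by linarith)
  have hs0 : 0 < √(N : ℝ) := Real.sqrt_pos.2 (by linarith)
  have hq0 : 0 ≤ q := (uk_nonneg hN0 (by omega) m 1).trans (hq 1 le_rfl (by omega))
  -- Chebyshev
  have h1 : ex N (fun x => if 2 * √(N : ℝ) ≤ |(x : ℝ) - mu N m| then (1 : ℝ) else 0) m 1
      ≤ 1 / 4 := by
    have h2 : ex N (fun x => if 2 * √(N : ℝ) ≤ |(x : ℝ) - mu N m| then (1 : ℝ) else 0) m 1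
        ≤ ex N (fun x => (1 / (4 * (N : ℝ))) * ((x : ℝ) - mu N m) ^ 2) m 1 := by
      apply ex_mono m 1 (by omega)
      intro x _ _
      split_ifs with h
      · have h3 : 4 * (N : ℝ) ≤ ((x : ℝ) - mu N m) ^ 2 := by
          rw [← sq_abs]
          calc 4 * (N : ℝ) = (2 * √(N : ℝ)) ^ 2 := by rw [mul_pow, hsq]; norm_num
            _ ≤ |(x : ℝ) - mu N m| ^ 2 := pow_le_pow_left₀ (by positivity) h 2
        rw [one_div, inv_mul_eq_div, le_div_iff₀ (by positivity)]
        linarith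
      · positivity
    refine h2.trans ?_
    rw [ex_mul]
    have := var_le hN m
    rw [one_div, inv_mul_eq_div, div_le_iff₀ (by positivity)]
    linarith
  -- complement
  set T : Finset ℕ := (Finset.range (N + 1)).filter
    (fun t => ¬ (2 * √(N : ℝ) ≤ |(t : ℝ) - mu N m|)) with hT
  have h2 : ex N (fun x => (if 2 * √(N : ℝ) ≤ |(x : ℝ) - mu N m| then (1 : ℝ) else 0)
      + ∑ t ∈ T, (if x = t then (1 : ℝ) else 0)) m 1 = ex N (fun _ => (1 : ℝ)) m 1 := by
    apply ex_congr m 1 (by omega)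
    intro x _ hxN
    rw [Finset.sum_ite_eq]
    by_cases h : 2 * √(N : ℝ) ≤ |(x : ℝ) - mu N m|
    · have : x ∉ T := by simp [hT, h]
      simp [h, this]
    · have : x ∈ T := by
        rw [hT, Finset.mem_filter, Finset.mem_range]
        exact ⟨by omega, h⟩
      simp [h, this]
  rw [ex_const hN0, ex_add, ex_sum] at h2
  have h3 : ∑ t ∈ T, ex N (fun x => if x = t then (1 : ℝ) else 0) m 1 ≤ T.card * q := by
    rw [← nsmul_eq_mul]
    apply Finset.sum_le_card_nsmul
    intro t ht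
    rw [hT, Finset.mem_filter, Finset.mem_range] at ht
    rcases Nat.eq_zero_or_pos t with h0 | hpos
    · have : uk N m 1 t = 0 := uk_eq_zero_of_lt N m 1 t (by omega)
      unfold uk at this
      rw [this]; exact hq0
    · exact hq t hpos (by omega)
  have h4 : (T.card : ℝ) ≤ 4 * √(N : ℝ) + 1 := by
    set a : ℝ := mu N m - 2 * √(N : ℝ) with ha
    set b : ℝ := mu N m + 2 * √(N : ℝ) with hb
    have hsub : T ⊆ Finset.Icc ⌈a⌉₊ ⌊b⌋₊ := by
      intro t ht
      rw [hT, Finset.mem_filter] at ht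
      have h5 := ht.2
      rw [not_le, abs_lt] at h5
      rw [Finset.mem_Icc]
      constructor
      · rw [Nat.ceil_le]; rw [ha]; linarith
      · apply Nat.le_floor; rw [hb]; linarith
    have h5 := Finset.card_le_card hsub
    rw [Nat.card_Icc] at h5
    rcases Nat.lt_or_ge (⌊b⌋₊ + 1) ⌈a⌉₊ with h6 | h6
    · have : T.card = 0 := by omega
      rw [this, Nat.cast_zero]; positivity
    · have h7 : (T.card : ℝ) ≤ (⌊b⌋₊ + 1 : ℕ) - (⌈a⌉₊ : ℕ) := by
        rw [← Nat.cast_sub h6]; exact_mod_cast h5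
      have hb0 : 0 ≤ b := by
        by_contra hcon
        push Not at hcon
        have h8 : ⌊b⌋₊ = 0 := Nat.floor_of_nonpos hcon.le
        -- then the mean would be negative
        have h9 : 0 ≤ mu N m := by
          have h10 : ex N (fun x => (N : ℝ) - x) m 1 ≤ N := by
            have h11 := ex_mono (N := N) (g := fun x => (N : ℝ) - x) (h := fun _ => (N : ℝ)) m 1
              (by omega) (fun x _ _ => by
                have : (0 : ℝ) ≤ x := Nat.cast_nonneg x
                linarith)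
            rwa [ex_const hN0] at h11
          rw [ex_lin hN0] at h10
          unfold mu
          push_cast at h10
          linarith
        rw [hb] at hcon
        linarith
      have h8 := Nat.floor_le hb0
      have h9 := Nat.le_ceil a
      push_cast at h7
      rw [ha] at h9
      rw [hb] at h8
      linarith
  have h5 : (T.card : ℝ) * q ≤ (4 * √(N : ℝ) + 1) * q := mul_le_mul_of_nonneg_right h4 hq0
  linarith

/-- Small-`i` bound. -/
theorem uk_le_choose {N : ℕ} (hN : 0 < N) (m : ℕ) : ∀ s t, s ≤ t → t ≤ N →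
    uk N m s t ≤ (m.choose (t - s) : ℝ) * ((t : ℝ) / N) ^ (m - (t - s)) := by
  have hN' : (0 : ℝ) < N := by exact_mod_cast hN
  induction m with
  | zero =>
    intro s t hst _
    rw [uk_zero]
    by_cases h : s = t
    · subst h; simp
    · rw [if_neg h]; positivity
  | succ m ih =>
    intro s t hst htN
    rw [uk_succ]
    have hst' : (s : ℝ) ≤ t := by exact_mod_cast hst
    have htN' : (t : ℝ) ≤ N := by exact_mod_cast htN
    have hx0 : 0 ≤ (t : ℝ) / N := by positivity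
    have h1 := ih s t hst htN
    have hu := uk_nonneg hN (show s ≤ N by omega) m t
    have h2 : (s / N : ℝ) * uk N m s t ≤
        (t / N) * ((m.choose (t - s) : ℝ) * ((t : ℝ) / N) ^ (m - (t - s))) := by
      have : (s / N : ℝ) ≤ t / N := by gcongr
      calc (s / N : ℝ) * uk N m s t ≤ (t / N) * uk N m s t := by gcongr
        _ ≤ _ := by gcongr
    rcases Nat.eq_or_lt_of_le hst with h | h
    · subst h
      rw [uk_eq_zero_of_lt N m (s + 1) s (by omega), mul_zero, add_zero]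
      refine h2.trans (le_of_eq ?_)
      simp only [Nat.sub_self, Nat.choose_zero_right, Nat.sub_zero]
      rw [pow_succ]; push_cast; ring
    · have h3 := ih (s + 1) t h htN
      have h4 : ((N - s) / N : ℝ) * uk N m (s + 1) t ≤
          (m.choose (t - (s + 1)) : ℝ) * ((t : ℝ) / N) ^ (m - (t - (s + 1))) := by
        have h5 : ((N - s) / N : ℝ) ≤ 1 := by
          rw [div_le_one hN']
          have : (0 : ℝ) ≤ s := Nat.cast_nonneg _
          linarith
        have h6 := uk_nonneg hN (show s + 1 ≤ N by omega) m t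
        have h7 : 0 ≤ ((N - s) / N : ℝ) := by
          apply div_nonneg _ hN'.le
          linarith
        calc ((N - s) / N : ℝ) * uk N m (s + 1) t ≤ 1 * uk N m (s + 1) t := by gcongr
          _ = uk N m (s + 1) t := one_mul _
          _ ≤ _ := h3
      obtain ⟨d, hd⟩ : ∃ d, t - s = d + 1 := ⟨t - s - 1, by omega⟩
      have hd' : t - (s + 1) = d := by omega
      rw [hd] at h2
      rw [hd'] at h4
      rw [hd, Nat.choose_succ_succ]
      have h8 : (t / N : ℝ) * ((m.choose (d + 1) : ℝ) * ((t : ℝ) / N) ^ (m - (d + 1)))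
          = (m.choose (d + 1) : ℝ) * ((t : ℝ) / N) ^ (m + 1 - (d + 1)) := by
        rcases Nat.lt_or_ge m (d + 1) with h9 | h9
        · rw [Nat.choose_eq_zero_of_lt h9]; simp
        · have h10 : m + 1 - (d + 1) = (m - (d + 1)) + 1 := by omega
          rw [h10, pow_succ]; ring
      rw [h8, Nat.add_sub_add_right] at h2
      rw [Nat.add_sub_add_right]
      push_cast
      rw [add_mul]
      have h11 : ((m.choose d.succ : ℕ) : ℝ) = (m.choose (d + 1) : ℝ) := rfl
      rw [h11]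
      linarith

theorem sum_half (m : ℕ) : ∑ i ∈ Finset.range m, (i : ℝ) * (1 / 2) ^ i ≤ 2 := by
  have h : ∀ m : ℕ, ∑ i ∈ Finset.range m, (i : ℝ) * (1 / 2) ^ i = 2 - 2 * (m + 1) * (1 / 2) ^ m := by
    intro m
    induction m with
    | zero => simp
    | succ m ih =>
      rw [Finset.sum_range_succ, ih, pow_succ]
      push_cast
      ring
  rw [h]
  have : 0 ≤ 2 * ((m : ℝ) + 1) * (1 / 2) ^ m := by positivity
  linarith

theorem small_le {N k i : ℕ} (hN : 0 < N) (hk : 2 ≤ k) (hi : 1 ≤ i) (hiN : 8 * i ≤ N) :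
    uk N (k * i) 1 i ≤ (i : ℝ) * (1 / 2) ^ i / N := by
  have hN' : (0 : ℝ) < N := by exact_mod_cast hN
  refine (uk_le_choose hN (k * i) 1 i hi (by omega)).trans ?_
  set x : ℝ := (i : ℝ) / N with hx
  have hx0 : 0 ≤ x := by positivity
  have hx8 : x ≤ 1 / 8 := by
    rw [hx, div_le_iff₀ hN']
    have : (8 * i : ℝ) ≤ N := by exact_mod_cast hiN
    linarith
  obtain ⟨j, rfl⟩ : ∃ j, k = j + 2 := ⟨k - 2, by omega⟩
  have hexp : (j + 2) * i - (i - 1) = (j + 1) * i + 1 := by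
    have : (j + 2) * i = (j + 1) * i + i := by ring
    omega
  rw [hexp]
  have h1 : (((j + 2) * i).choose (i - 1) : ℝ) ≤ 2 ^ ((j + 2) * i) := by
    exact_mod_cast Nat.choose_le_two_pow _ _
  have h2 : (2 : ℝ) ^ ((j + 2) * i) * x ^ ((j + 1) * i + 1) = (2 ^ (j + 2) * x ^ (j + 1)) ^ i * x := by
    rw [pow_succ, mul_pow, ← pow_mul, ← pow_mul]; ring
  have h3 : (2 : ℝ) ^ (j + 2) * x ^ (j + 1) ≤ 1 / 2 := by
    calc (2 : ℝ) ^ (j + 2) * x ^ (j + 1) ≤ 2 ^ (j + 2) * (1 / 8) ^ (j + 1) := by gcongr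
      _ = (1 / 2) * (1 / 4) ^ j := by
          rw [pow_succ, pow_succ, pow_succ (1 / 8 : ℝ)]
          have : (1 / 4 : ℝ) ^ j = 2 ^ j * (1 / 8) ^ j := by rw [← mul_pow]; norm_num
          rw [this]; ring
      _ ≤ (1 / 2) * 1 := by
          apply mul_le_mul_of_nonneg_left _ (by norm_num)
          exact pow_le_one₀ (by norm_num) (by norm_num)
      _ = 1 / 2 := by ring
  calc (((j + 2) * i).choose (i - 1) : ℝ) * x ^ ((j + 1) * i + 1)
      ≤ 2 ^ ((j + 2) * i) * x ^ ((j + 1) * i + 1) := by gcongr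
    _ = (2 ^ (j + 2) * x ^ (j + 1)) ^ i * x := h2
    _ ≤ (1 / 2) ^ i * x := by gcongr
    _ = (i : ℝ) * (1 / 2) ^ i / N := by rw [hx]; ring

end Pool.Agent.Helper98.Aut
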