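import Pool.Agent.Helper98.AutNumA

namespace Pool.Agent.Helper98.Aut

open Finset

theorem middle_le {N k i : ℕ} (hN : 0 < N) (hi : i ≤ N) {c : ℝ} (hc : 0 < c) (hc1 : c ≤ 1)
    (hg : c ≤ 1 - (i : ℝ) / N - Real.exp (- (k * (i / N)))) :
    uk N (k * i) 1 i ≤ Real.exp (- (N * c ^ 2 / 4)) := by
  have hN' : (1 : ℝ) ≤ N := by exact_mod_cast hN
  set l : ℝ := c / 2 with hl
  have hl0 : 0 < l := by positivity
  set z : ℝ := Real.exp l with hz
  have hz1 : 1 ≤ z := Real.one_le_exp hl0.le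
  have h1 : uk N (k * i) 1 i ≤ ex N (fun x => (z ^ (N - i))⁻¹ * z ^ (N - x)) (k * i) 1 := by
    unfold uk
    apply ex_mono _ 1 hN
    intro x _ _
    split_ifs with h
    · subst h
      rw [inv_mul_cancel₀ (by positivity)]
    · positivity
  refine h1.trans ?_
  rw [ex_mul]
  have h2 := ex_empty_le hN hz1 (k * i) 1 hN
  set ρ := (1 - 1 / (N : ℝ)) ^ (k * i) with hρ
  set e := Real.exp (- (k * ((i : ℝ) / N))) with he
  have hb0 : 0 ≤ 1 - 1 / (N : ℝ) := by
    have : 1 / (N : ℝ) ≤ 1 := by rw [div_le_one (by linarith)]; linarith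
    linarith
  have hρe : ρ ≤ e := by
    have h3 : 1 - 1 / (N : ℝ) ≤ Real.exp (- (1 / N)) := by
      have := Real.add_one_le_exp (- (1 / (N : ℝ)))
      linarith
    calc ρ ≤ (Real.exp (- (1 / N))) ^ (k * i) := pow_le_pow_left₀ hb0 h3 _
      _ = e := by
        rw [← Real.exp_nat_mul, he]
        congr 1
        push_cast
        ring
  have he1 : e ≤ 1 := by
    rw [he, Real.exp_le_one_iff]
    have : 0 ≤ (k : ℝ) * ((i : ℝ) / N) := by positivity
    linarith
  have he0 : 0 < e := Real.exp_pos _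
  have hz2 : z - 1 ≤ l + l ^ 2 := by
    have h3 := Real.abs_exp_sub_one_sub_id_le (x := l) (by rw [abs_of_pos hl0]; linarith)
    have h4 := (abs_le.1 h3).2
    linarith
  have h3 : (1 + (z - 1) * ρ) ^ (N - 1) ≤ Real.exp (N * ((l + l ^ 2) * e)) := by
    have h4 : 1 + (z - 1) * ρ ≤ Real.exp ((l + l ^ 2) * e) := by
      have h5 := Real.add_one_le_exp ((l + l ^ 2) * e)
      have h6 : (z - 1) * ρ ≤ (l + l ^ 2) * e := by
        apply mul_le_mul hz2 hρe (pow_nonneg hb0 _) (by positivity)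
      linarith
    have h0 : 0 ≤ 1 + (z - 1) * ρ := by
      have : 0 ≤ (z - 1) * ρ := mul_nonneg (by linarith) (pow_nonneg hb0 _)
      linarith
    calc (1 + (z - 1) * ρ) ^ (N - 1) ≤ (Real.exp ((l + l ^ 2) * e)) ^ (N - 1) :=
          pow_le_pow_left₀ h0 h4 _
      _ ≤ (Real.exp ((l + l ^ 2) * e)) ^ N := by
          apply pow_le_pow_right₀ _ (by omega)
          apply Real.one_le_exp; positivity
      _ = _ := by rw [← Real.exp_nat_mul]
  have h4 : (z ^ (N - i))⁻¹ = Real.exp (- (l * (N - i))) := by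
    rw [hz, ← Real.exp_nat_mul, ← Real.exp_neg, Nat.cast_sub hi]
    congr 1
    ring
  rw [h4]
  have h5 : Real.exp (- (l * (N - i))) * ex N (fun x => z ^ (N - x)) (k * i) 1 ≤
      Real.exp (- (l * (N - i))) * Real.exp (N * ((l + l ^ 2) * e)) :=
    mul_le_mul_of_nonneg_left (h2.trans h3) (Real.exp_pos _).le
  refine h5.trans ?_
  rw [← Real.exp_add, Real.exp_le_exp]
  have h6 : (i : ℝ) = N * (i / N) := by field_simp
  set σ := (i : ℝ) / N with hσ
  rw [h6]
  have h7 : -(l * ((N : ℝ) - N * σ)) + N * ((l + l ^ 2) * e)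
      ≤ - (N * (l * ((1 - σ - e) - l))) := by
    have h8 : N * l ^ 2 * e ≤ N * l ^ 2 := mul_le_of_le_one_right (by positivity) he1
    nlinarith
  refine h7.trans ?_
  have h8 : c ^ 2 / 4 ≤ l * ((1 - σ - e) - l) := by
    have : c / 2 ≤ (1 - σ - e) - l := by rw [hl]; linarith
    calc c ^ 2 / 4 = l * (c / 2) := by rw [hl]; ring
      _ ≤ _ := by gcongr
  have h9 : N * (c ^ 2 / 4) ≤ N * (l * ((1 - σ - e) - l)) := by gcongr
  linarith

theorem late_le {N n n' r0 k i : ℕ} (hN : 0 < N) (hi : i ≤ n') (hn : n = n' + r0) (hnN : n ≤ N)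
    (hθ : (1 + (Real.exp 2 - 1) * (1 - (i : ℝ) / N)) ^ k ≤ Real.exp 2) :
    uk N (k * n' - k * i) i n ≤ Real.exp (- (2 * r0)) := by
  have hN' : (1 : ℝ) ≤ N := by exact_mod_cast hN
  set z : ℝ := Real.exp 2 with hz
  have hz1 : 1 ≤ z := Real.one_le_exp (by norm_num)
  have h1 : uk N (k * n' - k * i) i n ≤ ex N (fun x => (z ^ n)⁻¹ * z ^ x) (k * n' - k * i) i := by
    unfold uk
    apply ex_mono _ i (by omega)
    intro x _ _
    split_ifs with h
    · subst h
      rw [inv_mul_cancel₀ (by positivity)]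
    · positivity
  refine h1.trans ?_
  rw [ex_mul]
  have h2 := ex_occ_le hN hz1 i (k * n' - k * i) i le_rfl (by omega)
  have hiN : (i : ℝ) / N ≤ 1 := by
    rw [div_le_one (by linarith)]
    exact_mod_cast (by omega : i ≤ N)
  have hb0 : 0 ≤ 1 + (z - 1) * (1 - (i : ℝ) / N) := by
    have : 0 ≤ (z - 1) * (1 - (i : ℝ) / N) := mul_nonneg (by linarith) (by linarith)
    linarith
  have h3 : (1 + (z - 1) * (1 - (i : ℝ) / N)) ^ (k * n' - k * i) ≤ z ^ (n' - i) := by
    have h4 : k * n' - k * i = k * (n' - i) := by rw [Nat.mul_sub]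
    rw [h4, pow_mul]
    exact pow_le_pow_left₀ (pow_nonneg hb0 _) hθ _
  have h4 : (z ^ n)⁻¹ * ex N (fun x => z ^ x) (k * n' - k * i) i
      ≤ (z ^ n)⁻¹ * (z ^ i * z ^ (n' - i)) := by
    apply mul_le_mul_of_nonneg_left _ (by positivity)
    exact h2.trans (mul_le_mul_of_nonneg_left h3 (by positivity))
  refine h4.trans (le_of_eq ?_)
  rw [← pow_add, show i + (n' - i) = n' by omega, hn, pow_add, mul_inv, mul_comm (z ^ n')⁻¹,
    mul_assoc, inv_mul_cancel₀ (by positivity), mul_one, hz, ← Real.exp_nat_mul, ← Real.exp_neg]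
  congr 1
  ring

theorem exp_lower (x : ℝ) (hx : 0 ≤ x) :
    1 + x + x ^ 2 / 2 + x ^ 3 / 6 + x ^ 4 / 24 + x ^ 5 / 120 ≤ Real.exp x := by
  have h := Real.sum_le_exp_of_nonneg hx 6
  simp only [Finset.sum_range_succ, Finset.sum_range_zero, Nat.factorial] at h
  norm_num at h
  linarith

/-- If `u` nearly satisfies the fixed point inequality and is at most `0.338` then it is at most
`b`. -/
theorem fix_aux (k b c : ℝ) (_hb : b < 0.338)
    (h1 : Real.exp (- (k * (1 - b))) ≤ b - c) (h2 : Real.exp (- (k * 0.662)) ≤ 0.338 - c) (u : ℝ)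
    (hu : u ≤ 0.338) (h : u - c < Real.exp (- (k * (1 - u)))) : u ≤ b := by
  by_contra hcon
  push Not at hcon
  set t : ℝ := (u - b) / (0.338 - b) with ht
  have hd : 0 < 0.338 - b := by linarith
  have ht0 : 0 ≤ t := div_nonneg (by linarith) hd.le
  have ht1 : t ≤ 1 := by rw [ht, div_le_one hd]; linarith
  have hu' : u = (1 - t) * b + t * 0.338 := by
    rw [ht]; field_simp; ring
  have hconv := convexOn_exp.2 (Set.mem_univ (- (k * (1 - b)))) (Set.mem_univ (- (k * 0.662)))
    (sub_nonneg.2 ht1) ht0 (by ring)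
  simp only [smul_eq_mul] at hconv
  have harg : (1 - t) * -(k * (1 - b)) + t * -(k * 0.662) = - (k * (1 - u)) := by
    rw [hu']; ring
  rw [harg] at hconv
  have h3 : (1 - t) * Real.exp (- (k * (1 - b))) ≤ (1 - t) * (b - c) :=
    mul_le_mul_of_nonneg_left h1 (sub_nonneg.2 ht1)
  have h4 : t * Real.exp (- (k * 0.662)) ≤ t * (0.338 - c) := mul_le_mul_of_nonneg_left h2 ht0
  have h5 : (1 - t) * (b - c) + t * (0.338 - c) = u - c := by rw [hu']; ring
  linarith

theorem u_data (k : ℕ) (hk : 2 ≤ k) : ∃ b c : ℝ, 0 < c ∧ 0 < b ∧ b ≤ 0.3 ∧ k * b ≤ 0.44 ∧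
    Real.exp (- (1 / 2)) ≤ (1 - b) ^ k ∧
    (1 + (Real.exp 2 - 1) * (b + 1 / (100 * k))) ^ k ≤ Real.exp 2 ∧
    ∀ u : ℝ, u ≤ 0.338 → u - c < Real.exp (- (k * (1 - u))) → u ≤ b := by
  have he1 := Real.exp_one_lt_d9
  have he1' := Real.exp_one_gt_d9
  have he2 : Real.exp 2 = Real.exp 1 ^ 2 := by
    rw [← Real.exp_nat_mul]; norm_num
  have hhalf : Real.exp (- (1 / 2)) ≤ 0.6084 := by
    have h := exp_lower (1 / 2) (by norm_num)
    rw [Real.exp_neg, inv_le_comm₀ (Real.exp_pos _) (by norm_num)]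
    refine le_trans ?_ h
    norm_num
  rcases Nat.lt_or_ge k 3 with h3 | h3
  · have hk2 : k = 2 := by omega
    subst hk2
    refine ⟨0.22, 0.005, by norm_num, by norm_num, by norm_num, by norm_num, ?_, ?_, ?_⟩
    · refine hhalf.trans ?_
      norm_num
    · rw [he2]
      apply pow_le_pow_left₀
      · have : 0 ≤ Real.exp 1 ^ 2 - 1 := by nlinarith
        have h5 : 0 ≤ (Real.exp 1 ^ 2 - 1) * (0.22 + 1 / (100 * ((2 : ℕ) : ℝ))) := by positivity
        linarith
      · norm_num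
        nlinarith
    · intro u hu h
      refine fix_aux 2 0.22 0.005 (by norm_num) ?_ ?_ u hu (by exact_mod_cast h)
      · have h5 := exp_lower 1.56 (by norm_num)
        rw [Real.exp_neg, show (2 : ℝ) * (1 - 0.22) = 1.56 by norm_num,
          inv_le_comm₀ (Real.exp_pos _) (by norm_num)]
        refine le_trans ?_ h5
        norm_num
      · have h5 := exp_lower 1.324 (by norm_num)
        rw [Real.exp_neg, show (2 : ℝ) * 0.662 = 1.324 by norm_num,
          inv_le_comm₀ (Real.exp_pos _) (by norm_num)]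
        refine le_trans ?_ h5
        norm_num
  · have hk3 : (3 : ℝ) ≤ k := by exact_mod_cast h3
    have hkpos : (0 : ℝ) < k := by linarith
    refine ⟨0.3 / k, 0.01 / k, by positivity, by positivity, ?_, ?_, ?_, ?_, ?_⟩
    · rw [div_le_iff₀ hkpos]; linarith
    · rw [mul_div_cancel₀ _ hkpos.ne']; norm_num
    · have h5 := one_add_mul_le_pow (a := - ((0.3 : ℝ) / k)) (by
        have : (0.3 : ℝ) / k ≤ 1 := by rw [div_le_one hkpos]; linarith
        linarith) k
      have h6 : 1 + (k : ℝ) * -(0.3 / k) = 0.7 := by field_simp; norm_num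
      rw [h6] at h5
      have h7 : (1 : ℝ) + -(0.3 / k) = 1 - 0.3 / k := by ring
      rw [h7] at h5
      linarith
    · have h5 : (0.3 : ℝ) / k + 1 / (100 * k) = 0.31 / k := by field_simp; norm_num
      rw [h5]
      have h6 : 1 + (Real.exp 2 - 1) * (0.31 / k) ≤ Real.exp ((Real.exp 2 - 1) * (0.31 / k)) := by
        have := Real.add_one_le_exp ((Real.exp 2 - 1) * (0.31 / k))
        linarith
      have h7 : 0 ≤ Real.exp 2 - 1 := by
        have := Real.one_le_exp (show (0 : ℝ) ≤ 2 by norm_num)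
        linarith
      have h8 : 0 ≤ 1 + (Real.exp 2 - 1) * (0.31 / k) := by positivity
      refine (pow_le_pow_left₀ h8 h6 k).trans ?_
      rw [← Real.exp_nat_mul, Real.exp_le_exp]
      have h9 : (k : ℝ) * ((Real.exp 2 - 1) * (0.31 / k)) = (Real.exp 2 - 1) * 0.31 := by
        field_simp
      rw [h9, he2]
      nlinarith
    · intro u hu h
      have hb : (0.3 : ℝ) / k ≤ 0.1 := by rw [div_le_iff₀ hkpos]; linarith
      refine fix_aux k (0.3 / k) (0.01 / k) (by linarith) ?_ ?_ u hu h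
      · have h5 : (k : ℝ) * (1 - 0.3 / k) = 2.7 + (k - 3) := by field_simp; ring
        have h6 : (0.3 : ℝ) / k - 0.01 / k = 0.29 / k := by ring
        rw [h5, h6, Real.exp_neg, inv_le_comm₀ (Real.exp_pos _) (by positivity), Real.exp_add]
        have h7 := exp_lower 2.7 (by norm_num)
        have h8 : (12 : ℝ) ≤ Real.exp 2.7 := le_trans (by norm_num) h7
        have h9 : (k : ℝ) - 2 ≤ Real.exp (k - 3) := by
          have := Real.add_one_le_exp ((k : ℝ) - 3)
          linarith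
        have h10 : (12 : ℝ) * (k - 2) ≤ Real.exp 2.7 * Real.exp (k - 3) := by
          apply mul_le_mul h8 h9 (by linarith) (Real.exp_pos _).le
        refine le_trans ?_ h10
        rw [inv_div, div_le_iff₀ (by norm_num)]
        linarith
      · have h5 : Real.exp (- (k * 0.662)) ≤ Real.exp (- 1.986) := by
          rw [Real.exp_le_exp]; linarith
        refine h5.trans ?_
        have h6 := exp_lower 1.986 (by norm_num)
        have h7 : (0.01 : ℝ) / k ≤ 0.01 := by
          rw [div_le_iff₀ hkpos]; linarith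
        have h8 : Real.exp (- 1.986) ≤ 0.328 := by
          rw [Real.exp_neg, inv_le_comm₀ (Real.exp_pos _) (by norm_num)]
          refine le_trans ?_ h6
          norm_num
        linarith

/-- Lower bound for the gap on the middle range. -/
theorem gap_aux (k s1 c : ℝ) (hs1 : 1 / 8 ≤ s1) (hk : 2 ≤ k) (hc : c ≤ 0.09)
    (h1 : c ≤ 1 - s1 - Real.exp (- (k * s1))) (s : ℝ) (hs : 1 / 8 ≤ s) (hs' : s ≤ s1) :
    c ≤ 1 - s - Real.exp (- (k * s)) := by
  have h0 : c ≤ 1 - 1 / 8 - Real.exp (- (k * (1 / 8))) := by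
    have h2 : Real.exp (- (k * (1 / 8))) ≤ Real.exp (- (1 / 4)) := by
      rw [Real.exp_le_exp]; linarith
    have h3 : Real.exp (- (1 / 4)) ≤ 0.781 := by
      have h := exp_lower (1 / 4) (by norm_num)
      rw [Real.exp_neg, inv_le_comm₀ (Real.exp_pos _) (by norm_num)]
      refine le_trans ?_ h
      norm_num
    linarith
  rcases eq_or_lt_of_le hs1 with h | hlt
  · have : s = s1 := le_antisymm hs' (by linarith)
    rw [this]; exact h1
  set t : ℝ := (s - 1 / 8) / (s1 - 1 / 8) with ht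
  have hd : 0 < s1 - 1 / 8 := by linarith
  have ht0 : 0 ≤ t := div_nonneg (by linarith) hd.le
  have ht1 : t ≤ 1 := by rw [ht, div_le_one hd]; linarith
  have hts : t * (s1 - 1 / 8) = s - 1 / 8 := by rw [ht, div_mul_cancel₀ _ hd.ne']
  have hu' : s = (1 - t) * (1 / 8) + t * s1 := by
    linear_combination (-1) * hts
  have hconv := convexOn_exp.2 (Set.mem_univ (- (k * (1 / 8)))) (Set.mem_univ (- (k * s1)))
    (sub_nonneg.2 ht1) ht0 (by ring)
  simp only [smul_eq_mul] at hconv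
  have harg : (1 - t) * -(k * (1 / 8)) + t * -(k * s1) = - (k * s) := by
    rw [hu']; ring
  rw [harg] at hconv
  have h3 := mul_le_mul_of_nonneg_left h0 (sub_nonneg.2 ht1)
  have h4 := mul_le_mul_of_nonneg_left h1 ht0
  have h5 : 1 - s = (1 - t) * (1 - 1 / 8) + t * (1 - s1) := by rw [hu']; ring
  nlinarith

end Pool.Agent.Helper98.Aut
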