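import Mathlib

namespace Pool.Agent.Helper98.Aut

open Finset

/-- Expectation of `g` after `m` steps of the occupancy chain with `N` boxes, started from `s`
occupied boxes. -/
noncomputable def ex (N : ℕ) (g : ℕ → ℝ) : ℕ → ℕ → ℝ
  | 0, s => g s
  | m + 1, s => (s / N) * ex N g m s + ((N - s) / N) * ex N g m (s + 1)

theorem ex_mono {N : ℕ} {g h : ℕ → ℝ} (m : ℕ) : ∀ s, s ≤ N → (∀ x, s ≤ x → x ≤ N → g x ≤ h x) →
    ex N g m s ≤ ex N h m s := by
  induction m with
  | zero => intro s hs hgh; exact hgh s le_rfl hs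
  | succ m ih =>
    intro s hs hgh
    simp only [ex]
    have h1 := ih s hs hgh
    have hN : (0 : ℝ) ≤ N := Nat.cast_nonneg _
    have hs' : (s : ℝ) ≤ N := by exact_mod_cast hs
    rcases Nat.lt_or_ge s N with hlt | hge
    · have h2 := ih (s + 1) hlt fun x hx hxN => hgh x (by omega) hxN
      have h3 : 0 ≤ ((N : ℝ) - s) / N := div_nonneg (by linarith) hN
      gcongr
    · have : s = N := le_antisymm hs hge
      subst this
      simp only [sub_self, zero_div, zero_mul, add_zero]
      gcongr

theorem ex_congr {N : ℕ} {g h : ℕ → ℝ} (m : ℕ) (s : ℕ) (hs : s ≤ N)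
    (hgh : ∀ x, s ≤ x → x ≤ N → g x = h x) : ex N g m s = ex N h m s :=
  le_antisymm (ex_mono m s hs fun x h1 h2 => (hgh x h1 h2).le)
    (ex_mono m s hs fun x h1 h2 => (hgh x h1 h2).ge)

theorem ex_add (N : ℕ) (g h : ℕ → ℝ) (m : ℕ) : ∀ s,
    ex N (fun x => g x + h x) m s = ex N g m s + ex N h m s := by
  induction m with
  | zero => intro s; rfl
  | succ m ih => intro s; simp only [ex]; rw [ih, ih]; ring

theorem ex_mul (N : ℕ) (c : ℝ) (g : ℕ → ℝ) (m : ℕ) : ∀ s,
    ex N (fun x => c * g x) m s = c * ex N g m s := by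
  induction m with
  | zero => intro s; rfl
  | succ m ih => intro s; simp only [ex]; rw [ih, ih]; ring

theorem ex_sum {ι : Type*} (N : ℕ) (S : Finset ι) (g : ι → ℕ → ℝ) (m : ℕ) : ∀ s,
    ex N (fun x => ∑ i ∈ S, g i x) m s = ∑ i ∈ S, ex N (g i) m s := by
  induction m with
  | zero => intro s; rfl
  | succ m ih =>
    intro s
    simp only [ex]
    rw [ih, ih, Finset.mul_sum, Finset.mul_sum, ← Finset.sum_add_distrib]

theorem ex_const {N : ℕ} (hN : 0 < N) (c : ℝ) (m : ℕ) : ∀ s, ex N (fun _ => c) m s = c := by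
  have hN' : (0 : ℝ) < N := by exact_mod_cast hN
  induction m with
  | zero => intro s; rfl
  | succ m ih => intro s; simp only [ex]; rw [ih, ih]; field_simp; ring

theorem ex_nonneg {N : ℕ} (hN : 0 < N) {g : ℕ → ℝ} (m s : ℕ) (hs : s ≤ N)
    (hg : ∀ x, s ≤ x → x ≤ N → 0 ≤ g x) : 0 ≤ ex N g m s := by
  have := ex_mono (h := g) m s hs (g := fun _ => (0 : ℝ)) hg
  rwa [ex_const hN] at this

/-- One more step at the end. -/
theorem ex_succ' (N : ℕ) (g : ℕ → ℝ) (m : ℕ) : ∀ s,
    ex N g (m + 1) s = ex N (fun x => (x / N) * g x + ((N - x) / N) * g (x + 1)) m s := by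
  induction m with
  | zero => intro s; rfl
  | succ m ih =>
    intro s
    have h1 : ex N g (m + 1 + 1) s = (s / N) * ex N g (m + 1) s
      + ((N - s) / N) * ex N g (m + 1) (s + 1) := rfl
    rw [h1, ih, ih]
    rfl

theorem ex_lin {N : ℕ} (hN : 0 < N) (m : ℕ) : ∀ s,
    ex N (fun x => (N : ℝ) - x) m s = ((N : ℝ) - s) * (1 - 1 / N) ^ m := by
  have hN' : (0 : ℝ) < N := by exact_mod_cast hN
  induction m with
  | zero => intro s; simp [ex]
  | succ m ih =>
    intro s
    simp only [ex]
    rw [ih, ih, pow_succ]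
    push_cast
    field_simp
    ring

theorem ex_quad {N : ℕ} (hN : 0 < N) (m : ℕ) : ∀ s,
    ex N (fun x => ((N : ℝ) - x) * ((N : ℝ) - x - 1)) m s
      = ((N : ℝ) - s) * ((N : ℝ) - s - 1) * (1 - 2 / N) ^ m := by
  have hN' : (0 : ℝ) < N := by exact_mod_cast hN
  induction m with
  | zero => intro s; simp [ex]
  | succ m ih =>
    intro s
    simp only [ex]
    rw [ih, ih, pow_succ]
    push_cast
    field_simp
    ring

/-- Exponential moment of the number of empty boxes. -/
theorem ex_empty_le {N : ℕ} (hN : 0 < N) {z : ℝ} (hz : 1 ≤ z) (m : ℕ) : ∀ s, s ≤ N →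
    ex N (fun x => z ^ (N - x)) m s ≤ (1 + (z - 1) * (1 - 1 / N) ^ m) ^ (N - s) := by
  have hN' : (1 : ℝ) ≤ N := by exact_mod_cast hN
  have hρ0 : (0 : ℝ) ≤ 1 - 1 / N := by
    have : (1 : ℝ) / N ≤ 1 := by rw [div_le_one (by linarith)]; exact hN'
    linarith
  induction m with
  | zero => intro s _; simp [ex]
  | succ m ih =>
    intro s hs
    have hs' : (s : ℝ) ≤ N := by exact_mod_cast hs
    simp only [ex]
    set y := 1 + (z - 1) * (1 - 1 / (N : ℝ)) ^ m with hy
    have hy1 : 1 ≤ y := by
      have : 0 ≤ (z - 1) * (1 - 1 / (N : ℝ)) ^ m := mul_nonneg (by linarith) (pow_nonneg hρ0 _)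
      linarith
    have hgoal : 1 + (z - 1) * (1 - 1 / (N : ℝ)) ^ (m + 1) = y - (y - 1) / N := by
      rw [pow_succ, hy]; field_simp; ring
    rw [hgoal]
    rcases Nat.lt_or_ge s N with hlt | hge
    · have h1 := ih s hs
      have h2 := ih (s + 1) hlt
      have h3 : 0 ≤ ((N : ℝ) - s) / N := div_nonneg (by linarith) (by linarith)
      have h4 : (s / N : ℝ) * ex N (fun x => z ^ (N - x)) m s
          + ((N - s) / N) * ex N (fun x => z ^ (N - x)) m (s + 1)
          ≤ (s / N) * y ^ (N - s) + ((N - s) / N) * y ^ (N - (s + 1)) := by gcongr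
      refine h4.trans ?_
      obtain ⟨d, hd⟩ : ∃ d, N - s = d + 1 := ⟨N - s - 1, by omega⟩
      have hd' : N - (s + 1) = d := by omega
      have hds : (N : ℝ) - s = d + 1 := by
        have : (N : ℝ) = s + (d + 1) := by exact_mod_cast (by omega : N = s + (d + 1))
        linarith
      rw [hd, hd', hds]
      have hsN : (s : ℝ) = N - (d + 1) := by linarith
      rw [hsN]
      -- Bernoulli
      have hb : y ^ (d + 1) * (1 - (d + 1) * ((y - 1) / (N * y))) ≤ (y - (y - 1) / N) ^ (d + 1) := by
        have h5 : y - (y - 1) / N = y * (1 + - ((y - 1) / (N * y))) := by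
          field_simp
          ring
        rw [h5, mul_pow]
        apply mul_le_mul_of_nonneg_left _ (by positivity)
        have h6 : (y - 1) / (N * y) ≤ 1 := by
          rw [div_le_one (by positivity)]
          nlinarith
        have := one_add_mul_le_pow (a := - ((y - 1) / (N * y))) (by linarith) (d + 1)
        push_cast at this
        linarith
      refine le_trans (le_of_eq ?_) hb
      field_simp
      ring
    · have : s = N := le_antisymm hs hge
      subst this
      simp only [sub_self, zero_div, zero_mul, add_zero, Nat.sub_self, pow_zero]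
      have := ih s le_rfl
      simp only [Nat.sub_self, pow_zero] at this
      rw [div_self (by linarith)]
      linarith

/-- Exponential moment of the number of occupied boxes. -/
theorem ex_occ_le {N : ℕ} (hN : 0 < N) {z : ℝ} (hz : 1 ≤ z) (i : ℕ) (m : ℕ) : ∀ s, i ≤ s → s ≤ N →
    ex N (fun x => z ^ x) m s ≤ z ^ s * (1 + (z - 1) * (1 - i / N)) ^ m := by
  have hN' : (1 : ℝ) ≤ N := by exact_mod_cast hN
  induction m with
  | zero => intro s _ _; simp [ex]
  | succ m ih =>
    intro s his hs
    have hs' : (s : ℝ) ≤ N := by exact_mod_cast hs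
    have his' : (i : ℝ) ≤ s := by exact_mod_cast his
    simp only [ex]
    set c := 1 + (z - 1) * (1 - (i : ℝ) / N) with hc
    have hiN : (i : ℝ) / N ≤ 1 := by rw [div_le_one (by linarith)]; linarith
    have hc0 : 0 ≤ c := by
      have : 0 ≤ (z - 1) * (1 - (i : ℝ) / N) := mul_nonneg (by linarith) (by linarith)
      linarith
    have hkey : (s / N : ℝ) + ((N - s) / N) * z ≤ c := by
      have h1 : (s / N : ℝ) + ((N - s) / N) * z = 1 + (z - 1) * (1 - s / N) := by
        field_simp; ring
      rw [h1, hc]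
      have h2 : (i : ℝ) / N ≤ s / N := by gcongr
      have h3 : 0 ≤ z - 1 := by linarith
      nlinarith
    have h1 := ih s his hs
    rcases Nat.lt_or_ge s N with hlt | hge
    · have h2 := ih (s + 1) (by omega) hlt
      have h3 : 0 ≤ ((N : ℝ) - s) / N := div_nonneg (by linarith) (by linarith)
      have h4 : (s / N : ℝ) * ex N (fun x => z ^ x) m s
          + ((N - s) / N) * ex N (fun x => z ^ x) m (s + 1)
          ≤ (s / N) * (z ^ s * c ^ m) + ((N - s) / N) * (z ^ (s + 1) * c ^ m) := by gcongr
      refine h4.trans ?_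
      have h5 : (s / N : ℝ) * (z ^ s * c ^ m) + ((N - s) / N) * (z ^ (s + 1) * c ^ m)
          = (z ^ s * c ^ m) * ((s / N : ℝ) + ((N - s) / N) * z) := by ring
      rw [h5, pow_succ c m, ← mul_assoc]
      apply mul_le_mul_of_nonneg_left hkey
      positivity
    · have hsN : s = N := le_antisymm hs hge
      have h3 : (s : ℝ) / N = 1 := by rw [hsN]; exact div_self (by linarith)
      have h4 : ((N : ℝ) - s) / N = 0 := by rw [hsN]; simp
      rw [h3, h4, zero_mul, add_zero, one_mul]
      rw [h3, h4, zero_mul, add_zero] at hkey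
      refine h1.trans ?_
      rw [pow_succ, ← mul_assoc]
      exact le_mul_of_one_le_right (by positivity) hkey

/-- Transition probabilities of the occupancy chain. -/
noncomputable def uk (N m s t : ℕ) : ℝ := ex N (fun x => if x = t then 1 else 0) m s

theorem uk_nonneg {N : ℕ} (hN : 0 < N) {s : ℕ} (hs : s ≤ N) (m t : ℕ) : 0 ≤ uk N m s t :=
  ex_nonneg hN m s hs fun x _ _ => by split_ifs <;> norm_num

theorem uk_le_one {N : ℕ} (hN : 0 < N) {s : ℕ} (hs : s ≤ N) (m t : ℕ) : uk N m s t ≤ 1 := by
  have := ex_mono (N := N) (g := fun x => if x = t then (1 : ℝ) else 0) (h := fun _ => 1) m s hs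
    (fun x _ _ => by split_ifs <;> norm_num)
  rwa [ex_const hN] at this

theorem uk_zero (N s t : ℕ) : uk N 0 s t = if s = t then 1 else 0 := rfl

theorem uk_succ (N m s t : ℕ) : uk N (m + 1) s t
    = (s / N) * uk N m s t + ((N - s) / N) * uk N m (s + 1) t := rfl

theorem uk_succ' (N m s t : ℕ) : uk N (m + 1) s (t + 1)
    = ((t + 1) / N) * uk N m s (t + 1) + ((N - t) / N) * uk N m s t := by
  unfold uk
  rw [ex_succ', ← ex_mul, ← ex_mul, ← ex_add]
  congr 1
  funext x
  by_cases h1 : x = t + 1
  · subst h1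
    simp
  · by_cases h2 : x = t
    · subst h2
      simp
    · have h3 : ¬ (x + 1 = t + 1) := by omega
      simp [h1, h2]

theorem uk_eq_zero_of_lt (N : ℕ) (m : ℕ) : ∀ s t, t < s → uk N m s t = 0 := by
  induction m with
  | zero => intro s t h; rw [uk_zero, if_neg (by omega)]
  | succ m ih =>
    intro s t h
    rw [uk_succ, ih s t h, ih (s + 1) t (by omega)]
    ring

/-- Closed form of the transition probabilities from `1`. -/
theorem uk_one {N : ℕ} (hN : 0 < N) (m : ℕ) : ∀ t, uk N m 1 (t + 1)
    = (Nat.stirlingSecond (m + 1) (t + 1) : ℝ) * ((N - 1).descFactorial t : ℝ) / (N : ℝ) ^ m := by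
  have hN' : (0 : ℝ) < N := by exact_mod_cast hN
  induction m with
  | zero =>
    intro t
    rw [uk_zero]
    cases t with
    | zero => simp [Nat.stirlingSecond]
    | succ t =>
      rw [if_neg (by omega), Nat.stirlingSecond_eq_zero_of_lt (by omega)]
      simp
  | succ m ih =>
    intro t
    rw [uk_succ', ih t, Nat.stirlingSecond_succ_succ (m + 1) t]
    cases t with
    | zero =>
      rw [uk_eq_zero_of_lt N m 1 0 (by omega)]
      rw [Nat.stirlingSecond_succ_zero]
      push_cast
      field_simp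
      ring
    | succ t =>
      rw [ih t]
      have hd : ((N : ℝ) - (t + 1 : ℕ)) * ((N - 1).descFactorial t : ℝ)
          = ((N - 1).descFactorial (t + 1) : ℝ) := by
        rw [Nat.descFactorial_succ]
        push_cast
        rcases Nat.lt_or_ge (N - 1) t with h | h
        · rw [Nat.descFactorial_eq_zero_iff_lt.2 h]; simp
        · rw [Nat.cast_sub h, Nat.cast_sub (by omega)]
          push_cast
          ring
      push_cast at hd ⊢
      rw [pow_succ]
      field_simp
      rw [← hd]
      ring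

end Pool.Agent.Helper98.Aut
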