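import Pool.Agent.Helper98.AutSep

namespace Pool.Agent.Helper98.Aut

open Finset

set_option linter.unusedSectionVars false

variable {V A : Type*} [Fintype V] [DecidableEq V] [Fintype A] [DecidableEq A]

/-- The letter `c` reads a coincidence from the pair `p, q`. -/
def Coin (δ : V × A → V) (p q : V) (c : A) : Prop :=
  (δ (p, c) = p ∨ δ (p, c) = q) ∨ (δ (q, c) = p ∨ δ (q, c) = q) ∨ δ (p, c) = δ (q, c)

theorem bad_init {δ : V × A → V} {p q : V} {c : A}
    (h : 1 ≤ bad ({p, q} : Finset V) (δ (p, c)) (δ (q, c))) : Coin δ p q c := by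
  unfold bad at h
  split_ifs at h with hg
  · omega
  · unfold Coin
    by_contra hcon
    apply hg
    simp only [Finset.mem_insert, Finset.mem_singleton]
    push Not at hcon ⊢
    tauto

theorem coin_bad {δ : V × A → V} {p q : V} {c : A} (h : Coin δ p q c) :
    bad ({p, q} : Finset V) (δ (p, c)) (δ (q, c)) = 1 := by
  unfold bad
  rw [if_neg]
  rintro ⟨h1, h2, h3⟩
  simp only [Finset.mem_insert, Finset.mem_singleton, not_or] at h1 h2
  unfold Coin at h
  tauto

/-- With two letters: if both first steps are bad then both letters read a coincidence. -/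
theorem coin_of_nb_two (hk : Fintype.card A = 2) (δ : V × A → V) (p q : V)
    (h : 2 ≤ nb δ 2 (init p q)) : ∀ c, Coin δ p q c := by
  have hlen : (univ : Finset A).toList.length = 2 := by
    rw [Finset.length_toList, Finset.card_univ, hk]
  obtain ⟨a, b, hab⟩ : ∃ a b, (univ : Finset A).toList = [a, b] := List.length_eq_two.1 hlen
  have ht : (init p q : St V A).tasks = [(p, q, a), (p, q, b)] := by
    simp [init, hab]
  have hall : ∀ c : A, c = a ∨ c = b := by
    intro c
    have : c ∈ (univ : Finset A).toList := by simp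
    rw [hab] at this
    simpa using this
  have h1 : nb δ 2 (init p q) = bdn δ (init p q) + bdn δ (stp δ (init p q)) := by
    simp [nb]
  rw [h1, bdn_cons ht] at h
  have h2 : bad (init p q : St V A).seen (δ (p, a)) (δ (q, a)) ≤ 1 := by
    unfold bad; split_ifs <;> omega
  have h3 : bdn δ (stp δ (init p q)) ≤ 1 := by
    cases hs : (stp δ (init p q)).tasks with
    | nil => rw [bdn_nil hs]; omega
    | cons z r => rw [bdn_cons hs]; unfold bad; split_ifs <;> omega
  simp only at h
  have h4 : 1 ≤ bad (init p q : St V A).seen (δ (p, a)) (δ (q, a)) := by omega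
  have h5 : 1 ≤ bdn δ (stp δ (init p q)) := by omega
  have hca : Coin δ p q a := bad_init h4
  have h6 : stp δ (init p q) = ⟨[(p, q, b)], {p, q}, insert (p, a) (insert (q, a) ∅)⟩ := by
    rw [stp_cons ht]
    unfold nxt
    have h7 := coin_bad hca
    unfold bad at h7
    split_ifs at h7 with hg
    have h8 : (init p q : St V A).seen = {p, q} := rfl
    rw [h8, if_neg hg]
    rfl
  have hcb : Coin δ p q b := by
    have h7 : (stp δ (init p q)).tasks = (p, q, b) :: [] := by rw [h6]
    rw [bdn_cons h7] at h5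
    have h8 : (stp δ (init p q)).seen = {p, q} := by rw [h6]
    rw [h8] at h5
    exact bad_init h5
  intro c
  rcases hall c with rfl | rfl
  · exact hca
  · exact hcb

/-- The exploration survives up to time `T`. -/
theorem length_ge (hk : 2 ≤ Fintype.card A) (δ : V × A → V) (p q : V) (T : ℕ) (hT : 64 ≤ T)
    (h1 : nb δ 64 (init p q) < 3) (h2 : ∀ m, 64 ≤ m → m ≤ T → 4 * nb δ m (init p q) < m)
    (h3 : 3 ≤ Fintype.card A ∨ ∃ c, ¬ Coin δ p q c) :
    T ≤ 2 * (itr δ T (init p q)).tasks.length := by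
  set k := Fintype.card A with hkd
  have hlen0 : (init p q : St V A).tasks.length = k := init_length p q
  have hlt : ∀ m ≤ T, m + k * nb δ m (init p q) < (init p q : St V A).tasks.length + k * m := by
    intro m hm
    rw [hlen0]
    by_cases hm64 : 64 ≤ m
    · have h4 := h2 m hm64 hm
      -- `k * (m - nb) ≥ k * 3 m / 4 > m`
      have h5 : k * (4 * nb δ m (init p q)) ≤ k * m := Nat.mul_le_mul_left _ h4.le
      have h6 : 2 * m ≤ k * m := Nat.mul_le_mul_right _ hk
      nlinarith
    · have h4 : nb δ m (init p q) ≤ nb δ 64 (init p q) := nb_mono δ _ (by omega)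
      have h5 : nb δ m (init p q) ≤ m := nb_le δ m _
      have h6 : nb δ m (init p q) ≤ 2 := by omega
      have h7 : 2 * m ≤ k * m := Nat.mul_le_mul_right _ hk
      rcases Nat.lt_or_ge m 3 with h8 | h8
      · rcases Nat.lt_or_ge m 2 with h9 | h9
        · -- m = 0 or 1
          have h10 : k * nb δ m (init p q) ≤ k * m := Nat.mul_le_mul_left _ h5
          omega
        · -- m = 2
          have hm2 : m = 2 := by omega
          subst hm2
          rcases Nat.lt_or_ge k 3 with h11 | h11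
          · have hk2 : k = 2 := by omega
            have h12 : nb δ 2 (init p q) ≤ 1 := by
              by_contra hcon
              have h13 := coin_of_nb_two (hkd ▸ hk2) δ p q (by omega)
              rcases h3 with h14 | ⟨c, hc⟩
              · omega
              · exact hc (h13 c)
            rw [hk2]
            omega
          · have h12 : k * nb δ 2 (init p q) ≤ k * 2 := Nat.mul_le_mul_left _ h6
            omega
      · -- m ≥ 3
        have h9 : k * nb δ m (init p q) ≤ k * 2 := Nat.mul_le_mul_left _ h6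
        have h10 : 3 * k ≤ k * m := by rw [mul_comm]; exact Nat.mul_le_mul_left _ h8
        -- need `m + 2 k < k + k m`
        have h11 : k + m < k * m := by
          have : 0 ≤ ((k : ℤ) - 2) * ((m : ℤ) - 3) := by
            apply mul_nonneg <;> omega
          have h12 : (k : ℤ) * m = (k - 2) * (m - 3) + 3 * k + 2 * m - 6 := by ring
          have h13 : (k : ℤ) + m < k * m := by
            rw [h12]; omega
          exact_mod_cast h13
        omega
  have hfin := itr_length_of_lt δ (init p q) T hlt T le_rfl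
  rw [hlen0, ← hkd] at hfin
  have h4 := h2 T hT le_rfl
  have h5 : k * (4 * nb δ T (init p q)) ≤ k * T := Nat.mul_le_mul_left _ h4.le
  have h6 : 2 * T ≤ k * T := Nat.mul_le_mul_right _ hk
  have h7 : k * (4 * nb δ T (init p q)) = 4 * (k * nb δ T (init p q)) := by ring
  omega

theorem cnt_nb_three_le (p q : V) (hpq : p ≠ q) :
    cnt (fun _ : V × A => (univ : Finset V)) (fun δ => 3 ≤ nb δ 64 (init p q)) ≤
      741000000000 / (Fintype.card V : ℝ) ^ 3 * wt (fun _ : V × A => (univ : Finset V)) := by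
  have h := cnt_nb_le (V := V) (A := A) 130 64 (init p q) (init_wf hpq)
    (by have := init_seen (A := A) p q; omega) (fun _ => univ) (fun _ _ => rfl) 3
  refine h.trans ?_
  apply mul_le_mul_of_nonneg_right _ (wt_nonneg _)
  have h1 : Nat.choose 64 3 = 41664 := by decide +kernel
  rw [h1, div_pow, ← mul_div_assoc]
  apply div_le_div_of_nonneg_right _ (by positivity)
  norm_num

theorem cnt_nb_quarter_le (p q : V) (hpq : p ≠ q) (m T : ℕ) (hm : 64 ≤ m) (hmT : m ≤ T)
    (hTN : 80 * T ≤ Fintype.card V) :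
    cnt (fun _ : V × A => (univ : Finset V)) (fun δ => m ≤ 4 * nb δ m (init p q)) ≤
      (80 * T / (Fintype.card V : ℝ)) ^ 16 * wt (fun _ : V × A => (univ : Finset V)) := by
  have h := cnt_nb_le (V := V) (A := A) (2 + 2 * m) m (init p q) (init_wf hpq)
    (by have := init_seen (A := A) p q; omega) (fun _ => univ) (fun _ _ => rfl) ((m + 3) / 4)
  refine (cnt_mono fun δ _ hδ => ?_).trans (h.trans ?_)
  · omega
  · apply mul_le_mul_of_nonneg_right _ (wt_nonneg _)
    set j := (m + 3) / 4 with hj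
    have hj16 : 16 ≤ j := by omega
    have hNpos : (0 : ℝ) < Fintype.card V := by
      have : 0 < Fintype.card V := Fintype.card_pos_iff.2 ⟨p⟩
      exact_mod_cast this
    have hch : ((m.choose j : ℕ) : ℝ) ≤ 16 ^ j := by
      have h1 : m.choose j ≤ 2 ^ m := Nat.choose_le_two_pow m j
      have h2 : 2 ^ m ≤ 2 ^ (4 * j) := Nat.pow_le_pow_right (by norm_num) (by omega)
      have h3 : 2 ^ (4 * j) = 16 ^ j := by rw [pow_mul]; norm_num
      have h4 : m.choose j ≤ 16 ^ j := by omega
      exact_mod_cast h4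
    have hm' : (64 : ℝ) ≤ m := by exact_mod_cast hm
    have hmT' : (m : ℝ) ≤ T := by exact_mod_cast hmT
    have h5 : (16 : ℝ) * ((2 * ((2 + 2 * m : ℕ) : ℝ) + 1) / Fintype.card V)
        ≤ 80 * T / Fintype.card V := by
      rw [← mul_div_assoc]
      apply div_le_div_of_nonneg_right _ hNpos.le
      push_cast
      nlinarith
    have h6 : (80 : ℝ) * T / Fintype.card V ≤ 1 := by
      rw [div_le_one hNpos]; exact_mod_cast hTN
    calc ((m.choose j : ℕ) : ℝ) * ((2 * ((2 + 2 * m : ℕ) : ℝ) + 1) / Fintype.card V) ^ j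
        ≤ 16 ^ j * ((2 * ((2 + 2 * m : ℕ) : ℝ) + 1) / Fintype.card V) ^ j := by gcongr
      _ = (16 * ((2 * ((2 + 2 * m : ℕ) : ℝ) + 1) / Fintype.card V)) ^ j := by rw [mul_pow]
      _ ≤ (80 * T / Fintype.card V) ^ j := by
          apply pow_le_pow_left₀ (by positivity) h5
      _ ≤ (80 * T / Fintype.card V) ^ 16 :=
          pow_le_pow_of_le_one (by positivity) h6 hj16

/-- One pair of states and one final state. -/
theorem cnt_pair_le (hk : 2 ≤ Fintype.card A) (p q f : V) (hpq : p ≠ q)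
    (M0 M K T : ℕ) (hK : K = 2 * Fintype.card A + 1) (h0 : 0 < M0) (hM : 1 < M) (hM0 : M0 ≤ M)
    (hT : 64 ≤ T) (hN : 1000 ≤ Fintype.card V) (hTN : 80 * T ≤ Fintype.card V)
    (hNM : 100 * (K * M) ≤ Fintype.card V)
    (hLT : 8 * Fintype.card A * (K * (K * M)) ≤ T)
    (hLN : 2 * (K * (K * M)) ≤ Fintype.card V) :
    cnt (fun _ : V × A => (univ : Finset V)) (fun δ =>
      (∃ j, M0 ≤ (lev (Function.curry δ) {f} j).card) ∧ Unsep δ f p q ∧
        (3 ≤ Fintype.card A ∨ ∃ c, ¬ Coin δ p q c)) ≤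
      (741000000000 / (Fintype.card V : ℝ) ^ 3 + T * (80 * T / (Fintype.card V : ℝ)) ^ 16
        + 5 * K * M * Real.exp (- (M0 / 5))
        + Fintype.card V * Real.exp (- ((M : ℝ) * T / (64 * Fintype.card V)))) *
        wt (fun _ : V × A => (univ : Finset V)) := by
  classical
  set U : V × A → Finset V := fun _ => univ with hU
  have hsub : ∀ δ ∈ Fintype.piFinset U,
      ((∃ j, M0 ≤ (lev (Function.curry δ) {f} j).card) ∧ Unsep δ f p q ∧
        (3 ≤ Fintype.card A ∨ ∃ c, ¬ Coin δ p q c)) →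
      ((3 ≤ nb δ 64 (init p q) ∨ ∃ m ∈ Finset.Icc 64 T, m ≤ 4 * nb δ m (init p q)) ∨
        ((∃ j, M0 ≤ (lev (Function.curry δ) {f} j).card) ∧
          ¬ ∃ l ∈ Finset.range (Fintype.card V), GoodAt M (K * (K * M)) (Function.curry δ) f l)) ∨
        ∃ l ∈ Finset.range (Fintype.card V),
          ((GoodAt M (K * (K * M)) (Function.curry δ) f l ∧
            T ≤ 2 * (itr δ T (init p q)).tasks.length) ∧ Unsep δ f p q) := by
    rintro δ _ ⟨h1, h2, h3⟩
    by_contra hcon
    rw [not_or, not_or, not_or] at hcon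
    obtain ⟨⟨⟨c1, c2⟩, c3⟩, c4⟩ := hcon
    have h4 : ∃ l ∈ Finset.range (Fintype.card V),
        GoodAt M (K * (K * M)) (Function.curry δ) f l := by
      by_contra h5
      exact c3 ⟨h1, h5⟩
    obtain ⟨l, hl, hg⟩ := h4
    apply c4
    refine ⟨l, hl, ⟨hg, ?_⟩, h2⟩
    refine length_ge hk δ p q T hT (by omega) ?_ h3
    intro m hm1 hm2
    by_contra h6
    exact c2 ⟨m, Finset.mem_Icc.2 ⟨hm1, hm2⟩, by omega⟩
  refine (cnt_mono hsub).trans ?_
  refine (cnt_or_le _ _ _).trans ?_
  have e1 := cnt_or_le U (fun δ => 3 ≤ nb δ 64 (init p q) ∨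
    ∃ m ∈ Finset.Icc 64 T, m ≤ 4 * nb δ m (init p q)) (fun δ =>
      (∃ j, M0 ≤ (lev (Function.curry δ) {f} j).card) ∧
      ¬ ∃ l ∈ Finset.range (Fintype.card V), GoodAt M (K * (K * M)) (Function.curry δ) f l)
  have e2 := cnt_or_le U (fun δ => 3 ≤ nb δ 64 (init p q)) (fun δ =>
    ∃ m ∈ Finset.Icc 64 T, m ≤ 4 * nb δ m (init p q))
  have b1 := cnt_nb_three_le (A := A) p q hpq
  have hW := wt_nonneg U
  have hNpos : (0 : ℝ) < Fintype.card V := by
    have : 0 < Fintype.card V := by omega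
    exact_mod_cast this
  have b2 : cnt U (fun δ => ∃ m ∈ Finset.Icc 64 T, m ≤ 4 * nb δ m (init p q)) ≤
      T * (80 * T / (Fintype.card V : ℝ)) ^ 16 * wt U := by
    refine (cnt_exists_le _ U _).trans ?_
    have hb : ∀ m ∈ Finset.Icc 64 T, cnt U (fun δ => m ≤ 4 * nb δ m (init p q)) ≤
        (80 * T / (Fintype.card V : ℝ)) ^ 16 * wt U := by
      intro m hm
      rw [Finset.mem_Icc] at hm
      exact cnt_nb_quarter_le p q hpq m T hm.1 hm.2 hTN
    refine (Finset.sum_le_card_nsmul _ _ _ hb).trans ?_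
    rw [nsmul_eq_mul, Nat.card_Icc, ← mul_assoc]
    have h3 : ((T + 1 - 64 : ℕ) : ℝ) ≤ T := by
      exact_mod_cast (by omega : T + 1 - 64 ≤ T)
    gcongr
  have b3 : cnt U (fun δ => (∃ j, M0 ≤ (lev (Function.curry δ) {f} j).card) ∧
      ¬ ∃ l ∈ Finset.range (Fintype.card V), GoodAt M (K * (K * M)) (Function.curry δ) f l) ≤
      (5 * K * M * Real.exp (- (M0 / 5))) * wt U := by
    have h1 := cnt_curry (V := V) (A := A) (fun δ => (∃ j, M0 ≤ (lev δ {f} j).card) ∧
      ¬ ∃ l ∈ Finset.range (Fintype.card V), GoodAt M (K * (K * M)) δ f l)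
    rw [h1]
    refine (numc_not_good_le hk hN f M0 M K hK h0 hM hM0 hNM).trans (le_of_eq ?_)
    have h2 : ((Fintype.card (V → A → V) : ℕ) : ℝ) = wt U := by
      rw [hU, wt_univ, card_tab, Fintype.card_prod, mul_comm]
    rw [h2, mul_comm]
  have b4 : cnt U (fun δ => ∃ l ∈ Finset.range (Fintype.card V),
          ((GoodAt M (K * (K * M)) (Function.curry δ) f l ∧
            T ≤ 2 * (itr δ T (init p q)).tasks.length) ∧ Unsep δ f p q)) ≤
      Fintype.card V * Real.exp (- ((M : ℝ) * T / (64 * Fintype.card V))) * wt U := by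
    refine (cnt_exists_le _ U _).trans ?_
    have hb : ∀ l ∈ Finset.range (Fintype.card V), cnt U (fun δ =>
          ((GoodAt M (K * (K * M)) (Function.curry δ) f l ∧
            T ≤ 2 * (itr δ T (init p q)).tasks.length) ∧ Unsep δ f p q)) ≤
        Real.exp (- ((M : ℝ) * T / (64 * Fintype.card V))) * wt U := by
      intro l _
      exact cnt_unsep_le p q f hpq l T M (K * (K * M)) hLT hLN
    refine (Finset.sum_le_card_nsmul _ _ _ hb).trans ?_
    rw [nsmul_eq_mul, Finset.card_range, ← mul_assoc]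
  nlinarith

/-- All pairs and all final states. -/
theorem sum_pairs_le (hk : 2 ≤ Fintype.card A)
    (M0 M K T : ℕ) (hK : K = 2 * Fintype.card A + 1) (h0 : 0 < M0) (hM : 1 < M) (hM0 : M0 ≤ M)
    (hT : 64 ≤ T) (hN : 1000 ≤ Fintype.card V) (hTN : 80 * T ≤ Fintype.card V)
    (hNM : 100 * (K * M) ≤ Fintype.card V)
    (hLT : 8 * Fintype.card A * (K * (K * M)) ≤ T)
    (hLN : 2 * (K * (K * M)) ≤ Fintype.card V) :
    ∑ f : V, cnt (fun _ : V × A => (univ : Finset V)) (fun δ =>
      (∃ j, M0 ≤ (lev (Function.curry δ) {f} j).card) ∧ ∃ p q, p ≠ q ∧ Unsep δ f p q ∧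
        (3 ≤ Fintype.card A ∨ ∃ c, ¬ Coin δ p q c)) ≤
      (Fintype.card V : ℝ) ^ 3 *
      (741000000000 / (Fintype.card V : ℝ) ^ 3 + T * (80 * T / (Fintype.card V : ℝ)) ^ 16
        + 5 * K * M * Real.exp (- (M0 / 5))
        + Fintype.card V * Real.exp (- ((M : ℝ) * T / (64 * Fintype.card V)))) *
        wt (fun _ : V × A => (univ : Finset V)) := by
  classical
  set U : V × A → Finset V := fun _ => univ with hU
  set R : ℝ := (741000000000 / (Fintype.card V : ℝ) ^ 3 + T * (80 * T / (Fintype.card V : ℝ)) ^ 16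
        + 5 * K * M * Real.exp (- (M0 / 5))
        + Fintype.card V * Real.exp (- ((M : ℝ) * T / (64 * Fintype.card V)))) with hR
  have hR0 : 0 ≤ R := by positivity
  have hf : ∀ f ∈ (univ : Finset V), cnt U (fun δ =>
      (∃ j, M0 ≤ (lev (Function.curry δ) {f} j).card) ∧ ∃ p q, p ≠ q ∧ Unsep δ f p q ∧
        (3 ≤ Fintype.card A ∨ ∃ c, ¬ Coin δ p q c)) ≤
      (Fintype.card V : ℝ) ^ 2 * (R * wt U) := by
    intro f _
    have h1 : ∀ δ ∈ Fintype.piFinset U, ((∃ j, M0 ≤ (lev (Function.curry δ) {f} j).card) ∧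
        ∃ p q, p ≠ q ∧ Unsep δ f p q ∧ (3 ≤ Fintype.card A ∨ ∃ c, ¬ Coin δ p q c)) →
        ∃ pq ∈ (univ : Finset (V × V)).filter (fun pq => pq.1 ≠ pq.2),
          (∃ j, M0 ≤ (lev (Function.curry δ) {f} j).card) ∧ Unsep δ f pq.1 pq.2 ∧
            (3 ≤ Fintype.card A ∨ ∃ c, ¬ Coin δ pq.1 pq.2 c) := by
      rintro δ _ ⟨ha, p, q, hb, hc, hd⟩
      exact ⟨(p, q), by simpa using hb, ha, hc, hd⟩
    refine (cnt_mono h1).trans ((cnt_exists_le _ U _).trans ?_)
    refine (Finset.sum_le_card_nsmul _ _ (R * wt U) ?_).trans ?_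
    · intro pq hpq
      rw [Finset.mem_filter] at hpq
      exact cnt_pair_le hk pq.1 pq.2 f hpq.2 M0 M K T hK h0 hM hM0 hT hN hTN hNM hLT hLN
    · rw [nsmul_eq_mul]
      have h2 : (((univ : Finset (V × V)).filter (fun pq => pq.1 ≠ pq.2)).card : ℝ)
          ≤ (Fintype.card V : ℝ) ^ 2 := by
        have := Finset.card_filter_le (univ : Finset (V × V)) (fun pq => pq.1 ≠ pq.2)
        rw [Finset.card_univ, Fintype.card_prod] at this
        rw [sq]
        exact_mod_cast this
      have := wt_nonneg U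
      gcongr
  refine (Finset.sum_le_card_nsmul _ _ _ hf).trans (le_of_eq ?_)
  rw [nsmul_eq_mul, Finset.card_univ]
  ring

end Pool.Agent.Helper98.Aut
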