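import Pool.Agent.Helper98.AutBasic

namespace Pool.Agent.Helper98.Aut

open Finset

set_option linter.unusedSectionVars false

variable {V A : Type*} [Fintype V] [DecidableEq V] [Fintype A] [DecidableEq A]

/-- State of the exploration of pairs. -/
structure St (V A : Type*) where
  tasks : List (V × V × A)
  seen : Finset V
  rev : Finset (V × A)

/-- The two positions read by a task. -/
def posn (z : V × V × A) : List (V × A) := [(z.1, z.2.2), (z.2.1, z.2.2)]

/-- The next state, the values read being `u` and `v`. -/
noncomputable def nxt (z : V × V × A) (r : List (V × V × A)) (seen : Finset V)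
    (rev : Finset (V × A)) (u v : V) : St V A :=
  if u ∉ seen ∧ v ∉ seen ∧ u ≠ v then
    ⟨r ++ (univ : Finset A).toList.map (fun c => (u, v, c)), insert u (insert v seen),
      insert (z.1, z.2.2) (insert (z.2.1, z.2.2) rev)⟩
  else ⟨r, seen, insert (z.1, z.2.2) (insert (z.2.1, z.2.2) rev)⟩

/-- `1` for a bad step, `0` for a good one. -/
def bad (seen : Finset V) (u v : V) : ℕ := if u ∉ seen ∧ v ∉ seen ∧ u ≠ v then 0 else 1

noncomputable def stp (δ : V × A → V) (s : St V A) : St V A :=
  match s.tasks with
  | [] => s
  | z :: r => nxt z r s.seen s.rev (δ (z.1, z.2.2)) (δ (z.2.1, z.2.2))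

def bdn (δ : V × A → V) (s : St V A) : ℕ :=
  match s.tasks with
  | [] => 0
  | z :: _ => bad s.seen (δ (z.1, z.2.2)) (δ (z.2.1, z.2.2))

/-- State after `m` steps. -/
noncomputable def itr (δ : V × A → V) : ℕ → St V A → St V A
  | 0, s => s
  | m + 1, s => itr δ m (stp δ s)

/-- Number of bad steps among the first `m`. -/
noncomputable def nb (δ : V × A → V) : ℕ → St V A → ℕ
  | 0, _ => 0
  | m + 1, s => bdn δ s + nb δ m (stp δ s)

structure WF (s : St V A) : Prop where
  nodup : (s.tasks.flatMap posn).Nodup
  fresh : ∀ e ∈ s.tasks.flatMap posn, e ∉ s.rev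
  tseen : ∀ e ∈ s.tasks.flatMap posn, e.1 ∈ s.seen
  rseen : ∀ e ∈ s.rev, e.1 ∈ s.seen

theorem stp_nil {δ : V × A → V} {s : St V A} (h : s.tasks = []) : stp δ s = s := by
  unfold stp; rw [h]

theorem bdn_nil {δ : V × A → V} {s : St V A} (h : s.tasks = []) : bdn δ s = 0 := by
  unfold bdn; rw [h]

theorem stp_cons {δ : V × A → V} {s : St V A} {z r} (h : s.tasks = z :: r) :
    stp δ s = nxt z r s.seen s.rev (δ (z.1, z.2.2)) (δ (z.2.1, z.2.2)) := by
  unfold stp; rw [h]

theorem bdn_cons {δ : V × A → V} {s : St V A} {z r} (h : s.tasks = z :: r) :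
    bdn δ s = bad s.seen (δ (z.1, z.2.2)) (δ (z.2.1, z.2.2)) := by
  unfold bdn; rw [h]

theorem mem_new {u v : V} {e : V × A}
    (he : e ∈ ((univ : Finset A).toList.map (fun c => (u, v, c))).flatMap posn) :
    e.1 = u ∨ e.1 = v := by
  simp only [List.mem_flatMap, List.mem_map, Finset.mem_toList, Finset.mem_univ, true_and,
    posn] at he
  obtain ⟨a, ⟨c, rfl⟩, h⟩ := he
  simp only [List.mem_cons, List.not_mem_nil, or_false] at h
  rcases h with rfl | rfl
  · exact Or.inl rfl
  · exact Or.inr rfl

theorem nodup_new {u v : V} (huv : u ≠ v) :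
    (((univ : Finset A).toList.map (fun c => (u, v, c))).flatMap posn).Nodup := by
  rw [List.nodup_flatMap]
  constructor
  · intro x hx
    simp only [List.mem_map] at hx
    obtain ⟨c, _, rfl⟩ := hx
    simp [posn, huv]
  · rw [List.pairwise_map]
    refine (Finset.nodup_toList (univ : Finset A)).imp ?_
    intro a b hab
    simp only [Function.onFun, posn]
    rw [List.disjoint_left]
    intro e he he'
    simp only [List.mem_cons, List.not_mem_nil, or_false] at he he'
    rcases he with rfl | rfl <;> rcases he' with h | h <;>
      · have := congrArg Prod.snd h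
        exact hab this

theorem WF.nxt {z : V × V × A} {r : List (V × V × A)} {seen : Finset V} {rev : Finset (V × A)}
    (h : WF ⟨z :: r, seen, rev⟩) (u v : V) : WF (nxt z r seen rev u v) := by
  obtain ⟨hn, hf, ht, hr⟩ := h
  simp only [List.flatMap_cons] at hn hf ht
  have hn' := List.nodup_append.1 hn
  have hz1 : (z.1, z.2.2) ∈ posn z := by simp [posn]
  have hz2 : (z.2.1, z.2.2) ∈ posn z := by simp [posn]
  have hrr : ∀ e ∈ insert (z.1, z.2.2) (insert (z.2.1, z.2.2) rev), e.1 ∈ seen := by
    intro e he
    rw [Finset.mem_insert, Finset.mem_insert] at he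
    rcases he with rfl | rfl | he
    · exact ht _ (List.mem_append_left _ hz1)
    · exact ht _ (List.mem_append_left _ hz2)
    · exact hr e he
  have hff : ∀ e ∈ r.flatMap posn, e ∉ insert (z.1, z.2.2) (insert (z.2.1, z.2.2) rev) := by
    intro e he
    rw [Finset.mem_insert, Finset.mem_insert]
    rintro (rfl | rfl | he')
    · exact hn'.2.2 _ hz1 _ he rfl
    · exact hn'.2.2 _ hz2 _ he rfl
    · exact hf e (List.mem_append_right _ he) he'
  unfold Aut.nxt
  split_ifs with hg
  · obtain ⟨hu, hv, huv⟩ := hg
    refine ⟨?_, ?_, ?_, ?_⟩
    · simp only [List.flatMap_append]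
      rw [List.nodup_append]
      refine ⟨hn'.2.1, nodup_new huv, ?_⟩
      intro a ha b hb hab
      subst hab
      have h1 := ht a (List.mem_append_right _ ha)
      rcases mem_new hb with h2 | h2
      · rw [h2] at h1; exact hu h1
      · rw [h2] at h1; exact hv h1
    · intro e he
      simp only [List.flatMap_append, List.mem_append] at he
      rcases he with he | he
      · exact hff e he
      · intro he'
        have h1 := hrr e he'
        rcases mem_new he with h2 | h2
        · rw [h2] at h1; exact hu h1
        · rw [h2] at h1; exact hv h1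
    · intro e he
      simp only [List.flatMap_append, List.mem_append] at he
      simp only [Finset.mem_insert]
      rcases he with he | he
      · exact Or.inr (Or.inr (ht e (List.mem_append_right _ he)))
      · rcases mem_new he with h2 | h2
        · exact Or.inl h2
        · exact Or.inr (Or.inl h2)
    · intro e he
      simp only [Finset.mem_insert]
      exact Or.inr (Or.inr (hrr e he))
  · exact ⟨hn'.2.1, hff, fun e he => ht e (List.mem_append_right _ he), hrr⟩

theorem WF.stp {s : St V A} (h : WF s) (δ : V × A → V) : WF (stp δ s) := by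
  cases hs : s.tasks with
  | nil => rw [stp_nil hs]; exact h
  | cons z r =>
    rw [stp_cons hs]
    apply WF.nxt
    have : s = ⟨z :: r, s.seen, s.rev⟩ := by
      cases s; simp_all
    rw [this] at h
    exact h

theorem nxt_seen_card (z : V × V × A) (r : List (V × V × A)) (seen : Finset V)
    (rev : Finset (V × A)) (u v : V) : (nxt z r seen rev u v).seen.card ≤ seen.card + 2 := by
  unfold nxt
  split_ifs with hg
  · refine (Finset.card_insert_le _ _).trans ?_
    have := Finset.card_insert_le v seen
    omega
  · simp

theorem nxt_rev (z : V × V × A) (r : List (V × V × A)) (seen : Finset V)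
    (rev : Finset (V × A)) (u v : V) :
    (nxt z r seen rev u v).rev = insert (z.1, z.2.2) (insert (z.2.1, z.2.2) rev) := by
  unfold nxt
  split_ifs <;> rfl

theorem card_bad_le (seen : Finset V) :
    ((univ : Finset (V × V)).filter
      (fun p => ¬ (p.1 ∉ seen ∧ p.2 ∉ seen ∧ p.1 ≠ p.2))).card
      ≤ (2 * seen.card + 1) * Fintype.card V := by
  have hsub : ((univ : Finset (V × V)).filter
      (fun p => ¬ (p.1 ∉ seen ∧ p.2 ∉ seen ∧ p.1 ≠ p.2)))
      ⊆ (seen ×ˢ univ) ∪ (univ ×ˢ seen) ∪ (univ : Finset V).image (fun x => (x, x)) := by
    rintro ⟨x, y⟩ h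
    simp only [Finset.mem_filter, Finset.mem_univ, true_and] at h
    simp only [Finset.mem_union, Finset.mem_product, Finset.mem_univ, and_true, true_and,
      Finset.mem_image, Prod.mk.injEq]
    by_cases h1 : x ∈ seen
    · exact Or.inl (Or.inl h1)
    · by_cases h2 : y ∈ seen
      · exact Or.inl (Or.inr h2)
      · right
        have h3 : x = y := by
          by_contra h3
          exact h ⟨h1, h2, h3⟩
        exact ⟨x, rfl, h3⟩
  refine (Finset.card_le_card hsub).trans ?_
  refine (Finset.card_union_le _ _).trans ?_
  have h1 := Finset.card_union_le (seen ×ˢ (univ : Finset V)) ((univ : Finset V) ×ˢ seen)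
  rw [Finset.card_product, Finset.card_product, Finset.card_univ] at h1
  have h2 : ((univ : Finset V).image (fun x => (x, x))).card ≤ Fintype.card V := by
    refine Finset.card_image_le.trans ?_
    rw [Finset.card_univ]
  nlinarith

theorem cnt_nb_le (K : ℕ) (m : ℕ) : ∀ (s : St V A), WF s → s.seen.card + 2 * m ≤ K →
    ∀ (D : V × A → Finset V), (∀ e, e ∉ s.rev → D e = univ) → ∀ j : ℕ,
    cnt D (fun δ => j ≤ nb δ m s) ≤
      (m.choose j) * ((2 * K + 1 : ℝ) / Fintype.card V) ^ j * wt D := by
  induction m with
  | zero =>
    intro s hs hK D hD j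
    cases j with
    | zero => simpa using cnt_le_wt D _
    | succ j =>
      rw [cnt_false]
      · simp
      · intro δ _; simp [nb]
  | succ m ih =>
    intro s hs hK D hD j
    have hρ : (0 : ℝ) ≤ (2 * K + 1 : ℝ) / Fintype.card V := by positivity
    cases ht : s.tasks with
    | nil =>
      have h1 : cnt D (fun δ => j ≤ nb δ (m + 1) s) = cnt D (fun δ => j ≤ nb δ m s) := by
        refine cnt_congr fun δ _ => ?_
        simp only [nb, bdn_nil ht, stp_nil ht, zero_add]
      rw [h1]
      refine (ih s hs (by omega) D hD j).trans ?_
      have h2 : ((m.choose j : ℕ) : ℝ) ≤ (((m + 1).choose j : ℕ) : ℝ) := by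
        exact_mod_cast Nat.choose_le_choose j (Nat.le_succ m)
      have := wt_nonneg D
      gcongr
    | cons z r =>
      cases j with
      | zero => simpa using cnt_le_wt D _
      | succ j =>
        have hn := hs.nodup
        have hf := hs.fresh
        rw [ht] at hn hf
        simp only [List.flatMap_cons] at hn hf
        have hn' := (List.nodup_append.1 hn).1
        have hz1 : (z.1, z.2.2) ∈ posn z := by simp [posn]
        have hz2 : (z.2.1, z.2.2) ∈ posn z := by simp [posn]
        have he12 : ((z.1, z.2.2) : V × A) ≠ (z.2.1, z.2.2) := by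
          simp only [posn, List.nodup_cons, List.mem_cons, List.not_mem_nil, or_false] at hn'
          exact hn'.1
        set e1 : V × A := (z.1, z.2.2) with he1
        set e2 : V × A := (z.2.1, z.2.2) with he2
        have hD1 : D e1 = univ := hD e1 (hf e1 (List.mem_append_left _ hz1))
        have hD2 : D e2 = univ := hD e2 (hf e2 (List.mem_append_left _ hz2))
        have hpos : 0 < Fintype.card V := Fintype.card_pos_iff.2 ⟨z.1⟩
        have hN : (0 : ℝ) < Fintype.card V := by exact_mod_cast hpos
        -- weight of a double update
        have hW : ∀ u v : V, wt (Function.update (Function.update D e1 {u}) e2 {v})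
            = wt D / (Fintype.card V : ℝ) ^ 2 := by
          intro u v
          have h1 := wt_update D e1 u
          have h2 := wt_update (Function.update D e1 {u}) e2 v
          rw [Function.update_of_ne he12.symm, hD2] at h2
          rw [hD1] at h1
          rw [h1, h2, Finset.card_univ]
          field_simp
        have hsplit : cnt D (fun δ => j + 1 ≤ nb δ (m + 1) s)
            = ∑ p : V × V, cnt (Function.update (Function.update D e1 {p.1}) e2 {p.2})
              (fun δ => j + 1 ≤ bad s.seen p.1 p.2 + nb δ m (nxt z r s.seen s.rev p.1 p.2)) := by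
          rw [cnt_split D e1, hD1, Fintype.sum_prod_type]
          refine Finset.sum_congr rfl fun u _ => ?_
          rw [cnt_split _ e2, Function.update_of_ne he12.symm, hD2]
          refine Finset.sum_congr rfl fun v _ => ?_
          refine cnt_congr fun δ hδ => ?_
          have hv : δ e2 = v := mem_update hδ
          have hu : δ e1 = u := by
            rw [Fintype.mem_piFinset] at hδ
            have := hδ e1
            rw [Function.update_of_ne he12, Function.update_self, Finset.mem_singleton] at this
            exact this
          simp only [nb, bdn_cons ht, stp_cons ht]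
          rw [← he1, ← he2, hu, hv]
        rw [hsplit]
        -- bound of each term
        have hterm : ∀ p : V × V,
            cnt (Function.update (Function.update D e1 {p.1}) e2 {p.2})
              (fun δ => j + 1 ≤ bad s.seen p.1 p.2 + nb δ m (nxt z r s.seen s.rev p.1 p.2))
            ≤ (m.choose (j + 1)) * ((2 * K + 1 : ℝ) / Fintype.card V) ^ (j + 1)
                * (wt D / (Fintype.card V : ℝ) ^ 2)
              + (if ¬ (p.1 ∉ s.seen ∧ p.2 ∉ s.seen ∧ p.1 ≠ p.2) then
                (m.choose j) * ((2 * K + 1 : ℝ) / Fintype.card V) ^ j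
                * (wt D / (Fintype.card V : ℝ) ^ 2) else 0) := by
          rintro ⟨u, v⟩
          have hwf : WF (nxt z r s.seen s.rev u v) := by
            apply WF.nxt
            have : s = ⟨z :: r, s.seen, s.rev⟩ := by
              cases s; simp_all
            rw [this] at hs
            exact hs
          have hcard : (nxt z r s.seen s.rev u v).seen.card + 2 * m ≤ K := by
            have := nxt_seen_card z r s.seen s.rev u v
            omega
          have hDD : ∀ e, e ∉ (nxt z r s.seen s.rev u v).rev →
              Function.update (Function.update D e1 {u}) e2 {v} e = univ := by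
            intro e he
            rw [nxt_rev, Finset.mem_insert, Finset.mem_insert, not_or, not_or] at he
            rw [Function.update_of_ne he.2.1, Function.update_of_ne he.1]
            exact hD e he.2.2
          have hI := ih (nxt z r s.seen s.rev u v) hwf hcard _ hDD
          have hwn : 0 ≤ wt D / (Fintype.card V : ℝ) ^ 2 :=
            div_nonneg (wt_nonneg D) (by positivity)
          by_cases hg : (u ∉ s.seen ∧ v ∉ s.seen ∧ u ≠ v)
          · have hgg : ¬ ¬ (u ∉ s.seen ∧ v ∉ s.seen ∧ u ≠ v) := not_not.2 hg
            rw [if_neg hgg]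
            simp only [bad, if_pos hg, add_zero, zero_add]
            have := hI (j + 1)
            rw [hW] at this
            exact this
          · rw [if_pos hg]
            simp only [bad, if_neg hg]
            have h3 := hI j
            rw [hW] at h3
            have h4 : cnt (Function.update (Function.update D e1 {u}) e2 {v})
              (fun δ => j + 1 ≤ 1 + nb δ m (nxt z r s.seen s.rev u v)) ≤
              cnt (Function.update (Function.update D e1 {u}) e2 {v})
              (fun δ => j ≤ nb δ m (nxt z r s.seen s.rev u v)) :=
              cnt_mono fun δ _ h => by omega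
            have h5 : (0 : ℝ) ≤ (m.choose (j + 1)) * ((2 * K + 1 : ℝ) / Fintype.card V) ^ (j + 1)
                * (wt D / (Fintype.card V : ℝ) ^ 2) := by positivity
            linarith
        refine (Finset.sum_le_sum fun p _ => hterm p).trans ?_
        rw [Finset.sum_add_distrib, Finset.sum_const, Finset.card_univ, Fintype.card_prod,
          ← Finset.sum_filter, Finset.sum_const, nsmul_eq_mul, nsmul_eq_mul]
        have hb := card_bad_le s.seen
        have hb' : (((univ : Finset (V × V)).filter
            (fun p => ¬ (p.1 ∉ s.seen ∧ p.2 ∉ s.seen ∧ p.1 ≠ p.2))).card : ℝ)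
            ≤ (2 * K + 1) * Fintype.card V := by
          have h6 : (((univ : Finset (V × V)).filter
            (fun p => ¬ (p.1 ∉ s.seen ∧ p.2 ∉ s.seen ∧ p.1 ≠ p.2))).card : ℝ)
            ≤ ((2 * s.seen.card + 1) * Fintype.card V : ℕ) := by exact_mod_cast hb
          refine h6.trans ?_
          push_cast
          have : (s.seen.card : ℝ) ≤ K := by
            have : s.seen.card ≤ K := by omega
            exact_mod_cast this
          gcongr
        have hwn := wt_nonneg D
        have hY : (0 : ℝ) ≤ (m.choose j) * ((2 * K + 1 : ℝ) / Fintype.card V) ^ j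
                * (wt D / (Fintype.card V : ℝ) ^ 2) := by positivity
        have h7 := mul_le_mul_of_nonneg_right hb' hY
        have h8 : ((Fintype.card V * Fintype.card V : ℕ) : ℝ) * ((m.choose (j + 1)) *
            ((2 * K + 1 : ℝ) / Fintype.card V) ^ (j + 1) * (wt D / (Fintype.card V : ℝ) ^ 2))
            = (m.choose (j + 1)) * ((2 * K + 1 : ℝ) / Fintype.card V) ^ (j + 1) * wt D := by
          push_cast
          field_simp
        have h9 : (2 * K + 1 : ℝ) * Fintype.card V * ((m.choose j) *
            ((2 * K + 1 : ℝ) / Fintype.card V) ^ j * (wt D / (Fintype.card V : ℝ) ^ 2))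
            = (m.choose j) * ((2 * K + 1 : ℝ) / Fintype.card V) ^ (j + 1) * wt D := by
          set ρ := (2 * K + 1 : ℝ) / Fintype.card V with hρd
          have h10 : (2 * K + 1 : ℝ) = ρ * Fintype.card V := by
            rw [hρd]; field_simp
          rw [h10]
          field_simp
          ring
        rw [h8]
        rw [h9] at h7
        rw [Nat.choose_succ_succ]
        push_cast
        linarith

theorem WF.itr (δ : V × A → V) (m : ℕ) : ∀ {s : St V A}, WF s → WF (itr δ m s) := by
  induction m with
  | zero => intro s h; exact h
  | succ m ih => intro s h; exact ih (h.stp δ)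

theorem nb_le (δ : V × A → V) (m : ℕ) : ∀ (s : St V A), nb δ m s ≤ m := by
  induction m with
  | zero => intro s; simp [nb]
  | succ m ih =>
    intro s
    have h := ih (stp δ s)
    have h2 : bdn δ s ≤ 1 := by
      cases hs : s.tasks with
      | nil => rw [bdn_nil hs]; omega
      | cons z r => rw [bdn_cons hs]; unfold bad; split_ifs <;> omega
    simp only [nb]
    omega

theorem itr_succ (δ : V × A → V) (m : ℕ) : ∀ (s : St V A),
    itr δ (m + 1) s = stp δ (itr δ m s) := by
  induction m with
  | zero => intro s; rfl
  | succ m ih =>
    intro s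
    have h1 : itr δ (m + 1 + 1) s = itr δ (m + 1) (stp δ s) := rfl
    rw [h1, ih]
    rfl

theorem nb_succ (δ : V × A → V) (m : ℕ) : ∀ (s : St V A),
    nb δ (m + 1) s = nb δ m s + bdn δ (itr δ m s) := by
  induction m with
  | zero => intro s; simp [nb, itr]
  | succ m ih =>
    intro s
    have h1 : nb δ (m + 1 + 1) s = bdn δ s + nb δ (m + 1) (stp δ s) := rfl
    rw [h1, ih]
    simp only [nb, itr]
    ring

theorem nb_mono (δ : V × A → V) (s : St V A) {m m' : ℕ} (h : m ≤ m') : nb δ m s ≤ nb δ m' s := by
  induction h with
  | refl => exact le_rfl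
  | step _ ih => rw [nb_succ]; omega

theorem nxt_length (z : V × V × A) (r : List (V × V × A)) (seen : Finset V)
    (rev : Finset (V × A)) (u v : V) :
    (nxt z r seen rev u v).tasks.length + Fintype.card A * bad seen u v
      = r.length + Fintype.card A := by
  unfold nxt bad
  split_ifs with hg
  · simp
  · simp

theorem itr_length (δ : V × A → V) (s : St V A) (m : ℕ)
    (h : ∀ i < m, (itr δ i s).tasks ≠ []) :
    (itr δ m s).tasks.length + m + Fintype.card A * nb δ m s
      = s.tasks.length + Fintype.card A * m := by
  induction m with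
  | zero => simp [itr, nb]
  | succ m ih =>
    have h1 := ih fun i hi => h i (by omega)
    rw [itr_succ, nb_succ]
    cases hs : (itr δ m s).tasks with
    | nil => exact absurd hs (h m (by omega))
    | cons z r =>
      rw [stp_cons hs, bdn_cons hs]
      have h2 := nxt_length z r (itr δ m s).seen (itr δ m s).rev (δ (z.1, z.2.2)) (δ (z.2.1, z.2.2))
      rw [hs] at h1
      simp only [List.length_cons] at h1
      rw [mul_add, mul_add]
      omega

/-- A lower bound for the number of tasks when the process cannot die. -/
theorem itr_length_of_lt (δ : V × A → V) (s : St V A) (T : ℕ)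
    (h : ∀ m ≤ T, m + Fintype.card A * nb δ m s < s.tasks.length + Fintype.card A * m) :
    ∀ m ≤ T, (itr δ m s).tasks.length + m + Fintype.card A * nb δ m s
      = s.tasks.length + Fintype.card A * m := by
  intro m
  induction m using Nat.strong_induction_on with
  | _ m ih =>
    intro hm
    refine itr_length δ s m fun i hi h0 => ?_
    have h1 := ih i hi (by omega)
    have h2 := h i (by omega)
    rw [h0] at h1
    simp only [List.length_nil] at h1
    omega

theorem itr_seen_card (δ : V × A → V) (s : St V A) (m : ℕ) :
    (itr δ m s).seen.card ≤ s.seen.card + 2 * m := by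
  induction m with
  | zero => simp [itr]
  | succ m ih =>
    rw [itr_succ]
    cases hs : (itr δ m s).tasks with
    | nil => rw [stp_nil hs]; omega
    | cons z r =>
      rw [stp_cons hs]
      have := nxt_seen_card z r (itr δ m s).seen (itr δ m s).rev (δ (z.1, z.2.2)) (δ (z.2.1, z.2.2))
      omega

theorem stp_rev_subset (δ : V × A → V) (s : St V A) : s.rev ⊆ (stp δ s).rev := by
  cases hs : s.tasks with
  | nil => rw [stp_nil hs]
  | cons z r =>
    rw [stp_cons hs, nxt_rev]
    intro e he
    simp [he]

theorem itr_rev_subset (δ : V × A → V) (m : ℕ) : ∀ s : St V A, s.rev ⊆ (itr δ m s).rev := by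
  induction m with
  | zero => intro s; exact Finset.Subset.refl _
  | succ m ih => intro s; exact (stp_rev_subset δ s).trans (ih (stp δ s))

/-- The exploration depends only on the revealed positions. -/
theorem itr_congr (δ δ' : V × A → V) (m : ℕ) : ∀ s : St V A,
    (∀ e ∈ (itr δ m s).rev, δ' e = δ e) → itr δ' m s = itr δ m s := by
  induction m with
  | zero => intro s _; rfl
  | succ m ih =>
    intro s h
    have h1 : stp δ' s = stp δ s := by
      cases hs : s.tasks with
      | nil => rw [stp_nil hs, stp_nil hs]
      | cons z r =>
        have hrev : (stp δ s).rev ⊆ (itr δ (m + 1) s).rev := itr_rev_subset δ m (stp δ s)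
        have h2 : δ' (z.1, z.2.2) = δ (z.1, z.2.2) := by
          apply h
          apply hrev
          rw [stp_cons hs, nxt_rev]
          simp
        have h3 : δ' (z.2.1, z.2.2) = δ (z.2.1, z.2.2) := by
          apply h
          apply hrev
          rw [stp_cons hs, nxt_rev]
          simp
        rw [stp_cons hs, stp_cons hs, h2, h3]
    change itr δ' m (stp δ' s) = itr δ m (stp δ s)
    rw [h1]
    exact ih (stp δ s) h

/-- Every task is made of two states reached from `p` and `q` by a common word. -/
def Joint (δ : V × A → V) (p q : V) (s : St V A) : Prop :=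
  ∀ z ∈ s.tasks, ∃ w : List A, run δ p w = z.1 ∧ run δ q w = z.2.1

theorem Joint.stp {δ : V × A → V} {p q : V} {s : St V A} (h : Joint δ p q s) :
    Joint δ p q (stp δ s) := by
  cases hs : s.tasks with
  | nil => rw [stp_nil hs]; exact h
  | cons z r =>
    rw [stp_cons hs]
    unfold Joint at h ⊢
    rw [hs] at h
    intro y hy
    unfold nxt at hy
    split_ifs at hy with hg
    · simp only [List.mem_append, List.mem_map] at hy
      rcases hy with hy | ⟨c, _, rfl⟩
      · exact h y (List.mem_cons_of_mem _ hy)
      · obtain ⟨w, hw1, hw2⟩ := h z List.mem_cons_self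
        exact ⟨w ++ [z.2.2], by simp [run_append, hw1], by simp [run_append, hw2]⟩
    · exact h y (List.mem_cons_of_mem _ hy)

theorem Joint.itr {δ : V × A → V} {p q : V} (m : ℕ) : ∀ {s : St V A}, Joint δ p q s →
    Joint δ p q (itr δ m s) := by
  induction m with
  | zero => intro s h; exact h
  | succ m ih => intro s h; exact ih h.stp

/-- The initial state for the pair `p, q`. -/
noncomputable def init (p q : V) : St V A :=
  ⟨(univ : Finset A).toList.map (fun c => (p, q, c)), {p, q}, ∅⟩

theorem init_wf {p q : V} (h : p ≠ q) : WF (init p q : St V A) := by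
  refine ⟨nodup_new h, ?_, ?_, ?_⟩
  · intro e _; simp [init]
  · intro e he
    simp only [init, Finset.mem_insert, Finset.mem_singleton]
    exact mem_new he
  · intro e he; simp [init] at he

theorem init_joint (δ : V × A → V) (p q : V) : Joint δ p q (init p q) := by
  intro z hz
  simp only [init, List.mem_map] at hz
  obtain ⟨c, _, rfl⟩ := hz
  exact ⟨[], rfl, rfl⟩

theorem init_length (p q : V) : (init p q : St V A).tasks.length = Fintype.card A := by
  simp [init]

theorem init_seen (p q : V) : (init p q : St V A).seen.card ≤ 2 := Finset.card_le_two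

end Pool.Agent.Helper98.Aut
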