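import Pool.Agent.Helper98.AutLevelB
import Pool.Agent.Helper98.AutProc

namespace Pool.Agent.Helper98.Aut

open Finset

set_option linter.unusedSectionVars false

variable {V A : Type*} [Fintype V] [DecidableEq V] [Fintype A] [DecidableEq A]

theorem mem_lev_iff (δ : V × A → V) (f : V) (j : ℕ) : ∀ x : V,
    x ∈ lev (Function.curry δ) {f} j ↔ ∃ w : List A, w.length ≤ j ∧ run δ x w = f := by
  induction j with
  | zero =>
    intro x
    simp only [lev, Finset.mem_singleton]
    constructor
    · intro h; exact ⟨[], by simp, h⟩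
    · rintro ⟨w, hw, h⟩
      have : w = [] := by
        rw [← List.length_eq_zero_iff]; omega
      subst this
      exact h
  | succ j ih =>
    intro x
    simp only [lev]
    rw [mem_inn, ih]
    constructor
    · rintro (⟨w, hw, h⟩ | ⟨c, hc⟩)
      · exact ⟨w, by omega, h⟩
      · rw [ih] at hc
        obtain ⟨w, hw, h⟩ := hc
        exact ⟨c :: w, by simpa using hw, by simpa using h⟩
    · rintro ⟨w, hw, h⟩
      cases w with
      | nil => exact Or.inl ⟨[], by simp, h⟩
      | cons c w =>
        right
        refine ⟨c, ?_⟩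
        rw [ih]
        exact ⟨w, by simpa using hw, by simpa using h⟩

section classes

variable {P : Type*} [Fintype P] [DecidableEq P]

theorem wt_univ : wt (fun _ : P => (univ : Finset V)) = (Fintype.card V : ℝ) ^ Fintype.card P := by
  simp [wt, Finset.card_univ]

/-- Counting by classes which are products. -/
theorem cnt_class (Dom : (P → V) → P → Finset V) (Q0 F : (P → V) → Prop)
    (hself : ∀ δ, Q0 δ → δ ∈ Fintype.piFinset (Dom δ))
    (hcl : ∀ δ δ', Q0 δ → δ' ∈ Fintype.piFinset (Dom δ) → Dom δ' = Dom δ ∧ Q0 δ')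
    (ε : ℝ) (hε0 : 0 ≤ ε) (hε : ∀ δ, Q0 δ → cnt (Dom δ) F ≤ ε * wt (Dom δ)) :
    cnt (fun _ : P => (univ : Finset V)) (fun δ => Q0 δ ∧ F δ)
      ≤ ε * wt (fun _ : P => (univ : Finset V)) := by
  classical
  set S : Finset (P → V) := univ.filter Q0 with hS
  have h1 : cnt (fun _ : P => (univ : Finset V)) (fun δ => Q0 δ ∧ F δ)
      = ((S.filter F).card : ℝ) := by
    rw [cnt_eq]
    congr 2
    ext δ
    simp [S]
  have h2 : (S.filter F).card = ∑ d ∈ S.image Dom, ((S.filter F).filter (fun δ => Dom δ = d)).card :=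
    Finset.card_eq_sum_card_fiberwise fun δ hδ => by
      have : δ ∈ S := Finset.filter_subset _ _ hδ
      exact Finset.mem_coe.2 (Finset.mem_image_of_mem _ this)
  have h3 : S.card = ∑ d ∈ S.image Dom, (S.filter (fun δ => Dom δ = d)).card :=
    Finset.card_eq_sum_card_fiberwise fun δ hδ => Finset.mem_coe.2 (Finset.mem_image_of_mem _ hδ)
  have hfib : ∀ d ∈ S.image Dom, S.filter (fun δ => Dom δ = d) = Fintype.piFinset d := by
    intro d hd
    rw [Finset.mem_image] at hd
    obtain ⟨δ0, hδ0, rfl⟩ := hd
    have hq0 : Q0 δ0 := (Finset.mem_filter.1 hδ0).2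
    ext δ
    simp only [S, Finset.mem_filter, Finset.mem_univ, true_and]
    constructor
    · rintro ⟨hq, hd⟩
      rw [← hd]
      exact hself δ hq
    · intro h
      have := hcl δ0 δ hq0 h
      exact ⟨this.2, this.1⟩
  have h4 : ∀ d ∈ S.image Dom, (((S.filter F).filter (fun δ => Dom δ = d)).card : ℝ)
      ≤ ε * ((S.filter (fun δ => Dom δ = d)).card : ℝ) := by
    intro d hd
    have h5 : (S.filter F).filter (fun δ => Dom δ = d) = (Fintype.piFinset d).filter F := by
      rw [← hfib d hd]
      ext δ
      simp only [Finset.mem_filter]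
      tauto
    rw [h5, hfib d hd, ← cnt_eq, Fintype.card_piFinset, Nat.cast_prod]
    rw [Finset.mem_image] at hd
    obtain ⟨δ0, hδ0, rfl⟩ := hd
    exact hε δ0 (Finset.mem_filter.1 hδ0).2
  rw [h1, h2, Nat.cast_sum]
  refine (Finset.sum_le_sum h4).trans ?_
  rw [← Finset.mul_sum, ← Nat.cast_sum, ← h3, wt_univ]
  apply mul_le_mul_of_nonneg_left _ hε0
  have h6 := Finset.card_filter_le (univ : Finset (P → V)) Q0
  rw [Finset.card_univ, Fintype.card_fun] at h6
  exact_mod_cast h6

end classes

/-- All tasks of a list fail: product estimate. -/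
theorem cnt_fail_le (Z G H : Finset V) (hG : G ⊆ Z) (hH : H ⊆ Z) (L : List (V × V × A)) :
    ∀ D : V × A → Finset V, (L.flatMap posn).Nodup → (∀ e ∈ L.flatMap posn, D e = Z) →
    cnt D (fun δ => ∀ z ∈ L, ¬ (δ (z.1, z.2.2) ∈ G ∧ δ (z.2.1, z.2.2) ∈ H)) ≤
      (1 - (G.card * H.card : ℝ) / (Z.card : ℝ) ^ 2) ^ L.length * wt D := by
  classical
  have hG' : (G.card : ℝ) ≤ Z.card := by exact_mod_cast Finset.card_le_card hG
  have hH' : (H.card : ℝ) ≤ Z.card := by exact_mod_cast Finset.card_le_card hH
  induction L with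
  | nil => intro D _ _; simpa using cnt_le_wt D _
  | cons z L ih =>
    intro D hn hD
    simp only [List.flatMap_cons] at hn hD
    have hn' := List.nodup_append.1 hn
    have hz1 : (z.1, z.2.2) ∈ posn z := by simp [posn]
    have hz2 : (z.2.1, z.2.2) ∈ posn z := by simp [posn]
    have he12 : ((z.1, z.2.2) : V × A) ≠ (z.2.1, z.2.2) := by
      have := hn'.1
      simp only [posn, List.nodup_cons, List.mem_cons, List.not_mem_nil, or_false] at this
      exact this.1
    set e1 : V × A := (z.1, z.2.2) with he1
    set e2 : V × A := (z.2.1, z.2.2) with he2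
    have hD1 : D e1 = Z := hD e1 (List.mem_append_left _ hz1)
    have hD2 : D e2 = Z := hD e2 (List.mem_append_left _ hz2)
    by_cases hZ : Z.card = 0
    · have hZe : Z = ∅ := Finset.card_eq_zero.1 hZ
      rw [cnt_split D e1, hD1, hZe, Finset.sum_empty]
      have h1 : wt D = 0 := by
        unfold wt
        apply Finset.prod_eq_zero (Finset.mem_univ e1)
        rw [hD1, hZ]; simp
      rw [h1, mul_zero]
    have hZpos : (0 : ℝ) < Z.card := by
      have : 0 < Z.card := Nat.pos_of_ne_zero hZ
      exact_mod_cast this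
    set θ : ℝ := (G.card * H.card : ℝ) / (Z.card : ℝ) ^ 2 with hθ
    have hθ1 : θ ≤ 1 := by
      rw [hθ, div_le_one (by positivity)]
      nlinarith [Nat.cast_nonneg (α := ℝ) G.card, Nat.cast_nonneg (α := ℝ) H.card]
    have hW : ∀ u v : V, wt (Function.update (Function.update D e1 {u}) e2 {v})
        = wt D / (Z.card : ℝ) ^ 2 := by
      intro u v
      have h1 := wt_update D e1 u
      have h2 := wt_update (Function.update D e1 {u}) e2 v
      rw [Function.update_of_ne he12.symm, hD2] at h2
      rw [hD1] at h1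
      rw [h1, h2]
      field_simp
    have hsplit : cnt D (fun δ => ∀ z' ∈ z :: L, ¬ (δ (z'.1, z'.2.2) ∈ G ∧ δ (z'.2.1, z'.2.2) ∈ H))
        = ∑ p ∈ Z ×ˢ Z, cnt (Function.update (Function.update D e1 {p.1}) e2 {p.2})
          (fun δ => ¬ (p.1 ∈ G ∧ p.2 ∈ H) ∧
            ∀ z' ∈ L, ¬ (δ (z'.1, z'.2.2) ∈ G ∧ δ (z'.2.1, z'.2.2) ∈ H)) := by
      rw [cnt_split D e1, hD1, Finset.sum_product]
      refine Finset.sum_congr rfl fun u _ => ?_
      rw [cnt_split _ e2, Function.update_of_ne he12.symm, hD2]
      refine Finset.sum_congr rfl fun v _ => ?_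
      refine cnt_congr fun δ hδ => ?_
      have hv : δ e2 = v := mem_update hδ
      have hu : δ e1 = u := by
        rw [Fintype.mem_piFinset] at hδ
        have := hδ e1
        rw [Function.update_of_ne he12, Function.update_self, Finset.mem_singleton] at this
        exact this
      rw [List.forall_mem_cons, ← he1, ← he2, hu, hv]
    rw [hsplit]
    have hterm : ∀ p ∈ Z ×ˢ Z, cnt (Function.update (Function.update D e1 {p.1}) e2 {p.2})
          (fun δ => ¬ (p.1 ∈ G ∧ p.2 ∈ H) ∧
            ∀ z' ∈ L, ¬ (δ (z'.1, z'.2.2) ∈ G ∧ δ (z'.2.1, z'.2.2) ∈ H)) ≤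
        if ¬ (p ∈ G ×ˢ H) then (1 - θ) ^ L.length * (wt D / (Z.card : ℝ) ^ 2) else 0 := by
      rintro ⟨u, v⟩ hp
      by_cases hg : (u ∈ G ∧ v ∈ H)
      · have hgg : ¬ ¬ ((u, v) ∈ G ×ˢ H) := by
          rw [not_not, Finset.mem_product]; exact hg
        rw [if_neg hgg, cnt_false]
        intro δ _ hcon
        exact hcon.1 hg
      · have hgg : ¬ ((u, v) ∈ G ×ˢ H) := by
          rw [Finset.mem_product]; exact hg
        rw [if_pos hgg]
        have hI := ih (Function.update (Function.update D e1 {u}) e2 {v}) hn'.2.1 (by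
          intro e he
          have h1 : e ≠ e2 := by
            rintro rfl
            exact hn'.2.2 _ hz2 _ he rfl
          have h2 : e ≠ e1 := by
            rintro rfl
            exact hn'.2.2 _ hz1 _ he rfl
          rw [Function.update_of_ne h1, Function.update_of_ne h2]
          exact hD e (List.mem_append_right _ he))
        rw [hW] at hI
        exact (cnt_mono fun δ _ h => h.2).trans hI
    refine (Finset.sum_le_sum hterm).trans ?_
    rw [← Finset.sum_filter, Finset.sum_const, nsmul_eq_mul]
    have hcard : (((Z ×ˢ Z).filter (fun p => ¬ (p ∈ G ×ˢ H))).card : ℝ)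
        = (Z.card : ℝ) ^ 2 - G.card * H.card := by
      have h1 : (Z ×ˢ Z).filter (fun p => ¬ (p ∈ G ×ˢ H)) = (Z ×ˢ Z) \ (G ×ˢ H) := by
        ext p
        simp only [Finset.mem_filter, Finset.mem_sdiff]
      rw [h1, Finset.card_sdiff_of_subset (Finset.product_subset_product hG hH), Nat.cast_sub
        (Finset.card_le_card (Finset.product_subset_product hG hH)), Finset.card_product,
        Finset.card_product]
      push_cast
      ring
    rw [hcard]
    have h5 : (Z.card : ℝ) ^ 2 - G.card * H.card = (1 - θ) * (Z.card : ℝ) ^ 2 := by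
      rw [hθ]; field_simp
    rw [h5, List.length_cons]
    apply le_of_eq
    field_simp
    ring

theorem length_le_filters {α : Type*} (L : List α) (p q : α → Prop) [DecidablePred p]
    [DecidablePred q] :
    L.length ≤ (L.filter (fun z => p z)).length + (L.filter (fun z => q z)).length
      + (L.filter (fun z => ¬ p z ∧ ¬ q z)).length := by
  induction L with
  | nil => simp
  | cons z L ih =>
    by_cases h1 : p z <;> by_cases h2 : q z <;>
      simp [h1, h2] at ih ⊢ <;> omega

theorem nodup_pos1 {L : List (V × V × A)} (h : (L.flatMap posn).Nodup) :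
    (L.map (fun z => ((z.1, z.2.2) : V × A))).Nodup := by
  induction L with
  | nil => simp
  | cons z L ih =>
    simp only [List.flatMap_cons] at h
    have hn' := List.nodup_append.1 h
    simp only [List.map_cons, List.nodup_cons]
    refine ⟨?_, ih hn'.2.1⟩
    intro hmem
    rw [List.mem_map] at hmem
    obtain ⟨z', hz', he⟩ := hmem
    refine hn'.2.2 (z.1, z.2.2) (by simp [posn]) (z'.1, z'.2.2) ?_ he.symm
    rw [List.mem_flatMap]
    exact ⟨z', hz', by simp [posn]⟩

theorem nodup_pos2 {L : List (V × V × A)} (h : (L.flatMap posn).Nodup) :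
    (L.map (fun z => ((z.2.1, z.2.2) : V × A))).Nodup := by
  induction L with
  | nil => simp
  | cons z L ih =>
    simp only [List.flatMap_cons] at h
    have hn' := List.nodup_append.1 h
    simp only [List.map_cons, List.nodup_cons]
    refine ⟨?_, ih hn'.2.1⟩
    intro hmem
    rw [List.mem_map] at hmem
    obtain ⟨z', hz', he⟩ := hmem
    refine hn'.2.2 (z.2.1, z.2.2) (by simp [posn]) (z'.2.1, z'.2.2) ?_ he.symm
    rw [List.mem_flatMap]
    exact ⟨z', hz', by simp [posn]⟩

theorem filter_length_le {L : List (V × V × A)} (g : V × V × A → V × A)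
    (h : (L.map g).Nodup) (B : Finset V) :
    (L.filter (fun z => (g z).1 ∈ B)).length ≤ Fintype.card A * B.card := by
  have h1 : ((L.filter (fun z => (g z).1 ∈ B)).map g).Nodup :=
    h.sublist (List.Sublist.map g List.filter_sublist)
  have h2 : ((L.filter (fun z => (g z).1 ∈ B)).map g).toFinset ⊆ B ×ˢ univ := by
    intro e he
    rw [List.mem_toFinset, List.mem_map] at he
    obtain ⟨z, hz, rfl⟩ := he
    rw [List.mem_filter] at hz
    rw [Finset.mem_product]
    exact ⟨by simpa using hz.2, Finset.mem_univ _⟩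
  have h3 := Finset.card_le_card h2
  rw [List.toFinset_card_of_nodup h1, List.length_map, Finset.card_product, Finset.card_univ] at h3
  rw [mul_comm]
  exact h3

theorem flatMap_sublist {α β : Type*} (g : α → List β) {L L' : List α} (h : L.Sublist L') :
    (L.flatMap g).Sublist (L'.flatMap g) := by
  induction h with
  | slnil => simp
  | cons a _ ih =>
    simp only [List.flatMap_cons]
    exact ih.trans (List.sublist_append_right _ _)
  | cons_cons a _ ih =>
    simp only [List.flatMap_cons]
    exact (List.Sublist.refl _).append ih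

/-- The domains attached to the revealed information. -/
noncomputable def dom (f : V) (l T : ℕ) (s0 : St V A) (δ : V × A → V) : V × A → Finset V :=
  fun e => if e ∈ (itr δ T s0).rev ∨ e.1 ∈ lev (Function.curry δ) {f} (l + 1) then {δ e}
    else univ \ lev (Function.curry δ) {f} l

theorem mem_dom_self (f : V) (l T : ℕ) (s0 : St V A) (δ : V × A → V) :
    δ ∈ Fintype.piFinset (dom f l T s0 δ) := by
  rw [Fintype.mem_piFinset]
  intro e
  unfold dom
  split_ifs with h
  · exact Finset.mem_singleton_self _
  · rw [not_or] at h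
    rw [Finset.mem_sdiff]
    refine ⟨Finset.mem_univ _, fun hcon => h.2 ?_⟩
    simp only [lev]
    rw [mem_inn]
    exact Or.inr ⟨e.2, hcon⟩

theorem dom_congr (f : V) (l T : ℕ) (s0 : St V A) (δ δ' : V × A → V)
    (h : δ' ∈ Fintype.piFinset (dom f l T s0 δ)) :
    itr δ' T s0 = itr δ T s0 ∧ (∀ j ≤ l + 1, lev (Function.curry δ') {f} j
      = lev (Function.curry δ) {f} j) ∧ dom f l T s0 δ' = dom f l T s0 δ := by
  rw [Fintype.mem_piFinset] at h
  have hfix : ∀ e, (e ∈ (itr δ T s0).rev ∨ e.1 ∈ lev (Function.curry δ) {f} (l + 1)) →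
      δ' e = δ e := by
    intro e he
    have := h e
    unfold dom at this
    rw [if_pos he, Finset.mem_singleton] at this
    exact this
  have h1 : itr δ' T s0 = itr δ T s0 := itr_congr δ δ' T s0 fun e he => hfix e (Or.inl he)
  have h2 : ∀ j ≤ l + 1, lev (Function.curry δ') {f} j = lev (Function.curry δ) {f} j := by
    intro j
    induction j with
    | zero => intro _; rfl
    | succ j ih =>
      intro hj
      have ihj := ih (by omega)
      simp only [lev]
      rw [ihj]
      have hsub : lev (Function.curry δ) {f} j ⊆ lev (Function.curry δ) {f} l :=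
        lev_mono _ _ (by omega)
      have hsub1 : lev (Function.curry δ) {f} j ⊆ lev (Function.curry δ) {f} (l + 1) :=
        lev_mono _ _ (by omega)
      ext x
      rw [mem_inn, mem_inn]
      by_cases hx : x ∈ lev (Function.curry δ) {f} (l + 1)
      · have h3 : ∀ c, Function.curry δ' x c = Function.curry δ x c := fun c =>
          hfix (x, c) (Or.inr hx)
        simp only [h3]
      · have hx1 : x ∉ lev (Function.curry δ) {f} j := fun h => hx (hsub1 h)
        have h4 : ∀ c, δ (x, c) ∉ lev (Function.curry δ) {f} l := by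
          intro c hc
          apply hx
          simp only [lev]
          rw [mem_inn]
          exact Or.inr ⟨c, hc⟩
        constructor
        · rintro (h5 | ⟨c, hc⟩)
          · exact absurd h5 hx1
          · exfalso
            have h6 := h (x, c)
            unfold dom at h6
            split_ifs at h6 with h7
            · rw [Finset.mem_singleton] at h6
              have h8 : Function.curry δ' x c = δ (x, c) := h6
              rw [h8] at hc
              exact h4 c (hsub hc)
            · rw [Finset.mem_sdiff] at h6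
              exact h6.2 (hsub hc)
        · rintro (h5 | ⟨c, hc⟩)
          · exact absurd h5 hx1
          · exact absurd (hsub hc) (h4 c)
  refine ⟨h1, h2, ?_⟩
  funext e
  unfold dom
  rw [h1, h2 l (by omega), h2 (l + 1) le_rfl]
  split_ifs with h3
  · rw [hfix e h3]
  · rfl

theorem cnt_unsep_le (p q f : V) (hpq : p ≠ q) (l T M L : ℕ) (hLT : 8 * Fintype.card A * L ≤ T)
    (hLN : 2 * L ≤ Fintype.card V) :
    cnt (fun _ : V × A => (univ : Finset V)) (fun δ =>
      (GoodAt M L (Function.curry δ) f l ∧ T ≤ 2 * (itr δ T (init p q)).tasks.length) ∧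
        Unsep δ f p q) ≤
      Real.exp (- ((M : ℝ) * T / (64 * Fintype.card V))) *
        wt (fun _ : V × A => (univ : Finset V)) := by
  classical
  refine cnt_class (dom f l T (init p q)) _ _ (fun δ _ => mem_dom_self f l T (init p q) δ) ?_ _
    (Real.exp_pos _).le ?_
  · rintro δ δ' ⟨hg, hT⟩ hδ'
    obtain ⟨h1, h2, h3⟩ := dom_congr f l T (init p q) δ δ' hδ'
    refine ⟨h3, ?_, ?_⟩
    · unfold GoodAt at hg ⊢
      rw [h2 l (by omega), h2 (l + 1) le_rfl]
      exact hg
    · rw [h1]; exact hT
  · rintro δ ⟨hg, hT⟩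
    obtain ⟨hg1, hg2, hg3⟩ := hg
    set E := lev (Function.curry δ) {f} l with hE
    set B := lev (Function.curry δ) {f} (l + 1) with hB
    set s := itr δ T (init p q) with hs
    have hEB : E ⊆ B := lev_mono_succ _ _ _
    have hwf : WF s := (init_wf hpq).itr δ T
    have hfilt := length_le_filters s.tasks (fun z => z.1 ∈ B) (fun z => z.2.1 ∈ B)
    have hf1 := filter_length_le (fun z : V × V × A => (z.1, z.2.2)) (nodup_pos1 hwf.nodup) B
    have hf2 := filter_length_le (fun z : V × V × A => (z.2.1, z.2.2)) (nodup_pos2 hwf.nodup) B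
    set L' := s.tasks.filter (fun z => ¬ z.1 ∈ B ∧ ¬ z.2.1 ∈ B) with hL'
    have hlen : (T : ℝ) / 4 ≤ L'.length := by
      have h1 : Fintype.card A * B.card ≤ Fintype.card A * L := Nat.mul_le_mul_left _ hg3.le
      have h2 : s.tasks.length ≤ 2 * (Fintype.card A * L) + L'.length := by
        have := hfilt
        simp only at hf1 hf2
        omega
      have h3 : T ≤ 4 * (Fintype.card A * L) + 2 * L'.length := by omega
      have h4 : 8 * (Fintype.card A * L) ≤ T := by rw [← mul_assoc]; exact hLT
      have h5 : T ≤ 4 * L'.length := by omega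
      have h6 : (T : ℝ) ≤ 4 * L'.length := by exact_mod_cast h5
      linarith
    -- inclusion in the failure event
    have hincl : cnt (dom f l T (init p q) δ) (fun δ' => Unsep δ' f p q) ≤
        cnt (dom f l T (init p q) δ) (fun δ' => ∀ z ∈ L', ¬ (δ' (z.1, z.2.2) ∈ B \ E ∧
          δ' (z.2.1, z.2.2) ∈ univ \ B)) := by
      refine cnt_mono fun δ' hδ' hu z hz hcon => ?_
      obtain ⟨h1, h2, h3⟩ := dom_congr f l T (init p q) δ δ' hδ'
      have hz' : z ∈ s.tasks := (List.mem_filter.1 hz).1
      have hJ : Joint δ' p q (itr δ' T (init p q)) := (init_joint δ' p q).itr T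
      rw [h1] at hJ
      obtain ⟨w, hw1, hw2⟩ := hJ z hz'
      rw [Finset.mem_sdiff, Finset.mem_sdiff] at hcon
      obtain ⟨⟨hu1, _⟩, _, hv⟩ := hcon
      rw [hB, ← h2 (l + 1) le_rfl, mem_lev_iff] at hu1 hv
      obtain ⟨w', hw', hrun⟩ := hu1
      have h4 := hu (w ++ (z.2.2 :: w'))
      rw [run_append, run_append, hw1, hw2, run_cons, run_cons] at h4
      exact hv ⟨w', hw', h4.1 hrun⟩
    refine hincl.trans ?_
    have hsubl : L'.Sublist s.tasks := List.filter_sublist
    have hnd : (L'.flatMap posn).Nodup := hwf.nodup.sublist (flatMap_sublist posn hsubl)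
    have hdomL : ∀ e ∈ L'.flatMap posn, dom f l T (init p q) δ e = univ \ E := by
      intro e he
      rw [List.mem_flatMap] at he
      obtain ⟨z, hz, hez⟩ := he
      have hz' := List.mem_filter.1 hz
      have hzB : ¬ z.1 ∈ B ∧ ¬ z.2.1 ∈ B := by simpa using hz'.2
      have hfresh := hwf.fresh e (List.mem_flatMap.2 ⟨z, hz'.1, hez⟩)
      simp only [posn, List.mem_cons, List.not_mem_nil, or_false] at hez
      unfold dom
      rw [if_neg]
      rw [not_or]
      refine ⟨hfresh, ?_⟩
      rcases hez with rfl | rfl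
      · exact hzB.1
      · exact hzB.2
    have hmain := cnt_fail_le (univ \ E) (B \ E) (univ \ B)
      (Finset.sdiff_subset_sdiff (Finset.subset_univ _) (Finset.Subset.refl _))
      (Finset.sdiff_subset_sdiff (Finset.Subset.refl _) hEB) L' (dom f l T (init p q) δ) hnd hdomL
    refine hmain.trans ?_
    apply mul_le_mul_of_nonneg_right _ (wt_nonneg _)
    -- numerical estimate
    set N : ℝ := (Fintype.card V : ℝ) with hN
    have hNpos : 0 < N := by
      have : 0 < Fintype.card V := Fintype.card_pos_iff.2 ⟨p⟩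
      rw [hN]; exact_mod_cast this
    have hcE : ((univ \ E : Finset V).card : ℝ) = N - E.card := by
      rw [Finset.card_sdiff_of_subset (Finset.subset_univ _), Finset.card_univ,
        Nat.cast_sub (Finset.card_le_univ E)]
    have hcB : ((univ \ B : Finset V).card : ℝ) = N - B.card := by
      rw [Finset.card_sdiff_of_subset (Finset.subset_univ _), Finset.card_univ,
        Nat.cast_sub (Finset.card_le_univ B)]
    have hBN : 2 * (B.card : ℝ) ≤ N := by
      rw [hN]; exact_mod_cast (by omega : 2 * B.card ≤ Fintype.card V)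
    have hEBc : (E.card : ℝ) ≤ B.card := by exact_mod_cast Finset.card_le_card hEB
    have hM : (M : ℝ) ≤ 8 * (B \ E).card := by
      exact_mod_cast hg1.trans hg2
    rw [hcE, hcB]
    have hZ0 : 0 < N - E.card := by
      have : (0 : ℝ) ≤ E.card := Nat.cast_nonneg _
      linarith
    have hθ : (M : ℝ) / (16 * N) ≤ ((B \ E).card : ℝ) * (N - B.card) / (N - E.card) ^ 2 := by
      rw [div_le_div_iff₀ (by positivity) (by positivity)]
      have h1 : (N - E.card) ^ 2 ≤ N ^ 2 := by
        have : (0 : ℝ) ≤ E.card := Nat.cast_nonneg _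
        nlinarith
      have h2 : (N : ℝ) ≤ 2 * (N - B.card) := by linarith
      have h3 : (0 : ℝ) ≤ M := Nat.cast_nonneg _
      have h4 : (0 : ℝ) ≤ (B \ E).card := Nat.cast_nonneg _
      calc (M : ℝ) * (N - E.card) ^ 2 ≤ M * N ^ 2 := mul_le_mul_of_nonneg_left h1 h3
        _ = M * N * N := by ring
        _ ≤ (8 * (B \ E).card) * N * (2 * (N - B.card)) := by gcongr
        _ = _ := by ring
    have h0 : 0 ≤ 1 - ((B \ E).card : ℝ) * (N - B.card) / (N - E.card) ^ 2 := by
      have h1 : ((B \ E).card : ℝ) ≤ N - E.card := by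
        rw [← hcE]
        exact_mod_cast Finset.card_le_card
          (Finset.sdiff_subset_sdiff (Finset.subset_univ _) (Finset.Subset.refl _))
      have h2 : N - B.card ≤ N - E.card := by linarith
      have h3 : 0 ≤ N - B.card := by linarith
      have h4 : (0 : ℝ) ≤ (B \ E).card := Nat.cast_nonneg _
      rw [sub_nonneg, div_le_one (by positivity), sq]
      exact mul_le_mul h1 h2 h3 hZ0.le
    have h1 : 1 - ((B \ E).card : ℝ) * (N - B.card) / (N - E.card) ^ 2
        ≤ Real.exp (- ((M : ℝ) / (16 * N))) := by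
      have := Real.add_one_le_exp (- ((M : ℝ) / (16 * N)))
      linarith
    refine (pow_le_pow_left₀ h0 h1 _).trans ?_
    rw [← Real.exp_nat_mul, Real.exp_le_exp]
    have h2 : 0 ≤ (M : ℝ) / (16 * N) := by positivity
    have h3 := mul_le_mul_of_nonneg_right hlen h2
    have h4 : (T : ℝ) / 4 * ((M : ℝ) / (16 * N)) = (M : ℝ) * T / (64 * N) := by
      field_simp
      ring
    rw [h4] at h3
    linarith

end Pool.Agent.Helper98.Aut
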