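import Pool.Agent.Helper98.AutCore

namespace Pool.Agent.Helper98.Aut

open Finset

/-- Gap at the right end of the middle range. -/
theorem gap_end {k v u ε F b : ℝ} (hk : 2 ≤ k) (hv : 0.66 ≤ v) (hv1 : v ≤ 1) (huv : u = 1 - v)
    (hub : u ≤ b) (_hu0 : 0 ≤ u) (hkb : k * b ≤ 0.44) (hε : 0 ≤ ε) (hεk : ε ≤ 1 / (2000 * k))
    (hF : Real.exp (- (k * v)) = F) (hFu : F ≤ u + ε) :
    1 / (1000 * k) ≤ 1 - (1 - 1 / (100 * k)) * v - Real.exp (- (k * ((1 - 1 / (100 * k)) * v))) := by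
  have hk0 : 0 < k := by linarith
  set g : ℝ := 1 / (100 * k) with hg
  have hkg : k * g = 0.01 := by rw [hg]; field_simp; norm_num
  have hg0 : 0 < g := by positivity
  set x : ℝ := v / 100 with hx
  have hx0 : 0 ≤ x := by rw [hx]; linarith
  have hx1 : x ≤ 0.01 := by rw [hx]; linarith
  have hexp : Real.exp (- (k * ((1 - g) * v))) = F * Real.exp x := by
    rw [← hF, ← Real.exp_add]
    congr 1
    have : k * ((1 - g) * v) = k * v - (k * g) * v := by ring
    rw [this, hkg, hx]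
    ring
  have hex : Real.exp x ≤ 1 + 1.01 * x := by
    have h5 := Real.abs_exp_sub_one_sub_id_le (x := x) (by rw [abs_of_nonneg hx0]; linarith)
    have h6 := (abs_le.1 h5).2
    nlinarith
  have hF0 : 0 < F := by rw [← hF]; exact Real.exp_pos _
  rw [hexp]
  have h1 : F * Real.exp x ≤ (u + ε) * (1 + 1.01 * x) := by
    apply mul_le_mul hFu hex (Real.exp_pos _).le
    linarith
  have hxg : x = (k * g) * v := by rw [hkg, hx]; ring
  have h2 : (1.01 : ℝ) * x * u ≤ 0.4444 * (g * v) := by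
    have h3 : k * u ≤ 0.44 := by
      calc k * u ≤ k * b := by gcongr
        _ ≤ 0.44 := hkb
    have h4 : 0 ≤ g * v := by positivity
    calc (1.01 : ℝ) * x * u = 1.01 * (g * v) * (k * u) := by rw [hxg]; ring
      _ ≤ 1.01 * (g * v) * 0.44 := by gcongr
      _ = 0.4444 * (g * v) := by ring
  have h3 : ε * (1 + 1.01 * x) ≤ 1.02 * ε := by nlinarith
  have h4 : 1 / (1000 * k) = g / 10 := by rw [hg]; field_simp; norm_num
  have h5 : 1 / (2000 * k) = g / 20 := by rw [hg]; field_simp; norm_num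
  have h6 : 0.66 * g ≤ g * v := by nlinarith
  rw [h4]
  rw [h5] at hεk
  have h7 : (u + ε) * (1 + 1.01 * x) = u + 1.01 * x * u + ε * (1 + 1.01 * x) := by ring
  have h8 : 1 - (1 - g) * v = u + g * v := by rw [huv]; ring
  rw [h8]
  linarith

theorem sum_bound {k n r0 N : ℕ} {b c ε : ℝ} (hk : 2 ≤ k) (hn : 1000 ≤ n)
    (_hr : 100 * (k * r0) ≤ n) (hnN : n ≤ N) (h151 : 100 * N ≤ 151 * n)
    (hkb : k * b ≤ 0.44)
    (hlate : (1 + (Real.exp 2 - 1) * (b + 1 / (100 * k))) ^ k ≤ Real.exp 2)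
    (hfix : ∀ u : ℝ, u ≤ 0.338 → u - c < Real.exp (- (k * (1 - u))) → u ≤ b)
    (hε : 0 < ε) (hεc : ε < c) (hεk : ε ≤ 1 / (2000 * k))
    (hfp : |((N : ℝ) - n) / N - Real.exp (- (k * (n / N)))| ≤ ε) :
    1 - (n : ℝ) / N ≤ b ∧
    ∑ i ∈ Finset.range (n - r0), uk N (k * i) 1 i * uk N (k * (n - r0) - k * i) i n ≤
      2 / N + n * (Real.exp (- (N * (1 / (1000 * k)) ^ 2 / 4)) + Real.exp (- (2 * r0))) := by
  have hN0 : 0 < N := by omega
  have hNr : (1000 : ℝ) ≤ N := by exact_mod_cast (hn.trans hnN)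
  have hNpos : (0 : ℝ) < N := by linarith
  have hkr : (2 : ℝ) ≤ k := by exact_mod_cast hk
  have hkpos : (0 : ℝ) < k := by linarith
  have hnNr : (n : ℝ) ≤ N := by exact_mod_cast hnN
  have h151r : 100 * (N : ℝ) ≤ 151 * n := by exact_mod_cast h151
  have hr0 : r0 ≤ k * r0 := Nat.le_mul_of_pos_left r0 (by omega)
  set v : ℝ := (n : ℝ) / N with hv
  set u : ℝ := 1 - v with hu
  have hv1 : v ≤ 1 := by rw [hv, div_le_one hNpos]; exact hnNr
  have hv66 : 0.662 ≤ v := by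
    rw [hv, le_div_iff₀ hNpos]; linarith
  have huN : ((N : ℝ) - n) / N = u := by rw [hu, hv]; field_simp
  rw [huN] at hfp
  have hfp' := abs_le.1 hfp
  have hub : u ≤ b := by
    apply hfix u
    · rw [hu]; linarith
    · have : (1 : ℝ) - u = v := by rw [hu]; ring
      rw [this]
      linarith
  refine ⟨hub, ?_⟩
  set g : ℝ := 1 / (100 * k) with hg
  set c0 : ℝ := 1 / (1000 * k) with hc0
  have hc00 : 0 < c0 := by positivity
  have hg0 : 0 < g := by positivity
  have hg1 : g ≤ 0.005 := by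
    rw [hg, div_le_iff₀ (by positivity)]; linarith
  have hc01 : c0 ≤ 0.0005 := by
    rw [hc0, div_le_iff₀ (by positivity)]; linarith
  set s1 : ℝ := (1 - g) * v with hs1
  have hs18 : 1 / 8 ≤ s1 := by rw [hs1]; nlinarith
  have hend : c0 ≤ 1 - s1 - Real.exp (- (k * s1)) :=
    gap_end hkr (by linarith) hv1 hu hub (by linarith) hkb hε.le hεk rfl (by linarith)
  -- term by term
  have hterm : ∀ i ∈ Finset.range (n - r0),
      uk N (k * i) 1 i * uk N (k * (n - r0) - k * i) i n ≤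
      (i : ℝ) * (1 / 2) ^ i / N + (Real.exp (- (N * c0 ^ 2 / 4)) + Real.exp (- (2 * r0))) := by
    intro i hi
    rw [Finset.mem_range] at hi
    have hiN : i ≤ N := by omega
    have hA : 0 ≤ (i : ℝ) * (1 / 2) ^ i / N := by positivity
    have hB : 0 ≤ Real.exp (- (N * c0 ^ 2 / 4)) := (Real.exp_pos _).le
    have hC : 0 ≤ Real.exp (- (2 * (r0 : ℝ))) := (Real.exp_pos _).le
    have hu1 := uk_nonneg hN0 (show 1 ≤ N by omega) (k * i) i
    have hu1' := uk_le_one hN0 (show 1 ≤ N by omega) (k * i) i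
    have hu2 := uk_nonneg hN0 hiN (k * (n - r0) - k * i) n
    have hu2' := uk_le_one hN0 hiN (k * (n - r0) - k * i) n
    have hle1 : uk N (k * i) 1 i * uk N (k * (n - r0) - k * i) i n ≤ uk N (k * i) 1 i :=
      mul_le_of_le_one_right hu1 hu2'
    have hle2 : uk N (k * i) 1 i * uk N (k * (n - r0) - k * i) i n
        ≤ uk N (k * (n - r0) - k * i) i n := mul_le_of_le_one_left hu2 hu1'
    rcases Nat.eq_zero_or_pos i with h0 | hpos
    · have : uk N (k * i) 1 i = 0 := uk_eq_zero_of_lt N _ 1 i (by omega)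
      rw [this, zero_mul]
      linarith
    by_cases h8 : 8 * i ≤ N
    · have := small_le hN0 hk hpos h8
      linarith
    · push Not at h8
      have h8' : 1 / 8 ≤ (i : ℝ) / N := by
        rw [le_div_iff₀ hNpos]
        have : (N : ℝ) < 8 * i := by exact_mod_cast h8
        linarith
      by_cases hmid : (i : ℝ) / N ≤ s1
      · have hgap := gap_aux k s1 c0 hs18 hkr (by linarith) hend ((i : ℝ) / N) h8' hmid
        have := middle_le (k := k) hN0 hiN hc00 (by linarith) hgap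
        linarith
      · push Not at hmid
        have hθ : (1 + (Real.exp 2 - 1) * (1 - (i : ℝ) / N)) ^ k ≤ Real.exp 2 := by
          refine le_trans ?_ hlate
          have he : 0 ≤ Real.exp 2 - 1 := by
            have := Real.one_le_exp (show (0 : ℝ) ≤ 2 by norm_num)
            linarith
          have hi1 : (i : ℝ) / N ≤ 1 := by
            rw [div_le_one hNpos]; exact_mod_cast hiN
          apply pow_le_pow_left₀
          · have : 0 ≤ (Real.exp 2 - 1) * (1 - (i : ℝ) / N) := mul_nonneg he (by linarith)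
            linarith
          · have h1 : 1 - (i : ℝ) / N ≤ b + g := by
              have : s1 = v - g * v := by rw [hs1]; ring
              have : g * v ≤ g := mul_le_of_le_one_right hg0.le hv1
              linarith
            have := mul_le_mul_of_nonneg_left h1 he
            linarith
        have := late_le (n' := n - r0) (r0 := r0) (n := n) hN0 (show i ≤ n - r0 by omega)
          (by omega) hnN hθ
        linarith
  refine (Finset.sum_le_sum hterm).trans ?_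
  rw [Finset.sum_add_distrib, Finset.sum_const, Finset.card_range, nsmul_eq_mul,
    ← Finset.sum_div]
  have h1 : (∑ i ∈ Finset.range (n - r0), (i : ℝ) * (1 / 2) ^ i) / N ≤ 2 / N := by
    apply div_le_div_of_nonneg_right (sum_half _) hNpos.le
  have h2 : ((n - r0 : ℕ) : ℝ) ≤ n := by exact_mod_cast Nat.sub_le _ _
  have h3 : ((n - r0 : ℕ) : ℝ) * (Real.exp (- (N * c0 ^ 2 / 4)) + Real.exp (- (2 * r0)))
      ≤ n * (Real.exp (- (N * c0 ^ 2 / 4)) + Real.exp (- (2 * r0))) := by gcongr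
  linarith

/-- Explicit lower bound for the probability of exactly `n` accessible states. -/
theorem kf_lower {k n r0 : ℕ} {b c ε : ℝ} (hk : 2 ≤ k) (hn : 1000 ≤ n)
    (hr : 100 * (k * r0) ≤ n) (hr1 : 1 ≤ r0) 
    (hkb : k * b ≤ 0.44) (hb1 : b ≤ 0.3)
    (hloss : Real.exp (- (1 / 2)) ≤ (1 - b) ^ k)
    (hlate : (1 + (Real.exp 2 - 1) * (b + 1 / (100 * k))) ^ k ≤ Real.exp 2)
    (hfix : ∀ u : ℝ, u ≤ 0.338 → u - c < Real.exp (- (k * (1 - u))) → u ≤ b)
    (hε : 0 < ε) (hεc : ε < c) (hεk : ε ≤ 1 / (2000 * k))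
    (e1 : 7 / √(n : ℝ) ≤ (ε / 2) ^ 2) (e2 : 2 * (k * r0) / (n : ℝ) ≤ ε / 2)
    (e3 : k / ((n : ℝ) - 1) ≤ ε / 2) :
    ∃ N, n ≤ N ∧ 100 * N ≤ 151 * n ∧
      Real.exp (- (r0 / 2)) * (0.12 / √(n : ℝ) - (2 / n + n *
        (Real.exp (- (n * (1 / (1000 * k)) ^ 2 / 4)) + Real.exp (- (2 * r0))))) ≤
        kf N n k (k * n) (k * n) 1 := by
  obtain ⟨N, hnN, h151, hmode⟩ := choose_N hk hn hr
  refine ⟨N, hnN, h151, ?_⟩
  have hN0 : 0 < N := by omega
  have hnr : (1000 : ℝ) ≤ n := by exact_mod_cast hn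
  have hnNr : (n : ℝ) ≤ N := by exact_mod_cast hnN
  have hNpos : (0 : ℝ) < N := by linarith
  have hnpos : (0 : ℝ) < n := by linarith
  have h151r : 100 * (N : ℝ) ≤ 151 * n := by exact_mod_cast h151
  have hr0 : r0 ≤ k * r0 := Nat.le_mul_of_pos_left r0 (by omega)
  have hsn : 0 < √(n : ℝ) := Real.sqrt_pos.2 hnpos
  have hsN : 0 < √(N : ℝ) := Real.sqrt_pos.2 hNpos
  have hsnN : √(n : ℝ) ≤ √(N : ℝ) := Real.sqrt_le_sqrt hnNr
  have e1' : 7 / √(N : ℝ) ≤ (ε / 2) ^ 2 := by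
    refine le_trans ?_ e1
    gcongr
  have e2' : 2 * (k * r0) / (N : ℝ) ≤ ε / 2 := by
    refine le_trans ?_ e2
    gcongr
  have e3' : k / ((N : ℝ) - 1) ≤ ε / 2 := by
    refine le_trans ?_ e3
    have : 0 < (n : ℝ) - 1 := by linarith
    gcongr
  have hfp := fixed_point hk hn hr hr1 hnN hmode hε e1' e2' e3'
  obtain ⟨hub, hsum⟩ := sum_bound hk hn hr hnN h151 hkb hlate hfix hε hεc hεk hfp
  have hq := mode_ge (show 2 ≤ N by omega) (k * (n - r0)) _ hmode
  have hkill := uk_le_kf (n := n) (n' := n - r0) hN0 (show 0 < k by omega) (by omega)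
  have hsN123 : √(N : ℝ) ≤ 1.23 * √(n : ℝ) := by
    rw [show (1.23 : ℝ) * √(n : ℝ) = √(1.23 ^ 2 * n) by
      rw [Real.sqrt_mul (by positivity), Real.sqrt_sq (by norm_num)]]
    apply Real.sqrt_le_sqrt
    nlinarith
  have hs1 : 1 ≤ √(N : ℝ) := by rw [Real.one_le_sqrt]; linarith
  have hqlow : 0.12 / √(n : ℝ) ≤ uk N (k * (n - r0)) 1 n := by
    have hq0 : 0 ≤ uk N (k * (n - r0)) 1 n := uk_nonneg hN0 (by omega) _ _
    rw [div_le_iff₀ hsn]
    have h1 : (4 * √(N : ℝ) + 1) * uk N (k * (n - r0)) 1 n ≤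
        (6.15 * √(n : ℝ)) * uk N (k * (n - r0)) 1 n := by
      apply mul_le_mul_of_nonneg_right _ hq0
      linarith
    linarith
  have hk1 : 0.12 / √(n : ℝ) - (2 / n + n *
        (Real.exp (- (n * (1 / (1000 * k)) ^ 2 / 4)) + Real.exp (- (2 * r0)))) ≤
        kf N n k (k * (n - r0)) (k * (n - r0)) 1 := by
    have h1 : (2 : ℝ) / N ≤ 2 / n := by gcongr
    have h2 : Real.exp (- (N * (1 / (1000 * (k : ℝ))) ^ 2 / 4)) ≤
        Real.exp (- (n * (1 / (1000 * (k : ℝ))) ^ 2 / 4)) := by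
      rw [Real.exp_le_exp]
      have : (n : ℝ) * (1 / (1000 * (k : ℝ))) ^ 2 / 4 ≤ N * (1 / (1000 * (k : ℝ))) ^ 2 / 4 := by
        gcongr
      linarith
    have h3 : (n : ℝ) * (Real.exp (- (N * (1 / (1000 * (k : ℝ))) ^ 2 / 4)) +
        Real.exp (- (2 * r0))) ≤ n * (Real.exp (- (n * (1 / (1000 * (k : ℝ))) ^ 2 / 4)) +
        Real.exp (- (2 * r0))) := by gcongr
    linarith
  have hshift := kf_shift N n k (k * (n - r0)) (k * r0) (by rw [← mul_add]; congr 1; omega) hnN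
    (k * (n - r0)) 1 (by omega)
  have hkn : k * (n - r0) + k * r0 = k * n := by rw [← mul_add]; congr 1; omega
  rw [hkn] at hshift
  refine le_trans ?_ hshift
  have hkf0 : 0 ≤ kf N n k (k * (n - r0)) (k * (n - r0)) 1 := kf_nonneg _ _ _ _ _ _ (by omega)
  have hpow : Real.exp (- ((r0 : ℝ) / 2)) ≤ ((n : ℝ) / N) ^ (k * r0) := by
    rw [pow_mul]
    have h1 : Real.exp (- (1 / 2)) ≤ ((n : ℝ) / N) ^ k := by
      refine hloss.trans ?_
      apply pow_le_pow_left₀ (by linarith)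
      linarith
    calc Real.exp (- ((r0 : ℝ) / 2)) = (Real.exp (- (1 / 2))) ^ r0 := by
          rw [← Real.exp_nat_mul]; congr 1; ring
      _ ≤ _ := pow_le_pow_left₀ (Real.exp_pos _).le h1 _
  calc Real.exp (- (r0 / 2)) * (0.12 / √(n : ℝ) - (2 / n + n *
        (Real.exp (- (n * (1 / (1000 * k)) ^ 2 / 4)) + Real.exp (- (2 * r0)))))
      ≤ Real.exp (- (r0 / 2)) * kf N n k (k * (n - r0)) (k * (n - r0)) 1 :=
        mul_le_mul_of_nonneg_left hk1 (Real.exp_pos _).le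
    _ ≤ _ := mul_le_mul_of_nonneg_right hpow hkf0

end Pool.Agent.Helper98.Aut
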