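import Pool.Agent.Helper98.AutAcc

namespace Pool.Agent.Helper98.Aut

open Finset

set_option linter.unusedSectionVars false

variable {V A : Type*} [Fintype V] [DecidableEq V] [Fintype A] [DecidableEq A]

/-- Reachability from `r` without using the transitions leaving states with `Q`. -/
inductive RA (δ : V × A → V) (r : V) (Q : V → Prop) : V → Prop
  | base : RA δ r Q r
  | step {x : V} (c : A) : RA δ r Q x → ¬ Q x → RA δ r Q (δ (x, c))

theorem RA.congr {δ δ' : V × A → V} {r : V} {Q : V → Prop}
    (h : ∀ e : V × A, ¬ Q e.1 → δ' e = δ e) {x : V} (hx : RA δ r Q x) : RA δ' r Q x := by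
  induction hx with
  | base => exact RA.base
  | @step x c _ hQ ih =>
    rw [← h (x, c) hQ]
    exact RA.step c ih hQ

theorem RA.mono {δ : V × A → V} {r : V} {Q Q' : V → Prop} (h : ∀ x, Q' x → Q x) {x : V}
    (hx : RA δ r Q x) : RA δ r Q' x := by
  induction hx with
  | base => exact RA.base
  | @step x c _ hQ ih => exact RA.step c ih fun h' => hQ (h x h')

theorem RA.mem_acc {δ : V × A → V} {r : V} {Q : V → Prop} {x : V} (hx : RA δ r Q x) :
    x ∈ acc δ r := by
  induction hx with
  | base => exact Aut.mem_acc.2 ⟨[], rfl⟩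
  | step c _ _ ih => exact acc_step ih c

theorem RA.of_mem_acc {δ : V × A → V} {r x : V} (hx : x ∈ acc δ r) :
    RA δ r (fun _ => False) x := by
  obtain ⟨w, rfl⟩ := Aut.mem_acc.1 hx
  clear hx
  induction w using List.reverseRecOn with
  | nil => exact RA.base
  | append_singleton w c ih =>
    rw [run_append]
    exact RA.step c ih id

/-- One of the two states is reached without using the transitions of both. -/
theorem RA.first {δ : V × A → V} {r p q x : V} (hx : x ∈ acc δ r) :
    RA δ r (fun y => y = p ∨ y = q) x ∨ RA δ r (fun y => y = p ∨ y = q) p ∨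
      RA δ r (fun y => y = p ∨ y = q) q := by
  have h := RA.of_mem_acc hx
  induction h with
  | base => exact Or.inl RA.base
  | @step x c h1 _ ih =>
    have hx' : x ∈ acc δ r := h1.mem_acc
    rcases ih hx' with h | h | h
    · by_cases hp : x = p
      · subst hp; exact Or.inr (Or.inl h)
      · by_cases hq : x = q
        · subst hq; exact Or.inr (Or.inr h)
        · left
          exact RA.step c h (by rintro (h' | h'); exacts [hp h', hq h'])
    · exact Or.inr (Or.inl h)
    · exact Or.inr (Or.inr h)

/-- Redirecting the transitions of a twin keeps the table accessible. -/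
theorem acc_redirect {δ δ' : V × A → V} {r p q : V} (hpq : p ≠ q) (hacc : acc δ r = univ)
    (htw : ∀ c, δ (p, c) = δ (q, c)) (hp : RA δ r (fun y => y = p ∨ y = q) p)
    (h : ∀ e : V × A, e.1 ≠ q → δ' e = δ e) : acc δ' r = univ := by
  have hp' : RA δ r (fun y => y = q) p := RA.mono (fun x hx => Or.inr hx) hp
  have hall : ∀ x, RA δ r (fun y => y = q) x := by
    intro x
    have hx : x ∈ acc δ r := by rw [hacc]; exact Finset.mem_univ x
    have h1 := RA.of_mem_acc hx
    induction h1 with
    | base => exact RA.base
    | @step y c h2 _ ih =>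
      have ih' := ih h2.mem_acc
      by_cases hy : y = q
      · subst hy
        rw [← htw c]
        exact RA.step c hp' hpq
      · exact RA.step c ih' hy
  rw [Finset.eq_univ_iff_forall]
  intro x
  exact ((hall x).congr (δ' := δ') h).mem_acc

theorem twin_pair (r p q : V) (hpq : p ≠ q) :
    cnt (fun _ : V × A => (univ : Finset V)) (fun δ => acc δ r = univ ∧
      ∀ c, δ (p, c) = δ (q, c)) * (Fintype.card V : ℝ) ^ Fintype.card A ≤
    cnt (fun _ : V × A => (univ : Finset V)) (fun δ => acc δ r = univ) := by
  classical
  rw [cnt_eq, cnt_eq]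
  -- redirect the twin which is reached through the other
  let ap : (V × A → V) → Prop := fun δ => RA δ r (fun y => y = p ∨ y = q) p
  let Φ : (V × A → V) × (A → V) → (V × A → V) := fun x e =>
    if ap x.1 then (if e.1 = q then x.2 e.2 else x.1 e)
    else (if e.1 = p then x.2 e.2 else x.1 e)
  have hoff : ∀ x : (V × A → V) × (A → V), ∀ e : V × A, ¬ (e.1 = p ∨ e.1 = q) → Φ x e = x.1 e := by
    intro x e he
    rw [not_or] at he
    simp only [Φ]
    rw [if_neg he.1, if_neg he.2, ite_self]
  have hap : ∀ x : (V × A → V) × (A → V), (ap (Φ x) ↔ ap x.1) := by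
    intro x
    constructor
    · intro h
      exact RA.congr (fun e he => (hoff x e he).symm) h
    · intro h
      exact RA.congr (fun e he => hoff x e he) h
  set S := (Fintype.piFinset (fun _ : V × A => (univ : Finset V))).filter
    (fun δ => acc δ r = univ ∧ ∀ c, δ (p, c) = δ (q, c)) with hS
  set S' := (Fintype.piFinset (fun _ : V × A => (univ : Finset V))).filter
    (fun δ => acc δ r = univ) with hS'
  have hmain : (S ×ˢ (univ : Finset (A → V))).card ≤ S'.card := by
    refine Finset.card_le_card_of_injOn Φ ?_ ?_
    · rintro ⟨δ, g⟩ hx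
      have hx' := Finset.mem_coe.1 hx
      rw [Finset.mem_product] at hx'
      have h1 := (Finset.mem_filter.1 hx'.1).2
      apply Finset.mem_coe.2
      rw [hS', Finset.mem_filter]
      refine ⟨by rw [Fintype.mem_piFinset]; intro _; exact Finset.mem_univ _, ?_⟩
      by_cases h : ap δ
      · refine acc_redirect hpq h1.1 h1.2 h ?_
        intro e he
        simp only [Φ]
        rw [if_pos h, if_neg he]
      · have hq : RA δ r (fun y => y = q ∨ y = p) q := by
          have hr : r ∈ acc δ r := mem_acc.2 ⟨[], rfl⟩
          have hpacc : p ∈ acc δ r := by rw [h1.1]; exact Finset.mem_univ _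
          have hfirst := RA.first (p := p) (q := q) hpacc
          have hq' : RA δ r (fun y => y = p ∨ y = q) q := by
            rcases hfirst with h2 | h2 | h2
            · exact absurd h2 h
            · exact absurd h2 h
            · exact h2
          exact RA.mono (fun x hx => hx.symm) hq'
        refine acc_redirect hpq.symm h1.1 (fun c => (h1.2 c).symm) hq ?_
        intro e he
        simp only [Φ]
        rw [if_neg h, if_neg he]
    · rintro ⟨δ, g⟩ hx ⟨δ', g'⟩ hx' heq
      have hx1 := (Finset.mem_filter.1 (Finset.mem_product.1 (Finset.mem_coe.1 hx)).1).2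
      have hx2 := (Finset.mem_filter.1 (Finset.mem_product.1 (Finset.mem_coe.1 hx')).1).2
      have t1 : ∀ c, δ (p, c) = δ (q, c) := hx1.2
      have t2 : ∀ c, δ' (p, c) = δ' (q, c) := hx2.2
      have hiff : ap δ ↔ ap δ' := by
        have h1 := hap (δ, g)
        have h2 := hap (δ', g')
        rw [heq] at h1
        exact h1.symm.trans h2
      have hval : ∀ e, Φ (δ, g) e = Φ (δ', g') e := fun e => by rw [heq]
      by_cases h : ap δ
      · have h' : ap δ' := hiff.1 h
        have hne : ∀ e : V × A, e.1 ≠ q → δ e = δ' e := by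
          intro e he
          have := hval e
          simp only [Φ] at this
          rwa [if_pos h, if_pos h', if_neg he, if_neg he] at this
        have hg : g = g' := by
          funext c
          have := hval (q, c)
          simp only [Φ] at this
          simpa [h, h'] using this
        have hδ : δ = δ' := by
          funext e
          by_cases he : e.1 = q
          · obtain ⟨e1, e2⟩ := e
            simp only at he
            subst he
            rw [← t1 e2, ← t2 e2]
            exact hne (p, e2) hpq
          · exact hne e he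
        rw [hδ, hg]
      · have h' : ¬ ap δ' := fun h' => h (hiff.2 h')
        have hne : ∀ e : V × A, e.1 ≠ p → δ e = δ' e := by
          intro e he
          have := hval e
          simp only [Φ] at this
          rwa [if_neg h, if_neg h', if_neg he, if_neg he] at this
        have hg : g = g' := by
          funext c
          have := hval (p, c)
          simp only [Φ] at this
          simpa [h, h'] using this
        have hδ : δ = δ' := by
          funext e
          by_cases he : e.1 = p
          · obtain ⟨e1, e2⟩ := e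
            simp only at he
            subst he
            rw [t1 e2, t2 e2]
            exact hne (q, e2) hpq.symm
          · exact hne e he
        rw [hδ, hg]
  rw [Finset.card_product, Finset.card_univ, Fintype.card_fun] at hmain
  exact_mod_cast hmain

theorem card_lt_pairs (n : ℕ) :
    2 * (((univ : Finset (Fin n × Fin n)).filter (fun x => x.1 < x.2)).card : ℝ)
      ≤ (n : ℝ) * (n - 1) := by
  have h1 : ((univ : Finset (Fin n × Fin n)).filter (fun x => x.1 < x.2)).card
      = ∑ q : Fin n, (q : ℕ) := by
    rw [Finset.card_filter, Fintype.sum_prod_type_right]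
    refine Finset.sum_congr rfl fun q _ => ?_
    rw [← Finset.card_filter]
    have : (univ : Finset (Fin n)).filter (fun x => x < q) = Finset.Iio q := by
      ext x; simp
    simp only [this, Fin.card_Iio]
  have h2 : ∑ q : Fin n, (q : ℕ) = ∑ i ∈ Finset.range n, i := by
    rw [Finset.sum_range]
  rw [h1, h2]
  have h3 := Finset.sum_range_id_mul_two n
  have h4 : (((∑ i ∈ Finset.range n, i) * 2 : ℕ) : ℝ) = ((n * (n - 1) : ℕ) : ℝ) := by rw [h3]
  push_cast at h4
  rcases Nat.eq_zero_or_pos n with h0 | hpos
  · subst h0; simp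
  · rw [Nat.cast_sub hpos] at h4
    push_cast at h4
    push_cast
    linarith

/-- Twins in the accessible model. -/
theorem twins_le (n : ℕ) (r : Fin n) (hk : 2 ≤ Fintype.card A) :
    cnt (fun _ : Fin n × A => (univ : Finset (Fin n))) (fun δ => acc δ r = univ ∧
      ∃ p q, p ≠ q ∧ ∀ c, δ (p, c) = δ (q, c)) ≤
    (1 / 2) * cnt (fun _ : Fin n × A => (univ : Finset (Fin n))) (fun δ => acc δ r = univ) := by
  classical
  set U : Fin n × A → Finset (Fin n) := fun _ => univ with hU
  have hn : 0 < n := r.pos
  have hnr : (1 : ℝ) ≤ n := by exact_mod_cast hn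
  have h1 : ∀ δ ∈ Fintype.piFinset U, (acc δ r = univ ∧ ∃ p q, p ≠ q ∧ ∀ c, δ (p, c) = δ (q, c)) →
      ∃ x ∈ (univ : Finset (Fin n × Fin n)).filter (fun x => x.1 < x.2),
        acc δ r = univ ∧ ∀ c, δ (x.1, c) = δ (x.2, c) := by
    rintro δ _ ⟨h1, p, q, hpq, h2⟩
    rcases lt_or_gt_of_ne hpq with h | h
    · exact ⟨(p, q), by simpa using h, h1, h2⟩
    · exact ⟨(q, p), by simpa using h, h1, fun c => (h2 c).symm⟩
  refine (cnt_mono h1).trans ((cnt_exists_le _ U _).trans ?_)
  set a := cnt U (fun δ => acc δ r = univ) with ha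
  have ha0 : 0 ≤ a := cnt_nonneg _ _
  have hb : ∀ x ∈ (univ : Finset (Fin n × Fin n)).filter (fun x => x.1 < x.2),
      cnt U (fun δ => acc δ r = univ ∧ ∀ c, δ (x.1, c) = δ (x.2, c)) ≤ a / (n : ℝ) ^ 2 := by
    intro x hx
    have hne : x.1 ≠ x.2 := ne_of_lt (Finset.mem_filter.1 hx).2
    have h2 := twin_pair (A := A) r x.1 x.2 hne
    rw [Fintype.card_fin] at h2
    rw [le_div_iff₀ (by positivity)]
    refine le_trans ?_ h2
    apply mul_le_mul_of_nonneg_left _ (cnt_nonneg _ _)
    exact pow_le_pow_right₀ hnr hk
  refine (Finset.sum_le_card_nsmul _ _ _ hb).trans ?_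
  rw [nsmul_eq_mul]
  have h3 := card_lt_pairs n
  have h4 : 0 ≤ a / (n : ℝ) ^ 2 := by positivity
  have h5 : (((univ : Finset (Fin n × Fin n)).filter (fun x => x.1 < x.2)).card : ℝ)
      ≤ (n : ℝ) ^ 2 / 2 := by nlinarith
  calc (((univ : Finset (Fin n × Fin n)).filter (fun x => x.1 < x.2)).card : ℝ) * (a / (n : ℝ) ^ 2)
      ≤ ((n : ℝ) ^ 2 / 2) * (a / (n : ℝ) ^ 2) := mul_le_mul_of_nonneg_right h5 h4
    _ = 1 / 2 * a := by field_simp

end Pool.Agent.Helper98.Aut
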