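import Pool.Agent.Helper98.AutModel
import Pool.Agent.Helper98.AutTwin
import Pool.Agent.Helper98.AutAsym

namespace Pool.Agent.Helper98.Aut

open Finset Filter Topology

set_option linter.unusedSectionVars false

variable {V V' A : Type} [Fintype V] [DecidableEq V] [Fintype V'] [DecidableEq V']
  [Fintype A] [DecidableEq A]

/-- Extension of a table on `V'` to a table on `V`, through an identification of `V'` with a
subset `S` of `V`. -/
noncomputable def ext (S : Finset V) (e : V' ≃ {x // x ∈ S}) (δ' : V' × A → V')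
    (h : {a : V × A // a.1 ∉ S} → V) : V × A → V :=
  fun a => if ha : a.1 ∈ S then (e (δ' (e.symm ⟨a.1, ha⟩, a.2)) : V) else h ⟨a, ha⟩

variable {S : Finset V} {e : V' ≃ {x // x ∈ S}} {δ' : V' × A → V'}
  {h : {a : V × A // a.1 ∉ S} → V}

theorem ext_in (x : V') (c : A) : ext S e δ' h ((e x : V), c) = e (δ' (x, c)) := by
  unfold ext
  rw [dif_pos (e x).2]
  simp

theorem run_ext (w : List A) : ∀ x : V', run (ext S e δ' h) (e x : V) w = e (run δ' x w) := by
  induction w with
  | nil => intro x; rfl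
  | cons c w ih => intro x; rw [run_cons, run_cons, ext_in, ih]

theorem acc_ext {r : V} {z : V'} (hz : (e z : V) = r) (hacc : acc δ' z = univ) :
    acc (ext S e δ' h) r = S := by
  ext x
  rw [mem_acc]
  constructor
  · rintro ⟨w, hw⟩
    rw [← hw, ← hz, run_ext]
    exact (e _).2
  · intro hx
    have h1 : e.symm ⟨x, hx⟩ ∈ acc δ' z := by rw [hacc]; exact Finset.mem_univ _
    obtain ⟨w, hw⟩ := mem_acc.1 h1
    refine ⟨w, ?_⟩
    rw [← hz, run_ext, hw]
    simp

theorem unsep_ext {f p q : V'} (hu : Unsep δ' f p q) :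
    Unsep (ext S e δ' h) (e f : V) (e p : V) (e q : V) := by
  intro w
  rw [run_ext, run_ext]
  have := hu w
  constructor
  · intro h1
    have h2 := this.1 (e.injective (Subtype.ext h1))
    rw [h2]
  · intro h1
    have h2 := this.2 (e.injective (Subtype.ext h1))
    rw [h2]

theorem badN_ext {r : V} {z f : V'} (hz : (e z : V) = r) (hacc : acc δ' z = univ)
    (hb : BadN z δ' f) : BadN r (ext S e δ' h) (e f : V) := by
  obtain ⟨_, ⟨p, q, _, _, hpq, hu⟩, htw⟩ := hb
  have hS := acc_ext (h := h) hz hacc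
  refine ⟨by rw [hS]; exact (e f).2, ⟨e p, e q, by rw [hS]; exact (e p).2,
    by rw [hS]; exact (e q).2, ?_, unsep_ext hu⟩, ?_⟩
  · intro h1
    exact hpq (e.injective (Subtype.ext h1))
  · rcases htw with h1 | h1
    · exact Or.inl h1
    · right
      intro p q hp hq hpq
      rw [hS] at hp hq
      have hne : e.symm ⟨p, hp⟩ ≠ e.symm ⟨q, hq⟩ := by
        intro h2
        exact hpq (congrArg Subtype.val (e.symm.injective h2))
      obtain ⟨c, hc⟩ := h1 _ _ (by rw [hacc]; exact Finset.mem_univ _)
        (by rw [hacc]; exact Finset.mem_univ _) hne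
      refine ⟨c, fun h3 => hc ?_⟩
      have h4 := ext_in (S := S) (e := e) (δ' := δ') (h := h) (e.symm ⟨p, hp⟩) c
      have h5 := ext_in (S := S) (e := e) (δ' := δ') (h := h) (e.symm ⟨q, hq⟩) c
      simp only [Equiv.apply_symm_apply] at h4 h5
      rw [h4, h5] at h3
      exact e.injective (Subtype.ext h3)

/-- Many bad pairs on `V` come from bad pairs on `V'`. -/
theorem bad_card_le (r : V) (z : V') (S : Finset V) (e : V' ≃ {x // x ∈ S}) (hz : (e z : V) = r)
    (B' : Finset ((V' × A → V') × V')) (hB' : ∀ x ∈ B', acc x.1 z = univ ∧ BadN z x.1 x.2)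
    (B : Finset ((V × A → V) × V)) (hB : ∀ x, acc x.1 r = S → BadN r x.1 x.2 → x ∈ B) :
    B'.card * Fintype.card ({a : V × A // a.1 ∉ S} → V) ≤
      (B.filter (fun x => acc x.1 r = S)).card := by
  classical
  rw [← Finset.card_univ, ← Finset.card_product]
  refine Finset.card_le_card_of_injOn
    (fun x => (ext S e x.1.1 x.2, ((e x.1.2 : {x // x ∈ S}) : V))) ?_ ?_
  · rintro ⟨⟨δ', f⟩, h⟩ hx
    have hx' := (Finset.mem_product.1 (Finset.mem_coe.1 hx)).1
    obtain ⟨h1, h2⟩ := hB' _ hx'
    apply Finset.mem_coe.2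
    rw [Finset.mem_filter]
    exact ⟨hB _ (acc_ext hz h1) (badN_ext hz h1 h2), acc_ext hz h1⟩
  · rintro ⟨⟨δ1, f1⟩, h1⟩ _ ⟨⟨δ2, f2⟩, h2⟩ _ heq
    simp only [Prod.mk.injEq] at heq
    obtain ⟨heq1, heq2⟩ := heq
    have hf : f1 = f2 := e.injective (Subtype.ext heq2)
    have hδ : δ1 = δ2 := by
      funext a
      have h3 := congrFun heq1 ((e a.1 : V), a.2)
      rw [ext_in, ext_in] at h3
      exact e.injective (Subtype.ext h3)
    have hh : h1 = h2 := by
      funext a
      have h3 := congrFun heq1 a.1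
      unfold ext at h3
      rw [dif_neg a.2, dif_neg a.2] at h3
      exact h3
    rw [hf, hδ, hh]

/-- Tables on `V` with accessible part `S` are determined by accessible tables on `V'` and the
values outside `S`. -/
theorem acc_card_le (r : V) (z : V') (S : Finset V) (e : V' ≃ {x // x ∈ S}) (hz : (e z : V) = r)
    (T : Finset (V × A → V)) (hT : ∀ δ ∈ T, acc δ r = S)
    (T' : Finset (V' × A → V')) (hT' : ∀ δ', acc δ' z = univ → δ' ∈ T') :
    T.card ≤ T'.card * Fintype.card ({a : V × A // a.1 ∉ S} → V) := by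
  classical
  have hcl : ∀ δ ∈ T, ∀ x ∈ S, ∀ c : A, δ (x, c) ∈ S := by
    intro δ hδ x hx c
    rw [← hT δ hδ] at hx ⊢
    exact acc_step hx c
  let R : (V × A → V) → (V' × A → V') := fun δ a =>
    if h : δ ((e a.1 : V), a.2) ∈ S then e.symm ⟨δ ((e a.1 : V), a.2), h⟩ else z
  have hR : ∀ δ ∈ T, ∀ a : V' × A, (e (R δ a) : V) = δ ((e a.1 : V), a.2) := by
    intro δ hδ a
    have h1 := hcl δ hδ (e a.1) (e a.1).2 a.2
    simp only [R]
    rw [dif_pos h1]
    simp
  have hRrun : ∀ δ ∈ T, ∀ w : List A, ∀ x : V', (e (run (R δ) x w) : V) = run δ (e x : V) w := by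
    intro δ hδ w
    induction w with
    | nil => intro x; rfl
    | cons c w ih =>
      intro x
      rw [run_cons, run_cons, ih, hR δ hδ]
  rw [← Finset.card_univ, ← Finset.card_product]
  refine Finset.card_le_card_of_injOn (fun δ => (R δ, fun a => δ a.1)) ?_ ?_
  · intro δ hδ
    have hδ' := Finset.mem_coe.1 hδ
    apply Finset.mem_coe.2
    rw [Finset.mem_product]
    refine ⟨hT' _ ?_, Finset.mem_univ _⟩
    rw [Finset.eq_univ_iff_forall]
    intro x
    have hx : (e x : V) ∈ acc δ r := by rw [hT δ hδ']; exact (e x).2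
    obtain ⟨w, hw⟩ := mem_acc.1 hx
    rw [mem_acc]
    refine ⟨w, ?_⟩
    apply e.injective
    apply Subtype.ext
    rw [hRrun δ hδ', hz]
    exact hw
  · intro δ1 h1 δ2 h2 heq
    have h1' := Finset.mem_coe.1 h1
    have h2' := Finset.mem_coe.1 h2
    simp only [Prod.mk.injEq] at heq
    obtain ⟨heq1, heq2⟩ := heq
    funext a
    by_cases ha : a.1 ∈ S
    · have h3 := hR δ1 h1' (e.symm ⟨a.1, ha⟩, a.2)
      have h4 := hR δ2 h2' (e.symm ⟨a.1, ha⟩, a.2)
      simp only [Equiv.apply_symm_apply] at h3 h4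
      rw [heq1] at h3
      exact h3.symm.trans h4
    · exact congrFun heq2 ⟨a, ha⟩

/-- Double counting over the final state. -/
theorem sum_cnt_eq (Q : (V × A → V) → V → Prop) [DecidablePred fun x : (V × A → V) × V => Q x.1 x.2] :
    ∑ f : V, cnt (fun _ : V × A => (univ : Finset V)) (fun δ => Q δ f)
      = (((univ : Finset ((V × A → V) × V)).filter (fun x => Q x.1 x.2)).card : ℝ) := by
  classical
  have h2 := Finset.card_eq_sum_card_fiberwise
    (s := (univ : Finset ((V × A → V) × V)).filter (fun x => Q x.1 x.2))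
    (t := (univ : Finset V)) (f := Prod.snd) (fun _ _ => Finset.mem_coe.2 (Finset.mem_univ _))
  rw [h2, Nat.cast_sum]
  refine Finset.sum_congr rfl fun f _ => ?_
  rw [cnt_eq]
  congr 1
  refine (Finset.card_bij (fun x _ => x.1) ?_ ?_ ?_).symm
  · intro x hx
    simp only [Finset.mem_filter, Finset.mem_univ, true_and] at hx
    simp only [Finset.mem_filter, Fintype.mem_piFinset, Finset.mem_univ, implies_true, true_and]
    rw [← hx.2]
    exact hx.1
  · intro x hx x' hx' h
    simp only [Finset.mem_filter, Finset.mem_univ, true_and] at hx hx'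
    exact Prod.ext h (hx.2.trans hx'.2.symm)
  · intro δ hδ
    simp only [Finset.mem_filter, Fintype.mem_piFinset, Finset.mem_univ, implies_true,
      true_and] at hδ
    refine ⟨(δ, f), ?_, rfl⟩
    simp only [Finset.mem_filter, Finset.mem_univ, true_and]
    exact ⟨hδ, trivial⟩

/-- The comparison of the two models. -/
theorem transfer (r : V) (n : ℕ) (z : Fin n) (X Y : ℝ) (hX : 0 < X)
    (hacc : X * wt (fun _ : V × A => (univ : Finset V)) ≤
      cnt (fun _ : V × A => (univ : Finset V)) (fun δ => (acc δ r).card = n))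
    (hbad : ∑ f : V, cnt (fun _ : V × A => (univ : Finset V)) (fun δ => BadN r δ f) ≤
      Y * wt (fun _ : V × A => (univ : Finset V))) :
    X * ∑ f : Fin n, cnt (fun _ : Fin n × A => (univ : Finset (Fin n)))
        (fun δ => acc δ z = univ ∧ BadN z δ f) ≤
      Y * cnt (fun _ : Fin n × A => (univ : Finset (Fin n))) (fun δ => acc δ z = univ) := by
  classical
  -- the sets in finset form
  set W : ℝ := wt (fun _ : V × A => (univ : Finset V)) with hW
  have hWpos : 0 < W := by
    rw [hW, wt_univ]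
    have : 0 < Fintype.card V := Fintype.card_pos_iff.2 ⟨r⟩
    have : (0 : ℝ) < Fintype.card V := by exact_mod_cast this
    positivity
  set B' : Finset ((Fin n × A → Fin n) × Fin n) :=
    univ.filter (fun x => acc x.1 z = univ ∧ BadN z x.1 x.2) with hB'
  set T' : Finset (Fin n × A → Fin n) := univ.filter (fun δ => acc δ z = univ) with hT'
  set B : Finset ((V × A → V) × V) := univ.filter (fun x => BadN r x.1 x.2) with hB
  set T : Finset (V × A → V) := univ.filter (fun δ => (acc δ r).card = n) with hT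
  have cB' : ∑ f : Fin n, cnt (fun _ : Fin n × A => (univ : Finset (Fin n)))
        (fun δ => acc δ z = univ ∧ BadN z δ f) = (B'.card : ℝ) :=
    sum_cnt_eq (fun δ f => acc δ z = univ ∧ BadN z δ f)
  have cB : ∑ f : V, cnt (fun _ : V × A => (univ : Finset V)) (fun δ => BadN r δ f)
      = (B.card : ℝ) := sum_cnt_eq (fun δ f => BadN r δ f)
  have cT' : cnt (fun _ : Fin n × A => (univ : Finset (Fin n))) (fun δ => acc δ z = univ)
      = (T'.card : ℝ) := by
    rw [cnt_eq]
    congr 2
  have cT : cnt (fun _ : V × A => (univ : Finset V)) (fun δ => (acc δ r).card = n)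
      = (T.card : ℝ) := by
    rw [cnt_eq]
    congr 2
  rw [cB', cT']
  rw [cB] at hbad
  rw [cT] at hacc
  -- the family of possible accessible parts
  set F : Finset (Finset V) := univ.filter (fun S => r ∈ S ∧ S.card = n) with hF
  set H : ℕ := ∑ S ∈ F, Fintype.card ({a : V × A // a.1 ∉ S} → V) with hH
  have hequiv : ∀ S ∈ F, ∃ e : Fin n ≃ {x // x ∈ S}, (e z : V) = r := by
    intro S hS
    rw [hF, Finset.mem_filter] at hS
    obtain ⟨_, hrS, hcard⟩ := hS
    have e0 : Fin n ≃ {x // x ∈ S} :=
      Fintype.equivOfCardEq (by rw [Fintype.card_fin, Fintype.card_coe, hcard])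
    refine ⟨e0.trans (Equiv.swap (e0 z) ⟨r, hrS⟩), ?_⟩
    simp
  have hb1 : B'.card * H ≤ B.card := by
    rw [hH, Finset.mul_sum]
    have h1 : ∀ S ∈ F, B'.card * Fintype.card ({a : V × A // a.1 ∉ S} → V) ≤
        (B.filter (fun x => acc x.1 r = S)).card := by
      intro S hS
      obtain ⟨e, he⟩ := hequiv S hS
      refine bad_card_le r z S e he B' ?_ B ?_
      · intro x hx
        exact (Finset.mem_filter.1 hx).2
      · intro x _ hx
        rw [hB, Finset.mem_filter]
        exact ⟨Finset.mem_univ _, hx⟩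
    refine (Finset.sum_le_sum h1).trans ?_
    rw [← Finset.card_biUnion]
    · apply Finset.card_le_card
      intro x hx
      rw [Finset.mem_biUnion] at hx
      obtain ⟨S, _, hx⟩ := hx
      exact (Finset.mem_filter.1 hx).1
    · intro S _ S' _ hne
      rw [Function.onFun, Finset.disjoint_left]
      intro x hx hx'
      exact hne ((Finset.mem_filter.1 hx).2.symm.trans (Finset.mem_filter.1 hx').2)
  have hb2 : T.card ≤ T'.card * H := by
    rw [hH, Finset.mul_sum]
    have h1 : T.card = ∑ S ∈ F, (T.filter (fun δ => acc δ r = S)).card := by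
      refine Finset.card_eq_sum_card_fiberwise (f := fun δ => acc δ r) fun δ hδ => ?_
      have hδ' := Finset.mem_coe.1 hδ
      rw [hT, Finset.mem_filter] at hδ'
      apply Finset.mem_coe.2
      rw [hF, Finset.mem_filter]
      exact ⟨Finset.mem_univ _, mem_acc.2 ⟨[], rfl⟩, hδ'.2⟩
    rw [h1]
    refine Finset.sum_le_sum fun S hS => ?_
    obtain ⟨e, he⟩ := hequiv S hS
    refine acc_card_le r z S e he _ ?_ T' ?_
    · intro δ hδ
      exact (Finset.mem_filter.1 hδ).2
    · intro δ' h2
      rw [hT', Finset.mem_filter]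
      exact ⟨Finset.mem_univ _, h2⟩
  have hb1' : (B'.card : ℝ) * H ≤ B.card := by exact_mod_cast hb1
  have hb2' : (T.card : ℝ) ≤ T'.card * H := by exact_mod_cast hb2
  have hHpos : 0 < (H : ℝ) := by
    by_contra hcon
    push Not at hcon
    have h0 : (H : ℝ) = 0 := le_antisymm hcon (Nat.cast_nonneg _)
    rw [h0, mul_zero] at hb2'
    have : 0 < X * W := by positivity
    linarith
  have hY0 : 0 ≤ Y := by
    by_contra hcon
    push Not at hcon
    have h1 : Y * W < 0 := mul_neg_of_neg_of_pos hcon hWpos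
    have h2 : (0 : ℝ) ≤ B.card := Nat.cast_nonneg _
    linarith
  have h1 : (X * B'.card) * H ≤ (Y * T'.card) * H := by
    calc (X * B'.card) * H = X * (B'.card * H) := by ring
      _ ≤ X * (Y * W) := by
          apply mul_le_mul_of_nonneg_left _ hX.le
          exact hb1'.trans hbad
      _ = Y * (X * W) := by ring
      _ ≤ Y * (T'.card * H) := mul_le_mul_of_nonneg_left (hacc.trans hb2') hY0
      _ = _ := by ring
  exact le_of_mul_le_mul_right h1 hHpos

end Pool.Agent.Helper98.Aut
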