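import Pool.Agent.Helper98.CovRes

/-! # Real estimates: the cover cost bounds every hitting time; almost collinear resistances -/

namespace Pool.Agent.Helper98.Cov

open Finset

variable {V : Type} [Fintype V] [DecidableEq V] {G : SimpleGraph V} [DecidableRel G.Adj]

omit [Fintype V] [DecidableEq V] [DecidableRel G.Adj] in
theorem exists_cross (hG : G.Connected) (P : V → Prop) {x y : V} (hx : P x) (hy : ¬ P y) :
    ∃ a b, G.Adj a b ∧ P a ∧ ¬ P b := by
  by_contra hcon
  push Not at hcon
  have hwalk : ∀ (x y : V) (p : G.Walk x y), P x → P y := by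
    intro x y p
    induction p with
    | nil => exact id
    | cons hadj p ih => exact fun hx => ih (hcon _ _ hadj hx)
  obtain ⟨p⟩ := hG.preconnected x y
  exact hy (hwalk x y p hx)

omit [Fintype V] [DecidableEq V] [DecidableRel G.Adj] in
theorem exists_level (hG : G.Connected) (u : V → ℝ) (hlip : ∀ a b, G.Adj a b → u b ≤ u a + 1)
    {x y : V} {t : ℝ} (hx : u x ≤ t) (hy : t < u y) : ∃ z, t - 1 < u z ∧ u z ≤ t := by
  obtain ⟨a, b, hab, ha, hb⟩ := exists_cross hG (fun z => u z ≤ t) hx (not_le.2 hy)
  refine ⟨a, ?_, ha⟩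
  have := hlip a b hab
  have hb' : t < u b := not_le.1 hb
  linarith

omit [Fintype V] [DecidableEq V] [DecidableRel G.Adj] in
theorem exists_level' (hG : G.Connected) (u : V → ℝ) (hlip : ∀ a b, G.Adj a b → u b ≤ u a + 1)
    {x y : V} {t : ℝ} (hx : u x < t) (hy : t ≤ u y) : ∃ z, t ≤ u z ∧ u z < t + 1 := by
  obtain ⟨a, b, hab, ha, hb⟩ := exists_cross hG (fun z => u z < t) hx (not_lt.2 hy)
  refine ⟨b, not_lt.1 hb, ?_⟩
  have := hlip a b hab
  have ha' : u a < t := ha
  linarith

theorem hit_eq_sum_pot (hG : G.Connected) (x r : V) :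
    hit G x r = ∑ z, (G.degree z : ℝ) * pot G x r z := by
  unfold hit
  refine Finset.sum_congr rfl fun z _ => ?_
  rw [pot_symm hG]

theorem pot_sub_le (hG : G.Connected) (x y r z : V) :
    pot G x r z - pot G x r y ≤ pot G y r z := by
  have h := pot_nonneg hG y x z
  rw [pot_eq hG] at h
  rw [pot_eq hG, pot_eq hG, pot_eq hG]
  have h1 := gam_symm hG x y
  have h2 := gam_symm hG r y
  linarith

theorem pot_lip (hG : G.Connected) (x r a b : V) (h : G.Adj a b) :
    pot G x r b ≤ pot G x r a + 1 := by
  have h1 := pot_sub_le hG x a r b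
  have h2 := pot_le' hG a r b
  have h3 := Res_adj hG h.symm
  linarith

omit [DecidableEq V] in
theorem vol_pos (hG : G.Connected) (hN : 1 < Fintype.card V) : 0 < vol G := by
  have : Nontrivial V := Fintype.one_lt_card_iff_nontrivial.1 hN
  unfold vol
  have hne : (Finset.univ : Finset V).Nonempty := by
    obtain ⟨v⟩ := hG.nonempty
    exact ⟨v, Finset.mem_univ _⟩
  refine Finset.sum_pos (fun z _ => ?_) hne
  exact_mod_cast hG.preconnected.degree_pos_of_nontrivial z

omit [DecidableEq V] in
theorem vol_le (hN : 1 < Fintype.card V) :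
    vol G ≤ 2 * ((Fintype.card V : ℝ) - 1) ^ 2 := by
  unfold vol
  have h1 : ∀ z ∈ (Finset.univ : Finset V), (G.degree z : ℝ) ≤ (Fintype.card V : ℝ) - 1 := by
    intro z _
    have h := G.degree_lt_card_verts z
    have : G.degree z + 1 ≤ Fintype.card V := h
    have h3 : (G.degree z : ℝ) + 1 ≤ (Fintype.card V : ℝ) := by exact_mod_cast this
    linarith
  have h2 := Finset.sum_le_card_nsmul _ _ _ h1
  rw [nsmul_eq_mul, Finset.card_univ] at h2
  have h4 : (2 : ℝ) ≤ (Fintype.card V : ℝ) := by exact_mod_cast hN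
  nlinarith

/-- the number of vertices at which the unit potential is at most half of its mean -/
theorem card_low (hG : G.Connected) (x r : V) (s : ℝ) (hs : 0 ≤ s) (hy : ∃ y, s < pot G x r y) :
    s ≤ ((Finset.univ.filter (fun y => pot G x r y ≤ s)).card : ℝ) := by
  have hlev : ∀ j : ℕ, (j : ℝ) ≤ s → ∃ z, (j : ℝ) - 1 < pot G x r z ∧ pot G x r z ≤ (j : ℝ) := by
    intro j hj
    obtain ⟨y, hy⟩ := hy
    refine exists_level hG (pot G x r) (fun a b hab => pot_lip hG x r a b hab) (x := x) (y := y) ?_ ?_
    · rw [pot_ground]; exact Nat.cast_nonneg _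
    · linarith
  have hfl : ∀ j ∈ Finset.range (⌊s⌋₊ + 1), (j : ℝ) ≤ s := by
    intro j hj
    have h1 : j ≤ ⌊s⌋₊ := Nat.lt_succ_iff.1 (Finset.mem_range.1 hj)
    exact (Nat.cast_le.2 h1).trans (Nat.floor_le hs)
  have : Nonempty V := ⟨x⟩
  choose! f hf using hlev
  have hcard : (Finset.range (⌊s⌋₊ + 1)).card ≤
      (Finset.univ.filter (fun y => pot G x r y ≤ s)).card := by
    refine Finset.card_le_card_of_injOn f ?_ ?_
    · intro j hj
      have hj' := hfl j hj
      simp only [Finset.coe_filter, Finset.mem_univ, true_and, Set.mem_ofPred_eq]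
      exact (hf j hj').2.trans hj'
    · intro i hi j hj hij
      have hi' := hf i (hfl i hi)
      have hj' := hf j (hfl j hj)
      rw [hij] at hi'
      have h1 : (i : ℝ) < j + 1 := by linarith [hi'.1, hj'.2]
      have h2 : (j : ℝ) < i + 1 := by linarith [hj'.1, hi'.2]
      have h1' : i < j + 1 := by exact_mod_cast h1
      have h2' : j < i + 1 := by exact_mod_cast h2
      omega
  rw [Finset.card_range] at hcard
  have h1 : (⌊s⌋₊ : ℝ) + 1 ≤ ((Finset.univ.filter (fun y => pot G x r y ≤ s)).card : ℝ) := by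
    exact_mod_cast hcard
  have h2 := (Nat.lt_floor_add_one s).le
  linarith

/-- the sum of all hitting times from `r` dominates the square of each of them -/
theorem hit_sq_le (hG : G.Connected) (hN : 1 < Fintype.card V) (x r : V) :
    (hit G x r) ^ 2 ≤ 4 * vol G * ∑ y, hit G y r := by
  have hv := vol_pos hG hN
  have hH := hit_nonneg hG x r
  have hsum : 0 ≤ ∑ y, hit G y r := Finset.sum_nonneg fun y _ => hit_nonneg hG y r
  rcases hH.eq_or_lt with h0 | h0
  · rw [← h0]
    have : 0 ≤ 4 * vol G * ∑ y, hit G y r := mul_nonneg (by linarith) hsum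
    simpa using this
  obtain ⟨s, hs⟩ : ∃ s : ℝ, s = hit G x r / (2 * vol G) := ⟨_, rfl⟩
  have hs0 : 0 < s := by rw [hs]; exact div_pos h0 (by linarith)
  have hHs : hit G x r = 2 * s * vol G := by rw [hs]; field_simp
  have hex : ∃ y, s < pot G x r y := by
    by_contra hcon
    push Not at hcon
    have h1 : hit G x r ≤ s * vol G := by
      rw [hit_eq_sum_pot hG]
      unfold vol
      rw [Finset.mul_sum]
      refine Finset.sum_le_sum fun z _ => ?_
      have := hcon z
      nlinarith [Nat.cast_nonneg (α := ℝ) (G.degree z)]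
    nlinarith
  have hcard := card_low hG x r s hs0.le hex
  obtain ⟨T, hT⟩ : ∃ T, T = Finset.univ.filter (fun y => pot G x r y ≤ s) := ⟨_, rfl⟩
  rw [← hT] at hcard
  have h2 : ∀ y ∈ T, hit G x r / 2 ≤ hit G y r := by
    intro y hy
    rw [hT] at hy
    have hy' : pot G x r y ≤ s := (Finset.mem_filter.1 hy).2
    have h3 : ∑ z, (G.degree z : ℝ) * (pot G x r z - s) ≤ hit G y r := by
      rw [hit_eq_sum_pot hG y r]
      refine Finset.sum_le_sum fun z _ => ?_
      refine mul_le_mul_of_nonneg_left ?_ (Nat.cast_nonneg _)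
      have := pot_sub_le hG x y r z
      linarith
    have h4 : ∑ z, (G.degree z : ℝ) * (pot G x r z - s) = hit G x r - s * vol G := by
      rw [hit_eq_sum_pot hG x r]
      unfold vol
      rw [Finset.mul_sum, ← Finset.sum_sub_distrib]
      refine Finset.sum_congr rfl fun z _ => ?_
      ring
    rw [h4] at h3
    nlinarith
  have h5 : (T.card : ℝ) * (hit G x r / 2) ≤ ∑ y, hit G y r := by
    have h6 := Finset.card_nsmul_le_sum T (fun y => hit G y r) _ h2
    rw [nsmul_eq_mul] at h6
    refine h6.trans ?_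
    exact Finset.sum_le_sum_of_subset_of_nonneg (Finset.subset_univ _)
      (fun y _ _ => hit_nonneg hG y r)
  have h7 : s * (hit G x r / 2) ≤ ∑ y, hit G y r := by
    refine le_trans ?_ h5
    exact mul_le_mul_of_nonneg_right hcard (by positivity)
  have h8 : (hit G x r) ^ 2 = 4 * vol G * (s * (hit G x r / 2)) := by
    rw [hs]; field_simp; ring
  rw [h8]
  exact mul_le_mul_of_nonneg_left h7 (by positivity)

/-- if `o` minimises `dsum`, the hitting time of `x` from `r` dominates the defect of the triangle
inequality at `o` -/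
theorem vol_pot_le_hit (hG : G.Connected) {o : V} (ho : ∀ x, dsum G o ≤ dsum G x) (x r : V) :
    vol G / 2 * pot G x o r ≤ hit G x r := by
  by_cases hxo : x = o
  · subst hxo
    have : pot G x x r = 0 := by unfold pot; rw [Res_self]; ring
    rw [this, mul_zero]; exact hit_nonneg hG _ _
  have hR : 0 < Res G o x := Res_pos hG (fun h => hxo h.symm)
  have h1 : vol G / 2 * Res G o x ≤ hit G x o := by
    rw [hit_eq]
    have := ho x
    linarith
  have h2 : ∀ v, 0 ≤ Res G o x * hit G x v - hit G x o * pot G x o v := by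
    refine min_principle hG {o, x} ⟨o, by simp⟩ _ (fun v hv => ?_) 0 ?_
    · have hv' : v ≠ o ∧ v ≠ x := by
        constructor
        · rintro rfl; exact hv (by simp)
        · rintro rfl; exact hv (by simp)
      rw [lap_sub, lap_mul, lap_mul, lap_hit hG, lap_pot hG, if_neg hv'.2, if_neg hv'.1,
        if_neg hv'.2]
      have : (0 : ℝ) ≤ (G.degree v : ℝ) := Nat.cast_nonneg _
      nlinarith
    · intro z hz
      rcases hz with rfl | hz
      · rw [pot_source hG]; nlinarith
      · have hz' : z = x := hz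
        subst hz'
        rw [hit_self, pot_ground]; simp
  have h3 := h2 r
  have h4 : vol G / 2 * Res G o x * pot G x o r ≤ hit G x o * pot G x o r :=
    mul_le_mul_of_nonneg_right h1 (pot_nonneg hG _ _ _)
  have h5 : Res G o x * (vol G / 2 * pot G x o r) ≤ Res G o x * hit G x r := by nlinarith
  exact le_of_mul_le_mul_left h5 hR

/-- almost collinear resistances -/
theorem Res_le_line (hG : G.Connected) {o r x y : V} {η ϑ n : ℝ} (hϑ : 0 < ϑ) (hη : 0 ≤ η)
    (hηϑ : η < ϑ) (hn : ∀ a b, Res G a b ≤ n)
    (hx : ϑ ≤ Res G o x) (hy : ϑ ≤ Res G o y) (hxr : pot G x o r ≤ η) (hyr : pot G y o r ≤ η) :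
    Res G x y ≤ |Res G o x - Res G o y| + 4 * η * n / ϑ := by
  have hRx : 0 < Res G o x := lt_of_lt_of_le hϑ hx
  have hRy : 0 < Res G o y := lt_of_lt_of_le hϑ hy
  have hn0 : 0 ≤ n := (Res_nonneg hG o o).trans (hn o o)
  have hxo : x ≠ o := by rintro rfl; rw [Res_self] at hRx; exact lt_irrefl _ hRx
  have hyo : y ≠ o := by rintro rfl; rw [Res_self] at hRy; exact lt_irrefl _ hRy
  -- either `pot y o x` or `pot x o y` is small
  have key : pot G y o x / Res G o y ≤ 2 * η / ϑ ∨ pot G x o y / Res G o x ≤ 2 * η / ϑ := by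
    by_contra hcon
    push Not at hcon
    obtain ⟨h1, h2⟩ := hcon
    set c := min (min (pot G y o x / Res G o y) (pot G x o y / Res G o x)) 2 with hc
    have hlt : 2 * η / ϑ < c := by
      rw [hc]
      refine lt_min (lt_min h1 h2) ?_
      rw [div_lt_iff₀ hϑ]
      linarith
    have h3 : c ≤ (1 / Res G o x) * pot G x o r + (1 / Res G o y) * pot G y o r := by
      refine min_principle hG {o, x, y} ⟨o, by simp⟩
        (fun v => (1 / Res G o x) * pot G x o v + (1 / Res G o y) * pot G y o v)
        (fun v hv => ?_) c ?_ r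
      · have hv1 : v ≠ o := by rintro rfl; exact hv (by simp)
        have hv2 : v ≠ x := by rintro rfl; exact hv (by simp)
        have hv3 : v ≠ y := by rintro rfl; exact hv (by simp)
        rw [lap_add, lap_mul, lap_mul, lap_pot hG, lap_pot hG, if_neg hv1, if_neg hv2, if_neg hv3]
        simp
      · intro z hz
        have hp1 := pot_nonneg hG x o z
        have hp2 := pot_nonneg hG y o z
        rcases hz with rfl | hz | hz
        · rw [pot_source hG, pot_source hG]
          have e1 : 1 / Res G z x * Res G z x = 1 := by field_simp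
          have e2 : 1 / Res G z y * Res G z y = 1 := by field_simp
          rw [e1, e2]
          refine (min_le_right _ _).trans ?_
          norm_num
        · have hz' : z = x := hz
          subst hz'
          rw [pot_ground, mul_zero, zero_add]
          refine (min_le_left _ _).trans ((min_le_left _ _).trans ?_)
          rw [div_eq_inv_mul, one_div]
        · have hz' : z = y := hz
          subst hz'
          rw [pot_ground, mul_zero, add_zero]
          refine (min_le_left _ _).trans ((min_le_right _ _).trans ?_)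
          rw [div_eq_inv_mul, one_div]
    have h4 : (1 / Res G o x) * pot G x o r ≤ η / ϑ := by
      have h5 : 1 / Res G o x ≤ 1 / ϑ := one_div_le_one_div_of_le hϑ hx
      have := mul_le_mul h5 hxr (pot_nonneg hG _ _ _) (by positivity)
      calc _ ≤ 1 / ϑ * η := this
        _ = η / ϑ := by ring
    have h5 : (1 / Res G o y) * pot G y o r ≤ η / ϑ := by
      have h5 : 1 / Res G o y ≤ 1 / ϑ := one_div_le_one_div_of_le hϑ hy
      have := mul_le_mul h5 hyr (pot_nonneg hG _ _ _) (by positivity)
      calc _ ≤ 1 / ϑ * η := this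
        _ = η / ϑ := by ring
    have h6 : c ≤ 2 * η / ϑ := by
      have : 2 * η / ϑ = η / ϑ + η / ϑ := by ring
      linarith
    linarith
  have hsymm := Res_symm hG x y
  have hxo' := Res_symm hG x o
  have hyo' := Res_symm hG y o
  rcases key with h | h
  · rw [div_le_iff₀ hRy] at h
    have h1 : 2 * η / ϑ * Res G o y ≤ 2 * η / ϑ * n :=
      mul_le_mul_of_nonneg_left (hn _ _) (by positivity)
    have h2 : pot G y o x = (Res G x y + Res G y o - Res G x o) / 2 := pot_def _ _ _
    have h3 : 4 * η * n / ϑ = 2 * (2 * η / ϑ * n) := by ring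
    have h4 := le_abs_self (Res G o x - Res G o y)
    rw [h3]
    linarith
  · rw [div_le_iff₀ hRx] at h
    have h1 : 2 * η / ϑ * Res G o x ≤ 2 * η / ϑ * n :=
      mul_le_mul_of_nonneg_left (hn _ _) (by positivity)
    have h2 : pot G x o y = (Res G y x + Res G x o - Res G y o) / 2 := pot_def _ _ _
    have h3 : 4 * η * n / ϑ = 2 * (2 * η / ϑ * n) := by ring
    have h4 := neg_abs_le (Res G o x - Res G o y)
    rw [h3]
    linarith

end Pool.Agent.Helper98.Cov
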