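import Pool.Agent.Helper98.CovTour

/-! # Matthews bound for covering a family of pieces from a region -/

namespace Pool.Agent.Helper98.Cov

open scoped ENNReal
open Finset

variable {V : Type} [Fintype V] [DecidableEq V] {G : SimpleGraph V} [DecidableRel G.Adj]

theorem Mv_mono {X X' S : Finset V} (v : V) (h : X ⊆ X' ∪ S) : Mv G X S v ≤ Mv G X' S v := by
  refine val_le (G := G) (B := fun S _ => X ⊆ S) (s := fun _ _ => 1) (g := fun _ _ => 0)
    (fun S _ => X ⊆ X' ∪ S) (Mv G X') (fun _ _ _ _ => zero_le) ?_ ?_ S v h
  · intro S v hS hb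
    have : ¬ X' ⊆ S := fun h' => hb (fun x hx => by
      have := hS hx
      rw [Finset.mem_union] at this
      rcases this with h | h
      · exact h' h
      · exact h)
    exact (Mv_of_not_subset v this).ge
  · intro S v hS _ w _
    exact hS.trans (Finset.union_subset_union_right (Finset.subset_insert _ _))

/-- harmonic number -/
noncomputable def harm (k : ℕ) : ℝ≥0∞ := ∑ j ∈ Finset.range k, ((j + 1 : ℕ) : ℝ≥0∞)⁻¹

theorem matthews (seg : ℕ → Finset V) (Nr : V → Prop) (T : ℝ≥0∞) (k : ℕ) :
    ∀ I : Finset ℕ, I.card = k → (∀ i ∈ I, ∀ w ∈ seg i, Nr w) →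
    (∀ i ∈ I, ∀ S v, v ∈ S → Nr v → Mv G (seg i) S v ≤ T) →
    ∀ S v, v ∈ S → Nr v → Mv G (I.biUnion seg) S v ≤ T * harm k := by
  induction k with
  | zero =>
    intro I hI _ _ S v _ _
    rw [Finset.card_eq_zero.1 hI, Finset.biUnion_empty, Mv_of_subset v (Finset.empty_subset _)]
    exact zero_le
  | succ k ih =>
    intro I hI hN hT S₀ v₀ hv₀ hNr₀
    have hc0 : ((k + 1 : ℕ) : ℝ≥0∞) ≠ 0 := by exact_mod_cast Nat.succ_ne_zero k
    have hct : ((k + 1 : ℕ) : ℝ≥0∞) ≠ ⊤ := ENNReal.natCast_ne_top _
    have hcc : ((k + 1 : ℕ) : ℝ≥0∞)⁻¹ * ((k + 1 : ℕ) : ℝ≥0∞) = 1 := ENNReal.inv_mul_cancel hc0 hct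
    obtain ⟨c, hc⟩ : ∃ c : ℝ≥0∞, c = ((k + 1 : ℕ) : ℝ≥0∞)⁻¹ := ⟨_, rfl⟩
    rw [← hc] at hcc
    have main : Mv G (I.biUnion seg) S₀ v₀ ≤
        c * (∑ i ∈ I, Mv G ((I.erase i).biUnion seg) S₀ v₀ + T) := by
      refine val_le_stop (G := G) (B := fun S _ => I.biUnion seg ⊆ S) (s := fun _ _ => 1)
        (g := fun _ _ => 0)
        (fun S v => v ∈ S ∧ (Nr v ∨ 2 ≤ (I.filter (fun i => ¬ seg i ⊆ S)).card))
        (fun S v => c * (∑ i ∈ I, Mv G ((I.erase i).biUnion seg) S v + T)) ?_ S₀ v₀
        ⟨hv₀, Or.inl hNr₀⟩
      rintro S v ⟨hvS, hP⟩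
      by_cases h2 : 2 ≤ (I.filter (fun i => ¬ seg i ⊆ S)).card
      · right
        refine ⟨fun _ => zero_le, fun hb => ⟨?_, ?_⟩⟩
        · have h3 : ∀ i ∈ I, Mv G ((I.erase i).biUnion seg) S v
              = 1 + step G (Mv G ((I.erase i).biUnion seg)) S v := by
            intro i hi
            refine Mv_of_not_subset v ?_
            intro hsub
            have h4 : I.filter (fun i => ¬ seg i ⊆ S) ⊆ {i} := by
              intro j hj
              rw [Finset.mem_filter] at hj
              by_contra hji
              rw [Finset.mem_singleton] at hji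
              apply hj.2
              intro x hx
              exact hsub (Finset.mem_biUnion.2 ⟨j, Finset.mem_erase.2 ⟨hji, hj.1⟩, hx⟩)
            have := Finset.card_le_card h4
            rw [Finset.card_singleton] at this
            omega
          have h5 : ∑ i ∈ I, Mv G ((I.erase i).biUnion seg) S v
              = ((k + 1 : ℕ) : ℝ≥0∞) + step G (fun S v => ∑ i ∈ I,
                Mv G ((I.erase i).biUnion seg) S v) S v := by
            rw [Finset.sum_congr rfl h3, Finset.sum_add_distrib, Finset.sum_const, hI, step_sum,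
              nsmul_eq_mul, mul_one]
          rw [step_mul, h5, add_assoc, mul_add, hcc]
          gcongr
          rw [step_add]
          gcongr
          exact step_const_le _ _ _
        · intro w _
          refine ⟨Finset.mem_insert_self _ _, ?_⟩
          by_cases hw : ∃ i ∈ I, w ∈ seg i
          · obtain ⟨i, hi, hwi⟩ := hw
            exact Or.inl (hN i hi w hwi)
          · right
            push Not at hw
            have : I.filter (fun i => ¬ seg i ⊆ insert w S) = I.filter (fun i => ¬ seg i ⊆ S) := by
              refine Finset.filter_congr fun i hi => not_congr ⟨fun h x hx => ?_, fun h =>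
                h.trans (Finset.subset_insert _ _)⟩
              have := h hx
              rw [Finset.mem_insert] at this
              rcases this with h' | h'
              · subst h'; exact absurd hx (hw i hi)
              · exact h'
            rw [this]; exact h2
      · left
        have hNr : Nr v := by
          rcases hP with h | h
          · exact h
          · exact absurd h h2
        by_cases hb : I.biUnion seg ⊆ S
        · exact (Mv_of_subset v hb).le.trans zero_le
        · have hex : ∃ i ∈ I, ¬ seg i ⊆ S := by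
            by_contra hcon
            push Not at hcon
            exact hb (Finset.biUnion_subset.2 hcon)
          obtain ⟨i₀, hi₀, hsi₀⟩ := hex
          have honly : ∀ j ∈ I, j ≠ i₀ → seg j ⊆ S := by
            intro j hj hji
            by_contra hcon
            apply h2
            have h4 : {j, i₀} ⊆ I.filter (fun i => ¬ seg i ⊆ S) := by
              intro x hx
              rw [Finset.mem_insert, Finset.mem_singleton] at hx
              rcases hx with rfl | rfl
              · exact Finset.mem_filter.2 ⟨hj, hcon⟩
              · exact Finset.mem_filter.2 ⟨hi₀, hsi₀⟩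
            have := Finset.card_le_card h4
            rwa [Finset.card_pair hji] at this
          obtain ⟨m, hm⟩ : ∃ m, m = Mv G (I.biUnion seg) S v := ⟨_, rfl⟩
          have h5 : m ≤ T := by
            rw [hm]
            refine le_trans (Mv_mono v ?_) (hT i₀ hi₀ S v hvS hNr)
            intro x hx
            rw [Finset.mem_biUnion] at hx
            obtain ⟨j, hj, hxj⟩ := hx
            by_cases hji : j = i₀
            · subst hji; exact Finset.mem_union_left _ hxj
            · exact Finset.mem_union_right _ (honly j hj hji hxj)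
          have h6 : ∀ i ∈ I.erase i₀, m ≤ Mv G ((I.erase i).biUnion seg) S v := by
            intro i hi
            rw [Finset.mem_erase] at hi
            rw [hm]
            refine Mv_mono v ?_
            intro x hx
            rw [Finset.mem_biUnion] at hx
            obtain ⟨j, hj, hxj⟩ := hx
            by_cases hji : j = i
            · subst hji; exact Finset.mem_union_right _ (honly j hj hi.1 hxj)
            · exact Finset.mem_union_left _ (Finset.mem_biUnion.2 ⟨j, Finset.mem_erase.2 ⟨hji, hj⟩,
                hxj⟩)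
          have h7 : (k : ℝ≥0∞) * m ≤ ∑ i ∈ I, Mv G ((I.erase i).biUnion seg) S v := by
            have h8 := Finset.card_nsmul_le_sum (I.erase i₀)
              (fun i => Mv G ((I.erase i).biUnion seg) S v) m h6
            rw [Finset.card_erase_of_mem hi₀, hI, Nat.add_sub_cancel, nsmul_eq_mul] at h8
            exact h8.trans (Finset.sum_le_sum_of_subset (Finset.erase_subset _ _))
          change Mv G (I.biUnion seg) S v ≤ _
          rw [← hm]
          calc m = c * (((k + 1 : ℕ) : ℝ≥0∞) * m) := by rw [← mul_assoc, hcc, one_mul]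
            _ = c * ((k : ℝ≥0∞) * m + m) := by push_cast; ring
            _ ≤ _ := by gcongr
    refine main.trans ?_
    have h9 : ∑ i ∈ I, Mv G ((I.erase i).biUnion seg) S₀ v₀ ≤ ((k + 1 : ℕ) : ℝ≥0∞) * (T * harm k) := by
      have h10 : ∀ i ∈ I, Mv G ((I.erase i).biUnion seg) S₀ v₀ ≤ T * harm k := by
        intro i hi
        refine ih (I.erase i) ?_ (fun j hj => hN j (Finset.mem_of_mem_erase hj))
          (fun j hj => hT j (Finset.mem_of_mem_erase hj)) S₀ v₀ hv₀ hNr₀
        rw [Finset.card_erase_of_mem hi, hI, Nat.add_sub_cancel]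
      have := Finset.sum_le_card_nsmul I _ _ h10
      rwa [hI, nsmul_eq_mul] at this
    calc c * (∑ i ∈ I, Mv G ((I.erase i).biUnion seg) S₀ v₀ + T)
        ≤ c * (((k + 1 : ℕ) : ℝ≥0∞) * (T * harm k) + T) := by gcongr
      _ = (c * ((k + 1 : ℕ) : ℝ≥0∞)) * (T * harm k) + c * T := by ring
      _ = T * harm k + c * T := by rw [hcc, one_mul]
      _ = T * harm (k + 1) := by
          unfold harm
          rw [Finset.sum_range_succ, mul_add, hc]
          ring

end Pool.Agent.Helper98.Cov
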