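import Pool.Agent.Helper98.CovSeg
import Pool.Agent.Helper98.CovMatthews

/-! # Cutting the tour into pieces; the near part; decomposition of the cover time -/

namespace Pool.Agent.Helper98.Cov

open scoped ENNReal
open Finset

variable {V : Type} [Fintype V] [DecidableEq V] {G : SimpleGraph V} [DecidableRel G.Adj]

/-- the `j`-th piece of length `b` of a list -/
def chunk (W : List V) (b j : ℕ) : List V := (W.drop (j * b)).take b

omit [Fintype V] [DecidableEq V] [DecidableRel G.Adj] in
theorem chunk_chain {W : List V} (h : List.IsChain G.Adj W) (b j : ℕ) :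
    List.IsChain G.Adj (chunk W b j) := (h.drop _).take _

omit [Fintype V] [DecidableEq V] in
theorem chunk_length (W : List V) (b j : ℕ) : (chunk W b j).length ≤ b := by
  unfold chunk; rw [List.length_take]; exact min_le_left _ _

omit [Fintype V] [DecidableEq V] in
theorem exists_chunk {W : List V} {b : ℕ} (hb : 0 < b) {v : V} (hv : v ∈ W) :
    ∃ j, j ∈ Finset.range (W.length / b + 1) ∧ v ∈ chunk W b j := by
  obtain ⟨n, hn, rfl⟩ := List.mem_iff_getElem.1 hv
  refine ⟨n / b, ?_, ?_⟩
  · rw [Finset.mem_range, Nat.lt_succ_iff]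
    exact Nat.div_le_div_right hn.le
  · unfold chunk
    rw [List.mem_iff_getElem]
    have h1 : n / b * b + n % b = n := by rw [mul_comm]; exact Nat.div_add_mod n b
    have h2 : n % b < b := Nat.mod_lt _ hb
    refine ⟨n % b, ?_, ?_⟩
    · rw [List.length_take, List.length_drop]
      refine lt_min h2 ?_
      omega
    · rw [List.getElem_take, List.getElem_drop]
      congr 1

omit [Fintype V] [DecidableEq V] in
theorem chunk_cons {W : List V} {b j : ℕ} {v : V} (hv : v ∈ chunk W b j) :
    ∃ u l, chunk W b j = u :: l ∧ l.length + 1 ≤ b := by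
  cases h : chunk W b j with
  | nil => rw [h] at hv; simp at hv
  | cons u l =>
    refine ⟨u, l, rfl, ?_⟩
    have := chunk_length W b j
    rw [h, List.length_cons] at this
    exact this

/-- decomposition of the cover time at the hitting of `o` -/
theorem cover_decomp (hG : G.Connected) (hN : 1 < Fintype.card V) (o r : V) (Fs : Finset V)
    (Tn Cm : ℝ≥0∞) (h1 : ∀ S, o ∈ S → Fs ⊆ S → Mv G Finset.univ S o ≤ Tn)
    (h2 : ∀ S, o ∈ S → Mv G Finset.univ S o ≤ Cm) :
    Mv G Finset.univ {r} r ≤ ENNReal.ofReal (hit G o r) + Tn + Cm * ff G o Fs {r} r := by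
  refine val_le_stop (G := G) (B := fun S _ => Finset.univ ⊆ S) (s := fun _ _ => 1)
    (g := fun _ _ => 0) (fun S v => v ∈ S)
    (fun S v => ENNReal.ofReal (hit G o v) + Tn + Cm * ff G o Fs S v) ?_ {r} r
    (Finset.mem_singleton_self r)
  intro S v hv
  by_cases hvo : v = o
  · left
    subst hvo
    have hff : ff G v Fs S v = unc Fs S v := exc_of_mem (Z := fun w => w = v) S rfl
    rw [hff]
    unfold unc
    by_cases hF : Fs ⊆ S
    · rw [if_pos hF, mul_zero, add_zero]
      exact (h1 S hv hF).trans (le_add_left le_rfl)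
    · rw [if_neg hF, mul_one]
      exact (h2 S hv).trans (le_add_left le_rfl)
  · right
    refine ⟨fun _ => zero_le, fun _ => ⟨?_, fun w _ => Finset.mem_insert_self _ _⟩⟩
    rw [step_add, step_add, step_mul, ← add_assoc, ← add_assoc,
      hit_step hG (degree_pos hG hN v) hvo S]
    have hff : ff G o Fs S v = step G (ff G o Fs) S v :=
      exc_of_not (Z := fun w => w = o) S hvo
    rw [← hff]
    gcongr
    exact step_const_le _ _ _

theorem cover_from (hG : G.Connected) (hN : 1 < Fintype.card V) (v : V) (S : Finset V)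
    (hv : v ∈ S) : Mv G Finset.univ S v ≤
      ENNReal.ofReal (2 * ((Fintype.card V : ℝ) - 1) * vol G) := by
  obtain ⟨l, h1, h2, h3⟩ := exists_tour hG v
  refine (Mv_le_legs hG hN Finset.univ l S v hv ?_).trans ((legs_hit_chain hG v l h1).trans ?_)
  · intro x _
    have := h2 x
    rw [List.mem_cons] at this
    rw [Finset.mem_union, List.mem_toFinset]
    rcases this with h | h
    · subst h; exact Or.inl hv
    · exact Or.inr h
  · refine ENNReal.ofReal_le_ofReal ?_
    exact mul_le_mul_of_nonneg_right h3 vol_nonneg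

theorem harm_le (k : ℕ) : harm k ≤ ENNReal.ofReal (2 * Real.sqrt k) := by
  induction k with
  | zero => simp [harm]
  | succ k ih =>
    have h1 : harm (k + 1) = harm k + ((k + 1 : ℕ) : ℝ≥0∞)⁻¹ := by
      unfold harm; rw [Finset.sum_range_succ]
    have hk : (0 : ℝ) < ((k + 1 : ℕ) : ℝ) := by positivity
    rw [h1, ← ENNReal.ofReal_natCast, ← ENNReal.ofReal_inv_of_pos hk]
    refine (add_le_add ih le_rfl).trans ?_
    rw [← ENNReal.ofReal_add (by positivity) (by positivity)]
    refine ENNReal.ofReal_le_ofReal ?_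
    have ha := Real.sqrt_nonneg (k : ℝ)
    have hb : 0 < Real.sqrt ((k + 1 : ℕ) : ℝ) := Real.sqrt_pos.2 hk
    have ha2 := Real.sq_sqrt (Nat.cast_nonneg (α := ℝ) k)
    have hb2 := Real.sq_sqrt hk.le
    obtain ⟨x, hx⟩ : ∃ x, x = Real.sqrt (k : ℝ) := ⟨_, rfl⟩
    obtain ⟨y, hy⟩ : ∃ y, y = Real.sqrt ((k + 1 : ℕ) : ℝ) := ⟨_, rfl⟩
    rw [← hx, ← hy]
    rw [← hx] at ha ha2
    rw [← hy] at hb hb2
    have hxy : y ^ 2 = x ^ 2 + 1 := by rw [ha2, hb2]; push_cast; ring
    rw [← hb2]
    have h3 : x ≤ y := by nlinarith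
    -- 2x + 1/y² ≤ 2y  since  y - x = 1/(x+y) ≥ 1/(2y) ≥ 1/(2 y²)
    have hy1 : 1 ≤ y := by nlinarith [sq_nonneg x]
    have h4 : (y - x) * (y + x) = 1 := by nlinarith
    have h5 : (y ^ 2)⁻¹ ≤ 2 * (y - x) := by
      rw [inv_eq_one_div, div_le_iff₀ (by positivity)]
      have h6 : 0 ≤ y - x := by linarith
      nlinarith [mul_nonneg h6 hb.le, mul_nonneg h6 (by linarith : (0 : ℝ) ≤ y - 1)]
    linarith

/-- covering the near part from `o` -/
theorem near_bound (hG : G.Connected) (hN : 1 < Fintype.card V) (o : V) (ϑ : ℝ) (hϑ : 0 < ϑ)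
    (S : Finset V) (ho : o ∈ S) (hF : ∀ x, 2 * ϑ ≤ Res G o x → x ∈ S) (k : ℝ)
    (hk : (2 * ((Fintype.card V : ℝ) - 1) + 1) / ϑ + 1 ≤ k) :
    Mv G Finset.univ S o ≤ ENNReal.ofReal (7 * ϑ * vol G) * ENNReal.ofReal (2 * Real.sqrt k) := by
  obtain ⟨l, h1, h2, h3⟩ := exists_tour hG o
  obtain ⟨b, hb⟩ : ∃ b, b = ⌈ϑ⌉₊ := ⟨_, rfl⟩
  have hb0 : 0 < b := by rw [hb]; exact Nat.ceil_pos.2 hϑ
  have hbϑ : (b : ℝ) ≤ ϑ + 1 := by rw [hb]; exact (Nat.ceil_lt_add_one hϑ.le).le
  have hϑb : ϑ ≤ b := by rw [hb]; exact Nat.le_ceil ϑ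
  obtain ⟨W, hW⟩ : ∃ W, W = o :: l := ⟨_, rfl⟩
  rw [← hW] at h1 h2
  classical
  obtain ⟨I, hI⟩ : ∃ I, I = (Finset.range (W.length / b + 1)).filter
      (fun j => ∃ x ∈ chunk W b j, Res G o x < 2 * ϑ) := ⟨_, rfl⟩
  have hclose : ∀ j ∈ I, ∀ w ∈ (chunk W b j).toFinset, Res G o w ≤ 3 * ϑ ∧
      ∃ u l', chunk W b j = u :: l' ∧ (l'.length : ℝ) ≤ ϑ ∧ Res G o u ≤ 3 * ϑ := by
    intro j hj w hw
    rw [hI, Finset.mem_filter] at hj
    obtain ⟨_, x, hx, hxϑ⟩ := hj
    obtain ⟨u, l', hul, hlen⟩ := chunk_cons hx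
    have hch := chunk_chain h1 b j
    rw [hul] at hch hx
    rw [hul, List.mem_toFinset] at hw
    have hlen' : (l'.length : ℝ) ≤ ϑ := by
      have : (l'.length : ℝ) + 1 ≤ b := by exact_mod_cast hlen
      linarith
    -- every vertex of the piece is within the length of the piece from x
    have hxw : ∀ w ∈ u :: l', Res G x w ≤ l'.length := by
      -- distance along the chain between two members
      have haux : ∀ (l' : List V) (u : V), List.IsChain G.Adj (u :: l') →
          ∀ x ∈ u :: l', ∀ w ∈ u :: l', Res G x w ≤ l'.length := by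
        intro l'
        induction l' with
        | nil =>
          intro u _ x hx w hw
          have e1 : x = u := by simpa using hx
          have e2 : w = u := by simpa using hw
          rw [e1, e2, Res_self]; simp
        | cons u' l' ih =>
          intro u hc x hx w hw
          have hc' := (List.isChain_cons_cons.1 hc).2
          have hd := chain_dist hG u (u' :: l') hc
          rw [List.mem_cons] at hx hw
          rcases hx with hx | hx
          · subst hx
            exact hd w (List.mem_cons.2 hw)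
          · rcases hw with hw | hw
            · subst hw
              rw [Res_symm hG]
              exact hd x (List.mem_cons.2 (Or.inr hx))
            · refine (ih u' hc' x hx w hw).trans ?_
              rw [List.length_cons]
              push_cast
              linarith
      exact fun w hw => haux l' u hch x hx w hw
    have hall : ∀ w ∈ u :: l', Res G o w ≤ 3 * ϑ := by
      intro w hw
      have := Res_tri hG o x w
      have := hxw w hw
      linarith
    exact ⟨hall w hw, u, l', hul, hlen', hall u (by simp)⟩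
  have hcov : (Finset.univ : Finset V) ⊆ I.biUnion (fun j => (chunk W b j).toFinset) ∪ S := by
    intro x _
    by_cases hx : 2 * ϑ ≤ Res G o x
    · exact Finset.mem_union_right _ (hF x hx)
    · obtain ⟨j, hj, hxj⟩ := exists_chunk hb0 (h2 x)
      refine Finset.mem_union_left _ (Finset.mem_biUnion.2 ⟨j, ?_, List.mem_toFinset.2 hxj⟩)
      rw [hI, Finset.mem_filter]
      exact ⟨hj, x, hxj, not_le.1 hx⟩
  refine (Mv_mono o hcov).trans ?_
  have hmat := matthews (G := G) (fun j => (chunk W b j).toFinset) (fun v => Res G o v ≤ 3 * ϑ)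
    (ENNReal.ofReal (7 * ϑ * vol G)) I.card I rfl (fun j hj w hw => (hclose j hj w hw).1) ?_ S o ho
    (by rw [Res_self]; linarith)
  · refine hmat.trans ?_
    gcongr
    refine (harm_le _).trans (ENNReal.ofReal_le_ofReal ?_)
    gcongr
    have h4 : I.card ≤ W.length / b + 1 := by
      rw [hI]
      exact (Finset.card_filter_le _ _).trans (by rw [Finset.card_range])
    have h5 : ((W.length / b : ℕ) : ℝ) ≤ (W.length : ℝ) / b := Nat.cast_div_le
    have h6 : (W.length : ℝ) ≤ 2 * ((Fintype.card V : ℝ) - 1) + 1 := by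
      rw [hW, List.length_cons]; push_cast; linarith
    have h7 : (W.length : ℝ) / b ≤ (2 * ((Fintype.card V : ℝ) - 1) + 1) / ϑ := by
      have h8 : (0 : ℝ) ≤ W.length := Nat.cast_nonneg _
      calc (W.length : ℝ) / b ≤ (W.length : ℝ) / ϑ := by gcongr
        _ ≤ _ := by gcongr
    have h8 : (I.card : ℝ) ≤ ((W.length / b : ℕ) : ℝ) + 1 := by exact_mod_cast h4
    linarith
  · intro j hj S' v hv hNr
    by_cases hne : ∃ w, w ∈ (chunk W b j).toFinset
    · obtain ⟨w, hw⟩ := hne
      obtain ⟨_, u, l', hul, hlen', hu⟩ := hclose j hj w hw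
      rw [hul]
      have hch := chunk_chain h1 b j
      rw [hul] at hch
      refine (Mv_le_legs hG hN _ (u :: l') S' v hv Finset.subset_union_right).trans ?_
      change ENNReal.ofReal (hit G u v) + legs (fun u v => ENNReal.ofReal (hit G u v)) u l' ≤ _
      have h4 := legs_hit_chain hG u l' hch
      refine (add_le_add le_rfl h4).trans ?_
      rw [← ENNReal.ofReal_add (hit_nonneg hG _ _) (mul_nonneg (Nat.cast_nonneg _) vol_nonneg)]
      refine ENNReal.ofReal_le_ofReal ?_
      have h5 := hit_le hG u v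
      have h6 := Res_tri hG v o u
      rw [Res_symm hG v o] at h6
      have h7 := vol_nonneg (G := G)
      have h8 : vol G * Res G v u ≤ vol G * (6 * ϑ) := mul_le_mul_of_nonneg_left (by linarith) h7
      have h9 : (l'.length : ℝ) * vol G ≤ ϑ * vol G := mul_le_mul_of_nonneg_right hlen' h7
      nlinarith
    · have : (chunk W b j).toFinset = ∅ := by
        rw [Finset.eq_empty_iff_forall_notMem]
        exact fun w hw => hne ⟨w, hw⟩
      rw [this, Mv_of_subset v (Finset.empty_subset _)]
      exact zero_le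

end Pool.Agent.Helper98.Cov
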