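import Pool.Agent.Helper98.CovChunk

/-! # The far part: the net -/

namespace Pool.Agent.Helper98.Cov

open scoped ENNReal
open Finset

variable {V : Type} [Fintype V] [DecidableEq V] {G : SimpleGraph V} [DecidableRel G.Adj]

open Classical in
/-- far vertices -/
noncomputable def farSet (G : SimpleGraph V) [DecidableRel G.Adj] (o : V) (ϑ : ℝ) : Finset V :=
  Finset.univ.filter (fun x => 2 * ϑ ≤ Res G o x)

theorem mem_farSet {o : V} {ϑ : ℝ} {x : V} : x ∈ farSet G o ϑ ↔ 2 * ϑ ≤ Res G o x := by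
  simp [farSet]

/-- numerical data of the net -/
structure NetNum (θ κ η n ρ a e : ℝ) (K k0 : ℕ) : Prop where
  a0 : 0 < a
  Ka : (K : ℝ) * a = ρ
  aϑ : θ * n / K ≤ a
  ea : e ≤ κ * a
  ηe : 4 * η ≤ e
  e1 : 1 ≤ e
  ke : 4 * η / θ ≤ e
  k01 : 1 ≤ k0
  k0K : k0 < K
  k0le : θ * n / a ≤ k0
  k0lt : (k0 : ℝ) < θ * n / a + 1
  θKa : θ * K ≤ θ * n / a
  e1000 : 1000 * e ≤ a
  η0 : 0 ≤ η

theorem exists_netNum {n θ κ η ρ : ℝ} {K : ℕ} (hn1 : 1 ≤ n) (hθ0 : 0 < θ) (hθ1 : θ ≤ 1)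
    (hη0 : 0 ≤ η) (hκ0 : 0 < κ) (hκ1 : κ ≤ 1 / 1000) (hK3 : 3 ≤ K) (_hθK : 2 ≤ θ * K)
    (he : 1 + 4 * η / θ ≤ κ * (θ * n / K)) (hρn : ρ ≤ n) (hρ : 2 * (θ * n) - 2 * η ≤ ρ) :
    ∃ a e k0, NetNum θ κ η n ρ a e K k0 := by
  obtain ⟨ϑ, hϑ⟩ : ∃ ϑ, ϑ = θ * n := ⟨_, rfl⟩
  rw [← hϑ] at hρ he
  have hϑ0 : 0 < ϑ := by rw [hϑ]; exact mul_pos hθ0 (by linarith)
  have hK0 : (0 : ℝ) < K := by exact_mod_cast (show 0 < K by omega)
  have hK3' : (3 : ℝ) ≤ K := by exact_mod_cast hK3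
  have h4η : 4 * η ≤ 4 * η / θ := by
    rw [le_div_iff₀ hθ0]; nlinarith
  obtain ⟨e, hedef⟩ : ∃ e, e = 1 + 4 * η / θ := ⟨_, rfl⟩
  rw [← hedef] at he
  have he1 : 1 ≤ e := by rw [hedef]; linarith
  have hηe : 4 * η ≤ e := by rw [hedef]; linarith
  have heϑ : e ≤ ϑ / 1000 := by
    have h1 : κ * (ϑ / K) ≤ 1 / 1000 * (ϑ / 1) := by
      apply mul_le_mul hκ1 _ (by positivity) (by norm_num)
      exact div_le_div_of_nonneg_left hϑ0.le (by norm_num) (by linarith)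
    linarith
  have hρϑ : 3 / 2 * ϑ ≤ ρ := by linarith
  have hρ0 : 0 < ρ := by linarith
  obtain ⟨a, ha⟩ : ∃ a, a = ρ / K := ⟨_, rfl⟩
  have ha0 : 0 < a := by rw [ha]; exact div_pos hρ0 hK0
  have hKa : (K : ℝ) * a = ρ := by rw [ha]; field_simp
  have haϑ : ϑ / K ≤ a := by
    rw [ha]; exact div_le_div_of_nonneg_right (by linarith) hK0.le
  have hea : e ≤ κ * a := he.trans (mul_le_mul_of_nonneg_left haϑ hκ0.le)
  have hea1000 : 1000 * e ≤ a := by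
    have : κ * a ≤ 1 / 1000 * a := mul_le_mul_of_nonneg_right hκ1 ha0.le
    linarith
  have hϑa : 0 < ϑ / a := div_pos hϑ0 ha0
  have hϑaK : θ * K ≤ ϑ / a := by
    rw [le_div_iff₀ ha0, hϑ]
    have : θ * K * a = θ * ρ := by rw [← hKa]; ring
    rw [this]
    exact mul_le_mul_of_nonneg_left hρn hθ0.le
  have hϑaK2 : ϑ / a ≤ 2 / 3 * K := by
    rw [div_le_iff₀ ha0]
    have : 2 / 3 * K * a = 2 / 3 * ρ := by rw [← hKa]; ring
    rw [this]; linarith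
  have hk0lt : (⌈ϑ / a⌉₊ : ℝ) < ϑ / a + 1 := Nat.ceil_lt_add_one hϑa.le
  refine ⟨a, e, ⌈ϑ / a⌉₊, ha0, hKa, by rw [← hϑ]; exact haϑ, hea, hηe, he1, by linarith,
    Nat.ceil_pos.2 hϑa, ?_, by rw [← hϑ]; exact Nat.le_ceil _, by rw [← hϑ]; exact hk0lt,
    by rw [← hϑ]; exact hϑaK, hea1000, hη0⟩
  have : (⌈ϑ / a⌉₊ : ℝ) < K := by linarith
  exact_mod_cast this

theorem exists_net (hG : G.Connected) (hN : 1 < Fintype.card V) {o r : V} {n θ κ η a e : ℝ}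
    {K k0 : ℕ} (hn1 : 1 ≤ n) (hθ0 : 0 < θ) (hθ1 : θ ≤ 1)
    (hRn : ∀ x y, Res G x y ≤ n) (hη : ∀ x, pot G x o r ≤ η) (hκ1 : κ ≤ 1 / 1000)
    (num : NetNum θ κ η n (Res G o r) a e K k0) (hηϑ : η < θ * n) :
    ∃ ζ : ℕ → V, Net G o a e (θ * n) k0 (K - k0 + 1) ζ ∧ ζ (K - k0 + 1) = r := by
  obtain ⟨ha0, hKa, haϑ, hea, hηe, he1, hke, hk01, hk0K, hk0le, hk0lt, hϑaK, h1000, hη0⟩ := num
  obtain ⟨s, hs⟩ : ∃ s, s = K - k0 + 1 := ⟨_, rfl⟩
  rw [← hs]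
  have hs2 : 2 ≤ s := by omega
  have hlev : ∀ k : ℕ, 1 ≤ k → k ≤ K → ∃ z, (k : ℝ) * a ≤ Res G o z ∧ Res G o z < k * a + 1 := by
    intro k hk1 hkK
    refine exists_level' hG (fun z => Res G o z) (fun x y hxy => Res_lip hG hxy o) (x := o) (y := r)
      ?_ ?_
    · rw [Res_self]
      have : (0 : ℝ) < k := by exact_mod_cast hk1
      exact mul_pos this ha0
    · rw [← hKa]
      have : (k : ℝ) ≤ K := by exact_mod_cast hkK
      exact mul_le_mul_of_nonneg_right this ha0.le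
  have : Nonempty V := ⟨o⟩
  choose! z hz using hlev
  obtain ⟨ζ, hζ⟩ : ∃ ζ : ℕ → V, ζ = fun i => if i = 0 then o else if i = s then r else
    z (k0 + i - 1) := ⟨_, rfl⟩
  have hζ0 : ζ 0 = o := by rw [hζ]; simp
  have hζs : ζ s = r := by
    rw [hζ]
    have : s ≠ 0 := by omega
    simp [this]
  refine ⟨ζ, ⟨hG, hN, by linarith, ha0, h1000, hk01, hs2, ?_, ?_, hζ0, ?_⟩, hζs⟩
  · rw [div_le_iff₀ ha0] at hk0le; exact hk0le
  · intro x y hx hy
    have hϑ0 : 0 < θ * n := mul_pos hθ0 (by linarith)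
    have h1 := Res_le_line hG (o := o) (r := r) (x := x) (y := y) (η := η) (ϑ := θ * n) (n := n) hϑ0
      hη0 hηϑ hRn hx hy (hη x) (hη y)
    have h2 : 4 * η * n / (θ * n) = 4 * η / θ := by
      field_simp
    rw [h2] at h1
    linarith
  · intro i hi1 his
    have hcast : ((k0 + i - 1 : ℕ) : ℝ) = (k0 : ℝ) + i - 1 := by
      rw [Nat.cast_sub (by omega)]; push_cast; ring
    by_cases hi : i = s
    · have hζi : ζ i = r := by rw [hi]; exact hζs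
      rw [hζi]
      have h3 : (k0 : ℝ) + i - 1 = K := by
        rw [← hcast]
        have : k0 + i - 1 = K := by omega
        rw [this]
      rw [h3, hKa]
      constructor <;> linarith
    · have hζi : ζ i = z (k0 + i - 1) := by
        rw [hζ]
        have : i ≠ 0 := by omega
        simp [this, hi]
      rw [hζi]
      have h4 := hz (k0 + i - 1) (by omega) (by omega)
      rw [hcast] at h4
      exact ⟨h4.1, by linarith [h4.2]⟩

/-- index of the nearest site -/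
noncomputable def kidx (G : SimpleGraph V) [DecidableRel G.Adj] (o u : V) (a : ℝ) (k0 : ℕ) : ℕ :=
  ⌊Res G o u / a + 1 / 2⌋₊ + 1 - k0

theorem kidx_spec (hG : G.Connected) {o r u : V} {n θ κ η a e : ℝ}
    {K k0 : ℕ} (hθK : 2 ≤ θ * K) (num : NetNum θ κ η n (Res G o r) a e K k0)
    (hu1 : 2 * (θ * n) - a / 100 ≤ Res G o u) (hu2 : Res G o u ≤ Res G o r + 2 * η) :
    2 ≤ kidx G o u a k0 ∧ kidx G o u a k0 ≤ K - k0 + 1 ∧
      |Res G o u - ps a k0 (kidx G o u a k0)| ≤ a / 2 := by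
  obtain ⟨ha0, hKa, haϑ, hea, hηe, he1, hke, hk01, hk0K, hk0le, hk0lt, hϑaK, h1000, hη0⟩ := num
  obtain ⟨t, ht⟩ : ∃ t, t = Res G o u / a := ⟨_, rfl⟩
  have hta : t * a = Res G o u := by rw [ht]; field_simp
  have ht0 : 0 ≤ t := by rw [ht]; exact div_nonneg (Res_nonneg hG _ _) ha0.le
  obtain ⟨q, hq⟩ : ∃ q, q = ⌊t + 1 / 2⌋₊ := ⟨_, rfl⟩
  have hq1 : (q : ℝ) ≤ t + 1 / 2 := by rw [hq]; exact Nat.floor_le (by linarith)
  have hq2 : t + 1 / 2 < q + 1 := by rw [hq]; exact Nat.lt_floor_add_one _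
  have hqK : q ≤ K := by
    have h1 : t < K + 1 / 2 := by
      rw [ht, div_lt_iff₀ ha0, add_mul, hKa]
      linarith
    have h2 : (q : ℝ) < K + 1 := by linarith
    have : q < K + 1 := by exact_mod_cast h2
    omega
  have hqk0 : k0 + 1 ≤ q := by
    rw [hq]
    refine Nat.le_floor ?_
    push_cast
    have h1 : 2 * (θ * n / a) - 1 / 100 ≤ t := by
      rw [ht, le_div_iff₀ ha0]
      have : (2 * (θ * n / a) - 1 / 100) * a = 2 * (θ * n) - a / 100 := by field_simp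
      rw [this]; exact hu1
    linarith
  have hkk : kidx G o u a k0 = q + 1 - k0 := by
    unfold kidx
    rw [← ht, ← hq]
  rw [hkk]
  refine ⟨by omega, by omega, ?_⟩
  have hps : ps a k0 (q + 1 - k0) = q * a := by
    have : q + 1 - k0 = (q - k0) + 1 := by omega
    rw [this, ps_succ, Nat.cast_sub (by omega)]
    ring
  rw [hps, ← hta, ← sub_mul, abs_mul, abs_of_pos ha0]
  have : |t - q| ≤ 1 / 2 := by
    rw [abs_le]; constructor <;> linarith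
  nlinarith

/-- number of pieces -/
theorem pieces_card {n θ a : ℝ} {K len b : ℕ} (hn1 : 1 ≤ n) (hθ0 : 0 < θ) (hθ1 : θ ≤ 1)
    (hK : 1 ≤ K) (haϑ : θ * n / K ≤ a)
    (hb : a / 100 ≤ b) (hb0 : 0 < b) (hlen : (len : ℝ) ≤ 3 * n) :
    ((len / b + 1 : ℕ) : ℝ) ≤ 301 * K / θ := by
  have h5 : ((len / b : ℕ) : ℝ) ≤ (len : ℝ) / b := Nat.cast_div_le
  have hK0 : (0 : ℝ) < K := by exact_mod_cast hK
  have hK1 : (1 : ℝ) ≤ K := by exact_mod_cast hK
  have h7 : (len : ℝ) / b ≤ 300 * K / θ := by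
    have hbpos : (0 : ℝ) < b := by exact_mod_cast hb0
    rw [div_le_div_iff₀ hbpos hθ0]
    have h8 : θ * n ≤ a * K := by
      rw [div_le_iff₀ hK0] at haϑ
      exact haϑ
    have h9 : (len : ℝ) * θ ≤ 3 * n * θ := mul_le_mul_of_nonneg_right hlen hθ0.le
    have h10 : 300 * K * (a / 100) ≤ 300 * K * b := by
      apply mul_le_mul_of_nonneg_left hb (by positivity)
    nlinarith
  have h9 : 1 ≤ K / θ := by
    rw [le_div_iff₀ hθ0]; linarith
  have h10 : 301 * K / θ = 300 * K / θ + K / θ := by ring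
  rw [h10]
  push_cast
  linarith

end Pool.Agent.Helper98.Cov
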