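import Pool.Agent.Helper98.CovFar

/-! # The far part: assembling the net, the pieces and the model chain -/

namespace Pool.Agent.Helper98.Cov

open scoped ENNReal
open Finset

variable {V : Type} [Fintype V] [DecidableEq V] {G : SimpleGraph V} [DecidableRel G.Adj]

/-- the pieces of the tour containing a far vertex -/
theorem far_pieces (hG : G.Connected) {o r : V} {n θ κ η a e : ℝ}
    {K k0 : ℕ} (hn : n = (Fintype.card V : ℝ) - 1) (hn1 : 1 ≤ n) (hθ0 : 0 < θ) (hθ1 : θ ≤ 1)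
    (hθK : 2 ≤ θ * K) (hη : ∀ x, Res G o x + Res G r x ≤ Res G o r + 2 * η)
    (num : NetNum θ κ η n (Res G o r) a e K k0) :
    ∃ (J : Finset ℕ) (ch : ℕ → List V) (kk : ℕ → ℕ), (J.card : ℝ) ≤ 301 * K / θ ∧
      farSet G o (θ * n) ⊆ J.biUnion (fun j => (ch j).toFinset) ∧
      ∀ j ∈ J, ∃ u l', ch j = u :: l' ∧ List.IsChain G.Adj (u :: l') ∧
        (l'.length : ℝ) ≤ a / 100 ∧
        2 ≤ kk j ∧ kk j ≤ K - k0 + 1 ∧ |Res G o u - ps a k0 (kk j)| ≤ a / 2 := by
  classical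
  have ha0 := num.a0
  obtain ⟨l, hl1, hl2, hl3⟩ := exists_tour hG r
  obtain ⟨b, hb⟩ : ∃ b, b = ⌊a / 100⌋₊ + 1 := ⟨_, rfl⟩
  have hb0 : 0 < b := by omega
  have hb1 : (b : ℝ) ≤ a / 100 + 1 := by
    rw [hb]; push_cast
    have := Nat.floor_le (show 0 ≤ a / 100 by linarith)
    linarith
  have hb2 : a / 100 ≤ b := by
    rw [hb]; push_cast
    exact (Nat.lt_floor_add_one _).le
  obtain ⟨W, hW⟩ : ∃ W, W = r :: l := ⟨_, rfl⟩
  rw [← hW] at hl1 hl2
  refine ⟨(Finset.range (W.length / b + 1)).filter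
      (fun j => ∃ x ∈ chunk W b j, 2 * (θ * n) ≤ Res G o x), fun j => chunk W b j,
      fun j => kidx G o ((chunk W b j).headD o) a k0, ?_, ?_, ?_⟩
  · have h4 : ((Finset.range (W.length / b + 1)).filter
      (fun j => ∃ x ∈ chunk W b j, 2 * (θ * n) ≤ Res G o x)).card ≤ W.length / b + 1 :=
      (Finset.card_filter_le _ _).trans (by rw [Finset.card_range])
    have h6 : (W.length : ℝ) ≤ 3 * n := by
      rw [hW, List.length_cons]; push_cast; rw [← hn] at hl3; linarith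
    have h7 := pieces_card hn1 hθ0 hθ1 (show 1 ≤ K by have := num.k0K; omega) num.aϑ hb2 hb0 h6
    refine le_trans ?_ h7
    exact_mod_cast h4
  · intro x hx
    rw [mem_farSet] at hx
    obtain ⟨j, hj, hxj⟩ := exists_chunk hb0 (hl2 x)
    refine Finset.mem_biUnion.2 ⟨j, ?_, List.mem_toFinset.2 hxj⟩
    rw [Finset.mem_filter]
    exact ⟨hj, x, hxj, hx⟩
  · intro j hj
    rw [Finset.mem_filter] at hj
    obtain ⟨_, x, hx, hxϑ⟩ := hj
    obtain ⟨u, l', hul, hlen⟩ := chunk_cons hx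
    have hch := chunk_chain hl1 b j
    rw [hul] at hch hx
    have hlen' : (l'.length : ℝ) ≤ a / 100 := by
      have : (l'.length : ℝ) + 1 ≤ b := by exact_mod_cast hlen
      linarith
    have hux := chain_dist hG u l' hch x hx
    have hu1 : 2 * (θ * n) - a / 100 ≤ Res G o u := by
      have := Res_tri hG o u x
      linarith
    have hu2 : Res G o u ≤ Res G o r + 2 * η := by
      have := hη u
      have := Res_nonneg hG r u
      linarith
    obtain ⟨h1, h2, h3⟩ := kidx_spec hG hθK num hu1 hu2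
    refine ⟨u, l', hul, hch, hlen', ?_⟩
    simp only [hul, List.headD_cons]
    exact ⟨h1, h2, h3⟩

theorem far_bound_num {θ κ a e : ℝ} {K s : ℕ} (ha0 : 0 < a) (he0 : 0 ≤ e) (hκ0 : 0 < κ)
    (hea : e ≤ κ * a) (hsK : s ≤ K) (hκ2 : 6 * K * κ ≤ 9 / 100) :
    (s : ℝ) * (6 * e / a) ≤ 9 / 100 ∧ ∀ L : ℕ, (L : ℝ) * (s * (10 * e / a)) ≤ L * (K * (10 * κ)) := by
  have h2 : (s : ℝ) ≤ K := by exact_mod_cast hsK
  constructor
  · have h1 : 6 * e / a ≤ 6 * κ := by
      rw [div_le_iff₀ ha0]; linarith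
    have h3 : (s : ℝ) * (6 * e / a) ≤ K * (6 * κ) :=
      mul_le_mul h2 h1 (by positivity) (Nat.cast_nonneg _)
    linarith
  · intro L
    have h1 : 10 * e / a ≤ 10 * κ := by
      rw [div_le_iff₀ ha0]; linarith
    gcongr

theorem far_bound (hG : G.Connected) (hN : 1 < Fintype.card V) (o r : V) {n θ κ η : ℝ}
    {K A L : ℕ} (hn : n = (Fintype.card V : ℝ) - 1) (hn1 : 1 ≤ n) (hθ0 : 0 < θ) (hθ1 : θ ≤ 1)
    (hη0 : 0 ≤ η) (hη : ∀ x, pot G x o r ≤ η) (hκ0 : 0 < κ) (hκ1 : κ ≤ 1 / 1000)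
    (hκ2 : 6 * K * κ ≤ 9 / 100) (hK3 : 3 ≤ K) (hθK : 2 ≤ θ * K)
    (he : 1 + 4 * η / θ ≤ κ * (θ * n / K)) (hlam : 0 < lam A K) :
    ff G o (farSet G o (θ * n)) {r} r ≤
      ENNReal.ofReal ((1 - 1 / (K : ℝ) ^ 2) ^ L * (K : ℝ) ^ 2) +
        ENNReal.ofReal (2 / (θ * lam A K)) + ENNReal.ofReal (L * (K * (10 * κ))) +
        ENNReal.ofReal (301 * K / θ) * (1 / 2) ^ A := by
  have hRn : ∀ x y, Res G x y ≤ n := fun x y => by rw [hn]; exact Res_le_card hG x y
  have hup : ∀ x, Res G o x + Res G r x ≤ Res G o r + 2 * η := by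
    intro x
    have h1 := hη x
    rw [pot_def, Res_symm hG r o, Res_symm hG x o] at h1
    linarith
  by_cases hne : (farSet G o (θ * n)).Nonempty
  swap
  · rw [Finset.not_nonempty_iff_eq_empty] at hne
    rw [hne]
    have : ff G o ∅ {r} r ≤ 0 := exc_const_le _ _ 0 (fun S v _ => by simp [unc]) _ _
    exact this.trans zero_le
  obtain ⟨x0, hx0⟩ := hne
  rw [mem_farSet] at hx0
  have hρ : 2 * (θ * n) - 2 * η ≤ Res G o r := by
    have h1 := hup x0
    have h2 := Res_nonneg hG r x0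
    linarith
  obtain ⟨a, e, k0, num⟩ := exists_netNum hn1 hθ0 hθ1 hη0 hκ0 hκ1 hK3 hθK he (hRn o r) hρ
  have hηϑ : η < θ * n := by
    have h1 : κ * (θ * n / K) ≤ 1 * (θ * n / 1) := by
      have hK3' : (3 : ℝ) ≤ K := by exact_mod_cast hK3
      have hϑ0 : 0 < θ * n := mul_pos hθ0 (by linarith)
      apply mul_le_mul (by linarith) _ (by positivity) (by norm_num)
      exact div_le_div_of_nonneg_left hϑ0.le (by norm_num) (by linarith)
    have h4η : 4 * η ≤ 4 * η / θ := by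
      rw [le_div_iff₀ hθ0]; nlinarith
    linarith
  obtain ⟨ζ, hnet, hζs⟩ := exists_net hG hN hn1 hθ0 hθ1 hRn hη hκ1 num hηϑ
  obtain ⟨J, ch, kk, hJcard, hcov, hJp⟩ := far_pieces hG hn hn1 hθ0 hθ1 hθK hup num
  have hk01 := num.k01
  have hk0K := num.k0K
  obtain ⟨s, hs⟩ : ∃ s, s = K - k0 + 1 := ⟨_, rfl⟩
  rw [← hs] at hnet hζs hJp
  have hsK : s ≤ K := by omega
  obtain ⟨hsmall, hsmallL⟩ := far_bound_num (θ := θ) num.a0 (by linarith [num.e1]) hκ0 num.ea hsK hκ2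
  have hmac := macro_bound (G := G) (o := o) (ζ := ζ) (s := s) (A := A) hnet.zero
    (bet_le_one k0 s) (farSet G o (θ * n)) J (fun j => (ch j).toFinset) kk
    (fun j hj => by
      obtain ⟨u, l', _, _, _, h3, h4, _⟩ := hJp j hj
      exact ⟨by omega, h4⟩) hcov
    (fun j hj S hS => by
      obtain ⟨u, l', h1, hch, h2, h3, h4, h5⟩ := hJp j hj
      rw [h1]
      exact hnet.half h3 h4 hsmall u l' hch h2 h5 S hS)
    (ENNReal.ofReal (10 * e / a))
    (fun i hi1 his i' hi's hne' S => hnet.trans hi1 his i' hi's hne' S)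
    L {r} s (fun _ => 0) (by rw [hζs]; exact Finset.mem_singleton_self r) le_rfl
  rw [hζs] at hmac
  refine hmac.trans ?_
  have hch := chain_bound (K := K) (k0 := k0) (A := A) hk01 hk0K hlam L
  rw [← hs] at hch
  refine add_le_add (add_le_add ?_ ?_) ?_
  · refine hch.trans (add_le_add le_rfl (ENNReal.ofReal_le_ofReal ?_))
    have hk0' : (0 : ℝ) < (k0 : ℝ) + 1 := by positivity
    rw [div_le_div_iff₀ (mul_pos hk0' hlam) (mul_pos hθ0 hlam)]
    have h1 : θ * K ≤ (k0 : ℝ) + 1 := by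
      have := num.k0le
      have := num.θKa
      linarith
    have h2 : 2 * K * (θ * lam A K) = 2 * ((θ * K) * lam A K) := by ring
    rw [h2]
    have h3 : (θ * K) * lam A K ≤ ((k0 : ℝ) + 1) * lam A K :=
      mul_le_mul_of_nonneg_right h1 hlam.le
    linarith
  · rw [← ENNReal.ofReal_natCast, ← ENNReal.ofReal_natCast, ← ENNReal.ofReal_mul (Nat.cast_nonneg _),
      ← ENNReal.ofReal_mul (Nat.cast_nonneg _)]
    exact ENNReal.ofReal_le_ofReal (hsmallL L)
  · have h1 : ∀ j ∈ J, Gd A (ch j).toFinset {r} ((fun _ => 0) (kk j))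
        ≤ (1 / 2 : ℝ≥0∞) ^ A := by
      intro j _
      unfold Gd
      split_ifs
      · exact zero_le
      · exact le_rfl
    refine (Finset.sum_le_card_nsmul _ _ _ h1).trans ?_
    rw [nsmul_eq_mul, ← ENNReal.ofReal_natCast]
    exact mul_le_mul_left (ENNReal.ofReal_le_ofReal hJcard) _

end Pool.Agent.Helper98.Cov
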