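import Mathlib

/-! # Geometric smoothing operators and the exact solution of the one dimensional chain -/

namespace Pool.Agent.Helper98.Cov

open scoped ENNReal
open Finset

/-- average of `ψ (b + j)` over a geometric number `j` of failures -/
noncomputable def geo (β : ℝ≥0∞) (ψ : ℕ → ℝ≥0∞) (b : ℕ) : ℝ≥0∞ :=
  ∑' j : ℕ, β * (1 - β) ^ j * ψ (b + j)

theorem geo_succ (β : ℝ≥0∞) (ψ : ℕ → ℝ≥0∞) (b : ℕ) :
    geo β ψ b = β * ψ b + (1 - β) * geo β ψ (b + 1) := by
  unfold geo
  rw [tsum_eq_zero_add' ENNReal.summable]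
  rw [pow_zero, mul_one, add_zero, ← ENNReal.tsum_mul_left]
  congr 1
  refine tsum_congr fun j => ?_
  rw [pow_succ, show b + (j + 1) = b + 1 + j by ring]
  ring

theorem geo_mono {β : ℝ≥0∞} {ψ ψ' : ℕ → ℝ≥0∞} (h : ∀ u, ψ u ≤ ψ' u) (b : ℕ) :
    geo β ψ b ≤ geo β ψ' b := by
  unfold geo
  refine ENNReal.tsum_le_tsum fun j => ?_
  gcongr
  exact h _

theorem geo_const {β : ℝ≥0∞} (h0 : β ≠ 0) (h1 : β ≤ 1) (c : ℝ≥0∞) (b : ℕ) :
    geo β (fun _ => c) b = c := by
  unfold geo
  rw [ENNReal.tsum_mul_right, ENNReal.tsum_mul_left, ENNReal.tsum_geometric,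
    ENNReal.sub_sub_cancel ENNReal.one_ne_top h1, ENNReal.mul_inv_cancel h0
      (ne_top_of_le_ne_top ENNReal.one_ne_top h1), one_mul]

theorem geo_add (β : ℝ≥0∞) (ψ χ : ℕ → ℝ≥0∞) (b : ℕ) :
    geo β (fun u => ψ u + χ u) b = geo β ψ b + geo β χ b := by
  unfold geo
  rw [← ENNReal.tsum_add]
  refine tsum_congr fun j => ?_
  ring

theorem geo_mul (β : ℝ≥0∞) (c : ℝ≥0∞) (ψ : ℕ → ℝ≥0∞) (b : ℕ) :
    geo β (fun u => c * ψ u) b = c * geo β ψ b := by
  unfold geo
  rw [← ENNReal.tsum_mul_left]
  refine tsum_congr fun j => ?_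
  ring

theorem geo_shift (β : ℝ≥0∞) (ψ : ℕ → ℝ≥0∞) (b : ℕ) :
    geo β (fun u => ψ (u + 1)) b = geo β ψ (b + 1) := by
  unfold geo
  refine tsum_congr fun j => ?_
  change β * (1 - β) ^ j * ψ (b + j + 1) = β * (1 - β) ^ j * ψ (b + 1 + j)
  rw [show b + j + 1 = b + 1 + j by ring]

theorem geo_one (ψ : ℕ → ℝ≥0∞) (b : ℕ) : geo 1 ψ b = ψ b := by
  rw [geo_succ]; simp

theorem geoN_congr {β : ℝ≥0∞} (m : ℕ) {ψ ψ' : ℕ → ℝ≥0∞} (h : ∀ u, ψ u = ψ' u) (b : ℕ) :
    (geo β)^[m] ψ b = (geo β)^[m] ψ' b := by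
  have : ψ = ψ' := funext h
  rw [this]

theorem geoN_mono {β : ℝ≥0∞} (m : ℕ) {ψ ψ' : ℕ → ℝ≥0∞} (h : ∀ u, ψ u ≤ ψ' u) (b : ℕ) :
    (geo β)^[m] ψ b ≤ (geo β)^[m] ψ' b := by
  induction m generalizing b with
  | zero => exact h b
  | succ m ih =>
    rw [Function.iterate_succ', Function.comp, Function.comp]
    exact geo_mono ih b

theorem geoN_const {β : ℝ≥0∞} (h0 : β ≠ 0) (h1 : β ≤ 1) (m : ℕ) (c : ℝ≥0∞) (b : ℕ) :
    (geo β)^[m] (fun _ => c) b = c := by
  have : (geo β) (fun _ => c) = fun _ => c := by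
    funext b; exact geo_const h0 h1 c b
  rw [Function.iterate_fixed this]

theorem geoN_add (β : ℝ≥0∞) (m : ℕ) (ψ χ : ℕ → ℝ≥0∞) (b : ℕ) :
    (geo β)^[m] (fun u => ψ u + χ u) b = (geo β)^[m] ψ b + (geo β)^[m] χ b := by
  induction m generalizing b with
  | zero => rfl
  | succ m ih =>
    rw [Function.iterate_succ', Function.comp, Function.comp, Function.comp, ← geo_add]
    congr 1
    funext u
    exact ih u

theorem geoN_mul (β : ℝ≥0∞) (m : ℕ) (c : ℝ≥0∞) (ψ : ℕ → ℝ≥0∞) (b : ℕ) :
    (geo β)^[m] (fun u => c * ψ u) b = c * (geo β)^[m] ψ b := by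
  induction m generalizing b with
  | zero => rfl
  | succ m ih =>
    rw [Function.iterate_succ', Function.comp, Function.comp, ← geo_mul]
    congr 1
    funext u
    exact ih u

theorem geoN_shift (β : ℝ≥0∞) (m : ℕ) (ψ : ℕ → ℝ≥0∞) (b : ℕ) :
    (geo β)^[m] (fun u => ψ (u + 1)) b = (geo β)^[m] ψ (b + 1) := by
  induction m generalizing b with
  | zero => rfl
  | succ m ih =>
    rw [Function.iterate_succ', Function.comp, Function.comp, ← geo_shift]
    congr 1
    funext u
    exact ih u

theorem geoN_succ (β : ℝ≥0∞) (m : ℕ) (ψ : ℕ → ℝ≥0∞) (b : ℕ) :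
    (geo β)^[m + 1] ψ b = β * (geo β)^[m] ψ b + (1 - β) * (geo β)^[m + 1] ψ (b + 1) := by
  rw [Function.iterate_succ', Function.comp, geo_succ]

/-- probability that some level `i, …, i + f - 1` finally has fewer than `A` departures -/
noncomputable def Th (β : ℕ → ℝ≥0∞) (A z : ℕ) (dn up : ℕ → ℕ) : ℕ → ℕ → ℕ → ℝ≥0∞
  | 0, _, _ => 0
  | f + 1, i, m => (geo (β i))^[m] (fun u => if dn i + up i + m + u < A then 1 else
      Th β A z dn up f (i + 1) (u + if i < z then 1 else 0)) 0

theorem Th_succ (β : ℕ → ℝ≥0∞) (A z : ℕ) (dn up : ℕ → ℕ) (f i m : ℕ) :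
    Th β A z dn up (f + 1) i m = (geo (β i))^[m] (fun u => if dn i + up i + m + u < A then 1 else
      Th β A z dn up f (i + 1) (u + if i < z then 1 else 0)) 0 := rfl

theorem Th_le_one {β : ℕ → ℝ≥0∞} (h0 : ∀ i, β i ≠ 0) (h1 : ∀ i, β i ≤ 1) (A z : ℕ)
    (dn up : ℕ → ℕ) (f i m : ℕ) : Th β A z dn up f i m ≤ 1 := by
  induction f generalizing i m with
  | zero => exact zero_le
  | succ f ih =>
    rw [Th_succ]
    refine (geoN_mono (ψ' := fun _ => 1) m (fun u => ?_) 0).trans
      (geoN_const (h0 i) (h1 i) m 1 0).le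
    split_ifs
    · exact le_rfl
    · exact ih _ _
    · exact ih _ _

theorem Th_congr (β : ℕ → ℝ≥0∞) (A : ℕ) {z z' : ℕ} {dn up dn' up' : ℕ → ℕ} (f i m : ℕ)
    (hd : ∀ j, i ≤ j → dn j = dn' j) (hu : ∀ j, i ≤ j → up j = up' j)
    (hz : ∀ j, i ≤ j → (j < z ↔ j < z')) :
    Th β A z dn up f i m = Th β A z' dn' up' f i m := by
  induction f generalizing i m with
  | zero => rfl
  | succ f ih =>
    rw [Th_succ, Th_succ]
    refine geoN_congr m (fun u => ?_) 0
    rw [hd i le_rfl, hu i le_rfl, ih (i + 1) _ (fun j hj => hd j (by omega))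
      (fun j hj => hu j (by omega)) (fun j hj => hz j (by omega))]
    simp only [hz i le_rfl]

theorem Th_harm {β : ℕ → ℝ≥0∞} (h1 : ∀ i, β i ≤ 1) (A z : ℕ) (hz : 1 ≤ z)
    (dn up : ℕ → ℕ) (f i m : ℕ) (hiz : i ≤ z) (hzf : z < i + f) (hm : i = z → 1 ≤ m) :
    Th β A z dn up f i m = β z * Th β A (z - 1) (Function.update dn z (dn z + 1)) up f i
        (if i = z then m - 1 else m)
      + (1 - β z) * Th β A (z + 1) dn (Function.update up z (up z + 1)) f i m := by
  induction f generalizing i m with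
  | zero => omega
  | succ f ih =>
    rcases Nat.eq_or_lt_of_le hiz with hiz' | hiz'
    · -- i = z
      subst hiz'
      obtain ⟨m', rfl⟩ : ∃ m', m = m' + 1 := ⟨m - 1, by have := hm rfl; omega⟩
      rw [if_pos rfl, Nat.add_sub_cancel, Th_succ, Th_succ, Th_succ, geoN_succ]
      congr 2
      · refine geoN_congr m' (fun u => ?_) 0
        simp only [Function.update_self]
        rw [if_neg (lt_irrefl i)]
        have h2 : ¬ i < i - 1 := by omega
        rw [if_neg h2, add_zero]
        have h3 : dn i + 1 + up i + m' + u = dn i + up i + (m' + 1) + u := by ring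
        rw [h3]
        rw [Th_congr β A f (i + 1) u (z := i) (z' := i - 1) (dn := dn)
          (dn' := Function.update dn i (dn i + 1)) (up := up) (up' := up)
          (fun j hj => by rw [Function.update_of_ne (by omega)]) (fun _ _ => rfl)
          (fun j hj => by omega)]
      · rw [← geoN_shift]
        refine geoN_congr (m' + 1) (fun u => ?_) 0
        simp only [Function.update_self]
        rw [if_neg (lt_irrefl i), if_pos (Nat.lt_succ_self i)]
        have h3 : dn i + (up i + 1) + (m' + 1) + u = dn i + up i + (m' + 1) + (u + 1) := by ring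
        rw [h3, add_zero]
        rw [Th_congr β A f (i + 1) (u + 1) (z := i) (z' := i + 1) (dn := dn)
          (dn' := dn) (up := up) (up' := Function.update up i (up i + 1))
          (fun _ _ => rfl) (fun j hj => by rw [Function.update_of_ne (by omega)])
          (fun j hj => by omega)]
    · -- i < z
      have hne : i ≠ z := by omega
      rw [if_neg hne, Th_succ, Th_succ, Th_succ, ← geoN_mul, ← geoN_mul, ← geoN_add]
      refine geoN_congr m (fun u => ?_) 0
      rw [Function.update_of_ne hne, Function.update_of_ne hne]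
      split_ifs with c1 c2 c3 c4
      · rw [mul_one, mul_one, add_tsub_cancel_of_le (h1 z)]
      · rw [ih (i + 1) (u + 1) (by omega) (by omega) (by omega), if_neg (by omega)]
      · exact absurd (show i < z + 1 by omega) c3
      · rw [ih (i + 1) (u + 1) (by omega) (by omega) (by omega), if_pos (by omega),
          Nat.add_sub_cancel, add_zero]
      · exact absurd (show i < z + 1 by omega) c4

theorem Th_zero (β : ℕ → ℝ≥0∞) (A : ℕ) (dn up : ℕ → ℕ) (f i : ℕ)
    (h : ∃ k, i ≤ k ∧ k < i + f ∧ dn k + up k < A) : 1 ≤ Th β A 0 dn up f i 0 := by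
  induction f generalizing i with
  | zero => obtain ⟨k, h1, h2, _⟩ := h; omega
  | succ f ih =>
    rw [Th_succ, Function.iterate_zero, id]
    simp only [add_zero, Nat.not_lt_zero, if_false]
    by_cases h0 : dn i + up i < A
    · rw [if_pos h0]
    · rw [if_neg h0]
      refine ih (i + 1) ?_
      obtain ⟨k, h1, h2, h3⟩ := h
      rcases Nat.eq_or_lt_of_le h1 with h4 | h4
      · subst h4; exact absurd h3 h0
      · exact ⟨k, h4, by omega, h3⟩

open Classical in
/-- `0` if every site `1, …, s` has at least `A` departures, else `1` -/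
noncomputable def failv (s A : ℕ) (c : ℕ → ℕ) : ℝ≥0∞ :=
  if ∃ k, 1 ≤ k ∧ k ≤ s ∧ c k < A then 1 else 0

theorem failv_le_one (s A : ℕ) (c : ℕ → ℕ) : failv s A c ≤ 1 := by
  unfold failv; split_ifs <;> simp

theorem failv_le_Th (β : ℕ → ℝ≥0∞) (s A : ℕ) (dn up : ℕ → ℕ) :
    failv s A (fun k => dn k + up k) ≤ Th β A 0 dn up s 1 0 := by
  unfold failv
  split_ifs with h
  · obtain ⟨k, h1, h2, h3⟩ := h
    exact Th_zero β A dn up s 1 ⟨k, h1, by omega, h3⟩
  · exact zero_le

/-- the model chain run for `L` steps: probability of not being absorbed at `0`, or of being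
absorbed with some site having fewer than `A` departures -/
noncomputable def wch (β : ℕ → ℝ≥0∞) (s A : ℕ) : ℕ → ℕ → (ℕ → ℕ) → ℝ≥0∞
  | 0, z, c => if z = 0 then failv s A c else 1
  | L + 1, z, c => if z = 0 then failv s A c else
      β z * wch β s A L (z - 1) (Function.update c z (c z + 1))
        + (1 - β z) * wch β s A L (z + 1) (Function.update c z (c z + 1))

theorem wch_of_zero (β : ℕ → ℝ≥0∞) (s A L : ℕ) (c : ℕ → ℕ) :
    wch β s A L 0 c = failv s A c := by
  cases L <;> simp [wch]

theorem wch_succ (β : ℕ → ℝ≥0∞) (s A L : ℕ) {z : ℕ} (hz : z ≠ 0) (c : ℕ → ℕ) :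
    wch β s A (L + 1) z c = β z * wch β s A L (z - 1) (Function.update c z (c z + 1))
        + (1 - β z) * wch β s A L (z + 1) (Function.update c z (c z + 1)) := by
  simp [wch, hz]

theorem wch_le_one {β : ℕ → ℝ≥0∞} (h1 : ∀ i, β i ≤ 1) (s A L z : ℕ) (c : ℕ → ℕ) :
    wch β s A L z c ≤ 1 := by
  induction L generalizing z c with
  | zero =>
    simp only [wch]
    split_ifs
    · exact failv_le_one _ _ _
    · exact le_rfl
  | succ L ih =>
    by_cases hz : z = 0
    · subst hz; rw [wch_of_zero]; exact failv_le_one _ _ _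
    · rw [wch_succ _ _ _ _ hz]
      calc _ ≤ β z * 1 + (1 - β z) * 1 := by
            gcongr
            · exact ih _ _
            · exact ih _ _
        _ = 1 := by rw [mul_one, mul_one, add_tsub_cancel_of_le (h1 z)]

theorem wch_le {β : ℕ → ℝ≥0∞} (h1 : ∀ i, β i ≤ 1) (s A : ℕ) (hs : β s = 1)
    (e : ℕ → ℝ≥0∞) (ρ : ℝ≥0∞) (he : ∀ z, 1 ≤ z → z ≤ s → 1 ≤ e z)
    (hρ : ∀ z, 1 ≤ z → z ≤ s → β z * e (z - 1) + (1 - β z) * e (z + 1) ≤ ρ * e z)
    (L z : ℕ) (hz : z ≤ s) (dn up : ℕ → ℕ) :
    wch β s A L z (fun k => dn k + up k) ≤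
      ρ ^ L * e z + Th β A z dn up s 1 (if z = 0 then 0 else 1) := by
  induction L generalizing z dn up with
  | zero =>
    by_cases hz0 : z = 0
    · subst hz0
      rw [wch_of_zero, if_pos rfl]
      exact le_add_left (failv_le_Th β s A dn up)
    · rw [pow_zero, one_mul]
      refine (wch_le_one h1 s A 0 z _).trans ((he z (by omega) hz).trans (le_add_right le_rfl))
  | succ L ih =>
    by_cases hz0 : z = 0
    · subst hz0
      rw [wch_of_zero, if_pos rfl]
      exact le_add_left (failv_le_Th β s A dn up)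
    · rw [wch_succ _ _ _ _ hz0, if_neg hz0]
      have hz1 : 1 ≤ z := by omega
      have e1 : Function.update (fun k => dn k + up k) z (dn z + up z + 1)
          = fun k => (Function.update dn z (dn z + 1)) k + up k := by
        funext k
        by_cases hk : k = z
        · subst hk; simp only [Function.update_self]; ring
        · simp only [Function.update_of_ne hk]
      have e2 : Function.update (fun k => dn k + up k) z (dn z + up z + 1)
          = fun k => dn k + (Function.update up z (up z + 1)) k := by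
        funext k
        by_cases hk : k = z
        · subst hk; simp only [Function.update_self]; ring
        · simp only [Function.update_of_ne hk]
      have i1 := ih (z - 1) (by omega) (Function.update dn z (dn z + 1)) up
      rw [← e1] at i1
      have hT := Th_harm h1 A z hz1 dn up s 1 1 hz1 (by omega) (fun _ => le_rfl)
      have e3 : (if 1 = z then 1 - 1 else 1) = (if z - 1 = 0 then 0 else 1) := by
        split_ifs <;> omega
      rw [e3] at hT
      rw [hT]
      rcases Nat.eq_or_lt_of_le hz with hzs | hzs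
      · subst hzs
        rw [hs]
        have hρ' := hρ z hz1 le_rfl
        rw [hs] at hρ'
        simp only [one_mul, tsub_self, zero_mul, add_zero] at hρ' ⊢
        refine i1.trans ?_
        rw [pow_succ, mul_assoc]
        gcongr
      · have i2 := ih (z + 1) (by omega) dn (Function.update up z (up z + 1))
        rw [← e2, if_neg (by omega)] at i2
        calc _ ≤ β z * (ρ ^ L * e (z - 1) + Th β A (z - 1) (Function.update dn z (dn z + 1)) up s 1
                  (if z - 1 = 0 then 0 else 1))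
                + (1 - β z) * (ρ ^ L * e (z + 1)
                  + Th β A (z + 1) dn (Function.update up z (up z + 1)) s 1 1) := by
              gcongr
          _ = ρ ^ L * (β z * e (z - 1) + (1 - β z) * e (z + 1))
              + (β z * Th β A (z - 1) (Function.update dn z (dn z + 1)) up s 1
                  (if z - 1 = 0 then 0 else 1)
                + (1 - β z) * Th β A (z + 1) dn (Function.update up z (up z + 1)) s 1 1) := by
              ring
          _ ≤ _ := by
              rw [pow_succ, mul_assoc]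
              gcongr
              exact hρ z hz1 hz

end Pool.Agent.Helper98.Cov
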