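import Pool.Agent.Helper98.CovGeo

/-! # The bound for the one dimensional chain -/

namespace Pool.Agent.Helper98.Cov

open scoped ENNReal
open Finset

theorem geo_pow {β x : ℝ} (hβ0 : 0 < β) (hβ1 : β ≤ 1) (hx0 : 0 ≤ x) (hx1 : x < 1) (b : ℕ) :
    geo (ENNReal.ofReal β) (fun u => ENNReal.ofReal (x ^ u)) b
      = ENNReal.ofReal (x ^ b * (β / (1 - (1 - β) * x))) := by
  have h1 : (1 : ℝ≥0∞) - ENNReal.ofReal β = ENNReal.ofReal (1 - β) := by
    rw [ENNReal.ofReal_sub _ hβ0.le, ENNReal.ofReal_one]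
  have hr0 : 0 ≤ (1 - β) * x := mul_nonneg (by linarith) hx0
  have hr1 : (1 - β) * x < 1 := by nlinarith
  unfold geo
  have h2 : ∀ j : ℕ, ENNReal.ofReal β * (1 - ENNReal.ofReal β) ^ j * ENNReal.ofReal (x ^ (b + j))
      = ENNReal.ofReal (β * x ^ b * ((1 - β) * x) ^ j) := by
    intro j
    rw [h1, ← ENNReal.ofReal_pow (by linarith), ← ENNReal.ofReal_mul hβ0.le,
      ← ENNReal.ofReal_mul (mul_nonneg hβ0.le (pow_nonneg (by linarith) _))]
    congr 1
    rw [pow_add, mul_pow]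
    ring
  rw [tsum_congr h2, ← ENNReal.ofReal_tsum_of_nonneg]
  · congr 1
    rw [tsum_mul_left, tsum_geometric_of_lt_one hr0 hr1]
    field_simp
  · intro j
    exact mul_nonneg (mul_nonneg hβ0.le (pow_nonneg hx0 _)) (pow_nonneg hr0 _)
  · exact (summable_geometric_of_lt_one hr0 hr1).mul_left _

theorem geoN_pow_half {x : ℝ} (hx0 : 0 ≤ x) (hx1 : x < 1) (m b : ℕ) :
    (geo (ENNReal.ofReal (1 / 2)))^[m] (fun u => ENNReal.ofReal (x ^ u)) b
      = ENNReal.ofReal (x ^ b * (1 / (2 - x)) ^ m) := by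
  induction m generalizing b with
  | zero => simp
  | succ m ih =>
    rw [Function.iterate_succ, Function.comp]
    have h1 : (geo (ENNReal.ofReal (1 / 2))) (fun u => ENNReal.ofReal (x ^ u))
        = fun b => ENNReal.ofReal (1 / (2 - x)) * ENNReal.ofReal (x ^ b) := by
      funext b
      rw [geo_pow (by norm_num) (by norm_num) hx0 hx1, ← ENNReal.ofReal_mul (by
        apply div_nonneg <;> linarith)]
      congr 1
      have h2 : (2 - x) ≠ 0 := by linarith
      have h3 : (1 - (1 - 1 / 2) * x) = (2 - x) / 2 := by ring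
      rw [h3]
      field_simp
    rw [h1, geoN_mul, ih, ← ENNReal.ofReal_mul (by apply div_nonneg <;> linarith)]
    congr 1
    rw [pow_succ]
    ring

theorem geoN_zero (β : ℝ≥0∞) (m b : ℕ) : (geo β)^[m] (fun _ => 0) b = 0 := by
  have : (geo β) (fun _ => 0) = fun _ => 0 := by
    funext b; simp [geo]
  rw [Function.iterate_fixed this]

theorem geoN_sum {ι : Type*} (I : Finset ι) (β : ℝ≥0∞) (m : ℕ) (ψ : ι → ℕ → ℝ≥0∞) (b : ℕ) :
    (geo β)^[m] (fun u => ∑ i ∈ I, ψ i u) b = ∑ i ∈ I, (geo β)^[m] (ψ i) b := by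
  classical
  induction I using Finset.induction_on with
  | empty => simp only [Finset.sum_empty]; exact geoN_zero β m b
  | insert a I ha ih =>
    simp only [Finset.sum_insert ha]
    rw [geoN_add, ih]

/-- the supersolution -/
noncomputable def Gf (M d : ℕ) : ℝ :=
  ∑ n ∈ Finset.range M, 1 / ((n : ℝ) + 1) * (((n : ℝ) + 1) / ((n : ℝ) + 2)) ^ d

theorem Gf_nonneg (M d : ℕ) : 0 ≤ Gf M d := Finset.sum_nonneg fun n _ => by positivity

theorem xr_lt (n : ℕ) : ((n : ℝ) + 1) / ((n : ℝ) + 2) < 1 := by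
  rw [div_lt_one (by positivity)]; linarith

theorem Gf_ofReal (M d : ℕ) : ENNReal.ofReal (Gf M (d + 1)) =
    ∑ n ∈ Finset.range M, ENNReal.ofReal (1 / ((n : ℝ) + 2)) *
      ENNReal.ofReal ((((n : ℝ) + 1) / ((n : ℝ) + 2)) ^ d) := by
  unfold Gf
  rw [ENNReal.ofReal_sum_of_nonneg (fun n _ => by positivity)]
  refine Finset.sum_congr rfl fun n _ => ?_
  rw [← ENNReal.ofReal_mul (by positivity)]
  congr 1
  rw [pow_succ]
  field_simp

theorem key_half (M m : ℕ) :
    (geo (ENNReal.ofReal (1 / 2)))^[m] (fun u => ENNReal.ofReal (Gf M (u + 1))) 0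
      ≤ ENNReal.ofReal (Gf (M + 1) m) := by
  simp only [Gf_ofReal]
  rw [geoN_sum]
  have h1 : ∀ n ∈ Finset.range M, (geo (ENNReal.ofReal (1 / 2)))^[m]
      (fun u => ENNReal.ofReal (1 / ((n : ℝ) + 2)) *
        ENNReal.ofReal ((((n : ℝ) + 1) / ((n : ℝ) + 2)) ^ u)) 0
      = ENNReal.ofReal (1 / (((n + 1 : ℕ) : ℝ) + 1) *
        ((((n + 1 : ℕ) : ℝ) + 1) / (((n + 1 : ℕ) : ℝ) + 2)) ^ m) := by
    intro n _
    rw [geoN_mul, geoN_pow_half (by positivity) (xr_lt n), ← ENNReal.ofReal_mul (by positivity)]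
    congr 1
    rw [pow_zero, one_mul]
    have h2 : 1 / (2 - ((n : ℝ) + 1) / ((n : ℝ) + 2)) = ((((n + 1 : ℕ) : ℝ) + 1) /
        (((n + 1 : ℕ) : ℝ) + 2)) := by
      push_cast
      rw [div_eq_div_iff]
      · field_simp
        ring
      · have := xr_lt n
        linarith
      · positivity
    rw [h2]
    push_cast
    ring
  rw [Finset.sum_congr rfl h1, ← ENNReal.ofReal_sum_of_nonneg (fun n _ => by positivity)]
  refine ENNReal.ofReal_le_ofReal ?_
  unfold Gf
  rw [Finset.sum_range_succ']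
  have : 0 ≤ 1 / (((0 : ℕ) : ℝ) + 1) * ((((0 : ℕ) : ℝ) + 1) / (((0 : ℕ) : ℝ) + 2)) ^ m := by
    positivity
  linarith

theorem key_first {β : ℝ} (hβ0 : 0 < β) (hβ1 : β ≤ 1) (M : ℕ) :
    geo (ENNReal.ofReal β) (fun u => ENNReal.ofReal (Gf M (u + 1))) 0
      ≤ ENNReal.ofReal (M * β) := by
  simp only [Gf_ofReal]
  have h0 := geoN_sum (Finset.range M) (ENNReal.ofReal β) 1
    (fun n u => ENNReal.ofReal (1 / ((n : ℝ) + 2)) *
        ENNReal.ofReal ((((n : ℝ) + 1) / ((n : ℝ) + 2)) ^ u)) 0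
  rw [Function.iterate_one] at h0
  rw [h0]
  have h1 : ∀ n ∈ Finset.range M, geo (ENNReal.ofReal β)
      (fun u => ENNReal.ofReal (1 / ((n : ℝ) + 2)) *
        ENNReal.ofReal ((((n : ℝ) + 1) / ((n : ℝ) + 2)) ^ u)) 0 ≤ ENNReal.ofReal β := by
    intro n _
    rw [geo_mul, geo_pow hβ0 hβ1 (by positivity) (xr_lt n), ← ENNReal.ofReal_mul (by positivity)]
    refine ENNReal.ofReal_le_ofReal ?_
    rw [pow_zero, one_mul]
    have hx := xr_lt n
    have hx0 : 0 ≤ ((n : ℝ) + 1) / ((n : ℝ) + 2) := by positivity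
    have h3 : 1 / ((n : ℝ) + 2) ≤ 1 - (1 - β) * (((n : ℝ) + 1) / ((n : ℝ) + 2)) := by
      have h4 : 1 - ((n : ℝ) + 1) / ((n : ℝ) + 2) = 1 / ((n : ℝ) + 2) := by field_simp; ring
      nlinarith
    have h5 : 0 < 1 / ((n : ℝ) + 2) := by positivity
    have h6 : 0 < 1 - (1 - β) * (((n : ℝ) + 1) / ((n : ℝ) + 2)) := lt_of_lt_of_le h5 h3
    rw [← mul_div_assoc, div_le_iff₀ h6]
    nlinarith
  refine (Finset.sum_le_card_nsmul _ _ _ h1).trans ?_
  rw [Finset.card_range, nsmul_eq_mul, ENNReal.ofReal_mul (Nat.cast_nonneg _),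
    ENNReal.ofReal_natCast]

/-- lower bound for the supersolution at small arguments -/
noncomputable def lam (A K : ℕ) : ℝ := 1 / 3 * ∑ n ∈ Finset.Ico (A - 1) K, 1 / ((n : ℝ) + 1)

theorem pow_third (n d : ℕ) (h : d ≤ n + 1) : 1 / 3 ≤ (((n : ℝ) + 1) / ((n : ℝ) + 2)) ^ d := by
  have h1 : (((n : ℝ) + 1) / ((n : ℝ) + 2)) ^ (n + 1) ≤ (((n : ℝ) + 1) / ((n : ℝ) + 2)) ^ d :=
    pow_le_pow_of_le_one (by positivity) (xr_lt n).le h
  refine le_trans ?_ h1
  have h2 : ((n : ℝ) + 1) / ((n : ℝ) + 2) = (1 + 1 / ((n : ℝ) + 1))⁻¹ := by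
    have : (1 + 1 / ((n : ℝ) + 1)) = ((n : ℝ) + 2) / ((n : ℝ) + 1) := by field_simp; ring
    rw [this, inv_div]
  rw [h2, inv_pow, one_div]
  refine inv_anti₀ (by positivity) ?_
  have h3 : 1 + 1 / ((n : ℝ) + 1) ≤ Real.exp (1 / ((n : ℝ) + 1)) := by
    have := Real.add_one_le_exp (1 / ((n : ℝ) + 1))
    linarith
  have h4 : (1 + 1 / ((n : ℝ) + 1)) ^ (n + 1) ≤ (Real.exp (1 / ((n : ℝ) + 1))) ^ (n + 1) :=
    pow_le_pow_left₀ (by positivity) h3 _
  refine h4.trans ?_
  rw [← Real.exp_nat_mul]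
  have h5 : ((n + 1 : ℕ) : ℝ) * (1 / ((n : ℝ) + 1)) = 1 := by push_cast; field_simp
  rw [h5]
  have := Real.exp_one_lt_d9
  linarith

theorem lam_le_Gf {A K M d : ℕ} (hKM : K ≤ M) (hd : d < A) : lam A K ≤ Gf M d := by
  unfold lam Gf
  rw [Finset.mul_sum]
  have h1 : ∑ n ∈ Finset.Ico (A - 1) K, 1 / 3 * (1 / ((n : ℝ) + 1)) ≤
      ∑ n ∈ Finset.Ico (A - 1) K, 1 / ((n : ℝ) + 1) * (((n : ℝ) + 1) / ((n : ℝ) + 2)) ^ d := by
    refine Finset.sum_le_sum fun n hn => ?_
    have hn' := (Finset.mem_Ico.1 hn).1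
    have := pow_third n d (by omega)
    have h2 : 0 ≤ 1 / ((n : ℝ) + 1) := by positivity
    nlinarith
  refine h1.trans (Finset.sum_le_sum_of_subset_of_nonneg ?_ (fun n _ _ => by positivity))
  intro n hn
  have := (Finset.mem_Ico.1 hn).2
  exact Finset.mem_range.2 (by omega)

/-- the transition probabilities (to the left) of the model chain -/
noncomputable def bet (k0 s i : ℕ) : ℝ≥0∞ :=
  if i = 1 then ENNReal.ofReal (1 / ((k0 : ℝ) + 1)) else if i < s then ENNReal.ofReal (1 / 2) else 1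

theorem bet_one (k0 s : ℕ) : bet k0 s 1 = ENNReal.ofReal (1 / ((k0 : ℝ) + 1)) := by simp [bet]

theorem bet_mid {k0 s i : ℕ} (h1 : i ≠ 1) (h2 : i < s) : bet k0 s i = ENNReal.ofReal (1 / 2) := by
  simp only [bet, if_neg h1, if_pos h2]

theorem bet_top {k0 s : ℕ} (h : 2 ≤ s) : bet k0 s s = 1 := by
  have h1 : s ≠ 1 := by omega
  simp [bet, h1]

theorem bet_ne_zero (k0 s i : ℕ) : bet k0 s i ≠ 0 := by
  unfold bet
  split_ifs
  · have : (0 : ℝ) < 1 / ((k0 : ℝ) + 1) := by positivity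
    simpa using this
  · simp
  · simp

theorem bet_le_one (k0 s i : ℕ) : bet k0 s i ≤ 1 := by
  unfold bet
  split_ifs
  · rw [← ENNReal.ofReal_one]
    refine ENNReal.ofReal_le_ofReal ?_
    rw [div_le_one (by positivity)]
    have : (0 : ℝ) ≤ k0 := Nat.cast_nonneg _
    linarith
  · rw [← ENNReal.ofReal_one]
    exact ENNReal.ofReal_le_ofReal (by norm_num)
  · exact le_rfl

theorem Th_mid {A K k0 s : ℕ} (hs : 2 ≤ s) (hlam : 0 < lam A K) (f : ℕ) :
    ∀ i m : ℕ, 2 ≤ i → i + (f + 1) = s + 1 →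
      Th (bet k0 s) A s (fun _ => 0) (fun _ => 0) (f + 1) i m ≤
        ENNReal.ofReal (Gf (K + f) m / lam A K) := by
  have hone : ∀ M d, K ≤ M → d < A → (1 : ℝ≥0∞) ≤ ENNReal.ofReal (Gf M d / lam A K) := by
    intro M d hM hd
    rw [← ENNReal.ofReal_one]
    refine ENNReal.ofReal_le_ofReal ?_
    rw [le_div_iff₀ hlam, one_mul]
    exact lam_le_Gf hM hd
  induction f with
  | zero =>
    intro i m hi his
    have : i = s := by omega
    subst this
    rw [Th_succ, bet_top hs]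
    have hgeo : (geo 1)^[m] = id := by
      have : geo 1 = id := by
        funext ψ b; exact geo_one ψ b
      rw [this, Function.iterate_id]
    rw [hgeo, id]
    simp only [zero_add, add_zero]
    by_cases hm : m < A
    · rw [if_pos hm]; exact hone _ _ le_rfl hm
    · rw [if_neg hm]; exact zero_le
  | succ f ih =>
    intro i m hi his
    by_cases hm : m < A
    · exact (Th_le_one (bet_ne_zero k0 s) (bet_le_one k0 s) A s _ _ _ _ _).trans
        (hone _ _ (by omega) hm)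
    · rw [Th_succ, bet_mid (by omega) (by omega)]
      have hK : K + (f + 1) = K + f + 1 := rfl
      have h1 : ENNReal.ofReal (Gf (K + (f + 1)) m / lam A K)
          = ENNReal.ofReal (1 / lam A K) * ENNReal.ofReal (Gf (K + f + 1) m) := by
        rw [← ENNReal.ofReal_mul (by positivity), hK]
        congr 1
        ring
      rw [h1]
      refine le_trans ?_ (mul_le_mul_right (key_half (K + f) m) _)
      rw [← geoN_mul]
      refine geoN_mono m (fun u => ?_) 0
      have h2 : ¬ (0 + 0 + m + u < A) := by omega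
      rw [if_neg h2, if_pos (show i < s by omega)]
      refine (ih (i + 1) (u + 1) (by omega) (by omega)).trans ?_
      rw [← ENNReal.ofReal_mul (by positivity)]
      refine ENNReal.ofReal_le_ofReal (le_of_eq ?_)
      ring

theorem Th_start {A K k0 s : ℕ} (hs : 2 ≤ s) (hlam : 0 < lam A K) (hK : 1 ≤ K) :
      Th (bet k0 s) A s (fun _ => 0) (fun _ => 0) s 1 1 ≤
        ENNReal.ofReal (((K + s : ℕ) : ℝ) / ((k0 + 1) * lam A K)) := by
  obtain ⟨f, rfl⟩ : ∃ f, s = f + 2 := ⟨s - 2, by omega⟩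
  have hmid := Th_mid (k0 := k0) hs hlam f 2
  rw [show f + 2 = (f + 1) + 1 by ring] at hmid ⊢
  rw [Th_succ, Function.iterate_one, bet_one]
  have hk : (0 : ℝ) < 1 / ((k0 : ℝ) + 1) := by positivity
  have hk1 : 1 / ((k0 : ℝ) + 1) ≤ 1 := by
    rw [div_le_one (by positivity)]
    have : (0 : ℝ) ≤ k0 := Nat.cast_nonneg _
    linarith
  have hfirst := key_first hk hk1 (K + f)
  have h1 : ENNReal.ofReal (1 / lam A K) *
      geo (ENNReal.ofReal (1 / ((k0 : ℝ) + 1))) (fun u => ENNReal.ofReal (Gf (K + f) (u + 1))) 0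
      ≤ ENNReal.ofReal (((K + (f + 1 + 1) : ℕ) : ℝ) / ((k0 + 1) * lam A K)) := by
    refine (mul_le_mul_right hfirst _).trans ?_
    rw [← ENNReal.ofReal_mul (by positivity)]
    refine ENNReal.ofReal_le_ofReal ?_
    have h2 : 1 / lam A K * (((K + f : ℕ) : ℝ) * (1 / ((k0 : ℝ) + 1)))
        = ((K + f : ℕ) : ℝ) / ((k0 + 1) * lam A K) := by
      field_simp
    rw [h2]
    gcongr
    omega
  refine le_trans ?_ h1
  rw [← geo_mul]
  refine geo_mono (fun u => ?_) 0
  have h3 : ENNReal.ofReal (1 / lam A K) * ENNReal.ofReal (Gf (K + f) (u + 1))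
      = ENNReal.ofReal (Gf (K + f) (u + 1) / lam A K) := by
    rw [← ENNReal.ofReal_mul (by positivity)]
    congr 1
    ring
  rw [h3]
  split_ifs with c1 c2
  · rw [← ENNReal.ofReal_one]
    refine ENNReal.ofReal_le_ofReal ?_
    rw [le_div_iff₀ hlam, one_mul]
    exact lam_le_Gf (by omega) (by omega)
  · exact hmid (u + 1) le_rfl (by omega)
  · omega

/-- energy function of the model chain -/
noncomputable def enr (K k0 z : ℕ) : ℝ :=
  if z = 0 then 0 else ((k0 : ℝ) + z - 1) * (2 * K - ((k0 : ℝ) + z - 1))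

theorem enr_succ (K k0 z : ℕ) : enr K k0 (z + 1) = ((k0 : ℝ) + z) * (2 * K - ((k0 : ℝ) + z)) := by
  unfold enr
  rw [if_neg (Nat.succ_ne_zero z)]
  push_cast
  ring

theorem chain_bound {K k0 A : ℕ} (hk0 : 1 ≤ k0) (hkK : k0 < K) (hlam : 0 < lam A K) (L : ℕ) :
    wch (bet k0 (K - k0 + 1)) (K - k0 + 1) A L (K - k0 + 1) (fun _ => 0) ≤
      ENNReal.ofReal ((1 - 1 / (K : ℝ) ^ 2) ^ L * (K : ℝ) ^ 2) +
        ENNReal.ofReal (2 * (K : ℝ) / ((k0 + 1) * lam A K)) := by
  obtain ⟨s, hs⟩ : ∃ s, s = K - k0 + 1 := ⟨_, rfl⟩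
  rw [← hs]
  have hs2 : 2 ≤ s := by omega
  have hKr : (0 : ℝ) < K := by exact_mod_cast (show 0 < K by omega)
  have hK1 : (1 : ℝ) ≤ (K : ℝ) ^ 2 := by
    have : (1 : ℝ) ≤ K := by exact_mod_cast (show 1 ≤ K by omega)
    nlinarith
  have hρ0 : 0 ≤ 1 - 1 / (K : ℝ) ^ 2 := by
    have : 1 / (K : ℝ) ^ 2 ≤ 1 := by rw [div_le_one (by positivity)]; exact hK1
    linarith
  have hes : ∀ z, 1 ≤ z → z ≤ s → 1 ≤ enr K k0 z ∧ enr K k0 z ≤ (K : ℝ) ^ 2 := by
    intro z hz1 hzs
    obtain ⟨y, rfl⟩ : ∃ y, z = y + 1 := ⟨z - 1, by omega⟩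
    rw [enr_succ]
    have h1 : ((k0 : ℝ) + y) ≤ K := by
      have : k0 + y ≤ K := by omega
      exact_mod_cast this
    have h2 : (1 : ℝ) ≤ (k0 : ℝ) + y := by
      have : 1 ≤ k0 + y := by omega
      exact_mod_cast this
    constructor
    · nlinarith
    · nlinarith [sq_nonneg ((K : ℝ) - ((k0 : ℝ) + y))]
  have henn : ∀ z, z ≤ s + 1 → 0 ≤ enr K k0 z := by
    intro z hz
    unfold enr
    split_ifs with h0
    · exact le_rfl
    · have h1 : ((k0 : ℝ) + z - 1) ≤ K + 1 := by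
        have : k0 + z ≤ K + 2 := by omega
        have : ((k0 : ℝ) + z) ≤ K + 2 := by exact_mod_cast this
        linarith
      have h2 : (1 : ℝ) ≤ (k0 : ℝ) + z - 1 := by
        have : 2 ≤ k0 + z := by omega
        have : (2 : ℝ) ≤ (k0 : ℝ) + z := by exact_mod_cast this
        linarith
      have h3 : (1 : ℝ) ≤ K := by exact_mod_cast (show 1 ≤ K by omega)
      apply mul_nonneg <;> linarith
  have main := wch_le (bet_le_one k0 s) s A (bet_top hs2) (fun z => ENNReal.ofReal (enr K k0 z))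
    (ENNReal.ofReal (1 - 1 / (K : ℝ) ^ 2))
    (fun z hz1 hzs => by
      rw [← ENNReal.ofReal_one]
      exact ENNReal.ofReal_le_ofReal (hes z hz1 hzs).1)
    (fun z hz1 hzs => by
      obtain ⟨h1, h2⟩ := hes z hz1 hzs
      have hgoal : enr K k0 z - 1 ≤ (1 - 1 / (K : ℝ) ^ 2) * enr K k0 z := by
        have : enr K k0 z / (K : ℝ) ^ 2 ≤ 1 := by rw [div_le_one (by positivity)]; exact h2
        have h3 : (1 - 1 / (K : ℝ) ^ 2) * enr K k0 z = enr K k0 z - enr K k0 z / (K : ℝ) ^ 2 := by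
          ring
        rw [h3]; linarith
      rw [← ENNReal.ofReal_mul hρ0]
      rcases Nat.eq_or_lt_of_le hzs with hz | hz
      · subst hz
        rw [bet_top hs2, one_mul, tsub_self, zero_mul, add_zero]
        refine ENNReal.ofReal_le_ofReal (le_trans ?_ hgoal)
        obtain ⟨y, rfl⟩ : ∃ y, z = y + 2 := ⟨z - 2, by omega⟩
        rw [show y + 2 - 1 = y + 1 by omega, enr_succ, show y + 2 = (y + 1) + 1 by ring, enr_succ]
        have h4 : (K : ℝ) = k0 + (y + 1) := by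
          have : K = k0 + (y + 1) := by omega
          exact_mod_cast this
        push_cast
        rw [h4]
        nlinarith
      · rcases Nat.eq_or_lt_of_le hz1 with hz' | hz'
        · subst hz'
          rw [bet_one]
          have h5 : (1 : ℝ≥0∞) - ENNReal.ofReal (1 / ((k0 : ℝ) + 1))
              = ENNReal.ofReal (k0 / ((k0 : ℝ) + 1)) := by
            rw [← ENNReal.ofReal_one, ← ENNReal.ofReal_sub _ (by positivity)]
            congr 1
            field_simp
            ring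
          have h6 : enr K k0 (1 - 1) = 0 := by simp [enr]
          rw [h6, ENNReal.ofReal_zero, mul_zero, zero_add, h5, ← ENNReal.ofReal_mul (by positivity)]
          refine ENNReal.ofReal_le_ofReal (le_trans ?_ hgoal)
          rw [enr_succ, show enr K k0 1 = (k0 : ℝ) * (2 * K - k0) by
            have := enr_succ K k0 0
            simpa using this]
          have h7 : (1 : ℝ) ≤ k0 := by exact_mod_cast hk0
          have h8 : (k0 : ℝ) / ((k0 : ℝ) + 1) * (((k0 : ℝ) + (1 : ℕ)) * (2 * K - ((k0 : ℝ) + (1 : ℕ))))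
              = k0 * (2 * K - (k0 + 1)) := by
            push_cast
            field_simp
          rw [h8]
          nlinarith
        · rw [bet_mid (by omega) hz]
          have h5 : (1 : ℝ≥0∞) - ENNReal.ofReal (1 / 2) = ENNReal.ofReal (1 / 2) := by
            rw [← ENNReal.ofReal_one, ← ENNReal.ofReal_sub _ (by positivity)]
            congr 1
            norm_num
          rw [h5, ← ENNReal.ofReal_mul (by norm_num), ← ENNReal.ofReal_mul (by norm_num),
            ← ENNReal.ofReal_add]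
          · refine ENNReal.ofReal_le_ofReal (le_trans ?_ hgoal)
            obtain ⟨y, rfl⟩ : ∃ y, z = y + 2 := ⟨z - 2, by omega⟩
            rw [show y + 2 - 1 = y + 1 by omega, enr_succ, show y + 2 = (y + 1) + 1 by ring,
              enr_succ, enr_succ]
            push_cast
            nlinarith
          · exact mul_nonneg (by norm_num) (henn _ (by omega))
          · exact mul_nonneg (by norm_num) (henn _ (by omega)))
    L s le_rfl (fun _ => 0) (fun _ => 0)
  simp only [add_zero] at main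
  refine main.trans ?_
  rw [if_neg (by omega)]
  refine add_le_add ?_ ?_
  · rw [← ENNReal.ofReal_pow hρ0, ← ENNReal.ofReal_mul (pow_nonneg hρ0 _)]
    refine ENNReal.ofReal_le_ofReal ?_
    exact mul_le_mul_of_nonneg_left (hes s (by omega) le_rfl).2 (pow_nonneg hρ0 _)
  · refine (Th_start hs2 hlam (by omega)).trans (ENNReal.ofReal_le_ofReal ?_)
    have h9 : ((K + s : ℕ) : ℝ) ≤ 2 * K := by
      have : K + s ≤ 2 * K := by omega
      exact_mod_cast this
    gcongr

end Pool.Agent.Helper98.Cov
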