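import Pool.Agent.Helper98.CovMacro
import Pool.Agent.Helper98.CovOne

/-! # The net on an almost collinear resistance metric -/

namespace Pool.Agent.Helper98.Cov

open scoped ENNReal
open Finset

variable {V : Type} [Fintype V] [DecidableEq V] {G : SimpleGraph V} [DecidableRel G.Adj]

/-- ideal position of the `i`-th site -/
noncomputable def ps (a : ℝ) (k0 i : ℕ) : ℝ := if i = 0 then 0 else ((k0 : ℝ) + i - 1) * a

/-- the net -/
structure Net (G : SimpleGraph V) [DecidableRel G.Adj] (o : V) (a e ϑ : ℝ) (k0 s : ℕ)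
    (ζ : ℕ → V) : Prop where
  conn : G.Connected
  card : 1 < Fintype.card V
  he : 0 ≤ e
  ha : 0 < a
  hea : 1000 * e ≤ a
  hk0 : 1 ≤ k0
  hs : 2 ≤ s
  hϑ : ϑ ≤ k0 * a
  line : ∀ x y, ϑ ≤ Res G o x → ϑ ≤ Res G o y → Res G x y ≤ |Res G o x - Res G o y| + e
  zero : ζ 0 = o
  pos : ∀ i, 1 ≤ i → i ≤ s → ((k0 : ℝ) + i - 1) * a ≤ Res G o (ζ i) ∧
    Res G o (ζ i) ≤ ((k0 : ℝ) + i - 1) * a + e

variable {o : V} {a e ϑ : ℝ} {k0 s : ℕ} {ζ : ℕ → V}

theorem abs_Res_sub_le (hG : G.Connected) (o x y : V) : |Res G o x - Res G o y| ≤ Res G x y := by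
  rw [abs_le]
  have h1 := Res_tri hG o x y
  have h2 := Res_tri hG o y x
  rw [Res_symm hG y x] at h2
  constructor <;> linarith

theorem Net.Pge (h : Net G o a e ϑ k0 s ζ) {i : ℕ} (hi : 1 ≤ i) (his : i ≤ s) :
    ϑ ≤ Res G o (ζ i) := by
  have h1 := (h.pos i hi his).1
  have h2 := h.hϑ
  have h3 : (0 : ℝ) ≤ (i : ℝ) - 1 := by
    have : (1 : ℝ) ≤ i := by exact_mod_cast hi
    linarith
  have h4 := h.ha
  nlinarith

theorem Net.near (h : Net G o a e ϑ k0 s ζ) {i : ℕ} (his : i ≤ s) :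
    ps a k0 i ≤ Res G o (ζ i) ∧ Res G o (ζ i) ≤ ps a k0 i + e := by
  unfold ps
  split_ifs with h0
  · subst h0
    rw [h.zero, Res_self]
    exact ⟨le_rfl, by linarith [h.he]⟩
  · exact h.pos i (by omega) his

theorem Net.dist (h : Net G o a e ϑ k0 s ζ) {i j : ℕ} (his : i ≤ s) (hjs : j ≤ s) :
    |ps a k0 i - ps a k0 j| - 2 * e ≤ Res G (ζ i) (ζ j) ∧
      Res G (ζ i) (ζ j) ≤ |ps a k0 i - ps a k0 j| + 2 * e := by
  have hi := h.near his
  have hj := h.near hjs
  have he := h.he
  have h1 := abs_Res_sub_le h.conn o (ζ i) (ζ j)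
  have h2 : |ps a k0 i - ps a k0 j| ≤ |Res G o (ζ i) - Res G o (ζ j)| + e := by
    rw [abs_le]
    have h3 := le_abs_self (Res G o (ζ i) - Res G o (ζ j))
    have h4 := neg_abs_le (Res G o (ζ i) - Res G o (ζ j))
    constructor <;> linarith [hi.1, hi.2, hj.1, hj.2]
  have h5 : |Res G o (ζ i) - Res G o (ζ j)| ≤ |ps a k0 i - ps a k0 j| + e := by
    rw [abs_le]
    have h3 := le_abs_self (ps a k0 i - ps a k0 j)
    have h4 := neg_abs_le (ps a k0 i - ps a k0 j)
    constructor <;> linarith [hi.1, hi.2, hj.1, hj.2]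
  refine ⟨by linarith, ?_⟩
  by_cases hi0 : i = 0
  · subst hi0
    rw [h.zero]
    have h6 : ps a k0 0 = 0 := by simp [ps]
    have h7 := neg_abs_le (ps a k0 0 - ps a k0 j)
    rw [h6] at h7 ⊢
    linarith [hj.2]
  by_cases hj0 : j = 0
  · subst hj0
    rw [h.zero, Res_symm h.conn]
    have h6 : ps a k0 0 = 0 := by simp [ps]
    have h7 := le_abs_self (ps a k0 i - ps a k0 0)
    rw [h6] at h7 ⊢
    linarith [hi.2]
  · have h6 := h.line (ζ i) (ζ j) (h.Pge (by omega) his) (h.Pge (by omega) hjs)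
    linarith

theorem ps_succ (a : ℝ) (k0 i : ℕ) : ps a k0 (i + 1) = ((k0 : ℝ) + i) * a := by
  unfold ps
  rw [if_neg (Nat.succ_ne_zero i)]
  push_cast
  ring

theorem ps_mono (ha : 0 < a) {i j : ℕ} (hk0 : 1 ≤ k0) (h : i < j) : ps a k0 i + a ≤ ps a k0 j := by
  obtain ⟨j, rfl⟩ : ∃ j', j = j' + 1 := ⟨j - 1, by omega⟩
  rw [ps_succ]
  have hk : (1 : ℝ) ≤ k0 := by exact_mod_cast hk0
  rcases Nat.eq_zero_or_pos i with h0 | h0
  · subst h0
    have h6 : ps a k0 0 = 0 := by simp [ps]
    rw [h6]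
    have : (0 : ℝ) ≤ j := Nat.cast_nonneg _
    nlinarith
  · obtain ⟨i, rfl⟩ : ∃ i', i = i' + 1 := ⟨i - 1, by omega⟩
    rw [ps_succ]
    have : (i : ℝ) + 1 ≤ j := by
      have : i + 1 ≤ j := by omega
      exact_mod_cast this
    nlinarith

theorem Net.ne (h : Net G o a e ϑ k0 s ζ) {i j : ℕ} (his : i ≤ s) (hjs : j ≤ s) (hij : i ≠ j) :
    ζ i ≠ ζ j := by
  intro heq
  have h1 := (h.dist his hjs).1
  rw [heq, Res_self] at h1
  have h2 : a ≤ |ps a k0 i - ps a k0 j| := by
    rcases Nat.lt_or_gt_of_ne hij with h3 | h3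
    · have := ps_mono h.ha h.hk0 h3
      have h4 := neg_abs_le (ps a k0 i - ps a k0 j)
      linarith
    · have := ps_mono h.ha h.hk0 h3
      have h4 := le_abs_self (ps a k0 i - ps a k0 j)
      linarith
  linarith [h.he, h.ha, h.hea]

/-- normalised potential -/
noncomputable def phi (G : SimpleGraph V) [DecidableRel G.Adj] (b u v : V) : ℝ :=
  pot G u b v / Res G b u

theorem phi_nonneg (hG : G.Connected) (b u v : V) : 0 ≤ phi G b u v :=
  div_nonneg (pot_nonneg hG _ _ _) (Res_nonneg hG _ _)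

theorem phi_self (hG : G.Connected) {b u : V} (h : b ≠ u) : phi G b u b = 1 := by
  unfold phi
  rw [pot_source hG, div_self (Res_pos hG h).ne']

theorem phi_ground (b u : V) : phi G b u u = 0 := by
  unfold phi; rw [pot_ground, zero_div]

theorem phi_step (hG : G.Connected) (hN : 1 < Fintype.card V) {b u v : V} (hb : v ≠ b) (hu : v ≠ u)
    (S : Finset V) :
    step G (fun _ w => ENNReal.ofReal (phi G b u w)) S v = ENNReal.ofReal (phi G b u v) := by
  refine step_harm (degree_pos hG hN v) _ (fun w => phi_nonneg hG b u w) S ?_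
  have h : phi G b u = fun w => (1 / Res G b u) * pot G u b w := by
    funext w; unfold phi; ring
  rw [h, lap_mul, lap_pot hG, if_neg hb, if_neg hu]
  simp

theorem phi_le (hG : G.Connected) (b u v : V) : phi G b u v ≤ Res G v u / Res G b u := by
  unfold phi
  exact div_le_div_of_nonneg_right (pot_le' hG u b v) (Res_nonneg hG _ _)

theorem phi_eq (hG : G.Connected) (b u v : V) :
    phi G b u v = (Res G v u + Res G b u - Res G v b) / (2 * Res G b u) := by
  unfold phi
  rw [pot_def, Res_symm hG u b, div_div]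

theorem exc_ind_le (hG : G.Connected) (hN : 1 < Fintype.card V) (Z : V → Prop) {b u : V}
    (hb : Z b) (hu : Z u) (hbu : b ≠ u) (S : Finset V) (v : V) :
    exc G Z (fun _ v => if v = b then 1 else 0) S v ≤ ENNReal.ofReal (phi G b u v) := by
  refine exc_le Z _ (fun _ _ => True) (fun _ v => ENNReal.ofReal (phi G b u v)) ?_ ?_
    (fun _ _ _ _ _ _ => trivial) S v trivial
  · intro S v _ _
    by_cases hvb : v = b
    · subst hvb
      rw [if_pos rfl, phi_self hG hbu, ENNReal.ofReal_one]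
    · rw [if_neg hvb]; exact zero_le
  · intro S v _ hz
    have e1 : v ≠ b := by rintro rfl; exact hz hb
    have e2 : v ≠ u := by rintro rfl; exact hz hu
    rw [phi_step hG hN e1 e2]

/-- far escape: a site beyond a neighbouring site -/
theorem Net.phi_far (h : Net G o a e ϑ k0 s ζ) {i j y : ℕ} (his : i ≤ s) (hjs : j ≤ s)
    (hb : (i < y ∧ y < j) ∨ (j < y ∧ y < i)) : phi G (ζ j) (ζ y) (ζ i) ≤ 6 * e / a := by
  have hys : y ≤ s := by omega
  have he := h.he
  have ha := h.ha
  have hea := h.hea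
  have h1 := h.dist his hys
  have h2 := h.dist hjs hys
  have h3 := h.dist his hjs
  have habs : |ps a k0 i - ps a k0 y| + |ps a k0 j - ps a k0 y| = |ps a k0 i - ps a k0 j| ∧
      a ≤ |ps a k0 j - ps a k0 y| := by
    rcases hb with ⟨hb1, hb2⟩ | ⟨hb1, hb2⟩
    · have m1 := ps_mono ha h.hk0 hb1
      have m2 := ps_mono ha h.hk0 hb2
      rw [abs_of_nonpos (by linarith), abs_of_nonneg (by linarith), abs_of_nonpos (by linarith)]
      constructor <;> linarith
    · have m1 := ps_mono ha h.hk0 hb1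
      have m2 := ps_mono ha h.hk0 hb2
      rw [abs_of_nonneg (by linarith), abs_of_nonpos (by linarith), abs_of_nonneg (by linarith)]
      constructor <;> linarith
  have hR : a / 2 ≤ Res G (ζ j) (ζ y) := by linarith
  have hRpos : 0 < Res G (ζ j) (ζ y) := by linarith
  rw [phi_eq h.conn, div_le_div_iff₀ (by linarith) ha]
  have h4 : Res G (ζ i) (ζ y) + Res G (ζ j) (ζ y) - Res G (ζ i) (ζ j) ≤ 6 * e := by
    linarith
  have h5 : (Res G (ζ i) (ζ y) + Res G (ζ j) (ζ y) - Res G (ζ i) (ζ j)) * a ≤ 6 * e * a :=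
    mul_le_mul_of_nonneg_right h4 ha.le
  have h6 : 6 * e * a ≤ 6 * e * (2 * Res G (ζ j) (ζ y)) := by
    apply mul_le_mul_of_nonneg_left _ (by linarith)
    linarith
  linarith

/-- escape to a neighbouring site `j`, the other neighbour being `y` -/
theorem Net.phi_nb (h : Net G o a e ϑ k0 s ζ) {i j y : ℕ} (hjs : j ≤ s) (hys : y ≤ s)
    (hb : (j < i ∧ i < y) ∨ (y < i ∧ i < j)) :
    phi G (ζ j) (ζ y) (ζ i) ≤
      |ps a k0 i - ps a k0 y| / |ps a k0 j - ps a k0 y| + 10 * e / a := by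
  have his : i ≤ s := by omega
  have he := h.he
  have ha := h.ha
  have hea := h.hea
  have h1 := h.dist his hys
  have h2 := h.dist hjs hys
  have h3 := h.dist his hjs
  obtain ⟨x, hx⟩ : ∃ x, x = |ps a k0 i - ps a k0 y| := ⟨_, rfl⟩
  obtain ⟨X, hX⟩ : ∃ X, X = |ps a k0 j - ps a k0 y| := ⟨_, rfl⟩
  have habs : x + |ps a k0 i - ps a k0 j| = X ∧ a ≤ |ps a k0 i - ps a k0 j| ∧ a ≤ x := by
    rw [hx, hX]
    rcases hb with ⟨hb1, hb2⟩ | ⟨hb1, hb2⟩
    · have m1 := ps_mono ha h.hk0 hb1
      have m2 := ps_mono ha h.hk0 hb2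
      rw [abs_of_nonpos (by linarith), abs_of_nonneg (by linarith), abs_of_nonpos (by linarith)]
      refine ⟨by linarith, by linarith, by linarith⟩
    · have m1 := ps_mono ha h.hk0 hb1
      have m2 := ps_mono ha h.hk0 hb2
      rw [abs_of_nonneg (by linarith), abs_of_nonpos (by linarith), abs_of_nonneg (by linarith)]
      refine ⟨by linarith, by linarith, by linarith⟩
  rw [← hx, ← hX]
  rw [← hx] at h1
  rw [← hX] at h2
  obtain ⟨b1, b2, b3⟩ := habs
  have hX2 : 2 * a ≤ X := by linarith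
  have hRpos : 0 < Res G (ζ j) (ζ y) := by linarith
  have hXpos : 0 < X := by linarith
  rw [phi_eq h.conn]
  -- numerator at most `2 x + 6 e`, denominator at least `2 (X - 2 e)`
  have h4 : (Res G (ζ i) (ζ y) + Res G (ζ j) (ζ y) - Res G (ζ i) (ζ j)) / (2 * Res G (ζ j) (ζ y))
      = 1 / 2 + (Res G (ζ i) (ζ y) - Res G (ζ i) (ζ j)) / (2 * Res G (ζ j) (ζ y)) := by
    field_simp
    ring
  have h5 : (Res G (ζ i) (ζ y) - Res G (ζ i) (ζ j)) / (2 * Res G (ζ j) (ζ y))
      ≤ (2 * x - X) / (2 * X) + 10 * e / a := by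
    obtain ⟨N, hN⟩ : ∃ N, N = Res G (ζ i) (ζ y) - Res G (ζ i) (ζ j) := ⟨_, rfl⟩
    obtain ⟨D, hD⟩ : ∃ D, D = Res G (ζ j) (ζ y) := ⟨_, rfl⟩
    rw [← hN, ← hD]
    rw [← hD] at h2 hRpos
    have n1 : N ≤ 2 * x - X + 4 * e := by rw [hN]; linarith
    have n2 : 2 * x - X ≤ X := by linarith
    have n3 : -X ≤ 2 * x - X := by linarith
    -- N/(2D) ≤ (2x-X+4e)/(2D) and compare with X
    have h6 : N / (2 * D) ≤ (2 * x - X) / (2 * X) + 5 * e / D := by
      rw [div_add_div _ _ (by linarith) (by linarith), div_le_div_iff₀ (by linarith)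
        (by nlinarith)]
      -- N * (2 X D) ≤ ((2x - X) D + 2 X 5 e) * (2 D)
      have h7 : N * X ≤ (2 * x - X) * D + 10 * e * X := by
        have h8 : N * X ≤ (2 * x - X + 4 * e) * X := mul_le_mul_of_nonneg_right n1 hXpos.le
        have h9 : (2 * x - X) * (X - D) ≤ 2 * e * X := by
          have h10 : |X - D| ≤ 2 * e := by rw [abs_le]; constructor <;> linarith
          have h11 : |2 * x - X| ≤ X := by rw [abs_le]; constructor <;> linarith
          calc (2 * x - X) * (X - D) ≤ |(2 * x - X) * (X - D)| := le_abs_self _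
            _ = |2 * x - X| * |X - D| := abs_mul _ _
            _ ≤ X * (2 * e) := mul_le_mul h11 h10 (abs_nonneg _) hXpos.le
            _ = 2 * e * X := by ring
        have h12 : 0 ≤ e * X := mul_nonneg he hXpos.le
        nlinarith
      nlinarith
    have h13 : 5 * e / D ≤ 10 * e / a := by
      rw [div_le_div_iff₀ hRpos ha]
      nlinarith
    linarith
  have h14 : x / X = 1 / 2 + (2 * x - X) / (2 * X) := by field_simp; ring
  rw [h4, h14]
  linarith

theorem Net.trans (h : Net G o a e ϑ k0 s ζ) {i : ℕ} (hi1 : 1 ≤ i) (his : i ≤ s) (i' : ℕ)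
    (hi's : i' ≤ s) (hne : i' ≠ i) (S : Finset V) :
    exc G (oth ζ s i) (fun _ v => if v = ζ i' then 1 else 0) S (ζ i)
      ≤ Qm (bet k0 s) i i' + ENNReal.ofReal (10 * e / a) := by
  have ha := h.ha
  have he := h.he
  have hz : ∀ j, j ≤ s → j ≠ i → oth ζ s i (ζ j) := fun j h1 h2 => ⟨j, h1, h2, rfl⟩
  have hz' := hz i' hi's hne
  have h610 : 6 * e / a ≤ 10 * e / a := by
    apply div_le_div_of_nonneg_right _ ha.le
    linarith
  have hk : (1 : ℝ) ≤ k0 := by exact_mod_cast h.hk0
  -- far cases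
  by_cases hfar1 : i' + 1 < i
  · have hy : i - 1 ≤ s := by omega
    refine (exc_ind_le h.conn h.card (oth ζ s i) hz' (hz (i - 1) hy (by omega))
      (h.ne hi's hy (by omega)) S (ζ i)).trans ?_
    refine le_trans ?_ (le_add_left le_rfl)
    exact ENNReal.ofReal_le_ofReal ((h.phi_far his hi's (Or.inr ⟨by omega, by omega⟩)).trans h610)
  by_cases hfar2 : i + 1 < i'
  · have hy : i + 1 ≤ s := by omega
    refine (exc_ind_le h.conn h.card (oth ζ s i) hz' (hz (i + 1) hy (by omega))
      (h.ne hi's hy (by omega)) S (ζ i)).trans ?_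
    refine le_trans ?_ (le_add_left le_rfl)
    exact ENNReal.ofReal_le_ofReal ((h.phi_far his hi's (Or.inl ⟨by omega, by omega⟩)).trans h610)
  -- neighbours
  rcases Nat.lt_or_gt_of_ne hne with hlt | hgt
  · have hi' : i' + 1 = i := by omega
    have hQ : Qm (bet k0 s) i i' = bet k0 s i := by unfold Qm; rw [if_pos hi']
    rw [hQ]
    rcases Nat.eq_or_lt_of_le his with his' | his'
    · subst his'
      rw [bet_top h.hs]
      refine le_trans ?_ (le_add_right le_rfl)
      exact exc_const_le _ _ 1 (fun S v _ => by split_ifs <;> simp) _ _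
    · have hy : i + 1 ≤ s := by omega
      refine (exc_ind_le h.conn h.card (oth ζ s i) hz' (hz (i + 1) hy (by omega))
        (h.ne hi's hy (by omega)) S (ζ i)).trans ?_
      refine (ENNReal.ofReal_le_ofReal (h.phi_nb (i := i) hi's hy (Or.inl ⟨hlt, by omega⟩))).trans ?_
      rw [ENNReal.ofReal_add (by positivity) (by positivity)]
      gcongr
      by_cases hi1' : i = 1
      · subst hi1'
        have : i' = 0 := by omega
        subst this
        rw [bet_one]
        refine ENNReal.ofReal_le_ofReal (le_of_eq ?_)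
        have e0 : ps a k0 0 = 0 := by simp [ps]
        have p1 : ps a k0 1 = (k0 : ℝ) * a := by
          have := ps_succ a k0 0
          simpa using this
        have p2 : ps a k0 (1 + 1) = ((k0 : ℝ) + 1) * a := by
          have := ps_succ a k0 1
          simpa using this
        rw [e0, p2, p1]
        have e1 : |(k0 : ℝ) * a - ((k0 : ℝ) + 1) * a| = a := by
          rw [abs_of_nonpos (by nlinarith)]; ring
        have e2 : |0 - ((k0 : ℝ) + 1) * a| = ((k0 : ℝ) + 1) * a := by
          rw [abs_of_nonpos (by nlinarith)]; ring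
        rw [e1, e2]
        field_simp
      · rw [bet_mid hi1' his']
        refine ENNReal.ofReal_le_ofReal (le_of_eq ?_)
        obtain ⟨j, rfl⟩ : ∃ j, i = j + 2 := ⟨i - 2, by omega⟩
        have : i' = j + 1 := by omega
        subst this
        rw [ps_succ, ps_succ, show j + 2 = (j + 1) + 1 by ring, ps_succ]
        have e1 : |((k0 : ℝ) + (j + 1 : ℕ)) * a - ((k0 : ℝ) + (j + 1 + 1 : ℕ)) * a| = a := by
          rw [abs_of_nonpos (by push_cast; nlinarith)]; push_cast; ring
        have e2 : |((k0 : ℝ) + (j : ℕ)) * a - ((k0 : ℝ) + (j + 1 + 1 : ℕ)) * a| = 2 * a := by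
          rw [abs_of_nonpos (by push_cast; nlinarith)]; push_cast; ring
        rw [e1, e2]
        field_simp
  · have hi' : i' = i + 1 := by omega
    subst hi'
    have hQ : Qm (bet k0 s) i (i + 1) = 1 - bet k0 s i := by
      unfold Qm; rw [if_neg (by omega), if_pos rfl]
    rw [hQ]
    have hy : i - 1 ≤ s := by omega
    refine (exc_ind_le h.conn h.card (oth ζ s i) hz' (hz (i - 1) hy (by omega))
      (h.ne hi's hy (by omega)) S (ζ i)).trans ?_
    refine (ENNReal.ofReal_le_ofReal (h.phi_nb (i := i) hi's hy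
      (Or.inr ⟨by omega, by omega⟩))).trans ?_
    rw [ENNReal.ofReal_add (by positivity) (by positivity)]
    gcongr
    by_cases hi1' : i = 1
    · subst hi1'
      rw [bet_one]
      have h5 : (1 : ℝ≥0∞) - ENNReal.ofReal (1 / ((k0 : ℝ) + 1))
          = ENNReal.ofReal (k0 / ((k0 : ℝ) + 1)) := by
        rw [← ENNReal.ofReal_one, ← ENNReal.ofReal_sub _ (by positivity)]
        congr 1
        field_simp
        ring
      rw [h5]
      refine ENNReal.ofReal_le_ofReal (le_of_eq ?_)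
      have e0 : ps a k0 (1 - 1) = 0 := by simp [ps]
      have p1 : ps a k0 1 = (k0 : ℝ) * a := by
        have := ps_succ a k0 0
        simpa using this
      have p2 : ps a k0 (1 + 1) = ((k0 : ℝ) + 1) * a := by
        have := ps_succ a k0 1
        simpa using this
      rw [e0, p2, p1]
      have e1 : |(k0 : ℝ) * a - 0| = k0 * a := by
        rw [abs_of_nonneg (by nlinarith)]; ring
      have e2 : |((k0 : ℝ) + 1) * a - 0| = ((k0 : ℝ) + 1) * a := by
        rw [abs_of_nonneg (by nlinarith)]; ring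
      rw [e1, e2]
      field_simp
    · rw [bet_mid hi1' (by omega)]
      have h5 : (1 : ℝ≥0∞) - ENNReal.ofReal (1 / 2) = ENNReal.ofReal (1 / 2) := by
        rw [← ENNReal.ofReal_one, ← ENNReal.ofReal_sub _ (by positivity)]
        congr 1
        norm_num
      rw [h5]
      refine ENNReal.ofReal_le_ofReal (le_of_eq ?_)
      obtain ⟨j, rfl⟩ : ∃ j, i = j + 2 := ⟨i - 2, by omega⟩
      rw [ps_succ, show j + 2 - 1 = j + 1 by omega, ps_succ, show j + 2 = (j + 1) + 1 by ring,
        ps_succ]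
      have e1 : |((k0 : ℝ) + (j + 1 : ℕ)) * a - ((k0 : ℝ) + (j : ℕ)) * a| = a := by
        rw [abs_of_nonneg (by push_cast; nlinarith)]; push_cast; ring
      have e2 : |((k0 : ℝ) + (j + 1 + 1 : ℕ)) * a - ((k0 : ℝ) + (j : ℕ)) * a| = 2 * a := by
        rw [abs_of_nonneg (by push_cast; nlinarith)]; push_cast; ring
      rw [e1, e2]
      field_simp

end Pool.Agent.Helper98.Cov
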