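import Pool.Agent.Helper98.CovTour
import Pool.Agent.Helper98.CovGeo

/-! # The trace of the walk on a net, compared with the model chain -/

namespace Pool.Agent.Helper98.Cov

open scoped ENNReal
open Finset

variable {V : Type} [Fintype V] [DecidableEq V] {G : SimpleGraph V} [DecidableRel G.Adj]

/-- indicator that `X` is not contained in the visited set -/
def unc (X : Finset V) (S : Finset V) (_ : V) : ℝ≥0∞ := if X ⊆ S then 0 else 1

omit [Fintype V] in
theorem unc_le_one (X S : Finset V) (v : V) : unc X S v ≤ 1 := by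
  unfold unc; split_ifs <;> simp

omit [Fintype V] in
theorem unc_anti {X S S' : Finset V} (v v' : V) (h : S ⊆ S') : unc X S' v' ≤ unc X S v := by
  unfold unc
  by_cases h1 : X ⊆ S
  · rw [if_pos h1, if_pos (h1.trans h)]
  · rw [if_neg h1]; split_ifs <;> simp

variable (G)

/-- expected terminal reward at the hitting of `Z` -/
noncomputable def exc (Z : V → Prop) (g : Finset V → V → ℝ≥0∞) : Finset V → V → ℝ≥0∞ :=
  val G (fun _ v => Z v) (fun _ _ => 0) g

variable {G}

theorem exc_of_mem {Z : V → Prop} {g : Finset V → V → ℝ≥0∞} {v : V} (S : Finset V) (h : Z v) :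
    exc G Z g S v = g S v :=
  val_of_mem (G := G) (B := fun _ v => Z v) (s := fun _ _ => 0) (g := g) h

theorem exc_of_not {Z : V → Prop} {g : Finset V → V → ℝ≥0∞} {v : V} (S : Finset V) (h : ¬ Z v) :
    exc G Z g S v = step G (exc G Z g) S v := by
  have := val_of_not (G := G) (B := fun _ v => Z v) (s := fun _ _ => 0) (g := g) (S := S) h
  rw [zero_add] at this
  exact this

theorem exc_le (Z : V → Prop) (g : Finset V → V → ℝ≥0∞) (D : Finset V → V → Prop)
    (F : Finset V → V → ℝ≥0∞)
    (hB : ∀ S v, D S v → Z v → g S v ≤ F S v)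
    (hs : ∀ S v, D S v → ¬ Z v → step G F S v ≤ F S v)
    (hD : ∀ S v, D S v → ¬ Z v → ∀ w, G.Adj v w → D (insert w S) w)
    (S : Finset V) (v : V) (h : D S v) : exc G Z g S v ≤ F S v := by
  refine val_le (G := G) (B := fun _ v => Z v) (s := fun _ _ => 0) (g := g) D F hB ?_ hD S v h
  intro S v hd hz
  rw [zero_add]; exact hs S v hd hz

theorem exc_const_le (Z : V → Prop) (g : Finset V → V → ℝ≥0∞) (c : ℝ≥0∞)
    (hB : ∀ S v, Z v → g S v ≤ c) (S : Finset V) (v : V) : exc G Z g S v ≤ c :=
  exc_le Z g (fun _ _ => True) (fun _ _ => c) (fun S v _ h => hB S v h)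
    (fun _ _ _ _ => step_const_le _ _ _) (fun _ _ _ _ _ _ => trivial) S v trivial

/-- escape probability through the far set being uncovered at the hitting of `o` -/
noncomputable def ff (G : SimpleGraph V) [DecidableRel G.Adj] (o : V) (Fs : Finset V) :
    Finset V → V → ℝ≥0∞ := exc G (fun v => v = o) (unc Fs)

theorem ff_le_one (o : V) (Fs S : Finset V) (v : V) : ff G o Fs S v ≤ 1 :=
  exc_const_le _ _ 1 (fun S v _ => unc_le_one Fs S v) S v

/-- the other sites of the net -/
def oth (ζ : ℕ → V) (s i : ℕ) (v : V) : Prop := ∃ j, j ≤ s ∧ j ≠ i ∧ v = ζ j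

theorem ff_le_exc {o : V} {ζ : ℕ → V} {s i : ℕ} (ho : ζ 0 = o) (hi : i ≠ 0) (Fs S : Finset V)
    (v : V) : ff G o Fs S v ≤ exc G (oth ζ s i) (ff G o Fs) S v := by
  refine val_le_stop (G := G) (B := fun _ v => v = o) (s := fun _ _ => 0) (g := unc Fs)
    (fun _ _ => True) (exc G (oth ζ s i) (ff G o Fs)) ?_ S v trivial
  intro S v _
  by_cases hz : oth ζ s i v
  · left
    rw [exc_of_mem S hz]
    exact le_rfl
  · right
    refine ⟨fun hb => ?_, fun hb => ⟨?_, fun _ _ => trivial⟩⟩
    · exfalso
      apply hz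
      exact ⟨0, Nat.zero_le _, fun h => hi h.symm, by rw [ho]; exact hb⟩
    · rw [zero_add, exc_of_not S hz]

/-- the defect term of a segment -/
noncomputable def Gd (A : ℕ) (X : Finset V) (S : Finset V) (c : ℕ) : ℝ≥0∞ :=
  if X ⊆ S then 0 else (1 / 2 : ℝ≥0∞) ^ (A - c)

/-- intended transition probabilities -/
noncomputable def Qm (β : ℕ → ℝ≥0∞) (i i' : ℕ) : ℝ≥0∞ :=
  if i' + 1 = i then β i else if i' = i + 1 then 1 - β i else 0

theorem macro_bound {o : V} {ζ : ℕ → V} {s A : ℕ} (ho : ζ 0 = o)
    {β : ℕ → ℝ≥0∞} (hβ1 : ∀ i, β i ≤ 1)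
    (Fs : Finset V) (J : Finset ℕ) (seg : ℕ → Finset V) (kk : ℕ → ℕ)
    (hkk : ∀ j ∈ J, 1 ≤ kk j ∧ kk j ≤ s)
    (hcov : Fs ⊆ J.biUnion seg)
    (hhalf : ∀ j ∈ J, ∀ S, ζ (kk j) ∈ S →
      exc G (oth ζ s (kk j)) (unc (seg j)) S (ζ (kk j)) ≤ 1 / 2)
    (ε : ℝ≥0∞)
    (htrans : ∀ i, 1 ≤ i → i ≤ s → ∀ i', i' ≤ s → i' ≠ i → ∀ S,
      exc G (oth ζ s i) (fun _ v => if v = ζ i' then 1 else 0) S (ζ i) ≤ Qm β i i' + ε)
    (L : ℕ) : ∀ (S : Finset V) (i : ℕ) (c : ℕ → ℕ), ζ i ∈ S → i ≤ s →
      ff G o Fs S (ζ i) ≤ wch β s A L i c + (L : ℝ≥0∞) * ((s : ℝ≥0∞) * ε)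
        + ∑ j ∈ J, Gd A (seg j) S (c (kk j)) := by
  have hzero : ∀ (L : ℕ) (S : Finset V) (c : ℕ → ℕ), ff G o Fs S (ζ 0) ≤
      wch β s A L 0 c + (L : ℝ≥0∞) * ((s : ℝ≥0∞) * ε)
        + ∑ j ∈ J, Gd A (seg j) S (c (kk j)) := by
    intro L S c
    have h1 : ff G o Fs S (ζ 0) = unc Fs S (ζ 0) := by
      unfold ff; exact exc_of_mem (Z := fun v => v = o) S ho
    rw [h1, wch_of_zero]
    unfold unc failv
    by_cases hF : Fs ⊆ S
    · rw [if_pos hF]; exact zero_le
    · rw [if_neg hF]
      split_ifs with h2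
      · rw [add_assoc]; exact le_add_right le_rfl
      · push Not at h2
        have h3 : ∃ j ∈ J, ¬ seg j ⊆ S := by
          by_contra hcon
          push Not at hcon
          exact hF (hcov.trans (Finset.biUnion_subset.2 hcon))
        obtain ⟨j, hj, hjS⟩ := h3
        have h4 : Gd A (seg j) S (c (kk j)) = 1 := by
          unfold Gd
          rw [if_neg hjS, Nat.sub_eq_zero_of_le (h2 _ (hkk j hj).1 (hkk j hj).2), pow_zero]
        refine le_trans ?_ (le_add_left le_rfl)
        rw [← h4]
        exact Finset.single_le_sum (f := fun j => Gd A (seg j) S (c (kk j)))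
          (fun _ _ => zero_le) hj
  induction L with
  | zero =>
    intro S i c _ _
    by_cases hi0 : i = 0
    · subst hi0; exact hzero 0 S c
    · have : wch β s A 0 i c = 1 := by simp [wch, hi0]
      rw [this, add_assoc]
      exact (ff_le_one o Fs S (ζ i)).trans (le_add_right le_rfl)
  | succ L ih =>
    intro S i c hiS his
    by_cases hi0 : i = 0
    · subst hi0; exact hzero (L + 1) S c
    have hi1 : 1 ≤ i := by omega
    obtain ⟨c', hc'⟩ : ∃ c' : ℕ → ℕ, c' = Function.update c i (c i + 1) := ⟨_, rfl⟩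
    have hc'i : c' i = c i + 1 := by rw [hc', Function.update_self]
    have hc'j : ∀ j, j ≠ i → c' j = c j := fun j hj => by rw [hc', Function.update_of_ne hj]
    refine (ff_le_exc (s := s) ho hi0 Fs S (ζ i)).trans ?_
    obtain ⟨I, hI⟩ : ∃ I, I = (Finset.range (s + 1)).erase i := ⟨_, rfl⟩
    have hmemI : ∀ i', i' ∈ I ↔ i' ≠ i ∧ i' ≤ s := by
      intro i'
      rw [hI, Finset.mem_erase, Finset.mem_range, Nat.lt_succ_iff]
    have hIcard : I.card = s := by
      rw [hI, Finset.card_erase_of_mem (Finset.mem_range.2 (by omega)), Finset.card_range,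
        Nat.add_sub_cancel]
    -- the candidate
    have hcand : exc G (oth ζ s i) (ff G o Fs) S (ζ i) ≤
        (∑ i' ∈ I, wch β s A L i' c' *
            exc G (oth ζ s i) (fun _ v => if v = ζ i' then 1 else 0) S (ζ i))
          + (L : ℝ≥0∞) * ((s : ℝ≥0∞) * ε)
          + ∑ j ∈ J, (if kk j = i then (1 / 2 : ℝ≥0∞) ^ (A - c' i) *
              exc G (oth ζ s i) (unc (seg j)) S (ζ i) else Gd A (seg j) S (c (kk j))) := by
      refine exc_le (oth ζ s i) (ff G o Fs) (fun S' v' => S ⊆ S' ∧ v' ∈ S')
        (fun S' v' => (∑ i' ∈ I, wch β s A L i' c' *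
            exc G (oth ζ s i) (fun _ v => if v = ζ i' then 1 else 0) S' v')
          + (L : ℝ≥0∞) * ((s : ℝ≥0∞) * ε)
          + ∑ j ∈ J, (if kk j = i then (1 / 2 : ℝ≥0∞) ^ (A - c' i) *
              exc G (oth ζ s i) (unc (seg j)) S' v' else Gd A (seg j) S (c (kk j))))
        ?_ ?_ ?_ S (ζ i) ⟨Finset.Subset.refl _, hiS⟩
      · rintro S' v' ⟨hSS', hv'⟩ hz
        obtain ⟨i', hi's, hi'i, rfl⟩ := hz
        have hz' : oth ζ s i (ζ i') := ⟨i', hi's, hi'i, rfl⟩
        refine (ih S' i' c' hv' hi's).trans ?_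
        gcongr ?_ + _ + ?_
        · have h1 := Finset.single_le_sum (f := fun i'' => wch β s A L i'' c' *
            exc G (oth ζ s i) (fun _ v => if v = ζ i'' then (1 : ℝ≥0∞) else 0) S' (ζ i'))
            (fun _ _ => zero_le) ((hmemI i').2 ⟨hi'i, hi's⟩)
          refine le_trans ?_ h1
          rw [exc_of_mem S' hz', if_pos rfl, mul_one]
        · refine Finset.sum_le_sum fun j hj => ?_
          by_cases hkj : kk j = i
          · rw [if_pos hkj, hkj, exc_of_mem S' hz']
            unfold Gd unc
            split_ifs <;> simp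
          · rw [if_neg hkj, hc'j _ hkj]
            unfold Gd
            by_cases hsub : seg j ⊆ S
            · rw [if_pos hsub, if_pos (hsub.trans hSS')]
            · rw [if_neg hsub]
              split_ifs
              · exact zero_le
              · exact le_rfl
      · rintro S' v' ⟨hSS', hv'⟩ hz
        rw [step_add, step_add]
        gcongr ?_ + ?_ + ?_
        · rw [step_sum]
          refine Finset.sum_le_sum fun i' _ => ?_
          rw [step_mul, exc_of_not S' hz]
        · exact step_const_le _ _ _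
        · rw [step_sum]
          refine Finset.sum_le_sum fun j _ => ?_
          split_ifs
          · rw [step_mul, exc_of_not S' hz]
          · exact step_const_le _ _ _
      · rintro S' v' ⟨hSS', hv'⟩ hz w _
        exact ⟨hSS'.trans (Finset.subset_insert _ _), Finset.mem_insert_self _ _⟩
    refine hcand.trans ?_
    have hA : ∑ i' ∈ I, wch β s A L i' c' *
            exc G (oth ζ s i) (fun _ v => if v = ζ i' then 1 else 0) S (ζ i)
          ≤ wch β s A (L + 1) i c + (s : ℝ≥0∞) * ε := by
      have h1 : ∀ i' ∈ I, wch β s A L i' c' *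
            exc G (oth ζ s i) (fun _ v => if v = ζ i' then 1 else 0) S (ζ i)
          ≤ wch β s A L i' c' * Qm β i i' + ε := by
        intro i' hi'
        rw [hmemI] at hi'
        calc _ ≤ wch β s A L i' c' * (Qm β i i' + ε) := by
              gcongr
              exact htrans i hi1 his i' hi'.2 hi'.1 S
          _ = wch β s A L i' c' * Qm β i i' + wch β s A L i' c' * ε := mul_add _ _ _
          _ ≤ _ := by
              gcongr
              exact mul_le_of_le_one_left zero_le (wch_le_one hβ1 s A L i' c')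
      refine (Finset.sum_le_sum h1).trans ?_
      rw [Finset.sum_add_distrib, Finset.sum_const, hIcard, nsmul_eq_mul]
      gcongr
      rw [wch_succ _ _ _ _ hi0, ← hc']
      have h2 : ∀ i' ∈ I, wch β s A L i' c' * Qm β i i' ≤
          (if i' = i - 1 then β i * wch β s A L (i - 1) c' else 0)
          + (if i' = i + 1 then (1 - β i) * wch β s A L (i + 1) c' else 0) := by
        intro i' _
        unfold Qm
        by_cases h3 : i' + 1 = i
        · have h4 : i' = i - 1 := by omega
          rw [if_pos h3, if_pos h4, h4, mul_comm]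
          exact le_add_right le_rfl
        · rw [if_neg h3]
          by_cases h5 : i' = i + 1
          · rw [if_pos h5, if_pos h5, h5, mul_comm (wch _ _ _ _ _ _)]
            exact le_add_left le_rfl
          · rw [if_neg h5, mul_zero]; exact zero_le
      refine (Finset.sum_le_sum h2).trans ?_
      rw [Finset.sum_add_distrib, Finset.sum_ite_eq', Finset.sum_ite_eq']
      gcongr
      · split_ifs
        · exact le_rfl
        · exact zero_le
      · split_ifs
        · exact le_rfl
        · exact zero_le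
    have hB : ∑ j ∈ J, (if kk j = i then (1 / 2 : ℝ≥0∞) ^ (A - c' i) *
              exc G (oth ζ s i) (unc (seg j)) S (ζ i) else Gd A (seg j) S (c (kk j)))
          ≤ ∑ j ∈ J, Gd A (seg j) S (c (kk j)) := by
      refine Finset.sum_le_sum fun j hj => ?_
      by_cases hkj : kk j = i
      · rw [if_pos hkj]
        by_cases hsub : seg j ⊆ S
        · have h1 : exc G (oth ζ s i) (unc (seg j)) S (ζ i) ≤ 0 := by
            refine exc_le _ _ (fun S' _ => S ⊆ S') (fun _ _ => 0) ?_ ?_ ?_ S (ζ i)
              (Finset.Subset.refl _)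
            · intro S' v' hS' _
              unfold unc
              rw [if_pos (hsub.trans hS')]
            · intro S' v' _ _
              exact step_const_le _ _ _
            · intro S' v' hS' _ w _
              exact hS'.trans (Finset.subset_insert _ _)
          rw [nonpos_iff_eq_zero.1 h1, mul_zero]
          exact zero_le
        · have h1 := hhalf j hj S (by rw [hkj]; exact hiS)
          rw [hkj] at h1
          unfold Gd
          rw [if_neg hsub, hc'i, hkj]
          refine (mul_le_mul_right h1 _).trans ?_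
          rcases Nat.lt_or_ge (c i) A with h2 | h2
          · rw [← pow_succ, show A - (c i + 1) + 1 = A - c i by omega]
          · rw [Nat.sub_eq_zero_of_le h2, Nat.sub_eq_zero_of_le (by omega), pow_zero, one_mul]
            exact ENNReal.half_le_self
      · rw [if_neg hkj]
    calc _ ≤ (wch β s A (L + 1) i c + (s : ℝ≥0∞) * ε) + (L : ℝ≥0∞) * ((s : ℝ≥0∞) * ε)
          + ∑ j ∈ J, Gd A (seg j) S (c (kk j)) := by gcongr
      _ = _ := by push_cast; ring

end Pool.Agent.Helper98.Cov
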