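import Pool.Agent.Helper98.CovVal

/-! # Cover time and cover cost as values -/

namespace Pool.Agent.Helper98.Cov

open scoped ENNReal
open Finset

variable {V : Type} [Fintype V] [DecidableEq V] (G : SimpleGraph V) [DecidableRel G.Adj]

omit [DecidableEq V] in
theorem pathProb_cons (t : ℕ) (v : V) (ω : Fin (t + 1) → V) :
    pathProb G (t + 1) (Fin.cons v ω : Fin (t + 2) → V)
      = (if G.Adj v (ω 0) then ((G.degree v : ℕ) : ℝ≥0∞)⁻¹ else 0) * pathProb G t ω := by
  unfold pathProb
  rw [Fin.prod_univ_succ]
  congr 1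

theorem sum_path (t : ℕ) (S : Finset V) (v : V) (Φ : Finset V → ℝ≥0∞) :
    ∑ ω : Fin (t + 1) → V, (if ω 0 = v then pathProb G t ω * Φ (S ∪ Finset.univ.image ω) else 0)
      = (step G)^[t] (fun S _ => Φ S) (insert v S) v := by
  induction t generalizing S v with
  | zero =>
    rw [Function.iterate_zero, id]
    rw [Fintype.sum_eq_single (fun _ => v)]
    · have h1 : (Finset.univ.image (fun _ : Fin (0 + 1) => v)) = {v} := by
        ext x; simp [eq_comm]
      rw [if_pos rfl, h1]
      have h2 : S ∪ {v} = insert v S := by ext x; simp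
      rw [h2]
      simp [pathProb]
    · intro ω hω
      rw [if_neg]
      intro h
      apply hω
      funext i
      have : i = 0 := Fin.ext (by have := i.isLt; omega)
      rw [this, h]
  | succ t ih =>
    rw [Function.iterate_succ', Function.comp]
    have e := (Fin.consEquiv (fun _ : Fin (t + 2) => V)).sum_comp (fun ω : Fin (t + 2) → V =>
      (if ω 0 = v then pathProb G (t + 1) ω * Φ (S ∪ Finset.univ.image ω) else 0))
    rw [← e, Fintype.sum_prod_type]
    rw [Fintype.sum_eq_single v]
    · have h1 : ∀ ω : Fin (t + 1) → V,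
          (if (Fin.consEquiv (fun _ : Fin (t + 2) => V)) (v, ω) 0 = v then
            pathProb G (t + 1) ((Fin.consEquiv (fun _ : Fin (t + 2) => V)) (v, ω)) *
            Φ (S ∪ Finset.univ.image ((Fin.consEquiv (fun _ : Fin (t + 2) => V)) (v, ω))) else 0)
          = ∑ w ∈ G.neighborFinset v, ((G.degree v : ℕ) : ℝ≥0∞)⁻¹ *
            (if ω 0 = w then pathProb G t ω * Φ (insert v S ∪ Finset.univ.image ω) else 0) := by
        intro ω
        have e1 : (Fin.consEquiv (fun _ : Fin (t + 2) => V)) (v, ω) = (Fin.cons v ω : Fin (t + 2) → V)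
          := rfl
        rw [e1]
        have e2 : (Fin.cons v ω : Fin (t + 2) → V) 0 = v := rfl
        rw [if_pos e2, pathProb_cons]
        have e3 : S ∪ Finset.univ.image (Fin.cons v ω : Fin (t + 2) → V)
            = insert v S ∪ Finset.univ.image ω := by
          ext x
          simp only [Finset.mem_union, Finset.mem_image, Finset.mem_univ, true_and,
            Finset.mem_insert]
          constructor
          · rintro (h | ⟨i, hi⟩)
            · exact Or.inl (Or.inr h)
            · revert hi
              refine Fin.cases ?_ ?_ i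
              · intro h; exact Or.inl (Or.inl h.symm)
              · intro j h; exact Or.inr ⟨j, h⟩
          · rintro ((h | h) | ⟨i, hi⟩)
            · exact Or.inr ⟨0, h.symm⟩
            · exact Or.inl h
            · exact Or.inr ⟨i.succ, hi⟩
        rw [e3]
        by_cases ha : G.Adj v (ω 0)
        · rw [if_pos ha, Finset.sum_eq_single (ω 0)]
          · rw [if_pos rfl, mul_assoc]
          · intro b _ hb
            rw [if_neg (fun h => hb h.symm), mul_zero]
          · intro h
            exact absurd (by simpa using ha) h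
        · rw [if_neg ha, zero_mul, zero_mul]
          symm
          refine Finset.sum_eq_zero fun w hw => ?_
          have hw' : G.Adj v w := by simpa using hw
          rw [if_neg, mul_zero]
          rintro rfl
          exact ha hw'
      rw [Finset.sum_congr rfl (fun ω _ => h1 ω), Finset.sum_comm]
      unfold step
      refine Finset.sum_congr rfl fun w _ => ?_
      rw [← Finset.mul_sum]
      congr 1
      exact ih (insert v S) w
    · intro x hx
      refine Finset.sum_eq_zero fun ω _ => ?_
      rw [if_neg]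
      exact hx

theorem expVisited_eq (r : V) (t : ℕ) (Φ : Finset V → ℝ≥0∞) :
    expVisited G r t Φ = (step G)^[t] (fun S _ => Φ S) {r} r := by
  have := sum_path G t ∅ r Φ
  simpa [expVisited] using this

theorem expVisited_congr {r : V} {t : ℕ} {Φ Φ' : Finset V → ℝ≥0∞}
    (h : ∀ S, r ∈ S → Φ S = Φ' S) : expVisited G r t Φ = expVisited G r t Φ' := by
  unfold expVisited
  refine Finset.sum_congr rfl fun ω _ => ?_
  by_cases h0 : ω 0 = r
  · rw [if_pos h0, if_pos h0, h _ ?_]
    exact Finset.mem_image.2 ⟨0, Finset.mem_univ _, h0⟩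
  · rw [if_neg h0, if_neg h0]

theorem expVisited_mul (r : V) (t : ℕ) (c : ℝ≥0∞) (Φ : Finset V → ℝ≥0∞) :
    expVisited G r t (fun S => c * Φ S) = c * expVisited G r t Φ := by
  unfold expVisited
  rw [Finset.mul_sum]
  refine Finset.sum_congr rfl fun ω _ => ?_
  split_ifs
  · ring
  · rw [mul_zero]

theorem expVisited_sum {ι : Type*} (I : Finset ι) (r : V) (t : ℕ) (Φ : ι → Finset V → ℝ≥0∞) :
    expVisited G r t (fun S => ∑ i ∈ I, Φ i S) = ∑ i ∈ I, expVisited G r t (Φ i) := by
  unfold expVisited
  rw [Finset.sum_comm]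
  refine Finset.sum_congr rfl fun ω _ => ?_
  split_ifs
  · rw [Finset.mul_sum]
  · rw [Finset.sum_const_zero]

/-- expected time to visit all of `X` -/
noncomputable def Mv (X : Finset V) : Finset V → V → ℝ≥0∞ :=
  val G (fun S _ => X ⊆ S) (fun _ _ => 1) (fun _ _ => 0)

theorem sum_iterate_eq (X : Finset V) (n : ℕ) (S : Finset V) (v : V) :
    ∑ i ∈ Finset.range n, (step G)^[i] (fun S _ => if X ⊆ S then (0 : ℝ≥0∞) else 1) S v
      = valN G (fun S _ => X ⊆ S) (fun _ _ => 1) (fun _ _ => 0) n S v := by
  induction n generalizing S v with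
  | zero =>
    simp [valN]
  | succ n ih =>
    rw [Finset.sum_range_succ']
    have h1 : ∑ k ∈ Finset.range n,
        (step G)^[k + 1] (fun S _ => if X ⊆ S then (0 : ℝ≥0∞) else 1) S v
        = step G (valN G (fun S _ => X ⊆ S) (fun _ _ => 1) (fun _ _ => 0) n) S v := by
      have : step G (valN G (fun S _ => X ⊆ S) (fun _ _ => 1) (fun _ _ => 0) n) S v
          = step G (fun S v => ∑ i ∈ Finset.range n,
            (step G)^[i] (fun S _ => if X ⊆ S then (0 : ℝ≥0∞) else 1) S v) S v :=
        step_congr_at fun w _ => (ih _ _).symm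
      rw [this, step_sum]
      refine Finset.sum_congr rfl fun k _ => ?_
      rw [Function.iterate_succ', Function.comp]
    rw [h1, Function.iterate_zero, id]
    by_cases h : X ⊆ S
    · rw [valN_of_mem (B := fun S _ => X ⊆ S) h, if_pos h, add_zero]
      refine step_zero_at fun w _ => ?_
      have h2 : X ⊆ insert w S := h.trans (Finset.subset_insert _ _)
      rw [valN_of_mem (B := fun S _ => X ⊆ S) h2]
    · rw [valN_succ_of_not (B := fun S _ => X ⊆ S) h, if_neg h, add_comm]

theorem tsum_iterate_eq (X : Finset V) (S : Finset V) (v : V) :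
    ∑' i : ℕ, (step G)^[i] (fun S _ => if X ⊆ S then (0 : ℝ≥0∞) else 1) S v = Mv G X S v := by
  rw [ENNReal.tsum_eq_iSup_nat]
  unfold Mv val
  congr 1
  funext n
  exact sum_iterate_eq G X n S v

theorem coverTime_eq (r : V) : coverTime G r = Mv G Finset.univ {r} r := by
  rw [← tsum_iterate_eq]
  unfold coverTime
  congr 1
  funext t
  rw [expVisited_eq]
  have : (fun (S : Finset V) (_ : V) => if S = Finset.univ then (0 : ℝ≥0∞) else 1)
      = (fun (S : Finset V) (_ : V) => if Finset.univ ⊆ S then (0 : ℝ≥0∞) else 1) := by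
    funext S _
    simp only [Finset.univ_subset_iff]
  rw [this]

theorem coverCost_eq (r : V) (hN : 1 < Fintype.card V) :
    coverCost G r = (ENNReal.ofReal ((Fintype.card V : ℝ) - 1))⁻¹ * ∑ x, Mv G {x} {r} r := by
  have hN' : (0 : ℝ) < (Fintype.card V : ℝ) - 1 := by
    have : (1 : ℝ) < (Fintype.card V : ℝ) := by exact_mod_cast hN
    linarith
  have key : ∀ t, expVisited G r t
      (fun S => ENNReal.ofReal (1 - ((S.erase r).card : ℝ) / ((Fintype.card V : ℝ) - 1)))
      = (ENNReal.ofReal ((Fintype.card V : ℝ) - 1))⁻¹ *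
        ∑ x, (step G)^[t] (fun S _ => if {x} ⊆ S then (0 : ℝ≥0∞) else 1) {r} r := by
    intro t
    have h1 : ∀ x, (step G)^[t] (fun S _ => if {x} ⊆ S then (0 : ℝ≥0∞) else 1) {r} r
        = expVisited G r t (fun S => if {x} ⊆ S then (0 : ℝ≥0∞) else 1) :=
      fun x => (expVisited_eq G r t _).symm
    rw [Finset.sum_congr rfl (fun x _ => h1 x), ← expVisited_sum, ← expVisited_mul]
    refine expVisited_congr G fun S hr => ?_
    have h2 : ∑ x : V, (if ({x} : Finset V) ⊆ S then (0 : ℝ≥0∞) else 1)
        = ENNReal.ofReal ((Fintype.card V : ℝ) - (S.card : ℝ)) := by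
      have h3 : ∀ x : V, (if ({x} : Finset V) ⊆ S then (0 : ℝ≥0∞) else 1)
          = if x ∈ Sᶜ then 1 else 0 := by
        intro x
        by_cases hx : x ∈ S <;> simp [hx]
      rw [Finset.sum_congr rfl (fun x _ => h3 x)]
      rw [Finset.sum_ite_mem, Finset.univ_inter, Finset.sum_const, nsmul_eq_mul, mul_one,
        Finset.card_compl]
      have hle : S.card ≤ Fintype.card V := Finset.card_le_univ S
      rw [← Nat.cast_sub hle, ENNReal.ofReal_natCast]
    rw [h2]
    have h4 : ((S.erase r).card : ℝ) = (S.card : ℝ) - 1 := by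
      rw [Finset.card_erase_of_mem hr, Nat.cast_sub (Finset.card_pos.2 ⟨r, hr⟩), Nat.cast_one]
    rw [h4, ← ENNReal.ofReal_inv_of_pos hN', ← ENNReal.ofReal_mul (by positivity)]
    congr 1
    field_simp
    ring
  unfold coverCost
  rw [tsum_congr key, ENNReal.tsum_mul_left]
  congr 1
  rw [Summable.tsum_finsetSum (fun i _ => ENNReal.summable)]
  refine Finset.sum_congr rfl fun x _ => ?_
  exact tsum_iterate_eq G {x} {r} r

end Pool.Agent.Helper98.Cov
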