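import Mathlib

/-! # Effective resistance by the Green function of the Laplacian -/

namespace Pool.Agent.Helper98.Cov

open Finset

variable {V : Type} [Fintype V] [DecidableEq V] (G : SimpleGraph V) [DecidableRel G.Adj]

/-- the Laplacian of a real function -/
noncomputable def lap (u : V → ℝ) (v : V) : ℝ :=
  (G.degree v : ℝ) * u v - ∑ w ∈ G.neighborFinset v, u w

omit [DecidableEq V] in
theorem lap_eq_sum (u : V → ℝ) (v : V) : lap G u v = ∑ w ∈ G.neighborFinset v, (u v - u w) := by
  unfold lap
  rw [Finset.sum_sub_distrib, Finset.sum_const, G.card_neighborFinset_eq_degree, nsmul_eq_mul]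

omit [DecidableEq V] in
theorem lap_add (u w : V → ℝ) (v : V) : lap G (fun x => u x + w x) v = lap G u v + lap G w v := by
  unfold lap
  rw [Finset.sum_add_distrib]
  ring

omit [DecidableEq V] in
theorem lap_sub (u w : V → ℝ) (v : V) : lap G (fun x => u x - w x) v = lap G u v - lap G w v := by
  unfold lap
  rw [Finset.sum_sub_distrib]
  ring

omit [DecidableEq V] in
theorem lap_mul (c : ℝ) (u : V → ℝ) (v : V) : lap G (fun x => c * u x) v = c * lap G u v := by
  unfold lap
  rw [← Finset.mul_sum]
  ring

omit [DecidableEq V] in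
theorem lap_const (c : ℝ) (v : V) : lap G (fun _ => c) v = 0 := by
  rw [lap_eq_sum]
  simp

omit [DecidableEq V] in
theorem lap_neg (u : V → ℝ) (v : V) : lap G (fun x => - u x) v = - lap G u v := by
  unfold lap
  rw [Finset.sum_neg_distrib]
  ring

omit [DecidableEq V] in
theorem lap_sum {ι : Type*} (I : Finset ι) (u : ι → V → ℝ) (v : V) :
    lap G (fun x => ∑ i ∈ I, u i x) v = ∑ i ∈ I, lap G (u i) v := by
  unfold lap
  rw [Finset.sum_comm, Finset.mul_sum, ← Finset.sum_sub_distrib]

omit [DecidableEq V] in
theorem neighbor_sum (u : V → ℝ) (v : V) :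
    ∑ w ∈ G.neighborFinset v, u w = ∑ w, if G.Adj v w then u w else 0 := by
  have : G.neighborFinset v = Finset.univ.filter (fun w => G.Adj v w) := by
    ext w; simp
  rw [this, Finset.sum_filter]

omit [DecidableEq V] in
theorem lap_selfadj (f g : V → ℝ) : ∑ v, f v * lap G g v = ∑ v, g v * lap G f v := by
  unfold lap
  simp only [mul_sub, Finset.sum_sub_distrib]
  congr 1
  · refine Finset.sum_congr rfl fun v _ => ?_
    ring
  · simp only [neighbor_sum, Finset.mul_sum]
    rw [Finset.sum_comm]
    refine Finset.sum_congr rfl fun v _ => ?_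
    refine Finset.sum_congr rfl fun w _ => ?_
    by_cases h : G.Adj v w
    · rw [if_pos h, if_pos h.symm]; ring
    · rw [if_neg h, if_neg (fun h' => h h'.symm)]; ring

variable {G}

omit [DecidableEq V] in
theorem max_principle (hG : G.Connected) (Z : Set V) (hZ : Z.Nonempty) (u : V → ℝ)
    (hu : ∀ v, v ∉ Z → lap G u v ≤ 0) (c : ℝ) (hc : ∀ z ∈ Z, u z ≤ c) (v : V) : u v ≤ c := by
  by_contra hcon
  push Not at hcon
  have : Nonempty V := ⟨v⟩
  obtain ⟨m, hm⟩ := Finite.exists_max u
  have hmc : c < u m := lt_of_lt_of_le hcon (hm v)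
  have hwalk : ∀ (x y : V) (p : G.Walk x y), u x = u m → u y = u m := by
    intro x y p
    induction p with
    | nil => exact id
    | cons hadj p ih =>
      rename_i a b e
      intro hx
      apply ih
      have ha : a ∉ Z := fun h => by
        have := hc a h
        linarith
      have h1 := hu a ha
      rw [lap_eq_sum] at h1
      have h2 : ∀ w ∈ G.neighborFinset a, 0 ≤ u a - u w := fun w _ => by
        have := hm w
        linarith
      have h3 : ∑ w ∈ G.neighborFinset a, (u a - u w) = 0 :=
        le_antisymm h1 (Finset.sum_nonneg h2)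
      have h4 := (Finset.sum_eq_zero_iff_of_nonneg h2).1 h3 b (by simpa using hadj)
      linarith
  obtain ⟨z, hz⟩ := hZ
  obtain ⟨p⟩ := hG.preconnected m z
  have := hwalk m z p rfl
  have := hc z hz
  linarith

omit [DecidableEq V] in
theorem min_principle (hG : G.Connected) (Z : Set V) (hZ : Z.Nonempty) (u : V → ℝ)
    (hu : ∀ v, v ∉ Z → 0 ≤ lap G u v) (c : ℝ) (hc : ∀ z ∈ Z, c ≤ u z) (v : V) : c ≤ u v := by
  have := max_principle hG Z hZ (fun x => - u x) (fun v hv => by
    rw [lap_neg]; have := hu v hv; linarith) (-c) (fun z hz => by have := hc z hz; linarith) v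
  linarith

theorem exists_gam (hG : G.Connected) :
    ∃ Γ : V → V → ℝ, (∀ a v, lap G (Γ a) v = (if v = a then 1 else 0) - 1 / (Fintype.card V : ℝ)) ∧
      ∀ a b, Γ a b = Γ b a := by
  have : Nonempty V := hG.nonempty
  have hN : (0 : ℝ) < (Fintype.card V : ℝ) := by exact_mod_cast Fintype.card_pos
  let A : (V → ℝ) →ₗ[ℝ] (V → ℝ) :=
    { toFun := fun f v => lap G f v + (∑ w, f w) / (Fintype.card V : ℝ)
      map_add' := by
        intro f g
        funext v
        have h1 : lap G (f + g) v = lap G f v + lap G g v := lap_add G f g v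
        simp only [Pi.add_apply, h1, Finset.sum_add_distrib]
        ring
      map_smul' := by
        intro c f
        funext v
        have h1 : lap G (c • f) v = c * lap G f v := lap_mul G c f v
        simp only [Pi.smul_apply, smul_eq_mul, h1, ← Finset.mul_sum, RingHom.id_apply]
        ring }
  have hA : ∀ f v, A f v = lap G f v + (∑ w, f w) / (Fintype.card V : ℝ) := fun f v => rfl
  have hsum : ∀ f, ∑ v, lap G f v = 0 := by
    intro f
    have := lap_selfadj G (fun _ => 1) f
    simp only [one_mul, lap_const, mul_zero, Finset.sum_const_zero] at this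
    exact this
  have hAsum : ∀ f, ∑ v, A f v = ∑ v, f v := by
    intro f
    simp only [hA, Finset.sum_add_distrib, hsum, zero_add, Finset.sum_const, Finset.card_univ,
      nsmul_eq_mul]
    field_simp
  have hinj : Function.Injective A := by
    rw [injective_iff_map_eq_zero]
    intro f hf
    have h1 : ∑ v, f v = 0 := by rw [← hAsum, hf]; simp
    have h2 : ∀ v, lap G f v = 0 := by
      intro v
      have := congrFun hf v
      rw [hA, h1] at this
      simpa using this
    let v0 : V := Classical.arbitrary V
    have h3 : ∀ v, f v ≤ f v0 :=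
      max_principle hG {v0} ⟨v0, rfl⟩ f (fun v _ => (h2 v).le) (f v0) (by rintro z rfl; exact le_rfl)
    have h4 : ∀ v, f v0 ≤ f v :=
      min_principle hG {v0} ⟨v0, rfl⟩ f (fun v _ => (h2 v).ge) (f v0) (by rintro z rfl; exact le_rfl)
    have h5 : ∀ v, f v = f v0 := fun v => le_antisymm (h3 v) (h4 v)
    rw [Finset.sum_congr rfl (fun v _ => h5 v), Finset.sum_const, Finset.card_univ, nsmul_eq_mul]
      at h1
    have h6 : f v0 = 0 := by
      rcases mul_eq_zero.1 h1 with h | h
      · exact absurd h hN.ne'
      · exact h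
    funext v
    rw [h5 v, h6]; rfl
  have hsurj : Function.Surjective A := LinearMap.injective_iff_surjective.1 hinj
  choose Γ hΓ using fun a : V => hsurj (Pi.single a 1)
  have hs : ∀ a, ∑ v, Γ a v = 1 := by
    intro a
    rw [← hAsum, hΓ]
    simp
  have hl : ∀ a v, lap G (Γ a) v = (if v = a then 1 else 0) - 1 / (Fintype.card V : ℝ) := by
    intro a v
    have := congrFun (hΓ a) v
    rw [hA, hs] at this
    have h2 : (Pi.single a 1 : V → ℝ) v = if v = a then 1 else 0 := by
      by_cases h : v = a
      · subst h; simp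
      · simp [h]
    rw [h2] at this
    linarith
  refine ⟨Γ, hl, ?_⟩
  intro a b
  have h1 := lap_selfadj G (Γ a) (Γ b)
  have h2 : ∀ a b, ∑ v, Γ a v * lap G (Γ b) v = Γ a b - 1 / (Fintype.card V : ℝ) := by
    intro a b
    simp only [hl, mul_sub, Finset.sum_sub_distrib, ← Finset.sum_mul, hs, one_mul]
    simp
  rw [h2, h2] at h1
  linarith

variable (G)

open Classical in
/-- the Green function -/
noncomputable def gam : V → V → ℝ :=
  if h : G.Connected then Classical.choose (exists_gam h) else fun _ _ => 0

/-- effective resistance -/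
noncomputable def Res (x y : V) : ℝ := gam G x x + gam G y y - 2 * gam G x y

/-- potential `g_y(a, v)` of a unit current from `a` to `y`, grounded at `y` -/
noncomputable def pot (y a v : V) : ℝ := (Res G v y + Res G y a - Res G v a) / 2

/-- sum of the degrees -/
noncomputable def vol : ℝ := ∑ z, (G.degree z : ℝ)

/-- expected hitting time of `x` from `v` -/
noncomputable def hit (x v : V) : ℝ := ∑ z, (G.degree z : ℝ) * pot G x z v

variable {G}

theorem gam_spec (hG : G.Connected) (a v : V) :
    lap G (gam G a) v = (if v = a then 1 else 0) - 1 / (Fintype.card V : ℝ) := by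
  have h : gam G = Classical.choose (exists_gam hG) := by
    unfold gam
    rw [dif_pos hG]
  rw [h]
  exact (Classical.choose_spec (exists_gam hG)).1 a v

theorem gam_symm (hG : G.Connected) (a b : V) : gam G a b = gam G b a := by
  have h : gam G = Classical.choose (exists_gam hG) := by
    unfold gam
    rw [dif_pos hG]
  rw [h]
  exact (Classical.choose_spec (exists_gam hG)).2 a b

theorem Res_self (x : V) : Res G x x = 0 := by unfold Res; ring

theorem Res_symm (hG : G.Connected) (x y : V) : Res G x y = Res G y x := by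
  unfold Res; rw [gam_symm hG x y]; ring

theorem pot_eq (hG : G.Connected) (y a v : V) :
    pot G y a v = gam G y y - gam G y v - gam G y a + gam G a v := by
  unfold pot Res
  rw [gam_symm hG v y, gam_symm hG v a]
  ring

theorem lap_pot (hG : G.Connected) (y a v : V) :
    lap G (pot G y a) v = (if v = a then 1 else 0) - (if v = y then 1 else 0) := by
  have h : pot G y a = fun v => (gam G y y - gam G y a) + (gam G a v - gam G y v) := by
    funext v
    rw [pot_eq hG]; ring
  rw [h, lap_add, lap_const, lap_sub, gam_spec hG, gam_spec hG]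
  ring

theorem pot_ground (y a : V) : pot G y a y = 0 := by
  unfold pot; rw [Res_self]; ring

theorem pot_source (hG : G.Connected) (y a : V) : pot G y a a = Res G a y := by
  unfold pot; rw [Res_self, Res_symm hG y a]; ring

theorem pot_symm (hG : G.Connected) (y a v : V) : pot G y a v = pot G y v a := by
  unfold pot; rw [Res_symm hG v y, Res_symm hG y a, Res_symm hG v a]; ring

theorem pot_nonneg (hG : G.Connected) (y a v : V) : 0 ≤ pot G y a v := by
  refine min_principle hG {y} ⟨y, rfl⟩ (pot G y a) (fun v hv => ?_) 0 ?_ v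
  · rw [lap_pot hG]
    have : v ≠ y := hv
    rw [if_neg this]
    split_ifs <;> norm_num
  · rintro z rfl
    rw [pot_ground]

theorem pot_le (hG : G.Connected) (y a v : V) : pot G y a v ≤ Res G a y := by
  by_cases hay : a = y
  · subst hay
    rw [Res_self]
    have : pot G a a v = 0 := by
      unfold pot; rw [Res_self]; ring
    rw [this]
  refine max_principle hG {a} ⟨a, rfl⟩ (pot G y a) (fun v hv => ?_) _ ?_ v
  · rw [lap_pot hG]
    have : v ≠ a := hv
    rw [if_neg this]
    split_ifs <;> norm_num
  · rintro z rfl
    rw [pot_source hG]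

theorem pot_le' (hG : G.Connected) (y a v : V) : pot G y a v ≤ Res G v y := by
  rw [pot_symm hG]; exact pot_le hG y v a

theorem Res_nonneg (hG : G.Connected) (x y : V) : 0 ≤ Res G x y := by
  rw [← pot_source hG]; exact pot_nonneg hG _ _ _

theorem Res_tri (hG : G.Connected) (x y z : V) : Res G x z ≤ Res G x y + Res G y z := by
  have := pot_nonneg hG y z x
  unfold pot at this
  linarith

theorem Res_pos (hG : G.Connected) {x y : V} (h : x ≠ y) : 0 < Res G x y := by
  rcases (Res_nonneg hG x y).lt_or_eq with h1 | h1
  · exact h1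
  · exfalso
    have h2 : ∀ v, pot G y x v = 0 := by
      intro v
      refine le_antisymm ?_ (pot_nonneg hG _ _ _)
      have := pot_le hG y x v
      rwa [← h1] at this
    have h3 := lap_pot hG y x x
    rw [if_pos rfl, if_neg h] at h3
    have h4 : pot G y x = fun _ => 0 := funext h2
    rw [h4, lap_const] at h3
    norm_num at h3

theorem Res_adj (hG : G.Connected) {x y : V} (h : G.Adj x y) : Res G x y ≤ 1 := by
  have h3 := lap_pot hG y x x
  rw [if_pos rfl, if_neg h.ne, lap_eq_sum] at h3
  have h4 : pot G y x x - pot G y x y ≤ ∑ w ∈ G.neighborFinset x, (pot G y x x - pot G y x w) := by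
    refine Finset.single_le_sum (f := fun w => pot G y x x - pot G y x w) (fun w _ => ?_)
      (by simpa using h)
    have := pot_le hG y x w
    rw [pot_source hG]
    linarith
  rw [h3, pot_source hG, pot_ground] at h4
  linarith

theorem Res_walk (hG : G.Connected) {x y : V} (p : G.Walk x y) : Res G x y ≤ p.length := by
  induction p with
  | nil => rw [Res_self]; simp
  | cons h p ih =>
    rename_i a b e
    have h1 := Res_tri hG a b e
    have h2 := Res_adj hG h
    rw [SimpleGraph.Walk.length_cons]
    push_cast
    linarith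

theorem Res_le_card (hG : G.Connected) (x y : V) : Res G x y ≤ (Fintype.card V : ℝ) - 1 := by
  obtain ⟨p, hp⟩ := hG.preconnected.exists_isPath x y
  have h1 := Res_walk hG p
  have h2 : p.length + 1 ≤ Fintype.card V := hp.length_lt
  have h3 : (p.length : ℝ) + 1 ≤ (Fintype.card V : ℝ) := by exact_mod_cast h2
  linarith

theorem Res_lip (hG : G.Connected) {x y : V} (h : G.Adj x y) (o : V) :
    Res G o y ≤ Res G o x + 1 := by
  have h1 := Res_tri hG o x y
  have h2 := Res_adj hG h
  linarith

omit [DecidableEq V] in
theorem vol_nonneg : 0 ≤ vol G := by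
  unfold vol; exact Finset.sum_nonneg fun z _ => Nat.cast_nonneg _

theorem lap_hit (hG : G.Connected) (x v : V) :
    lap G (hit G x) v = (G.degree v : ℝ) - (if v = x then vol G else 0) := by
  have h : hit G x = fun v => ∑ z, (G.degree z : ℝ) * pot G x z v := rfl
  rw [h, lap_sum]
  have h2 : ∀ z ∈ Finset.univ, lap G (fun v => (G.degree z : ℝ) * pot G x z v) v
      = (if v = z then (G.degree z : ℝ) else 0) - (if v = x then (G.degree z : ℝ) else 0) := by
    intro z _
    rw [lap_mul, lap_pot hG]
    split_ifs <;> ring
  rw [Finset.sum_congr rfl h2, Finset.sum_sub_distrib]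
  congr 1
  · simp
  · unfold vol
    split_ifs
    · rfl
    · simp

theorem hit_self (x : V) : hit G x x = 0 := by
  unfold hit
  refine Finset.sum_eq_zero fun z _ => ?_
  rw [pot_ground, mul_zero]

theorem hit_nonneg (hG : G.Connected) (x v : V) : 0 ≤ hit G x v := by
  unfold hit
  exact Finset.sum_nonneg fun z _ => mul_nonneg (Nat.cast_nonneg _) (pot_nonneg hG _ _ _)

theorem hit_le (hG : G.Connected) (x v : V) : hit G x v ≤ vol G * Res G v x := by
  unfold hit vol
  rw [Finset.sum_mul]
  exact Finset.sum_le_sum fun z _ => mul_le_mul_of_nonneg_left (pot_le' hG _ _ _) (Nat.cast_nonneg _)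

/-- `∑ z, deg z * R x z` -/
noncomputable def dsum (G : SimpleGraph V) [DecidableRel G.Adj] (x : V) : ℝ :=
  ∑ z, (G.degree z : ℝ) * Res G x z

theorem hit_eq (x v : V) : hit G x v = (vol G * Res G v x + dsum G x - dsum G v) / 2 := by
  unfold hit vol dsum pot
  rw [Finset.sum_mul, ← Finset.sum_add_distrib, ← Finset.sum_sub_distrib, Finset.sum_div]
  refine Finset.sum_congr rfl fun z _ => ?_
  ring

theorem pot_def (y a v : V) : pot G y a v = (Res G v y + Res G y a - Res G v a) / 2 := rfl

attribute [irreducible] gam Res pot vol hit dsum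

end Pool.Agent.Helper98.Cov
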