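import Pool.Agent.Helper98.CovLine

/-! # A short piece of the tour is covered in one excursion with probability at least one half -/

namespace Pool.Agent.Helper98.Cov

open scoped ENNReal
open Finset

variable {V : Type} [Fintype V] [DecidableEq V] {G : SimpleGraph V} [DecidableRel G.Adj]
variable {o : V} {a e ϑ : ℝ} {k0 s : ℕ} {ζ : ℕ → V}

theorem chain_dist (hG : G.Connected) (u : V) (l : List V) (h : List.IsChain G.Adj (u :: l)) :
    ∀ w ∈ u :: l, Res G u w ≤ l.length := by
  induction l generalizing u with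
  | nil =>
    intro w hw
    have : w = u := by simpa using hw
    subst this
    rw [Res_self]; simp
  | cons u' l ih =>
    intro w hw
    rw [List.isChain_cons_cons] at h
    rw [List.mem_cons] at hw
    rw [List.length_cons, Nat.cast_add, Nat.cast_one]
    rcases hw with hw | hw
    · subst hw
      rw [Res_self]
      positivity
    · have h1 := ih u' h.2 w hw
      have h2 := Res_tri hG u u' w
      have h3 := Res_adj hG h.1
      linarith

/-- the neighbouring sites -/
def nbz (ζ : ℕ → V) (s i : ℕ) (v : V) : Prop := v = ζ (i - 1) ∨ (i < s ∧ v = ζ (i + 1))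

/-- leg cost -/
noncomputable def leg (G : SimpleGraph V) [DecidableRel G.Adj] (ζ : ℕ → V) (s i : ℕ) (w v : V) :
    ℝ≥0∞ :=
  ENNReal.ofReal (phi G (ζ (i - 1)) w v) +
    (if i < s then ENNReal.ofReal (phi G (ζ (i + 1)) w v) else 0)

theorem Net.exc_split (h : Net G o a e ϑ k0 s ζ) {i : ℕ} (hi2 : 2 ≤ i) (his : i ≤ s)
    (X S : Finset V) :
    exc G (oth ζ s i) (unc X) S (ζ i) ≤
      exc G (nbz ζ s i) (unc X) S (ζ i) + ENNReal.ofReal ((s : ℝ) * (6 * e / a)) := by
  have ha := h.ha
  have he := h.he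
  obtain ⟨far, hfar⟩ : ∃ far, far = (Finset.range (s + 1)).filter (fun j => j + 1 < i ∨ i + 1 < j) :=
    ⟨_, rfl⟩
  have hmem : ∀ j, j ∈ far ↔ j ≤ s ∧ (j + 1 < i ∨ i + 1 < j) := by
    intro j
    rw [hfar, Finset.mem_filter, Finset.mem_range, Nat.lt_succ_iff]
  obtain ⟨y, hy⟩ : ∃ y : ℕ → ℕ, y = fun j => if j < i then i - 1 else i + 1 := ⟨_, rfl⟩
  have hbt : ∀ j ∈ far, (i < y j ∧ y j < j) ∨ (j < y j ∧ y j < i) := by
    intro j hj
    rw [hmem] at hj
    rw [hy]
    dsimp only
    rcases hj.2 with h1 | h1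
    · right; rw [if_pos (by omega)]; omega
    · left; rw [if_neg (by omega)]; omega
  have hyne : ∀ j ∈ far, y j ≤ s ∧ y j ≠ i ∧ y j ≠ j ∧ j ≠ i ∧ j ≤ s := by
    intro j hj
    have h1 := hbt j hj
    rw [hmem] at hj
    omega
  have main : exc G (oth ζ s i) (unc X) S (ζ i) ≤
      exc G (nbz ζ s i) (unc X) S (ζ i) +
        ∑ j ∈ far, ENNReal.ofReal (phi G (ζ j) (ζ (y j)) (ζ i)) := by
    refine exc_le (oth ζ s i) (unc X) (fun _ _ => True)
      (fun S v => exc G (nbz ζ s i) (unc X) S v +
        ∑ j ∈ far, ENNReal.ofReal (phi G (ζ j) (ζ (y j)) v)) ?_ ?_ (fun _ _ _ _ _ _ => trivial)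
      S (ζ i) trivial
    · intro S v _ hv
      obtain ⟨j, hjs, hji, rfl⟩ := hv
      by_cases hjf : j ∈ far
      · refine le_trans ?_ (le_add_left le_rfl)
        refine le_trans ?_ (Finset.single_le_sum
          (f := fun j' => ENNReal.ofReal (phi G (ζ j') (ζ (y j')) (ζ j))) (fun _ _ => zero_le) hjf)
        obtain ⟨h1, _, h3, _, _⟩ := hyne j hjf
        rw [phi_self h.conn (h.ne hjs h1 (fun h' => h3 h'.symm)), ENNReal.ofReal_one]
        exact unc_le_one _ _ _
      · refine le_trans ?_ (le_add_right le_rfl)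
        rw [hmem] at hjf
        have hnb : nbz ζ s i (ζ j) := by
          by_cases h1 : j = i - 1
          · left; rw [h1]
          · right
            have h2 : j = i + 1 := by omega
            exact ⟨by omega, by rw [h2]⟩
        rw [exc_of_mem S hnb]
    · intro S v _ hv
      rw [step_add, step_sum]
      have hv' : ∀ j, j ≤ s → j ≠ i → v ≠ ζ j := fun j h1 h2 h3 => hv ⟨j, h1, h2, h3⟩
      gcongr ?_ + ?_
      · have : ¬ nbz ζ s i v := by
          rintro (h1 | ⟨h1, h2⟩)
          · exact hv' (i - 1) (by omega) (by omega) h1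
          · exact hv' (i + 1) (by omega) (by omega) h2
        rw [exc_of_not S this]
      · refine Finset.sum_le_sum fun j hj => ?_
        obtain ⟨h1, h2, h3, h4, h5⟩ := hyne j hj
        rw [phi_step h.conn h.card (hv' j h5 h4) (hv' (y j) h1 h2)]
  refine main.trans ?_
  gcongr
  have hcard : far.card ≤ s := by
    have h1 : far ⊆ (Finset.range (s + 1)).erase i := by
      intro j hj
      have h2 := hyne j hj
      exact Finset.mem_erase.2 ⟨h2.2.2.2.1, Finset.mem_range.2 (by omega)⟩
    have h2 := Finset.card_le_card h1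
    rwa [Finset.card_erase_of_mem (Finset.mem_range.2 (by omega)), Finset.card_range,
      Nat.add_sub_cancel] at h2
  have h1 : ∀ j ∈ far, ENNReal.ofReal (phi G (ζ j) (ζ (y j)) (ζ i)) ≤ ENNReal.ofReal (6 * e / a) :=
    fun j hj => ENNReal.ofReal_le_ofReal (h.phi_far his (hyne j hj).2.2.2.2 (hbt j hj))
  refine (Finset.sum_le_card_nsmul _ _ _ h1).trans ?_
  rw [nsmul_eq_mul, ENNReal.ofReal_mul (Nat.cast_nonneg _), ENNReal.ofReal_natCast]
  gcongr

theorem Net.half (h : Net G o a e ϑ k0 s ζ) {i : ℕ} (hi2 : 2 ≤ i) (his : i ≤ s)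
    (hsmall : (s : ℝ) * (6 * e / a) ≤ 9 / 100)
    (u : V) (l : List V) (hch : List.IsChain G.Adj (u :: l)) (hlen : (l.length : ℝ) ≤ a / 100)
    (hpos : |Res G o u - ps a k0 i| ≤ a / 2) (S : Finset V) (hS : ζ i ∈ S) :
    exc G (oth ζ s i) (unc (u :: l).toFinset) S (ζ i) ≤ 1 / 2 := by
  have ha := h.ha
  have he := h.he
  have hea := h.hea
  have hG := h.conn
  obtain ⟨y, hy⟩ : ∃ y, y = Res G o u - ps a k0 i := ⟨_, rfl⟩
  rw [← hy] at hpos
  have hy1 := (abs_le.1 hpos).1
  have hy2 := (abs_le.1 hpos).2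
  -- positions of the neighbouring sites
  have hpi := h.near his
  have hpm := h.near (i := i - 1) (by omega)
  obtain ⟨j, hj⟩ : ∃ j, i = j + 2 := ⟨i - 2, by omega⟩
  have hpsm : ps a k0 (i - 1) = ps a k0 i - a := by
    rw [hj, show j + 2 - 1 = j + 1 by omega, ps_succ, show j + 2 = (j + 1) + 1 by ring, ps_succ]
    push_cast; ring
  have hpsp : ps a k0 (i + 1) = ps a k0 i + a := by
    rw [hj, ps_succ, show j + 2 = (j + 1) + 1 by ring, ps_succ]
    push_cast; ring
  have hk : (1 : ℝ) ≤ k0 := by exact_mod_cast h.hk0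
  have hpsi : ϑ + a ≤ ps a k0 i := by
    rw [hj, show j + 2 = (j + 1) + 1 by ring, ps_succ]
    have h1 := h.hϑ
    have : (0 : ℝ) ≤ j := Nat.cast_nonneg _
    push_cast
    nlinarith
  have hmpos : ϑ ≤ Res G o (ζ (i - 1)) := by linarith [hpm.1]
  have hipos : ϑ ≤ Res G o (ζ i) := by linarith [hpi.1]
  rw [hpsm] at hpm
  -- positions of the vertices of the piece
  have hw : ∀ w ∈ u :: l, |Res G o w - Res G o u| ≤ a / 100 := by
    intro w hw
    have h1 := chain_dist hG u l hch w hw
    have h2 := abs_Res_sub_le hG o u w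
    rw [abs_sub_comm]
    linarith
  have hRm : ∀ w ∈ u :: l, 4 / 10 * a ≤ Res G (ζ (i - 1)) w := by
    intro w hw'
    have h1 := hw w hw'
    have h2 := (abs_le.1 h1).1
    have h3 := abs_Res_sub_le hG o (ζ (i - 1)) w
    have h4 := neg_abs_le (Res G o (ζ (i - 1)) - Res G o w)
    linarith [hpm.2]
  have hRp : i < s → ∀ w ∈ u :: l, 4 / 10 * a ≤ Res G (ζ (i + 1)) w := by
    intro his' w hw'
    have hpp := h.near (i := i + 1) (by omega)
    rw [hpsp] at hpp
    have h1 := hw w hw'
    have h2 := (abs_le.1 h1).2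
    have h3 := abs_Res_sub_le hG o (ζ (i + 1)) w
    have h4 := le_abs_self (Res G o (ζ (i + 1)) - Res G o w)
    linarith [hpp.1]
  have hupos : ϑ ≤ Res G o u := by linarith
  -- the first leg
  have hA1 : Res G (ζ i) u ≤ |y| + 2 * e := by
    have h1 := h.line (ζ i) u hipos hupos
    have h2 : |Res G o (ζ i) - Res G o u| ≤ |y| + e := by
      rw [abs_le]
      have h3 := le_abs_self y
      have h4 := neg_abs_le y
      constructor <;> linarith [hpi.1, hpi.2]
    linarith
  have humem : u ∈ u :: l := by simp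
  have hlam1 : (0 ≤ y → phi G (ζ (i - 1)) u (ζ i) ≤ 345 / 1000) ∧
      (y < 0 → phi G (ζ (i - 1)) u (ζ i) ≤ 6 / 1000) := by
    have h1 := h.line (ζ (i - 1)) u hmpos hupos
    have h2 : |Res G o (ζ (i - 1)) - Res G o u| ≤ a + y := by
      rw [abs_le]
      constructor <;> linarith [hpm.1, hpm.2]
    have h3 := abs_Res_sub_le hG o (ζ (i - 1)) u
    have h4 := neg_abs_le (Res G o (ζ (i - 1)) - Res G o u)
    have h5 := (h.dist his (j := i - 1) (by omega)).1
    have h6 : |ps a k0 i - ps a k0 (i - 1)| = a := by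
      rw [hpsm, show ps a k0 i - (ps a k0 i - a) = a by ring, abs_of_pos ha]
    rw [h6] at h5
    have h7 : a + y - e ≤ Res G (ζ (i - 1)) u := by linarith [hpm.2]
    have h8 : 0 < Res G (ζ (i - 1)) u := by linarith
    rw [phi_eq hG]
    constructor
    · intro hy0
      rw [abs_of_nonneg hy0] at hA1
      rw [div_le_iff₀ (by linarith)]
      linarith
    · intro hy0
      rw [abs_of_neg hy0] at hA1
      rw [div_le_iff₀ (by linarith)]
      linarith
  have hlam2 : i < s → (0 ≤ y → phi G (ζ (i + 1)) u (ζ i) ≤ 6 / 1000) ∧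
      (y < 0 → phi G (ζ (i + 1)) u (ζ i) ≤ 345 / 1000) := by
    intro his'
    have hpp := h.near (i := i + 1) (by omega)
    rw [hpsp] at hpp
    have h1 := h.line (ζ (i + 1)) u (by linarith [hpp.1]) hupos
    have h2 : |Res G o (ζ (i + 1)) - Res G o u| ≤ a - y + e := by
      rw [abs_le]
      constructor <;> linarith [hpp.1, hpp.2]
    have h3 := abs_Res_sub_le hG o (ζ (i + 1)) u
    have h4 := le_abs_self (Res G o (ζ (i + 1)) - Res G o u)
    have h5 := (h.dist his (j := i + 1) (by omega)).1
    have h6 : |ps a k0 i - ps a k0 (i + 1)| = a := by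
      rw [hpsp, show ps a k0 i - (ps a k0 i + a) = -a by ring, abs_neg, abs_of_pos ha]
    rw [h6] at h5
    have h7 : a - y ≤ Res G (ζ (i + 1)) u := by linarith [hpp.1]
    have h8 : 0 < Res G (ζ (i + 1)) u := by linarith
    rw [phi_eq hG]
    constructor
    · intro hy0
      rw [abs_of_nonneg hy0] at hA1
      rw [div_le_iff₀ (by linarith)]
      linarith
    · intro hy0
      rw [abs_of_neg hy0] at hA1
      rw [div_le_iff₀ (by linarith)]
      linarith
  have hleg0 : leg G ζ s i u (ζ i) ≤ ENNReal.ofReal (351 / 1000) := by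
    unfold leg
    have e1 : (351 / 1000 : ℝ) = 345 / 1000 + 6 / 1000 := by norm_num
    have e2 : (351 / 1000 : ℝ) = 6 / 1000 + 345 / 1000 := by norm_num
    rcases le_or_gt 0 y with hy0 | hy0
    · rw [e1, ENNReal.ofReal_add (by norm_num) (by norm_num)]
      gcongr
      · exact hlam1.1 hy0
      · split_ifs with his'
        · exact ENNReal.ofReal_le_ofReal ((hlam2 his').1 hy0)
        · exact zero_le
    · rw [e2, ENNReal.ofReal_add (by norm_num) (by norm_num)]
      gcongr
      · exact hlam1.2 hy0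
      · split_ifs with his'
        · exact ENNReal.ofReal_le_ofReal ((hlam2 his').2 hy0)
        · exact zero_le
  -- the other legs
  have hlegs : legs (leg G ζ s i) u l ≤ ENNReal.ofReal (5 / 100) := by
    have h1 := legs_chain (G := G) (leg G ζ s i) (ENNReal.ofReal (5 / a))
      (fun w => 4 / 10 * a ≤ Res G (ζ (i - 1)) w ∧ (i < s → 4 / 10 * a ≤ Res G (ζ (i + 1)) w))
      (fun w v hw' hadj => by
        unfold leg
        have hb : ∀ b, 4 / 10 * a ≤ Res G b w → phi G b w v ≤ 5 / 2 / a := by
          intro b hb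
          have hR : 0 < Res G b w := by linarith
          refine (phi_le hG b w v).trans ?_
          have hR1 := Res_adj hG hadj
          rw [div_le_div_iff₀ hR ha]
          nlinarith
        have e1 : (5 / a : ℝ) = 5 / 2 / a + 5 / 2 / a := by field_simp; norm_num
        rw [e1, ENNReal.ofReal_add (by positivity) (by positivity)]
        gcongr
        · exact hb _ hw'.1
        · split_ifs with his'
          · exact ENNReal.ofReal_le_ofReal (hb _ (hw'.2 his'))
          · exact zero_le) u l hch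
      (fun w hw' => ⟨hRm w (by simp [hw']), fun his' => hRp his' w (by simp [hw'])⟩)
    refine h1.trans ?_
    rw [← ENNReal.ofReal_natCast, ← ENNReal.ofReal_mul (Nat.cast_nonneg _)]
    refine ENNReal.ofReal_le_ofReal ?_
    have : (l.length : ℝ) * (5 / a) ≤ a / 100 * (5 / a) :=
      mul_le_mul_of_nonneg_right hlen (by positivity)
    refine this.trans (le_of_eq ?_)
    field_simp
  -- excursion with the neighbouring sites as targets
  have hexc : exc G (nbz ζ s i) (unc (u :: l).toFinset) S (ζ i) ≤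
      legs (leg G ζ s i) (ζ i) (u :: l) := by
    refine val_le_legs (G := G) (B := fun _ v => nbz ζ s i v) (s := fun _ _ => 0)
      (g := unc (u :: l).toFinset) (u :: l).toFinset (leg G ζ s i)
      (fun w => w ≠ ζ (i - 1) ∧ (i < s → w ≠ ζ (i + 1))) ?_ ?_ ?_ (u :: l) ?_ S (ζ i) hS
      Finset.subset_union_right
    · intro S v hX _
      have h1 : exc G (nbz ζ s i) (unc (u :: l).toFinset) S v ≤ 0 := by
        refine exc_le _ _ (fun S' _ => S ⊆ S') (fun _ _ => 0) ?_ ?_ ?_ S v
          (Finset.Subset.refl _)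
        · intro S' v' hS' _
          unfold unc
          rw [if_pos (hX.trans hS')]
        · intro S' v' _ _
          exact step_const_le _ _ _
        · intro S' v' hS' _ w _
          exact hS'.trans (Finset.subset_insert _ _)
      exact nonpos_iff_eq_zero.1 h1
    · intro w hw' S v _ _ hv
      refine (unc_le_one _ _ _).trans ?_
      unfold leg
      rcases hv with hv | ⟨his', hv⟩
      · refine le_trans ?_ (le_add_right le_rfl)
        rw [hv, phi_self hG (fun h' => hw'.1 h'.symm), ENNReal.ofReal_one]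
      · refine le_trans ?_ (le_add_left le_rfl)
        rw [if_pos his', hv, phi_self hG (fun h' => hw'.2 his' h'.symm), ENNReal.ofReal_one]
    · intro w hw' S v _ hvw hv
      rw [zero_add]
      have hv1 : v ≠ ζ (i - 1) := fun h' => hv (Or.inl h')
      have hv2 : i < s → v ≠ ζ (i + 1) := fun his' h' => hv (Or.inr ⟨his', h'⟩)
      unfold leg
      rw [step_add (fun _ w' => ENNReal.ofReal (phi G (ζ (i - 1)) w w')), phi_step hG h.card hv1 hvw]
      gcongr
      split_ifs with his'
      · rw [phi_step hG h.card (hv2 his') hvw]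
      · exact step_const_le _ _ _
    · intro w hw'
      constructor
      · rintro rfl
        have := hRm _ hw'
        rw [Res_self] at this
        linarith
      · rintro his' rfl
        have := hRp his' _ hw'
        rw [Res_self] at this
        linarith
  refine (h.exc_split hi2 his _ S).trans ?_
  have hfin : exc G (nbz ζ s i) (unc (u :: l).toFinset) S (ζ i)
      ≤ ENNReal.ofReal (351 / 1000) + ENNReal.ofReal (5 / 100) :=
    hexc.trans (add_le_add hleg0 hlegs)
  calc _ ≤ ENNReal.ofReal (351 / 1000) + ENNReal.ofReal (5 / 100) + ENNReal.ofReal (9 / 100) := by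
        gcongr
    _ = ENNReal.ofReal (351 / 1000 + 5 / 100 + 9 / 100) := by
        rw [ENNReal.ofReal_add (by norm_num) (by norm_num), ENNReal.ofReal_add (by norm_num)
          (by norm_num)]
    _ ≤ ENNReal.ofReal (1 / 2) := ENNReal.ofReal_le_ofReal (by norm_num)
    _ = 1 / 2 := by
        rw [ENNReal.ofReal_div_of_pos (by norm_num)]
        simp

end Pool.Agent.Helper98.Cov
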