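import Pool.Agent.Helper98.CovPath
import Pool.Agent.Helper98.CovB

/-! # Hitting times as values, legs along a list, and a covering tour -/

namespace Pool.Agent.Helper98.Cov

open scoped ENNReal
open Finset

variable {V : Type} [Fintype V] [DecidableEq V] {G : SimpleGraph V} [DecidableRel G.Adj]

omit [DecidableEq V] in
theorem degree_pos (hG : G.Connected) (hN : 1 < Fintype.card V) (v : V) : 0 < G.degree v := by
  have : Nontrivial V := Fintype.one_lt_card_iff_nontrivial.1 hN
  exact hG.preconnected.degree_pos_of_nontrivial v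

theorem step_of_lap {v : V} (hv : 0 < G.degree v) (u : V → ℝ) (hu : ∀ w, 0 ≤ u w) (S : Finset V) :
    step G (fun _ w => ENNReal.ofReal (u w)) S v
      = ENNReal.ofReal (u v - lap G u v / (G.degree v : ℝ)) := by
  have hd : (0 : ℝ) < (G.degree v : ℝ) := by exact_mod_cast hv
  rw [step_ofReal hv u (fun w _ => hu w) S]
  congr 1
  unfold lap
  field_simp
  ring

theorem step_harm {v : V} (hv : 0 < G.degree v) (u : V → ℝ) (hu : ∀ w, 0 ≤ u w) (S : Finset V)
    (hl : lap G u v = 0) :
    step G (fun _ w => ENNReal.ofReal (u w)) S v = ENNReal.ofReal (u v) := by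
  rw [step_of_lap hv u hu, hl]; simp

theorem hit_avg (hG : G.Connected) {x v : V} (hv : 0 < G.degree v) (h : v ≠ x) :
    (∑ w ∈ G.neighborFinset v, hit G x w) / (G.degree v : ℝ) = hit G x v - 1 := by
  have hd : (0 : ℝ) < (G.degree v : ℝ) := by exact_mod_cast hv
  have h1 := lap_hit hG x v
  rw [if_neg h] at h1
  unfold lap at h1
  rw [div_eq_iff hd.ne']
  linarith

theorem one_le_hit (hG : G.Connected) {x v : V} (hv : 0 < G.degree v) (h : v ≠ x) :
    1 ≤ hit G x v := by
  have h1 := hit_avg hG hv h
  have h2 : 0 ≤ (∑ w ∈ G.neighborFinset v, hit G x w) / (G.degree v : ℝ) :=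
    div_nonneg (Finset.sum_nonneg fun w _ => hit_nonneg hG x w) (Nat.cast_nonneg _)
  linarith

theorem hit_step (hG : G.Connected) {x v : V} (hv : 0 < G.degree v) (h : v ≠ x) (S : Finset V) :
    1 + step G (fun _ w => ENNReal.ofReal (hit G x w)) S v = ENNReal.ofReal (hit G x v) := by
  rw [step_ofReal hv _ (fun w _ => hit_nonneg hG x w) S, hit_avg hG hv h]
  have h1 := one_le_hit hG hv h
  rw [← ENNReal.ofReal_one, ← ENNReal.ofReal_add zero_le_one (by linarith)]
  congr 1
  ring

/-- lower bound on the expected hitting time -/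
theorem hit_le_Mv (hG : G.Connected) (hN : 1 < Fintype.card V) (x : V) (S : Finset V) (v : V)
    (hx : x ∉ S) : ENNReal.ofReal (hit G x v) ≤ Mv G {x} S v := by
  obtain ⟨E, hE⟩ : ∃ E : ℝ, E = ∑ v, hit G x v + 1 := ⟨_, rfl⟩
  have hsum : 0 ≤ ∑ v, hit G x v := Finset.sum_nonneg fun v _ => hit_nonneg hG x v
  have hE1 : 1 ≤ E := by linarith
  have hhE : ∀ v, hit G x v ≤ E := by
    intro v
    have := Finset.single_le_sum (f := fun v => hit G x v) (fun v _ => hit_nonneg hG x v)
      (Finset.mem_univ v)
    linarith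
  obtain ⟨q, hq⟩ : ∃ q : ℝ, q = 1 - 1 / E := ⟨_, rfl⟩
  have hE0 : 0 < E := by linarith
  have hq0 : 0 ≤ q := by
    rw [hq]
    have : 1 / E ≤ 1 := by rw [div_le_one hE0]; exact hE1
    linarith
  have hq1 : q < 1 := by
    rw [hq]
    have : 0 < 1 / E := by positivity
    linarith
  have hqE : ∀ v, hit G x v - 1 ≤ q * hit G x v := by
    intro v
    rw [hq]
    have h1 : hit G x v / E ≤ 1 := by rw [div_le_one hE0]; exact hhE v
    have h2 : (1 - 1 / E) * hit G x v = hit G x v - hit G x v / E := by ring
    rw [h2]; linarith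
  have key : ∀ t : ℕ, ENNReal.ofReal ((1 - q ^ t) * hit G x v) ≤ Mv G {x} S v := by
    intro t
    have := le_val_of (G := G) (B := fun S _ => {x} ⊆ S) (s := fun _ _ => 1) (g := fun _ _ => 0)
      (fun t S v => if x ∈ S then 0 else ENNReal.ofReal ((1 - q ^ t) * hit G x v))
      (fun _ _ => True) ?_ ?_ ?_ (fun _ _ _ _ _ _ => trivial) t S v trivial
    · simp only [if_neg hx] at this
      exact this
    · intro S v _ _
      simp
    · intro t S v _ hb
      rw [if_pos (Finset.singleton_subset_iff.1 hb)]
    · intro t S v _ hb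
      have hxS : x ∉ S := fun h => hb (Finset.singleton_subset_iff.2 h)
      rw [if_neg hxS]
      by_cases hvx : v = x
      · subst hvx
        rw [hit_self]; simp
      have hv := degree_pos hG hN v
      have hqt : 0 ≤ q ^ t := pow_nonneg hq0 t
      have hqt1 : q ^ t ≤ 1 := pow_le_one₀ hq0 hq1.le
      have h1 : step G (fun S v => if x ∈ S then 0 else ENNReal.ofReal ((1 - q ^ t) * hit G x v)) S v
          = step G (fun _ v => ENNReal.ofReal ((1 - q ^ t) * hit G x v)) S v := by
        refine step_congr_at fun w _ => ?_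
        by_cases hw : x = w
        · subst hw
          rw [hit_self]; simp
        · rw [if_neg]
          rw [Finset.mem_insert]
          rintro (h | h)
          · exact hw h
          · exact hxS h
      rw [h1, step_ofReal hv _ (fun w _ => mul_nonneg (by linarith) (hit_nonneg hG x w)) S,
        ← Finset.mul_sum, mul_div_assoc, hit_avg hG hv hvx]
      have h1h := one_le_hit hG hv hvx
      rw [← ENNReal.ofReal_one, ← ENNReal.ofReal_add zero_le_one (mul_nonneg (by linarith)
        (by linarith))]
      refine ENNReal.ofReal_le_ofReal ?_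
      have h2 := hqE v
      have h3 : q ^ t * (hit G x v - 1) ≤ q ^ t * (q * hit G x v) :=
        mul_le_mul_of_nonneg_left h2 hqt
      rw [pow_succ]
      nlinarith
  have hlim : Filter.Tendsto (fun t : ℕ => ENNReal.ofReal ((1 - q ^ t) * hit G x v)) Filter.atTop
      (nhds (ENNReal.ofReal ((1 - 0) * hit G x v))) := by
    refine ENNReal.tendsto_ofReal ?_
    refine Filter.Tendsto.mul_const _ ?_
    exact Filter.Tendsto.const_sub _ (tendsto_pow_atTop_nhds_zero_of_lt_one hq0 hq1)
  have := le_of_tendsto' hlim key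
  simpa using this

/-- sum of leg costs along a list -/
noncomputable def legs (Λ : V → V → ℝ≥0∞) : V → List V → ℝ≥0∞
  | _, [] => 0
  | v, u :: l => Λ u v + legs Λ u l

theorem val_le_legs {B : Finset V → V → Prop} {s g : Finset V → V → ℝ≥0∞} (X : Finset V)
    (Λ : V → V → ℝ≥0∞) (U : V → Prop)
    (h0 : ∀ S v, X ⊆ S → v ∈ S → val G B s g S v = 0)
    (h1 : ∀ u, U u → ∀ S v, v ∈ S → v ≠ u → B S v → g S v ≤ Λ u v)
    (h2 : ∀ u, U u → ∀ S v, v ∈ S → v ≠ u → ¬ B S v → s S v + step G (fun _ w => Λ u w) S v ≤ Λ u v)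
    (l : List V) (hl : ∀ u ∈ l, U u) (S : Finset V) (v : V) (hv : v ∈ S)
    (hX : X ⊆ S ∪ l.toFinset) : val G B s g S v ≤ legs Λ v l := by
  induction l generalizing S v with
  | nil =>
    rw [h0 S v (by simpa using hX) hv]
    exact zero_le
  | cons u l ih =>
    have hUu : U u := hl u (by simp)
    have hUl : ∀ u ∈ l, U u := fun u hu => hl u (by simp [hu])
    change val G B s g S v ≤ Λ u v + legs Λ u l
    refine val_le_stop (G := G) (fun S' v' => S ⊆ S' ∧ v' ∈ S') (fun _ v' => Λ u v' + legs Λ u l)
      ?_ S v ⟨Finset.Subset.refl _, hv⟩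
    rintro S' v' ⟨hSS', hv'⟩
    by_cases hvu : v' = u
    · left
      subst hvu
      refine le_trans ?_ (le_add_left le_rfl)
      refine ih hUl S' v' hv' ?_
      intro x hx
      have := hX hx
      simp only [Finset.mem_union, List.mem_toFinset, List.mem_cons] at this ⊢
      rcases this with h | h | h
      · exact Or.inl (hSS' h)
      · subst h; exact Or.inl hv'
      · exact Or.inr h
    · right
      refine ⟨fun hb => (h1 u hUu S' v' hv' hvu hb).trans (le_add_right le_rfl), fun hb => ⟨?_, ?_⟩⟩
      · rw [step_add, ← add_assoc]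
        exact add_le_add (h2 u hUu S' v' hv' hvu hb) (step_const_le _ _ _)
      · intro w _
        exact ⟨hSS'.trans (Finset.subset_insert _ _), Finset.mem_insert_self _ _⟩

theorem Mv_of_subset {X S : Finset V} (v : V) (h : X ⊆ S) : Mv G X S v = 0 :=
  val_of_mem (G := G) (B := fun S _ => X ⊆ S) (s := fun _ _ => 1) (g := fun _ _ => 0) h

theorem Mv_of_not_subset {X S : Finset V} (v : V) (h : ¬ X ⊆ S) :
    Mv G X S v = 1 + step G (Mv G X) S v :=
  val_of_not (G := G) (B := fun S _ => X ⊆ S) (s := fun _ _ => 1) (g := fun _ _ => 0) h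

theorem Mv_le_legs (hG : G.Connected) (hN : 1 < Fintype.card V) (X : Finset V) (l : List V)
    (S : Finset V) (v : V) (hv : v ∈ S) (hX : X ⊆ S ∪ l.toFinset) :
    Mv G X S v ≤ legs (fun u v => ENNReal.ofReal (hit G u v)) v l := by
  refine val_le_legs X _ (fun _ => True) ?_ ?_ ?_ l (fun _ _ => trivial) S v hv hX
  · intro S v h _
    exact Mv_of_subset v h
  · intro u _ S v _ _ _
    exact zero_le
  · intro u _ S v _ hvu _
    exact (hit_step hG (degree_pos hG hN v) hvu S).le

omit [Fintype V] [DecidableEq V] in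
theorem legs_mono {Λ Λ' : V → V → ℝ≥0∞} (h : ∀ u v, Λ u v ≤ Λ' u v) (v : V) (l : List V) :
    legs Λ v l ≤ legs Λ' v l := by
  induction l generalizing v with
  | nil => exact le_rfl
  | cons u l ih => exact add_le_add (h u v) (ih u)

omit [Fintype V] [DecidableEq V] [DecidableRel G.Adj] in
/-- legs along a chain, with a bound on each leg -/
theorem legs_chain (Λ : V → V → ℝ≥0∞) (c : ℝ≥0∞) (U : V → Prop)
    (hc : ∀ u v, U u → G.Adj v u → Λ u v ≤ c)
    (v : V) (l : List V) (hl : List.IsChain G.Adj (v :: l)) (hU : ∀ u ∈ l, U u) :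
    legs Λ v l ≤ (l.length : ℝ≥0∞) * c := by
  induction l generalizing v with
  | nil => simp [legs]
  | cons u l ih =>
    rw [List.isChain_cons_cons] at hl
    have h1 := ih u hl.2 (fun w hw => hU w (by simp [hw]))
    have h2 := hc u v (hU u (by simp)) hl.1
    change Λ u v + legs Λ u l ≤ _
    rw [List.length_cons, Nat.cast_add, Nat.cast_one, add_mul, one_mul, add_comm]
    exact add_le_add h1 h2

theorem legs_hit_chain (hG : G.Connected) (v : V) (l : List V) (hl : List.IsChain G.Adj (v :: l)) :
    legs (fun u v => ENNReal.ofReal (hit G u v)) v l ≤ ENNReal.ofReal ((l.length : ℝ) * vol G) := by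
  have h1 := legs_chain (G := G) (fun u v => ENNReal.ofReal (hit G u v)) (ENNReal.ofReal (vol G))
    (fun _ => True) (fun u v _ h => ENNReal.ofReal_le_ofReal (by
      have h1 := hit_le hG u v
      have h2 := Res_adj hG h
      have h3 := vol_nonneg (G := G)
      nlinarith)) v l hl (fun _ _ => trivial)
  rw [ENNReal.ofReal_mul (Nat.cast_nonneg _), ENNReal.ofReal_natCast]
  exact h1

theorem exists_tour_aux (hG : G.Connected) (r : V) (k : ℕ) :
    ∃ L : List V, L.head? = some r ∧ List.IsChain G.Adj L ∧ L.length ≤ 2 * k + 1 ∧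
      min (k + 1) (Fintype.card V) ≤ L.toFinset.card := by
  induction k with
  | zero =>
    refine ⟨[r], rfl, List.IsChain.singleton r, by simp, ?_⟩
    simp
  | succ k ih =>
    obtain ⟨L, h1, h2, h3, h4⟩ := ih
    by_cases hall : ∀ v, v ∈ L
    · refine ⟨L, h1, h2, by omega, ?_⟩
      have : L.toFinset = Finset.univ := by
        ext v; simp [hall v]
      rw [this, Finset.card_univ]
      exact min_le_right _ _
    · push Not at hall
      obtain ⟨y, hy⟩ := hall
      have hr : r ∈ L := List.mem_of_mem_head? (by rw [h1]; simp)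
      obtain ⟨a, b, hab, ha, hb⟩ := exists_cross hG (fun v => v ∈ L) hr hy
      obtain ⟨l₁, l₂, rfl⟩ := List.append_of_mem ha
      refine ⟨l₁ ++ a :: b :: a :: l₂, ?_, ?_, ?_, ?_⟩
      · cases l₁ with
        | nil => simpa using h1
        | cons c l₁ => simpa using h1
      · rw [List.isChain_split] at h2 ⊢
        refine ⟨h2.1, ?_⟩
        rw [List.isChain_cons_cons, List.isChain_cons_cons]
        exact ⟨hab, hab.symm, h2.2⟩
      · simp only [List.length_append, List.length_cons] at h3 ⊢
        omega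
      · have h5 : insert b (l₁ ++ a :: l₂).toFinset ⊆ (l₁ ++ a :: b :: a :: l₂).toFinset := by
          intro x hx
          simp only [Finset.mem_insert, List.mem_toFinset, List.mem_append, List.mem_cons] at hx ⊢
          tauto
        have h6 := Finset.card_le_card h5
        rw [Finset.card_insert_of_notMem (by rw [List.mem_toFinset]; exact hb)] at h6
        omega

/-- a covering tour with at most `2 (|V| - 1)` steps -/
theorem exists_tour (hG : G.Connected) (r : V) :
    ∃ l : List V, List.IsChain G.Adj (r :: l) ∧ (∀ v, v ∈ r :: l) ∧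
      (l.length : ℝ) ≤ 2 * ((Fintype.card V : ℝ) - 1) := by
  obtain ⟨L, h1, h2, h3, h4⟩ := exists_tour_aux hG r (Fintype.card V - 1)
  have hpos : 0 < Fintype.card V := Fintype.card_pos_iff.2 ⟨r⟩
  cases L with
  | nil => simp at h1
  | cons c l =>
    have hc : c = r := by simpa using h1
    subst hc
    refine ⟨l, h2, ?_, ?_⟩
    · have h5 : Fintype.card V ≤ (c :: l).toFinset.card := by
        refine le_trans ?_ h4
        rw [Nat.sub_add_cancel hpos, min_self]
      have h6 : (c :: l).toFinset = Finset.univ := by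
        rw [← Finset.card_eq_iff_eq_univ]
        exact le_antisymm (Finset.card_le_univ _) h5
      intro v
      have : v ∈ (c :: l).toFinset := by rw [h6]; exact Finset.mem_univ v
      exact List.mem_toFinset.1 this
    · rw [List.length_cons] at h3
      have h7 : l.length + 2 ≤ 2 * Fintype.card V := by omega
      have h8 : (l.length : ℝ) + 2 ≤ 2 * (Fintype.card V : ℝ) := by exact_mod_cast h7
      linarith

end Pool.Agent.Helper98.Cov
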