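import Pool.Agent.Helper98.CovDef

/-! # Value functions of simple random walk with the visited set as part of the state -/

namespace Pool.Agent.Helper98.Cov

open scoped ENNReal
open Finset

variable {V : Type} [Fintype V] [DecidableEq V] (G : SimpleGraph V) [DecidableRel G.Adj]

/-- one step of the walk -/
noncomputable def step (F : Finset V → V → ℝ≥0∞) (S : Finset V) (v : V) : ℝ≥0∞ :=
  ∑ w ∈ G.neighborFinset v, ((G.degree v : ℕ) : ℝ≥0∞)⁻¹ * F (insert w S) w

variable {G}

theorem step_mono_at {F F' : Finset V → V → ℝ≥0∞} {S : Finset V} {v : V}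
    (h : ∀ w, G.Adj v w → F (insert w S) w ≤ F' (insert w S) w) : step G F S v ≤ step G F' S v := by
  unfold step
  refine Finset.sum_le_sum fun w hw => ?_
  have hw' : G.Adj v w := by simpa using hw
  gcongr
  exact h w hw'

theorem step_mono {F F' : Finset V → V → ℝ≥0∞} (h : ∀ S v, F S v ≤ F' S v) (S : Finset V) (v : V) :
    step G F S v ≤ step G F' S v :=
  step_mono_at fun _ _ => h _ _

theorem step_congr_at {F F' : Finset V → V → ℝ≥0∞} {S : Finset V} {v : V}
    (h : ∀ w, G.Adj v w → F (insert w S) w = F' (insert w S) w) : step G F S v = step G F' S v :=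
  le_antisymm (step_mono_at fun w hw => (h w hw).le) (step_mono_at fun w hw => (h w hw).ge)

theorem step_add (F F' : Finset V → V → ℝ≥0∞) (S : Finset V) (v : V) :
    step G (fun S v => F S v + F' S v) S v = step G F S v + step G F' S v := by
  unfold step
  rw [← Finset.sum_add_distrib]
  refine Finset.sum_congr rfl fun w _ => ?_
  rw [mul_add]

theorem step_mul (c : ℝ≥0∞) (F : Finset V → V → ℝ≥0∞) (S : Finset V) (v : V) :
    step G (fun S v => c * F S v) S v = c * step G F S v := by
  unfold step
  rw [Finset.mul_sum]
  refine Finset.sum_congr rfl fun w _ => ?_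
  ring

theorem step_sum {ι : Type*} (I : Finset ι) (F : ι → Finset V → V → ℝ≥0∞) (S : Finset V) (v : V) :
    step G (fun S v => ∑ i ∈ I, F i S v) S v = ∑ i ∈ I, step G (F i) S v := by
  unfold step
  rw [Finset.sum_comm]
  refine Finset.sum_congr rfl fun w _ => ?_
  rw [Finset.mul_sum]

theorem step_const_le (c : ℝ≥0∞) (S : Finset V) (v : V) :
    step G (fun _ _ => c) S v ≤ c := by
  unfold step
  rw [Finset.sum_const, nsmul_eq_mul, G.card_neighborFinset_eq_degree, ← mul_assoc]
  rcases Nat.eq_zero_or_pos (G.degree v) with h | h
  · simp [h]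
  · rw [ENNReal.mul_inv_cancel (by exact_mod_cast h.ne') (ENNReal.natCast_ne_top _), one_mul]

theorem step_const {v : V} (hv : 0 < G.degree v) (c : ℝ≥0∞) (S : Finset V) :
    step G (fun _ _ => c) S v = c := by
  unfold step
  rw [Finset.sum_const, nsmul_eq_mul, G.card_neighborFinset_eq_degree, ← mul_assoc]
  rw [ENNReal.mul_inv_cancel (by exact_mod_cast hv.ne') (ENNReal.natCast_ne_top _), one_mul]

theorem step_zero_at {F : Finset V → V → ℝ≥0∞} {S : Finset V} {v : V}
    (h : ∀ w, G.Adj v w → F (insert w S) w = 0) : step G F S v = 0 := by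
  unfold step
  refine Finset.sum_eq_zero fun w hw => ?_
  have hw' : G.Adj v w := by simpa using hw
  rw [h w hw', mul_zero]

theorem step_iSup (F : ℕ → Finset V → V → ℝ≥0∞) (hF : ∀ S v, Monotone fun t => F t S v)
    (S : Finset V) (v : V) :
    step G (fun S v => ⨆ t, F t S v) S v = ⨆ t, step G (F t) S v := by
  unfold step
  have h1 : ∀ w ∈ G.neighborFinset v, ((G.degree v : ℕ) : ℝ≥0∞)⁻¹ * (⨆ t, F t (insert w S) w)
      = ⨆ t, ((G.degree v : ℕ) : ℝ≥0∞)⁻¹ * F t (insert w S) w := fun w _ => ENNReal.mul_iSup _ _
  rw [Finset.sum_congr rfl h1]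
  refine ENNReal.finsetSum_iSup_of_monotone ?_
  intro w a b hab
  exact mul_le_mul_right (hF _ _ hab) _

/-- the step of a function of the current vertex only, from real data -/
theorem step_ofReal {v : V} (hv : 0 < G.degree v) (u : V → ℝ) (hu : ∀ w, G.Adj v w → 0 ≤ u w)
    (S : Finset V) :
    step G (fun _ w => ENNReal.ofReal (u w)) S v
      = ENNReal.ofReal ((∑ w ∈ G.neighborFinset v, u w) / (G.degree v : ℝ)) := by
  unfold step
  have hd : (0 : ℝ) < (G.degree v : ℝ) := by exact_mod_cast hv
  rw [← Finset.mul_sum, ← ENNReal.ofReal_sum_of_nonneg (fun w hw => hu w (by simpa using hw)),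
    div_eq_inv_mul, ENNReal.ofReal_mul (by positivity), ENNReal.ofReal_inv_of_pos hd,
    ENNReal.ofReal_natCast]

variable (G)

open Classical in
/-- finite horizon value: collect the running reward `s` until the stopping set `B` is reached,
then the terminal reward `g` -/
noncomputable def valN (B : Finset V → V → Prop) (s g : Finset V → V → ℝ≥0∞) :
    ℕ → Finset V → V → ℝ≥0∞
  | 0 => fun S v => if B S v then g S v else 0
  | t + 1 => fun S v => if B S v then g S v else s S v + step G (valN B s g t) S v

/-- infinite horizon value -/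
noncomputable def val (B : Finset V → V → Prop) (s g : Finset V → V → ℝ≥0∞) (S : Finset V) (v : V) :
    ℝ≥0∞ := ⨆ t, valN G B s g t S v

variable {G}
variable {B : Finset V → V → Prop} {s g : Finset V → V → ℝ≥0∞}

theorem valN_of_mem {t : ℕ} {S : Finset V} {v : V} (h : B S v) : valN G B s g t S v = g S v := by
  cases t <;> simp [valN, h]

theorem valN_zero_of_not {S : Finset V} {v : V} (h : ¬ B S v) : valN G B s g 0 S v = 0 := by
  simp [valN, h]

theorem valN_succ_of_not {t : ℕ} {S : Finset V} {v : V} (h : ¬ B S v) :
    valN G B s g (t + 1) S v = s S v + step G (valN G B s g t) S v := by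
  simp [valN, h]

theorem valN_mono_succ (t : ℕ) (S : Finset V) (v : V) :
    valN G B s g t S v ≤ valN G B s g (t + 1) S v := by
  induction t generalizing S v with
  | zero =>
    by_cases h : B S v
    · rw [valN_of_mem h, valN_of_mem h]
    · rw [valN_zero_of_not h]; exact zero_le
  | succ t ih =>
    by_cases h : B S v
    · rw [valN_of_mem h, valN_of_mem h]
    · rw [valN_succ_of_not h, valN_succ_of_not h]
      gcongr
      exact step_mono ih _ _

theorem valN_monotone (S : Finset V) (v : V) : Monotone fun t => valN G B s g t S v :=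
  monotone_nat_of_le_succ fun t => valN_mono_succ t S v

theorem valN_le_val (t : ℕ) (S : Finset V) (v : V) : valN G B s g t S v ≤ val G B s g S v :=
  le_iSup (fun t => valN G B s g t S v) t

theorem val_of_mem {S : Finset V} {v : V} (h : B S v) : val G B s g S v = g S v := by
  unfold val
  simp [valN_of_mem h]

theorem val_of_not {S : Finset V} {v : V} (h : ¬ B S v) :
    val G B s g S v = s S v + step G (val G B s g) S v := by
  have h1 : step G (val G B s g) S v = ⨆ t, step G (valN G B s g t) S v := by
    rw [← step_iSup _ (fun S v => valN_monotone S v)]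
    rfl
  rw [h1, ENNReal.add_iSup]
  apply le_antisymm
  · refine iSup_le fun t => ?_
    refine le_iSup_of_le t ?_
    rw [← valN_succ_of_not h]
    exact valN_mono_succ t S v
  · refine iSup_le fun t => ?_
    rw [← valN_succ_of_not h]
    exact valN_le_val (t + 1) S v

/-- minimality on a domain `D` which is left only through the stopping set -/
theorem val_le (D : Finset V → V → Prop) (F : Finset V → V → ℝ≥0∞)
    (hB : ∀ S v, D S v → B S v → g S v ≤ F S v)
    (hs : ∀ S v, D S v → ¬ B S v → s S v + step G F S v ≤ F S v)
    (hD : ∀ S v, D S v → ¬ B S v → ∀ w, G.Adj v w → D (insert w S) w)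
    (S : Finset V) (v : V) (h : D S v) : val G B s g S v ≤ F S v := by
  refine iSup_le fun t => ?_
  induction t generalizing S v with
  | zero =>
    by_cases hb : B S v
    · rw [valN_of_mem hb]; exact hB S v h hb
    · rw [valN_zero_of_not hb]; exact zero_le
  | succ t ih =>
    by_cases hb : B S v
    · rw [valN_of_mem hb]; exact hB S v h hb
    · rw [valN_succ_of_not hb]
      refine le_trans ?_ (hs S v h hb)
      gcongr
      exact step_mono_at fun w hw => ih _ _ (hD S v h hb w hw)

open Classical in
/-- The stopping lemma: a candidate `C` bounds the value on `P` if at each state of `P` either it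
is known to bound the value there, or it satisfies the one step inequality and the next state lies
in `P`. -/
theorem val_le_stop (P : Finset V → V → Prop) (C : Finset V → V → ℝ≥0∞)
    (h : ∀ S v, P S v → val G B s g S v ≤ C S v ∨
      ((B S v → g S v ≤ C S v) ∧ (¬ B S v → s S v + step G C S v ≤ C S v ∧
        ∀ w, G.Adj v w → P (insert w S) w)))
    (S : Finset V) (v : V) (hP : P S v) : val G B s g S v ≤ C S v := by
  set F : Finset V → V → ℝ≥0∞ := fun S v => if P S v then min (val G B s g S v) (C S v) else
    val G B s g S v with hFdef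
  have hFle : ∀ S v, F S v ≤ val G B s g S v := by
    intro S v
    simp only [hFdef]
    split_ifs
    · exact min_le_left _ _
    · exact le_rfl
  have key : val G B s g S v ≤ F S v := by
    refine val_le (fun _ _ => True) F ?_ ?_ (fun _ _ _ _ _ _ => trivial) S v trivial
    · intro S v _ hb
      have hv : val G B s g S v = g S v := val_of_mem hb
      simp only [hFdef]
      split_ifs with hP
      · refine le_min hv.ge ?_
        rcases h S v hP with h1 | ⟨h1, _⟩
        · rwa [hv] at h1
        · exact h1 hb
      · exact hv.ge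
    · intro S v _ hb
      have hv : val G B s g S v = s S v + step G (val G B s g) S v := val_of_not hb
      have h1 : s S v + step G F S v ≤ val G B s g S v := by
        rw [hv]
        gcongr
        exact step_mono hFle _ _
      by_cases hP : P S v
      · have hF : F S v = min (val G B s g S v) (C S v) := by simp [hFdef, hP]
        rw [hF]
        refine le_min h1 ?_
        rcases h S v hP with h2 | ⟨_, h2⟩
        · exact h1.trans h2
        · obtain ⟨h3, h4⟩ := h2 hb
          refine le_trans ?_ h3
          gcongr
          refine step_mono_at fun w hw => ?_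
          simp only [hFdef, h4 w hw, if_true]
          exact min_le_right _ _
      · have hF : F S v = val G B s g S v := by simp [hFdef, hP]
        rw [hF]; exact h1
  have hF : F S v = min (val G B s g S v) (C S v) := by simp [hFdef, hP]
  rw [hF] at key
  exact key.trans (min_le_right _ _)

/-- lower bound on the value: a family of functions `L t` below `valN` -/
theorem le_val_of (L : ℕ → Finset V → V → ℝ≥0∞) (D : Finset V → V → Prop)
    (h0 : ∀ S v, D S v → ¬ B S v → L 0 S v = 0)
    (hB : ∀ t S v, D S v → B S v → L t S v ≤ g S v)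
    (hs : ∀ t S v, D S v → ¬ B S v → L (t + 1) S v ≤ s S v + step G (L t) S v)
    (hD : ∀ S v, D S v → ¬ B S v → ∀ w, G.Adj v w → D (insert w S) w)
    (t : ℕ) (S : Finset V) (v : V) (h : D S v) : L t S v ≤ val G B s g S v := by
  refine le_trans ?_ (valN_le_val t S v)
  induction t generalizing S v with
  | zero =>
    by_cases hb : B S v
    · rw [valN_of_mem hb]; exact hB 0 S v h hb
    · rw [valN_zero_of_not hb, h0 S v h hb]
  | succ t ih =>
    by_cases hb : B S v
    · rw [valN_of_mem hb]; exact hB _ S v h hb
    · rw [valN_succ_of_not hb]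
      refine (hs t S v h hb).trans ?_
      gcongr
      exact step_mono_at fun w hw => ih _ _ (hD S v h hb w hw)

theorem val_mono_g {g' : Finset V → V → ℝ≥0∞} (D : Finset V → V → Prop)
    (hg : ∀ S v, D S v → B S v → g S v ≤ g' S v)
    (hD : ∀ S v, D S v → ¬ B S v → ∀ w, G.Adj v w → D (insert w S) w)
    (S : Finset V) (v : V) (h : D S v) : val G B s g S v ≤ val G B s g' S v := by
  refine val_le D _ (fun S v hd hb => ?_) (fun S v _ hb => (val_of_not hb).ge) hD S v h
  rw [val_of_mem hb]; exact hg S v hd hb

theorem valN_add {g' : Finset V → V → ℝ≥0∞} {s' : Finset V → V → ℝ≥0∞} (t : ℕ) (S : Finset V)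
    (v : V) :
    valN G B (fun S v => s S v + s' S v) (fun S v => g S v + g' S v) t S v
      = valN G B s g t S v + valN G B s' g' t S v := by
  induction t generalizing S v with
  | zero =>
    by_cases hb : B S v
    · rw [valN_of_mem hb, valN_of_mem hb, valN_of_mem hb]
    · rw [valN_zero_of_not hb, valN_zero_of_not hb, valN_zero_of_not hb, add_zero]
  | succ t ih =>
    by_cases hb : B S v
    · rw [valN_of_mem hb, valN_of_mem hb, valN_of_mem hb]
    · rw [valN_succ_of_not hb, valN_succ_of_not hb, valN_succ_of_not hb]
      have : step G (valN G B (fun S v => s S v + s' S v) (fun S v => g S v + g' S v) t) S v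
          = step G (valN G B s g t) S v + step G (valN G B s' g' t) S v := by
        rw [← step_add]
        exact step_congr_at fun w _ => ih _ _
      rw [this]
      ring

theorem val_add_le {g' : Finset V → V → ℝ≥0∞} {s' : Finset V → V → ℝ≥0∞} (S : Finset V) (v : V) :
    val G B (fun S v => s S v + s' S v) (fun S v => g S v + g' S v) S v
      ≤ val G B s g S v + val G B s' g' S v := by
  refine iSup_le fun t => ?_
  rw [valN_add]
  exact add_le_add (valN_le_val _ _ _) (valN_le_val _ _ _)

end Pool.Agent.Helper98.Cov
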